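import Pool.Agent.Work.MP_25cd3b_gt.M.Stmts
import Pool.Agent.Work.MP_13b5d9_gt.EC.Defs

set_option autoImplicit false

/-!
# MP_13b5d9_gt, block DR (infinitesimal rigidity of products): definitions

The closed manifold is `R^(m+1) / G`, where the translations along the last coordinate commute with
`G` and the translation by `1` belongs to `G` (for instance `G = Gamma x Z`, the manifold is
`(R^m / Gamma) x S^1`).  The metrics are of the form `dt^2 + h`, `t` the last coordinate.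
-/

open MeasureTheory Set Filter Topology
open scoped ContDiff ENNReal

namespace Pool.Agent.DR

open Pool.Agent.MLS Pool.Agent.EC

/-- the last vector of the standard basis -/
noncomputable def eL {m : ℕ} : E (m + 1) := ee (Fin.last m)

/-- the metric is `dt^2 + h` with `h(e, .) = 0` (`t` the last coordinate, `e` the last vector) -/
def Blk {m : ℕ} (g : Form (m + 1)) : Prop := ∀ x v, g.val x eL v = v (Fin.last m)

/-- The sequence `g j` of metrics `dt^2 + h_j` without conjugate points converges, with the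
derivatives up to order two, to a metric `g0 = dt^2 + h_0` which does not depend on `t`, and
`lam j` times the derivative of `g j` with respect to `t` converges to `κ`; everything locally
uniformly. -/
structure Setup (m : ℕ) (G : Type) [Group G] [MulAction G (E (m + 1))] (g : ℕ → Form (m + 1))
    (g0 : Form (m + 1)) (lam : ℕ → ℝ)
    (κ : E (m + 1) → E (m + 1) →L[ℝ] E (m + 1) →L[ℝ] ℝ) : Prop where
  coc : Cocompact (m + 1) G
  vert : Vert (m + 1) G eL
  per : ∃ z : G, ∀ x : E (m + 1), z • x = x + eL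
  riem : ∀ j, Riem (g j)
  inv : ∀ j, Inv G (g j)
  minz : ∀ j, Minz (g j)
  blk : ∀ j, Blk (g j)
  riem0 : Riem g0
  inv0 : Inv G g0
  blk0 : Blk g0
  tinv0 : TInv g0 eL
  lam_pos : ∀ j, 0 < lam j
  conv0 : ∀ v w, TendstoLocallyUniformly (fun j x => (g j).val x v w)
    (fun x => g0.val x v w) atTop
  conv1 : ∀ u v w, TendstoLocallyUniformly (fun j x => fderiv ℝ (g j).val x u v w)
    (fun x => fderiv ℝ g0.val x u v w) atTop
  conv2 : ∀ u u' v w, TendstoLocallyUniformly
    (fun j x => fderiv ℝ (fun y => fderiv ℝ (g j).val y u v w) x u')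
    (fun x => fderiv ℝ (fun y => fderiv ℝ g0.val y u v w) x u') atTop
  smooth : ContDiff ℝ 1 κ
  convk : ∀ v w, TendstoLocallyUniformly (fun j x => lam j * fderiv ℝ (g j).val x eL v w)
    (fun x => κ x v w) atTop

/-! ### auxiliary definitions of the proof -/

/-- vertical momentum, equal to the vertical velocity -/
noncomputable def ta {m : ℕ} (z : W (m + 1)) : ℝ := z.2 (Fin.last m)

/-- vertical translation -/
noncomputable def Tr {m : ℕ} (s : ℝ) (z : W (m + 1)) : W (m + 1) := (z.1 + s • eL, z.2)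

/-- translation of the vertical momentum -/
noncomputable def Sh {m : ℕ} (c : ℝ) (z : W (m + 1)) : W (m + 1) := (z.1, z.2 + c • eL)

/-- dilation of the momentum -/
noncomputable def Dl {m : ℕ} (r : ℝ) (z : W (m + 1)) : W (m + 1) := (z.1, r • z.2)

/-- derivative along the geodesic flow -/
noncomputable def XX {m : ℕ} (g : Form (m + 1)) (f : W (m + 1) → ℝ) (z : W (m + 1)) : ℝ :=
  fderiv ℝ f z (XH (Hm g) z)

/-- derivative along the vertical translations -/
noncomputable def De {m : ℕ} (f : W (m + 1) → ℝ) (z : W (m + 1)) : ℝ := fderiv ℝ f z (eL, 0)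

/-- first derivative of the metric along the vertical direction -/
noncomputable def d1 {m : ℕ} (g : Form (m + 1)) (x v : E (m + 1)) : ℝ := fderiv ℝ g.val x eL v v

/-- second derivative of the metric along the vertical direction -/
noncomputable def d2 {m : ℕ} (g : Form (m + 1)) (x v : E (m + 1)) : ℝ :=
  fderiv ℝ (fun y => fderiv ℝ g.val y eL v v) x eL

/-- the function is invariant under the lifted action -/
def GInv {m : ℕ} (G : Type) [Group G] [MulAction G (E (m + 1))] (g : Form (m + 1))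
    (f : W (m + 1) → ℝ) : Prop := ∀ (a : G) (z : W (m + 1)), f (lft g a z) = f z

/-- disk bundle -/
def Disk {m : ℕ} (g : Form (m + 1)) : Set (W (m + 1)) := {z | Hm g z ≤ 1 / 2}

/-- speed squared of the displaced curve `c + ψ e` -/
noncomputable def spd {m : ℕ} (g : Form (m + 1)) (ψ : W (m + 1) → ℝ) (z : W (m + 1)) : ℝ :=
  g.val (z.1 + ψ z • eL) (vel g z) (vel g z) + 2 * ta z * XX g ψ z + XX g ψ z ^ 2

/-- second variation -/
noncomputable def SS {m : ℕ} (g : Form (m + 1)) (φ : W (m + 1) → ℝ) (z : W (m + 1)) : ℝ :=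
  1 / 4 * φ z ^ 2 * d2 g z.1 (vel g z) + 1 / 2 * XX g φ z ^ 2 -
    (φ z * d1 g z.1 (vel g z) + 2 * ta z * XX g φ z) ^ 2 / (16 * Hm g z)

/-- logarithmic derivative of the matrix of the metric along the vertical direction -/
noncomputable def Pm {m : ℕ} (g : Form (m + 1)) (x : E (m + 1)) :
    Matrix (Fin (m + 1)) (Fin (m + 1)) ℝ :=
  (gm g x)⁻¹ * Matrix.of fun i j => fderiv ℝ g.val x eL (ee i) (ee j)

/-- the value of `κ` at the velocity -/
noncomputable def kk {m : ℕ} (g0 : Form (m + 1))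
    (κ : E (m + 1) → E (m + 1) →L[ℝ] E (m + 1) →L[ℝ] ℝ) (z : W (m + 1)) : ℝ :=
  κ z.1 (vel g0 z) (vel g0 z)

/-- test functions: supported in `δ ≤ Hm g0 ≤ 1/4` -/
structure Tst {m : ℕ} (G : Type) [Group G] [MulAction G (E (m + 1))] (g0 : Form (m + 1))
    (f : W (m + 1) → ℝ) : Prop where
  smooth : ContDiff ℝ 1 f
  inv : GInv G g0 f
  supp : ∃ δ > 0, ∀ z, f z ≠ 0 → δ ≤ Hm g0 z ∧ Hm g0 z ≤ 1 / 4

/-- linear part of the limit of the second variation -/
noncomputable def Lin {m : ℕ} (χ : E (m + 1) → ℝ) (g0 : Form (m + 1))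
    (κ : E (m + 1) → E (m + 1) →L[ℝ] E (m + 1) →L[ℝ] ℝ) (f : W (m + 1) → ℝ) : ℝ :=
  ∫ z, χ z.1 * (De f z * kk g0 κ z + kk g0 κ z * (ta z / (2 * Hm g0 z)) * XX g0 f z)

/-- quadratic part of the limit of the second variation -/
noncomputable def Quad {m : ℕ} (χ : E (m + 1) → ℝ) (g0 : Form (m + 1)) (f : W (m + 1) → ℝ) : ℝ :=
  ∫ z, χ z.1 * ((1 - ta z ^ 2 / (2 * Hm g0 z)) * XX g0 f z ^ 2)

/-- horizontal energy -/
noncomputable def Hh {m : ℕ} (g0 : Form (m + 1)) (z : W (m + 1)) : ℝ := Hm g0 z - ta z ^ 2 / 2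

/-- Fourier coefficients of a function along the vertical translations -/
noncomputable def cc {m : ℕ} (k : W (m + 1) → ℝ) (N : ℕ) (z : W (m + 1)) : ℝ :=
  ∫ s in (0 : ℝ)..1, k (Tr s z) * Real.cos (2 * Real.pi * N * s)

/-- Fourier coefficients of a function along the vertical translations -/
noncomputable def cs {m : ℕ} (k : W (m + 1) → ℝ) (N : ℕ) (z : W (m + 1)) : ℝ :=
  ∫ s in (0 : ℝ)..1, k (Tr s z) * Real.sin (2 * Real.pi * N * s)

/-- the horizontal part of the product flow `φ` -/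
noncomputable def zt {m : ℕ} (φ : ℝ → W (m + 1) → W (m + 1)) (s : ℝ) (z : W (m + 1)) :
    W (m + 1) := Tr (-(ta z * s)) (φ s z)

/-- properties of a pair of functions on phase space: the Fourier coefficients of number `N`, for
the product metric `g0` -/
structure Mode {m : ℕ} (G : Type) [Group G] [MulAction G (E (m + 1))] (g0 : Form (m + 1)) (N : ℕ)
    (c1 c2 : W (m + 1) → ℝ) : Prop where
  smooth1 : ContDiff ℝ 1 c1
  smooth2 : ContDiff ℝ 1 c2
  inv1 : GInv G g0 c1
  inv2 : GInv G g0 c2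
  tr1 : ∀ h z, c1 (Tr h z) = Real.cos (2 * Real.pi * N * h) * c1 z +
    Real.sin (2 * Real.pi * N * h) * c2 z
  tr2 : ∀ h z, c2 (Tr h z) = Real.cos (2 * Real.pi * N * h) * c2 z -
    Real.sin (2 * Real.pi * N * h) * c1 z
  sh1 : ∀ c z, c1 (Sh c z) = c1 z
  sh2 : ∀ c z, c2 (Sh c z) = c2 z
  dl1 : ∀ r z, c1 (Dl r z) = r ^ 2 * c1 z
  dl2 : ∀ r z, c2 (Dl r z) = r ^ 2 * c2 z

/-- cut-off functions of one variable -/
structure Cut (η : ℝ → ℝ) (a b : ℝ) : Prop where
  smooth : ContDiff ℝ ∞ η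
  nonneg : ∀ x, 0 ≤ η x
  supp : ∀ x, η x ≠ 0 → a ≤ x ∧ x ≤ b

/-- the weight `η(vertical momentum) θ(horizontal energy)` -/
noncomputable def wgt {m : ℕ} (g0 : Form (m + 1)) (η θ : ℝ → ℝ) (z : W (m + 1)) : ℝ :=
  η (ta z) * θ (Hh g0 z)

/-- averages of the squares of the integrals along the orbits of length `R` -/
noncomputable def VV {m : ℕ} (χ : E (m + 1) → ℝ) (g0 : Form (m + 1)) (η θ : ℝ → ℝ)
    (φ : ℝ → W (m + 1) → W (m + 1)) (c1 c2 : W (m + 1) → ℝ) (R : ℝ) : ℝ :=
  ∫ z, χ z.1 * (wgt g0 η θ z * ((∫ s in (0 : ℝ)..R, c1 (φ s z)) ^ 2 +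
    (∫ s in (0 : ℝ)..R, c2 (φ s z)) ^ 2))

/-- tent average of a function -/
noncomputable def tent {m : ℕ} (g0 : Form (m + 1)) (η θ : ℝ → ℝ)
    (φ : ℝ → W (m + 1) → W (m + 1)) (R : ℝ) (c : W (m + 1) → ℝ) (z : W (m + 1)) : ℝ :=
  wgt g0 η θ z * ∫ s in (-R)..R, (R - |s|) * c (φ s z)

/-- correlation function of the horizontal flow (`w0` is a function of integral one) -/
noncomputable def gam {m : ℕ} (χ : E (m + 1) → ℝ) (g0 : Form (m + 1)) (w0 θ : ℝ → ℝ)
    (φ : ℝ → W (m + 1) → W (m + 1)) (c1 c2 : W (m + 1) → ℝ) (u : ℝ) : ℝ :=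
  ∫ z, χ z.1 * (wgt g0 w0 θ z * (c1 (zt φ u z) * c1 z + c2 (zt φ u z) * c2 z))

/-- cosine transform -/
noncomputable def KK (η : ℝ → ℝ) (N : ℕ) (u : ℝ) : ℝ :=
  ∫ τ, η τ * Real.cos (2 * Real.pi * N * (τ * u))

end Pool.Agent.DR
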