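import Pool.Agent.Work.MP_13b5d9_gt.DR.Stmts
import Pool.Agent.Work.MP_25cd3b_gt.M.I_Key

set_option autoImplicit false

/-!
# MP_13b5d9_gt, block DR, item AvgF: averages of functions along the geodesic flow
-/

open MeasureTheory Set Filter Topology
open scoped ContDiff ENNReal
open Pool.Agent.Work.MP_c9f990_an.Al (IsFlow)

namespace Pool.Agent.DR

open Pool.Agent.MLS Pool.Agent.EC

open Pool.Agent.MLS.IKey in
theorem pr_AvgF (h2 : StAvg) (h3 : StFlow) (h4 : StSub) (h5 : StOp) (h7 : StGeo1) (h8 : StLftA) :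
    StAvgF := by
  intro n G _ _ hG g1 hR hI1 F hFc hF0 hFI hseg χ hχ
  obtain ⟨C', hC0, hC⟩ := hseg
  obtain ⟨φ, M, hφ⟩ := h3 n G hG g1 hR hI1
  have hop := h5 n g1 hR
  have hHc : Continuous (Hm g1) := hop.2.2.2.2.2.2.2.1.continuous
  have hHm := hop.2.2.2.2.2.2.2.2
  have hvc : Continuous (vel g1) := vel_cont h5 g1 hR
  have hχc : Continuous χ := hχ.smooth.continuous
  obtain ⟨hA1, hA2, -, -, -⟩ := h8 n G hG g1 hR hI1
  set B : Set (W n) := {z : W n | Hm g1 z ≤ 1 / 2} with hB
  have hBm : MeasurableSet B := measurableSet_le hHc.measurable measurable_const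
  set f : W n → ℝ≥0∞ := B.indicator (fun z => ENNReal.ofReal (F z)) with hf
  have hfm : Measurable f := (ENNReal.measurable_ofReal.comp hFc.measurable).indicator hBm
  have hfI : ∀ (a : G) (z : W n), f (lft g1 a z) = f z := by
    intro a z
    have e2 : F (lft g1 a z) = F z := hFI a z
    have e3 : lft g1 a z ∈ B ↔ z ∈ B := by
      simp only [hB, mem_ofPred_eq, hA2 a z]
    by_cases hz : z ∈ B
    · rw [hf, indicator_of_mem (e3.2 hz), indicator_of_mem hz, e2]
    · rw [hf, indicator_of_notMem (fun h => hz (e3.1 h)), indicator_of_notMem hz]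
  have havg := h2 n G hG g1 hR hI1 φ M hφ χ hχ f hfm hfI
  -- energy along the flow
  have hen : ∀ (z : W n) (t : ℝ), Hm g1 (φ t z) = Hm g1 z := by
    intro z t
    have := (h7 n g1 hR (fun s => φ s z) (hφ.ode z)).2.2 t
    simpa [hφ.zero z] using this
  set D : W n → ℝ := fun z => g1.val z.1 (vel g1 z) (vel g1 z) with hD
  have hDc : Continuous D := val_cont g1 continuous_fst hvc
  have hD0 : ∀ z, 0 ≤ D z := fun z => g1.nonneg _ _
  have hDH : ∀ z, D z = 2 * Hm g1 z := by
    intro z
    rw [hHm z]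
    ring
  set μ : Measure (W n) := (volume : Measure (W n)).restrict B with hμ
  have ia : Integrable (fun z : W n => χ z.1 * D z) μ :=
    integrableOn_disk h4 h5 g1 hR χ hχc hχ.cpt D hDc
  have ib : Integrable (fun z : W n => χ z.1 * F z) μ :=
    integrableOn_disk h4 h5 g1 hR χ hχc hχ.cpt F hFc
  have im : Integrable (fun z : W n => χ z.1) μ := by
    have h := integrableOn_disk h4 h5 g1 hR χ hχc hχ.cpt (fun _ => 1) continuous_const
    simp only [mul_one] at h
    exact h
  set a : ℝ := ∫ z, χ z.1 * D z ∂μ with ha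
  set b : ℝ := ∫ z, χ z.1 * F z ∂μ with hb
  set m : ℝ := ∫ z, χ z.1 ∂μ with hmdef
  have hm0 : 0 ≤ m := integral_nonneg fun z => hχ.nonneg _
  have ha0 : 0 ≤ a := integral_nonneg fun z => mul_nonneg (hχ.nonneg _) (hD0 _)
  have hb0 : 0 ≤ b := integral_nonneg fun z => mul_nonneg (hχ.nonneg _) (hF0 _)
  change a ≤ b
  -- lintegrals
  have La : ENNReal.ofReal a = ∫⁻ z, ENNReal.ofReal (χ z.1) * ENNReal.ofReal (D z) ∂μ := by
    rw [ha, ofReal_integral_eq_lintegral_ofReal ia
      (Eventually.of_forall fun z => mul_nonneg (hχ.nonneg _) (hD0 _))]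
    refine lintegral_congr fun z => ?_
    rw [ENNReal.ofReal_mul (hχ.nonneg _)]
  have Lm : ENNReal.ofReal m = ∫⁻ z, ENNReal.ofReal (χ z.1) ∂μ := by
    rw [hmdef, ofReal_integral_eq_lintegral_ofReal im (Eventually.of_forall fun z => hχ.nonneg _)]
  have Lb : ENNReal.ofReal b = ∫⁻ z, ENNReal.ofReal (χ z.1) * f z := by
    rw [hb, ofReal_integral_eq_lintegral_ofReal ib
      (Eventually.of_forall fun z => mul_nonneg (hχ.nonneg _) (hF0 _)), hμ,
      ← lintegral_indicator hBm]
    refine lintegral_congr fun z => ?_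
    by_cases hz : z ∈ B
    · rw [indicator_of_mem hz, hf, indicator_of_mem hz, ENNReal.ofReal_mul (hχ.nonneg _)]
    · rw [indicator_of_notMem hz, hf, indicator_of_notMem hz, mul_zero]
  -- the inequality for every T
  have key : ∀ T : ℝ, 0 ≤ T → T * a ≤ C' * m + T * b := by
    intro T hT
    have hjm : Measurable (fun p : ℝ × W n => ENNReal.ofReal (χ p.2.1) * f (φ p.1 p.2)) := by
      refine Measurable.mul ?_ (hfm.comp hφ.cont.measurable)
      exact ENNReal.measurable_ofReal.comp (hχc.measurable.comp (measurable_fst.comp measurable_snd))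
    have sw : ∫⁻ t in Ioc (0 : ℝ) T, ∫⁻ z, ENNReal.ofReal (χ z.1) * f (φ t z) =
        ∫⁻ z, ∫⁻ t in Ioc (0 : ℝ) T, ENNReal.ofReal (χ z.1) * f (φ t z) :=
      lintegral_lintegral_swap hjm.aemeasurable
    have l1 : ∫⁻ t in Ioc (0 : ℝ) T, ∫⁻ z, ENNReal.ofReal (χ z.1) * f (φ t z) =
        ENNReal.ofReal T * ENNReal.ofReal b := by
      simp only [havg, ← Lb]
      rw [setLIntegral_const, Real.volume_Ioc, sub_zero, mul_comm]
    have pw : ∀ z ∈ B, ENNReal.ofReal T * (ENNReal.ofReal (χ z.1) * ENNReal.ofReal (D z)) ≤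
        ENNReal.ofReal C' * ENNReal.ofReal (χ z.1) +
          ∫⁻ t in Ioc (0 : ℝ) T, ENNReal.ofReal (χ z.1) * f (φ t z) := by
      intro z hz
      have hz' : Hm g1 ((fun s => φ s z) 0) ≤ 1 / 2 := by
        simp only [hφ.zero z]
        exact hz
      have hp := hC (fun s => φ s z) (hφ.ode z) hz' T hT
      simp only [hφ.zero z] at hp
      have hcz : Continuous (fun t => F (φ t z)) :=
        hFc.comp (hφ.cont.comp (continuous_id.prodMk continuous_const))
      have e1 : ∫⁻ t in Ioc (0 : ℝ) T, ENNReal.ofReal (χ z.1) * f (φ t z) =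
          ENNReal.ofReal (χ z.1) * ENNReal.ofReal (∫ t in (0 : ℝ)..T, F (φ t z)) := by
        rw [intervalIntegral.integral_of_le hT, ofReal_integral_eq_lintegral_ofReal
          (hcz.integrableOn_Ioc) (Eventually.of_forall fun t => hF0 _), ← lintegral_const_mul]
        · refine lintegral_congr fun t => ?_
          have : φ t z ∈ B := by
            change Hm g1 (φ t z) ≤ 1 / 2
            rw [hen]
            exact hz
          rw [hf, indicator_of_mem this]
        · exact ENNReal.measurable_ofReal.comp hcz.measurable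
      rw [e1]
      have e2 : ENNReal.ofReal (T * D z) ≤ ENNReal.ofReal C' +
          ENNReal.ofReal (∫ t in (0 : ℝ)..T, F (φ t z)) := by
        refine le_trans (ENNReal.ofReal_le_ofReal ?_) ENNReal.ofReal_add_le
        have : T * D z - C' ≤ ∫ t in (0 : ℝ)..T, F (φ t z) := by
          rw [hDH z]
          exact hp
        linarith
      calc ENNReal.ofReal T * (ENNReal.ofReal (χ z.1) * ENNReal.ofReal (D z))
          = ENNReal.ofReal (χ z.1) * ENNReal.ofReal (T * D z) := by
            rw [ENNReal.ofReal_mul hT]; ring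
        _ ≤ ENNReal.ofReal (χ z.1) * (ENNReal.ofReal C' +
            ENNReal.ofReal (∫ t in (0 : ℝ)..T, F (φ t z))) := by gcongr
        _ = _ := by ring
    have hle : ENNReal.ofReal T * ENNReal.ofReal a ≤
        ENNReal.ofReal C' * ENNReal.ofReal m + ENNReal.ofReal T * ENNReal.ofReal b := by
      have hmχ : Measurable (fun z : W n => ENNReal.ofReal (χ z.1)) :=
        ENNReal.measurable_ofReal.comp (hχc.measurable.comp measurable_fst)
      have hmD : Measurable (fun z : W n => ENNReal.ofReal (D z)) :=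
        ENNReal.measurable_ofReal.comp hDc.measurable
      calc ENNReal.ofReal T * ENNReal.ofReal a
          = ∫⁻ z, ENNReal.ofReal T * (ENNReal.ofReal (χ z.1) * ENNReal.ofReal (D z)) ∂μ := by
            rw [La]
            exact (lintegral_const_mul (μ := μ) (ENNReal.ofReal T) (hmχ.mul hmD)).symm
        _ ≤ ∫⁻ z, (ENNReal.ofReal C' * ENNReal.ofReal (χ z.1) +
              ∫⁻ t in Ioc (0 : ℝ) T, ENNReal.ofReal (χ z.1) * f (φ t z)) ∂μ := by
            rw [hμ]
            exact setLIntegral_mono' hBm pw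
        _ = ENNReal.ofReal C' * ENNReal.ofReal m +
              ∫⁻ z, (∫⁻ t in Ioc (0 : ℝ) T, ENNReal.ofReal (χ z.1) * f (φ t z)) ∂μ := by
            have hm2 : Measurable (fun z : W n => ENNReal.ofReal C' * ENNReal.ofReal (χ z.1)) :=
              measurable_const.mul hmχ
            rw [lintegral_add_left hm2, lintegral_const_mul _ hmχ, Lm]
        _ ≤ ENNReal.ofReal C' * ENNReal.ofReal m +
              ∫⁻ z, (∫⁻ t in Ioc (0 : ℝ) T, ENNReal.ofReal (χ z.1) * f (φ t z)) := by
            gcongr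
            exact Measure.restrict_le_self
        _ = _ := by rw [← sw, l1]
    rw [← ENNReal.ofReal_mul hT, ← ENNReal.ofReal_mul hC0, ← ENNReal.ofReal_mul hT,
      ← ENNReal.ofReal_add (by positivity) (by positivity)] at hle
    exact (ENNReal.ofReal_le_ofReal_iff (by positivity)).1 hle
  by_contra hcon
  push Not at hcon
  have hpos : 0 < a - b := by linarith
  have h := key ((C' * m + 1) / (a - b)) (by positivity)
  have e : (C' * m + 1) / (a - b) * (a - b) = C' * m + 1 := by field_simp
  nlinarith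

end Pool.Agent.DR
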