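import Pool.Agent.Work.MP_13b5d9_gt.DR.Stmts

set_option autoImplicit false

/-!
# MP_13b5d9_gt, block DR, item Avm: averages of products with a mode
-/

open MeasureTheory Set Filter Topology
open scoped ContDiff ENNReal
open Pool.Agent.Work.MP_c9f990_an.Al (IsFlow)

namespace Pool.Agent.DR

open Pool.Agent.MLS Pool.Agent.EC

namespace IDRAvm

theorem Hm_Tr {m : ℕ} {g0 : Form (m + 1)} (h : TInv g0 eL) (s : ℝ) (z : W (m + 1)) :
    Hm g0 (Tr s z) = Hm g0 z := by
  unfold Hm iop op Tr
  simp only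
  rw [h]

theorem cont_Tr {m : ℕ} : Continuous fun p : ℝ × W (m + 1) => Tr p.1 p.2 := by
  unfold Tr
  fun_prop

theorem mp_Tr {m : ℕ} (s : ℝ) : MeasurePreserving (Tr (m := m) s) volume volume := by
  have h := (measurePreserving_add_right (volume : Measure (E (m + 1))) (s • eL)).prod
    (MeasurePreserving.id (volume : Measure (E (m + 1))))
  exact h

theorem Tr_Tr {m : ℕ} (s t : ℝ) (z : W (m + 1)) : Tr s (Tr t z) = Tr (s + t) z := by
  unfold Tr
  simp only [Prod.mk.injEq, and_true]
  rw [add_assoc, ← add_smul, add_comm t s]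

theorem Tr_zero {m : ℕ} (z : W (m + 1)) : Tr 0 z = z := by
  unfold Tr
  simp

/-- Exchange of integrals. -/
theorem swap {m : ℕ} {f : ℝ → W (m + 1) → ℝ} (hf : Continuous (Function.uncurry f))
    {Q : Set (W (m + 1))} (hQ : IsCompact Q) (h0 : ∀ s z, z ∉ Q → f s z = 0) :
    ∫ s in (0 : ℝ)..1, ∫ z, f s z = ∫ z, ∫ s in (0 : ℝ)..1, f s z := by
  have hP : IsCompact (Icc (0 : ℝ) 1 ×ˢ Q) := isCompact_Icc.prod hQ
  have h1 : IntegrableOn (Function.uncurry f) (Icc (0 : ℝ) 1 ×ˢ Q) (volume.prod volume) :=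
    hf.continuousOn.integrableOn_compact hP
  have h2 : IntegrableOn (Function.uncurry f) (Ioc (0 : ℝ) 1 ×ˢ Q) (volume.prod volume) :=
    h1.mono_set (Set.prod_mono Ioc_subset_Icc_self le_rfl)
  have h3 : IntegrableOn (Function.uncurry f) (Ioc (0 : ℝ) 1 ×ˢ univ) (volume.prod volume) := by
    refine h2.of_forall_sdiff_eq_zero (measurableSet_Ioc.prod MeasurableSet.univ) ?_
    rintro ⟨s, z⟩ ⟨hs, hn⟩
    apply h0
    intro hz
    exact hn ⟨hs.1, hz⟩
  have h4 : Integrable (Function.uncurry f)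
      ((volume.restrict (Ioc (0 : ℝ) 1)).prod (volume : Measure (W (m + 1)))) := by
    rw [IntegrableOn, ← Measure.prod_restrict, Measure.restrict_univ] at h3
    exact h3
  rw [intervalIntegral.integral_of_le zero_le_one, integral_integral_swap h4]
  congr 1
  funext z
  rw [intervalIntegral.integral_of_le zero_le_one]

end IDRAvm

open IDRAvm in
theorem pr_Avm (h1 : StUA) (h3 : StLft) (h4 : StSub) : StAvm := by
  intro m G _ _ hG hV g0 hR hI hB hT χ hχ N k F1 F2 hk hF1 hF2 ik iF1 s1 s2 tr1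
  obtain ⟨-, ltr, -⟩ := h3 m G hG hV g0 g0 hR hR hI hI hB
  set A := ∫ z : W (m + 1), χ z.1 * (F1 z * k z) with hA
  have hstep : ∀ s : ℝ, ∫ z : W (m + 1), χ z.1 * (F1 (Tr s z) * k (Tr s z)) = A := by
    intro s
    refine h1 (m + 1) G hG g0 hR hI χ hχ (Tr s) (Tr (-s))
      (cont_Tr.comp (Continuous.prodMk continuous_const continuous_id))
      (cont_Tr.comp (Continuous.prodMk continuous_const continuous_id))
      (fun z => by rw [Tr_Tr, add_neg_cancel, Tr_zero])
      (fun z => by rw [Tr_Tr, neg_add_cancel, Tr_zero])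
      (mp_Tr s) (fun a z => (ltr a s z).symm) (fun z => F1 z * k z) (1 / 4)
      (hF1.mul hk) (fun a z => by rw [iF1 a z, ik a z])
      (fun z hz => s1 z (left_ne_zero_of_mul hz)) (fun z hz => ?_)
    rw [← Hm_Tr hT s z]
    exact s1 _ (left_ne_zero_of_mul hz)
  have hcf : Continuous (Function.uncurry fun (s : ℝ) (z : W (m + 1)) =>
      χ z.1 * ((Real.cos (2 * Real.pi * N * s) * F1 z +
        Real.sin (2 * Real.pi * N * s) * F2 z) * k (Tr s z))) := by
    have c1 : Continuous χ := hχ.smooth.continuous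
    have c2 : Continuous fun p : ℝ × W (m + 1) => k (Tr p.1 p.2) := hk.comp cont_Tr
    have c3 : Continuous fun p : ℝ × W (m + 1) => χ p.2.1 :=
      c1.comp (continuous_fst.comp continuous_snd)
    have c4 : Continuous fun p : ℝ × W (m + 1) => Real.cos (2 * Real.pi * N * p.1) * F1 p.2 +
        Real.sin (2 * Real.pi * N * p.1) * F2 p.2 := by fun_prop
    exact c3.mul (c4.mul c2)
  have hQ := h4 (m + 1) g0 hR (tsupport χ) (1 / 4) hχ.cpt
  have key : ∫ s in (0 : ℝ)..1, ∫ z : W (m + 1), χ z.1 * ((Real.cos (2 * Real.pi * N * s) * F1 z +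
        Real.sin (2 * Real.pi * N * s) * F2 z) * k (Tr s z)) =
      ∫ z : W (m + 1), ∫ s in (0 : ℝ)..1, χ z.1 * ((Real.cos (2 * Real.pi * N * s) * F1 z +
        Real.sin (2 * Real.pi * N * s) * F2 z) * k (Tr s z)) := by
    refine swap hcf hQ ?_
    intro s z hz
    by_cases hx : z.1 ∈ tsupport χ
    · have hH : ¬ Hm g0 z ≤ 1 / 4 := fun h => hz ⟨hx, h⟩
      have e1 : F1 z = 0 := by
        by_contra h
        exact hH (s1 z h)
      have e2 : F2 z = 0 := by
        by_contra h
        exact hH (s2 z h)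
      rw [e1, e2]
      ring
    · rw [image_eq_zero_of_notMem_tsupport hx, zero_mul]
  have hleft : ∫ s in (0 : ℝ)..1, ∫ z : W (m + 1), χ z.1 *
      ((Real.cos (2 * Real.pi * N * s) * F1 z +
        Real.sin (2 * Real.pi * N * s) * F2 z) * k (Tr s z)) = A := by
    have : ∀ s : ℝ, ∫ z : W (m + 1), χ z.1 * ((Real.cos (2 * Real.pi * N * s) * F1 z +
        Real.sin (2 * Real.pi * N * s) * F2 z) * k (Tr s z)) = A := by
      intro s
      rw [← hstep s]
      congr 1
      funext z
      rw [tr1 s z]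
    simp only [this]
    simp
  rw [← hleft, key]
  congr 1
  funext z
  have ck : Continuous fun s : ℝ => k (Tr s z) :=
    hk.comp (cont_Tr.comp (Continuous.prodMk continuous_id continuous_const))
  have i1 : IntervalIntegrable (fun s : ℝ => k (Tr s z) * Real.cos (2 * Real.pi * N * s))
      volume 0 1 := (ck.mul (by fun_prop)).intervalIntegrable _ _
  have i2 : IntervalIntegrable (fun s : ℝ => k (Tr s z) * Real.sin (2 * Real.pi * N * s))
      volume 0 1 := (ck.mul (by fun_prop)).intervalIntegrable _ _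
  have e : ∀ s : ℝ, χ z.1 * ((Real.cos (2 * Real.pi * N * s) * F1 z +
        Real.sin (2 * Real.pi * N * s) * F2 z) * k (Tr s z)) =
      χ z.1 * (F1 z * (k (Tr s z) * Real.cos (2 * Real.pi * N * s)) +
        F2 z * (k (Tr s z) * Real.sin (2 * Real.pi * N * s))) := by
    intro s
    ring
  simp only [e]
  rw [intervalIntegral.integral_const_mul, intervalIntegral.integral_add (i1.const_mul _)
    (i2.const_mul _), intervalIntegral.integral_const_mul, intervalIntegral.integral_const_mul]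
  rfl

end Pool.Agent.DR
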