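import Pool.Agent.Work.MP_13b5d9_gt.DR.Stmts

set_option autoImplicit false

/-!
# MP_13b5d9_gt, block DR, item Bas: basic formulas for metrics `dt^2 + h`
-/

open MeasureTheory Set Filter Topology
open scoped ContDiff ENNReal

namespace Pool.Agent.DR

open Pool.Agent.MLS Pool.Agent.EC

namespace IDRBas

lemma inner_eL {m : ℕ} (w : E (m + 1)) : inner ℝ (eL (m := m)) w = w (Fin.last m) := by
  simp [eL, ee, EuclideanSpace.inner_single_left]

lemma inner_eL' {m : ℕ} (w : E (m + 1)) : inner ℝ w (eL (m := m)) = w (Fin.last m) := by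
  rw [real_inner_comm, inner_eL]

lemma eL_last {m : ℕ} : (eL (m := m)) (Fin.last m) = 1 := by simp [eL, ee]

end IDRBas

open IDRBas

theorem pr_Bas (h1 : StOp) : StBas := by
  intro m g hg hb
  obtain ⟨-, hop, hio, hoi, hsym, -, -, -, hHm⟩ := h1 (m + 1) g hg
  have hope : ∀ x, op g x (eL (m := m)) = eL := by
    intro x
    refine ext_inner_right ℝ fun w => ?_
    rw [hop, hb, inner_eL]
  have hiope : ∀ x, iop g x (eL (m := m)) = eL := by
    intro x
    have := hio x (eL (m := m))
    rwa [hope] at this
  have hlast : ∀ z : W (m + 1), vel g z (Fin.last m) = ta z := by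
    intro z
    rw [← hb z.1 (vel g z), ← hop, hope, vel, ← hsym, hiope, inner_eL, ta]
  have hvS : ∀ (c : ℝ) (z : W (m + 1)), vel g (Sh c z) = vel g z + c • eL := by
    intro c z
    simp only [vel, Sh]
    rw [map_add, map_smul, hiope]
  have hvD : ∀ (r : ℝ) (z : W (m + 1)), vel g (Dl r z) = r • vel g z := by
    intro r z
    simp only [vel, Dl]
    rw [map_smul]
  have hHv : ∀ z : W (m + 1), Hm g z = 1 / 2 * inner ℝ z.2 (vel g z) := fun z => rfl
  refine ⟨hlast, hvS, hvD, ?_, ?_, ?_, ?_, ?_⟩
  · intro c z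
    rw [hHv, hvS, hHv]
    have e1 : (Sh c z).2 = z.2 + c • eL := rfl
    rw [e1, inner_add_left, inner_add_right, inner_add_right, real_inner_smul_left,
      real_inner_smul_left, real_inner_smul_right, real_inner_smul_right, inner_eL, inner_eL',
      inner_eL, eL_last, hlast]
    have e2 : z.2 (Fin.last m) = ta z := rfl
    rw [e2]; ring
  · intro r z
    rw [hHv, hvD, hHv]
    have e1 : (Dl r z).2 = r • z.2 := rfl
    rw [e1, real_inner_smul_left, real_inner_smul_right]; ring
  · intro z
    have h0 := g.nonneg z.1 (vel g z)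
    refine ⟨by rw [hHm]; linarith, ?_⟩
    have h2 := g.nonneg z.1 (vel g z - ta z • eL)
    have e1 : g.val z.1 (vel g z - ta z • eL) (vel g z - ta z • eL) =
        g.val z.1 (vel g z) (vel g z) - ta z ^ 2 := by
      simp only [map_sub, map_smul, sub_apply, smul_apply, smul_eq_mul]
      rw [g.symm z.1 (vel g z) eL, hb, hb, hlast, eL_last]
      ring
    rw [e1] at h2
    rw [hHm]; linarith
  · intro z
    rw [hHm]; ring
  · intro x w
    refine ⟨hope x, ?_⟩
    have hd : DifferentiableAt ℝ g.val x :=
      (g.smooth.differentiable (by simp)) x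
    have e1 : (fun y => g.val y (eL (m := m))) = fun _ => g.val x eL := by
      funext y
      ext w
      rw [hb, hb]
    have e2 := hd.hasFDerivAt.clm_apply (hasFDerivAt_const (eL (m := m)) x)
    rw [e1] at e2
    have e3 := e2.unique (hasFDerivAt_const _ x)
    have e4 := congrArg (fun l => l w) e3
    simpa using e4

end Pool.Agent.DR
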