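import Mathlib

set_option autoImplicit false

/-!
# MP_13b5d9_gt, block DR: continuous convergence (lemmas with proofs, to be used by the items)

`CC F f`: `F j y → f x` as `j → ∞` and `y → x`, for every `x`.
-/

open MeasureTheory Set Filter Topology

namespace Pool.Agent.DR

variable {α β γ δ : Type*} [TopologicalSpace α] [TopologicalSpace β] [TopologicalSpace γ]
  [TopologicalSpace δ]

/-- continuous convergence of a sequence of functions -/
def CC (F : ℕ → α → β) (f : α → β) : Prop :=
  ∀ x, Tendsto (fun y : ℕ × α => F y.1 y.2) (atTop ×ˢ 𝓝 x) (𝓝 (f x))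

namespace CC

theorem const {f : α → β} (hf : Continuous f) : CC (fun _ => f) f := fun x =>
  (hf.tendsto x).comp tendsto_snd

theorem seq {l : ℕ → β} {b : β} (h : Tendsto l atTop (𝓝 b)) :
    CC (α := α) (fun j _ => l j) (fun _ => b) := fun _ => h.comp tendsto_fst

theorem prodMk {F : ℕ → α → β} {f : α → β} {F' : ℕ → α → γ} {f' : α → γ} (h : CC F f)
    (h' : CC F' f') : CC (fun j x => (F j x, F' j x)) (fun x => (f x, f' x)) := fun x =>
  (h x).prodMk_nhds (h' x)

theorem comp {F : ℕ → α → β} {f : α → β} (h : CC F f) {u : β → γ}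
    (hu : ∀ x, ContinuousAt u (f x)) : CC (fun j x => u (F j x)) (fun x => u (f x)) := fun x =>
  (hu x).tendsto.comp (h x)

theorem comp' {F : ℕ → α → β} {f : α → β} (h : CC F f) {u : β → γ} (hu : Continuous u) :
    CC (fun j x => u (F j x)) (fun x => u (f x)) := h.comp fun _ => hu.continuousAt

theorem compRight {F : ℕ → α → β} {f : α → β} (h : CC F f) {u : δ → α} (hu : Continuous u) :
    CC (fun j x => F j (u x)) (fun x => f (u x)) := fun x =>
  (h (u x)).comp (tendsto_fst.prodMk ((hu.tendsto x).comp tendsto_snd))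

theorem continuous [RegularSpace β] {F : ℕ → α → β} {f : α → β} (h : CC F f) : Continuous f := by
  rw [continuous_iff_continuousAt]
  intro x
  rw [ContinuousAt, (closed_nhds_basis (f x)).tendsto_right_iff]
  rintro V ⟨hV, hVc⟩
  have h1 := (h x).eventually hV
  rw [Filter.Eventually, Filter.mem_prod_iff] at h1
  obtain ⟨A, hA, B, hB, hAB⟩ := h1
  filter_upwards [eventually_mem_nhds_iff.2 hB] with y hy
  have h2 : ∀ᶠ j in atTop, F j y ∈ V := by
    filter_upwards [hA] with j hj
    exact hAB (Set.mk_mem_prod hj (mem_of_mem_nhds hy))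
  have h3 : Tendsto (fun j => F j y) atTop (𝓝 (f y)) :=
    (h y).comp (tendsto_id.prodMk tendsto_const_nhds)
  exact hVc.mem_of_tendsto h3 h2

theorem congr {F F' : ℕ → α → β} {f f' : α → β} (h : CC F f) (h1 : ∀ j x, F j x = F' j x)
    (h2 : ∀ x, f x = f' x) : CC F' f' := by
  intro x
  rw [← h2 x]
  exact (h x).congr fun y => h1 _ _

theorem tendsto {F : ℕ → α → β} {f : α → β} (h : CC F f) (x : α) :
    Tendsto (fun j => F j x) atTop (𝓝 (f x)) :=
  (h x).comp (tendsto_id.prodMk tendsto_const_nhds)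

theorem add [Add β] [ContinuousAdd β] {F F' : ℕ → α → β} {f f' : α → β} (h : CC F f)
    (h' : CC F' f') : CC (fun j x => F j x + F' j x) (fun x => f x + f' x) := fun x =>
  (h x).add (h' x)

theorem mul [Mul β] [ContinuousMul β] {F F' : ℕ → α → β} {f f' : α → β} (h : CC F f)
    (h' : CC F' f') : CC (fun j x => F j x * F' j x) (fun x => f x * f' x) := fun x =>
  (h x).mul (h' x)

theorem smul [SMul γ β] [ContinuousSMul γ β] {c : ℕ → α → γ} {c' : α → γ} {F : ℕ → α → β}
    {f : α → β} (h : CC c c') (h' : CC F f) : CC (fun j x => c j x • F j x) (fun x => c' x • f x) :=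
  fun x => (h x).smul (h' x)

theorem neg [Neg β] [ContinuousNeg β] {F : ℕ → α → β} {f : α → β} (h : CC F f) :
    CC (fun j x => -F j x) (fun x => -f x) := fun x => (h x).neg

theorem sub [Sub β] [ContinuousSub β] {F F' : ℕ → α → β} {f f' : α → β} (h : CC F f)
    (h' : CC F' f') : CC (fun j x => F j x - F' j x) (fun x => f x - f' x) := fun x =>
  (h x).sub (h' x)

theorem sum [AddCommMonoid β] [ContinuousAdd β] {ι : Type*} (s : Finset ι) {F : ι → ℕ → α → β}
    {f : ι → α → β} (h : ∀ i ∈ s, CC (F i) (f i)) :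
    CC (fun j x => ∑ i ∈ s, F i j x) (fun x => ∑ i ∈ s, f i x) := fun x =>
  tendsto_finsetSum s fun i hi => h i hi x

theorem div {F F' : ℕ → α → ℝ} {f f' : α → ℝ} (h : CC F f) (h' : CC F' f')
    (h0 : ∀ x, f' x ≠ 0) : CC (fun j x => F j x / F' j x) (fun x => f x / f' x) := fun x =>
  (h x).div (h' x) (h0 x)

theorem clm_apply {V V' : Type*} [NormedAddCommGroup V] [NormedSpace ℝ V]
    [NormedAddCommGroup V'] [NormedSpace ℝ V'] {A : ℕ → α → V →L[ℝ] V'} {a : α → V →L[ℝ] V'}
    {F : ℕ → α → V} {f : α → V} (h : CC A a) (h' : CC F f) :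
    CC (fun j x => A j x (F j x)) (fun x => a x (f x)) := fun x =>
  (isBoundedBilinearMap_apply.continuous.tendsto (a x, f x)).comp ((h x).prodMk_nhds (h' x))

theorem inner {V : Type*} [NormedAddCommGroup V] [InnerProductSpace ℝ V] {F F' : ℕ → α → V}
    {f f' : α → V} (h : CC F f) (h' : CC F' f') :
    CC (fun j x => inner ℝ (F j x) (F' j x)) (fun x => inner ℝ (f x) (f' x)) := fun x =>
  (h x).inner (h' x)

theorem of_locUnif {M : Type*} [PseudoMetricSpace M] {F : ℕ → α → M} {f : α → M}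
    (h : TendstoLocallyUniformly F f atTop) (hf : Continuous f) : CC F f := by
  intro x
  rw [Metric.tendsto_nhds]
  intro ε hε
  rw [Metric.tendstoLocallyUniformly_iff] at h
  obtain ⟨t, ht, h1⟩ := h (ε / 2) (half_pos hε) x
  have h2 : ∀ᶠ y in 𝓝 x, dist (f y) (f x) < ε / 2 :=
    (Metric.tendsto_nhds.1 (hf.tendsto x)) _ (half_pos hε)
  filter_upwards [h1.prod_mk (Filter.Eventually.and ht h2)] with y hy
  calc dist (F y.1 y.2) (f x) ≤ dist (F y.1 y.2) (f y.2) + dist (f y.2) (f x) :=
        dist_triangle _ _ _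
    _ < ε / 2 + ε / 2 := by
        have := hy.1 y.2 hy.2.1
        rw [dist_comm] at this
        exact add_lt_add this hy.2.2
    _ = ε := by ring

/-- uniform convergence on compact sets -/
theorem unif {M : Type*} [PseudoMetricSpace M] {F : ℕ → α → M} {f : α → M} (h : CC F f)
    {Q : Set α} (hQ : IsCompact Q) {ε : ℝ} (hε : 0 < ε) :
    ∀ᶠ j in atTop, ∀ x ∈ Q, dist (F j x) (f x) < ε := by
  have hf := h.continuous
  refine hQ.induction_on (p := fun s => ∀ᶠ j in atTop, ∀ x ∈ s, dist (F j x) (f x) < ε)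
    (by simp) (fun s t hst h1 => h1.mono fun j hj x hx => hj x (hst hx))
    (fun s t h1 h2 => ?_) fun x _ => ?_
  · filter_upwards [h1, h2] with j h3 h4 x hx
    rcases hx with hx | hx
    · exact h3 x hx
    · exact h4 x hx
  · have h1 : ∀ᶠ y : ℕ × α in atTop ×ˢ 𝓝 x, dist (F y.1 y.2) (f y.2) < ε := by
      have h2 : Tendsto (fun y : ℕ × α => dist (F y.1 y.2) (f y.2)) (atTop ×ˢ 𝓝 x)
          (𝓝 (dist (f x) (f x))) := (h x).dist ((hf.tendsto x).comp tendsto_snd)
      rw [dist_self] at h2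
      exact h2.eventually_lt_const hε
    rw [Filter.Eventually, Filter.mem_prod_iff] at h1
    obtain ⟨A, hA, B, hB, hAB⟩ := h1
    refine ⟨B, mem_nhdsWithin_of_mem_nhds hB, ?_⟩
    filter_upwards [hA] with j hj y hy
    exact hAB (Set.mk_mem_prod hj hy)

/-- uniform bound on compact sets -/
theorem bdd {V : Type*} [SeminormedAddCommGroup V] {F : ℕ → α → V} {f : α → V} (h : CC F f)
    {Q : Set α} (hQ : IsCompact Q) : ∃ C, 0 < C ∧ ∀ᶠ j in atTop, ∀ x ∈ Q, ‖F j x‖ ≤ C := by
  obtain ⟨C, hC⟩ := hQ.exists_bound_of_continuousOn h.continuous.continuousOn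
  refine ⟨|C| + 1, by positivity, ?_⟩
  filter_upwards [h.unif hQ one_pos] with j hj x hx
  have h1 := hj x hx
  rw [dist_eq_norm] at h1
  calc ‖F j x‖ = ‖f x + (F j x - f x)‖ := by rw [add_sub_cancel]
    _ ≤ ‖f x‖ + ‖F j x - f x‖ := norm_add_le _ _
    _ ≤ |C| + 1 := add_le_add ((hC x hx).trans (le_abs_self C)) h1.le

/-- convergence of integrals of functions which vanish outside of a fixed compact set -/
theorem integral [MeasurableSpace α] [BorelSpace α] [T2Space α] {μ : Measure α}
    [IsFiniteMeasureOnCompacts μ] {F : ℕ → α → ℝ} {f : α → ℝ} (h : CC F f) {Q : Set α}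
    (hQ : IsCompact Q) (h0 : ∀ j x, x ∉ Q → F j x = 0)
    (hm : ∀ j, AEStronglyMeasurable (F j) μ) :
    Tendsto (fun j => ∫ x, F j x ∂μ) atTop (𝓝 (∫ x, f x ∂μ)) := by
  obtain ⟨C, hC, h1⟩ := h.bdd hQ
  refine tendsto_integral_filter_of_dominated_convergence (Q.indicator fun _ => C)
    (Eventually.of_forall hm) ?_ ?_ (Eventually.of_forall fun x => h.tendsto x)
  · filter_upwards [h1] with j hj
    refine Eventually.of_forall fun x => ?_
    by_cases hx : x ∈ Q
    · rw [indicator_of_mem hx]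
      exact hj x hx
    · rw [indicator_of_notMem hx, h0 j x hx, norm_zero]
  · exact (integrable_indicator_iff hQ.measurableSet).2
      (integrableOn_const (hs := hQ.measure_lt_top.ne))

end CC

end Pool.Agent.DR
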