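import Pool.Agent.Work.MP_13b5d9_gt.DR.Defs
import Pool.Agent.Work.MP_13b5d9_gt.DR.CC

set_option autoImplicit false

/-!
# MP_13b5d9_gt, block DR: statements of the items, each with its complete proof

THEOREM DR.  If metrics `g_j = dt^2 + h_j` without conjugate points on `M x S^1` converge to a product
metric `dt^2 + h_0` and `lam_j ∂_t h_j → κ`, then `κ = 0`.

Notation of the comments: `e = eL`, `τ = ta z`, `v = vel g z`, `H = Hm g z`, `r^2 = 2 H = g(v, v)`,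
`T_s = Tr s`, `X f = XX g f`.  Statements `StX` of MP_25cd3b_gt/M/Stmts and EC may be used as
hypotheses.  Everything is invariant under the group, and `z.1` may be restricted to a compact set
(the support of `χ`), so all suprema are finite.
-/

open MeasureTheory Set Filter Topology
open scoped ContDiff ENNReal
open Pool.Agent.Work.MP_c9f990_an.Al (IsFlow)

namespace Pool.Agent.DR

open Pool.Agent.MLS Pool.Agent.EC

/-! ### A. one metric -/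

/-- Basic formulas for `g = dt^2 + h` (uses `StOp`).  `inner (op g x e) w = g(e, w) = w_last
= inner e w`, so `op g x e = e` and `iop g x e = e`; `v = iop g x p`, so
`v_last = g(e, v) = inner e p = τ`.  `Sh`, `Dl`: linearity of `iop g x`; `H = 1/2 inner p (iop p)`.
`τ^2 = g(e, v)^2 ≤ g(e, e) g(v, v) = 2 H` (Cauchy-Schwarz, `g(e, e) = 1`; or: `0 ≤ g(v - τ e, v - τ e)
= 2 H - τ^2`). -/
def StBas : Prop := ∀ (m : ℕ) (g : Form (m + 1)), Riem g → Blk g →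
  (∀ z : W (m + 1), vel g z (Fin.last m) = ta z) ∧
  (∀ (c : ℝ) (z : W (m + 1)), vel g (Sh c z) = vel g z + c • eL) ∧
  (∀ (r : ℝ) (z : W (m + 1)), vel g (Dl r z) = r • vel g z) ∧
  (∀ (c : ℝ) (z : W (m + 1)), Hm g (Sh c z) = Hm g z + c * ta z + c ^ 2 / 2) ∧
  (∀ (r : ℝ) (z : W (m + 1)), Hm g (Dl r z) = r ^ 2 * Hm g z) ∧
  (∀ z : W (m + 1), 0 ≤ Hm g z ∧ ta z ^ 2 ≤ 2 * Hm g z) ∧
  (∀ z : W (m + 1), g.val z.1 (vel g z) (vel g z) = 2 * Hm g z) ∧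
  (∀ x w, op g x (eL (m := m)) = eL ∧ fderiv ℝ g.val x w eL = 0)

/-- The lifted action does not depend on the metric (uses `StOp`, `StLftA`).  With `D = dac a x` and
`v = iop g x p`: `lft g a (x, p) = (a x, op g (a x) (D v))` and
`inner (op g (a x) (D v)) (D w) = g_(a x)(D v, D w) = g_x(v, w) = inner p w` for all `w`; `D` is
surjective (inverse `dac a⁻¹ (a x)`), so the second component is determined by `p`.  It is
linear in `p` (`Dl`), `D e = e` (differentiate `a (x + s e) = a x + s e`) gives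
`op g (a x) (D (iop g x e)) = op g (a x) e = e` (`Sh`) and `τ ∘ lft = τ` (take `w = e`), and
`dac a (x + s e) = dac a x` gives `Tr` (use the metric independent description). -/
def StLft : Prop := ∀ (m : ℕ) (G : Type) [Group G] [MulAction G (E (m + 1))],
  Cocompact (m + 1) G → Vert (m + 1) G eL → ∀ g g' : Form (m + 1), Riem g → Riem g' → Inv G g →
  Inv G g' → Blk g →
  (∀ (a : G) (z : W (m + 1)), lft g' a z = lft g a z) ∧
  (∀ (a : G) (s : ℝ) (z : W (m + 1)), lft g a (Tr s z) = Tr s (lft g a z)) ∧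
  (∀ (a : G) (c : ℝ) (z : W (m + 1)), lft g a (Sh c z) = Sh c (lft g a z)) ∧
  (∀ (a : G) (r : ℝ) (z : W (m + 1)), lft g a (Dl r z) = Dl r (lft g a z)) ∧
  (∀ (a : G) (z : W (m + 1)), ta (lft g a z) = ta z)

/-- Averages (copy the second half of the proof of `keyS` in MP_25cd3b_gt/M/I_Key.lean with `F` in
place of `nrm g1 * nrm g2`). -/
def StAvgF : Prop := ∀ (n : ℕ) (G : Type) [Group G] [MulAction G (E n)], Cocompact n G →
  ∀ g : Form n, Riem g → Inv G g → ∀ F : W n → ℝ, Continuous F → (∀ z, 0 ≤ F z) →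
  (∀ (a : G) (z : W n), F (lft g a z) = F z) →
  (∃ C', 0 ≤ C' ∧ ∀ z : ℝ → W n, (∀ t, HasDerivAt z (XH (Hm g) (z t)) t) → Hm g (z 0) ≤ 1 / 2 →
    ∀ T, 0 ≤ T → T * (2 * Hm g (z 0)) - C' ≤ ∫ t in (0 : ℝ)..T, F (z t)) →
  ∀ χ : E n → ℝ, PU G χ →
  ∫ z in {z : W n | Hm g z ≤ 1 / 2}, χ z.1 * g.val z.1 (vel g z) (vel g z) ≤
    ∫ z in {z : W n | Hm g z ≤ 1 / 2}, χ z.1 * F z

/-- Bounds for invariant functions (uses `StSub`, `StLftA`): `f` is bounded on the compact set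
`{z.1 ∈ K, H ≤ B}`, `G K = R^n`, and `f`, `H` are invariant. -/
def StGB : Prop := ∀ (n : ℕ) (G : Type) [Group G] [MulAction G (E n)], Cocompact n G →
  ∀ g : Form n, Riem g → Inv G g → ∀ f : W n → ℝ, Continuous f →
  (∀ (a : G) (z : W n), f (lft g a z) = f z) → ∀ B : ℝ, ∃ C, 0 ≤ C ∧
  ∀ z : W n, Hm g z ≤ B → |f z| ≤ C

/-- The speed of the displaced curve (uses `StOp`, `StHd` or `StTr0`, `StFlow`, `StEqF`, `StLftA`,
`StLft`, `StBas`).  `spd` is continuous because `XH (Hm g)` and `fderiv ψ` are.  It is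
`g_y(v + (X ψ) e, v + (X ψ) e) ≥ 0` with `y = x + ψ e` (`Blk`, `v_last = τ`).  `X ψ` is the derivative
at `t = 0` of `ψ (φ t z)`, `φ` the flow (`StFlow`), and `φ t` commutes with `lft g a` (`StEqF`), so
`X ψ` is invariant.  `spd` is invariant: `τ` and `X ψ` are, the velocity of `lft g a z` is `D v` with
`D = dac a x = dac a (x + ψ e)` and `a x + ψ e = a (x + ψ e)` (`Vert`). -/
def StSpd : Prop := ∀ (m : ℕ) (G : Type) [Group G] [MulAction G (E (m + 1))],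
  Cocompact (m + 1) G → Vert (m + 1) G eL → ∀ g : Form (m + 1), Riem g → Inv G g → Blk g →
  ∀ ψ : W (m + 1) → ℝ, ContDiff ℝ 1 ψ → GInv G g ψ →
  Continuous (spd g ψ) ∧ (∀ z, 0 ≤ spd g ψ z) ∧ GInv G g (XX g ψ) ∧ GInv G g (spd g ψ)

/-- Displaced geodesics (uses `StGB`, `StGd`, `StGeo1`, `StOp`, `StBas`, `StHd`, and
`IKey.geo_scale` etc. of MP_25cd3b_gt/M/I_Key.lean).  Let `z(t)` be a solution with energy `r^2/2`,
`r ≤ 1`, `c = z.1`, and `σ t = c t + ψ (z t) e`, a `C^1` curve with `σ' = c' + (X ψ)(z t) e`, so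
`g_σ(σ', σ') = g_σ(c', c') + 2 (X ψ) c'_last + (X ψ)^2 = spd g ψ (z t)` (`Blk`, `c' = v`,
`v_last = τ`).  The last part of `StGd` gives `∫_0^T spd^(1/2) ≥ gd (σ 0) (σ T)
≥ gd (c 0) (c T) - 2 C`, `C` a bound of `|ψ|` (`StGB`; the vertical segment from `x` to `x + s e`
has length `|s|`), and `gd (c 0) (c T) = r T` by `Minz` (rescale as in `IKey.pointwise`; nothing to
prove for `r = 0`).  Multiply by `r ≤ 1` (the energy is constant). -/
def StMasP : Prop := ∀ (m : ℕ) (G : Type) [Group G] [MulAction G (E (m + 1))],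
  Cocompact (m + 1) G → ∀ g : Form (m + 1), Riem g → Inv G g → Minz g →
  Blk g → ∀ ψ : W (m + 1) → ℝ, ContDiff ℝ 1 ψ → GInv G g ψ → ∃ C', 0 ≤ C' ∧
  ∀ z : ℝ → W (m + 1), (∀ t, HasDerivAt z (XH (Hm g) (z t)) t) → Hm g (z 0) ≤ 1 / 2 →
    ∀ T, 0 ≤ T → T * (2 * Hm g (z 0)) - C' ≤
      ∫ t in (0 : ℝ)..T, Real.sqrt (2 * Hm g (z t)) * Real.sqrt (spd g ψ (z t))

/-- MASTER INEQUALITY (uses `StAvgF`, `StSpd`, `StMasP`, `StOp`, `StLftA`).  Apply `StAvgF` to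
`F z = (2 H)^(1/2) (spd g ψ z)^(1/2)`; `g(v, v) = 2 H` by `StOp`. -/
def StMas : Prop := ∀ (m : ℕ) (G : Type) [Group G] [MulAction G (E (m + 1))],
  Cocompact (m + 1) G → Vert (m + 1) G eL → ∀ g : Form (m + 1), Riem g → Inv G g → Minz g →
  Blk g → ∀ ψ : W (m + 1) → ℝ, ContDiff ℝ 1 ψ → GInv G g ψ → ∀ χ : E (m + 1) → ℝ, PU G χ →
  ∫ z in Disk g, χ z.1 * (2 * Hm g z) ≤
    ∫ z in Disk g, χ z.1 * (Real.sqrt (2 * Hm g z) * Real.sqrt (spd g ψ z))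

/-- Cubic Taylor polynomial of the square root: with `y = u / r^2 ≥ -1`,
`(1 + y)^(1/2) ≤ 1 + y/2 - y^2/8 + y^3/16`.  The right side is positive (for `y ≥ -1`) and its
square minus `1 + y` is `y^4 (5/64 - y/64 + y^2/256) ≥ 0` (check with `ring`). -/
def StSq : Prop := ∀ r u : ℝ, 0 < r → -r ^ 2 ≤ u →
  r * Real.sqrt (r ^ 2 + u) ≤ r ^ 2 + u / 2 - u ^ 2 / (8 * r ^ 2) + u ^ 3 / (16 * r ^ 4)

/-- Taylor formula in the vertical direction, on compact sets (uses `StBnd`): third derivatives of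
the smooth `g.val` are bounded on the compact `K + [-1, 1] e`, and `‖v‖^2 ≤ C g(v, v)`. -/
def StTay : Prop := ∀ (m : ℕ) (g : Form (m + 1)), Riem g → ∀ K : Set (E (m + 1)), IsCompact K →
  ∃ C, 0 < C ∧ ∀ x ∈ K, ∀ v, |d1 g x v| ≤ C * g.val x v v ∧ |d2 g x v| ≤ C * g.val x v v ∧
    ∀ s : ℝ, |s| ≤ 1 → |g.val (x + s • eL) v v - (g.val x v v + s * d1 g x v +
      s ^ 2 / 2 * d2 g x v)| ≤ C * |s| ^ 3 * g.val x v v

/-- Bounds for `φ` and `X φ` (uses `StBnd`, `StHd`, `StSub`).  `‖XH (Hm g) z‖ ≤ C |v|_g` for `z.1 ∈ K`,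
`H ≤ 1/2`: the first component is `v`, the second one is quadratic in `v` (`StHd`) and `|v|_g ≤ 1`. -/
def StXB : Prop := ∀ (m : ℕ) (g : Form (m + 1)), Riem g → ∀ K : Set (E (m + 1)), IsCompact K →
  ∀ φ : W (m + 1) → ℝ, ContDiff ℝ 1 φ → ∃ C, 0 < C ∧ ∀ z : W (m + 1), z.1 ∈ K →
  Hm g z ≤ 1 / 2 → |φ z| ≤ C ∧ |XX g φ z| ≤ C * Real.sqrt (2 * Hm g z)

/-- Pointwise second variation (uses `StSq`, `StTay`, `StXB`, `StBas`).  `spd g (δ φ) = r^2 + u`,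
`u = δ A_1 + δ^2 A_2 + O(δ^3 r^2)`, `A_1 = φ d1 + 2 τ X φ`, `A_2 = φ^2 d2 / 2 + (X φ)^2`, all
`O(r^2)` (`|τ| ≤ r`, `|X φ| ≤ C r`).  For `r > 0` use `StSq` (`u ≥ -r^2` because `spd ≥ 0`: it is
`g_y(v + X φ δ e, v + X φ δ e)`, `y = x + δ φ e`), and `SS = A_2 / 2 - A_1^2 / (8 r^2)`.  For `r = 0`
all terms vanish. -/
def StSecP : Prop := ∀ (m : ℕ) (g : Form (m + 1)), Riem g → Blk g → ∀ K : Set (E (m + 1)),
  IsCompact K → ∀ φ : W (m + 1) → ℝ, ContDiff ℝ 1 φ → ∃ C δ₀ : ℝ, 0 < C ∧ 0 < δ₀ ∧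
  ∀ z : W (m + 1), z.1 ∈ K → Hm g z ≤ 1 / 2 → ∀ δ : ℝ, |δ| ≤ δ₀ →
  Real.sqrt (2 * Hm g z) * Real.sqrt (spd g (fun y => δ * φ y) z) ≤ 2 * Hm g z +
    δ / 2 * (φ z * d1 g z.1 (vel g z) + 2 * ta z * XX g φ z) + δ ^ 2 * SS g φ z + C * |δ| ^ 3

/-- SECOND VARIATION (uses `StMas`, `StSecP`).  Integrate `StSecP` over the disk bundle with the weight
`χ` (`K` its support; all functions are bounded and measurable there, `SS` is bounded by
`StTay`, `StXB`): `0 ≤ δ a + δ^2 b + C |δ|^3` for small `δ` of both signs; so `a = 0` and `b ≥ 0`. -/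
def StSec : Prop := ∀ (m : ℕ) (G : Type) [Group G] [MulAction G (E (m + 1))],
  Cocompact (m + 1) G → Vert (m + 1) G eL → ∀ g : Form (m + 1), Riem g → Inv G g → Minz g →
  Blk g → ∀ φ : W (m + 1) → ℝ, ContDiff ℝ 1 φ → GInv G g φ → ∀ χ : E (m + 1) → ℝ, PU G χ →
  0 ≤ ∫ z in Disk g, χ z.1 * SS g φ z

/-- Derivative of `tr(P) dens` (uses `StDens`).  With `A = gm g` and `'` the derivative in the
direction `e`: `P = A⁻¹ A'`, `P' = A⁻¹ A'' - P^2`, `dens' = 1/2 tr(P) dens` (Jacobi's formula for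
`dens = (det A)^(1/2)`; search I_Div.lean in MP_25cd3b_gt/M for a proof of Jacobi's formula). -/
def StJac : Prop := ∀ (m : ℕ) (g : Form (m + 1)), Riem g →
  ContDiff ℝ ∞ (fun y => (Pm g y).trace) ∧ Continuous (fun y => (Pm g y * Pm g y).trace) ∧
  (∀ x, fderiv ℝ (fun y => (Pm g y).trace * dens g y) x eL =
    ((gm g x)⁻¹ * Matrix.of fun i j =>
      fderiv ℝ (fun y => fderiv ℝ g.val y eL (ee i) (ee j)) x eL).trace * dens g x -
    (Pm g x * Pm g x).trace * dens g x + 1 / 2 * (Pm g x).trace ^ 2 * dens g x)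

/-- Invariance of the trace of `P`.  `gm g x = Dᵀ gm g (a x) D` with `D` the matrix of `dac a x`,
which does not change in the direction `e` (`Vert`), so `A'(x) = Dᵀ A'(a x) D` and
`P(x) = D⁻¹ P(a x) D` (`D` is invertible, with inverse `dac a⁻¹ (a x)`). -/
def StJacI : Prop := ∀ (m : ℕ) (G : Type) [Group G] [MulAction G (E (m + 1))],
  Cocompact (m + 1) G → Vert (m + 1) G eL → ∀ g : Form (m + 1), Riem g → Inv G g →
  ∀ (a : G) (x : E (m + 1)), (Pm g (a • x)).trace = (Pm g x).trace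

/-- Mean of the second derivative (uses `StFib`, `StDivZ`, `StDens`, `StJac`, `StJacI`, `StOp`,
`StSub`).  By Fubini and `StFib`
with `b` the second derivative of the form, the left side is
`(cn/(m+1)) ∫ χ tr(A⁻¹ A'') dens`; by `StDivZ` with `ρ = tr(P) dens`, `Z = e` the integral of `χ`
times the derivative in `StJac` is `0`; so it is `(cn/(m+1)) ∫ χ (tr(P^2) - 1/2 tr(P)^2) dens`. -/
def StDd : Prop := ∀ (m : ℕ) (G : Type) [Group G] [MulAction G (E (m + 1))],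
  Cocompact (m + 1) G → Vert (m + 1) G eL → ∀ g : Form (m + 1), Riem g → Inv G g →
  ∀ χ : E (m + 1) → ℝ, PU G χ → ∫ z in Disk g, χ z.1 * d2 g z.1 (vel g z) ≤
    cn (m + 1) / (m + 1) * ∫ x, χ x * ((Pm g x * Pm g x).trace * dens g x)

/-- Unfolding for homeomorphisms of phase space which commute with the group (uses `StUnf`,
`StCnt`, `StLftA`, `StLftM`, `StSub`).  Substitute `y = Θ z`: the left side is
`∫ χ((Θ' y).1) F y dy`.  For `F ≥ 0` apply `StUnf` on phase space with `ρ a = lft g a`,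
`a z = ofReal χ((Θ' z).1)` (its sum over the group is `1` since `Θ'` commutes with `lft`),
`b z = ofReal χ(z.1)`; for general `F` use the positive and negative parts.  All integrands are
continuous with compact support. -/
def StUA : Prop := ∀ (n : ℕ) (G : Type) [Group G] [MulAction G (E n)], Cocompact n G →
  ∀ g : Form n, Riem g → Inv G g → ∀ χ : E n → ℝ, PU G χ → ∀ Θ Θ' : W n → W n,
  Continuous Θ → Continuous Θ' → (∀ z, Θ (Θ' z) = z) → (∀ z, Θ' (Θ z) = z) →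
  MeasurePreserving Θ volume volume → (∀ (a : G) (z : W n), Θ (lft g a z) = lft g a (Θ z)) →
  ∀ (F : W n → ℝ) (B : ℝ), Continuous F → (∀ (a : G) (z : W n), F (lft g a z) = F z) →
  (∀ z, F z ≠ 0 → Hm g z ≤ B) → (∀ z, F (Θ z) ≠ 0 → Hm g z ≤ B) →
  ∫ z, χ z.1 * F (Θ z) = ∫ z, χ z.1 * F z

/-- Integration by parts along the vertical translations (uses `StUA`, `StLft`, `StGB`,
`StLftM`).  `Tr s` preserves Lebesgue measure and commutes with `lft`.  For `|s| ≤ 1` the energies of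
`z` and `Tr s z` are comparable (`StGB` for the continuous invariant functions `Hm g (Tr s z)` on
`{H = 1}` and homogeneity, or directly on the compact support of `χ`), so the support condition
holds with a larger `B`.  So `∫ χ F(Tr s z) = ∫ χ F(z)`; differentiate at `s = 0` (dominated
convergence, `F` is `C^1`). -/
def StIbp : Prop := ∀ (m : ℕ) (G : Type) [Group G] [MulAction G (E (m + 1))],
  Cocompact (m + 1) G → Vert (m + 1) G eL → ∀ g : Form (m + 1), Riem g → Inv G g → Blk g →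
  ∀ χ : E (m + 1) → ℝ, PU G χ → ∀ (F : W (m + 1) → ℝ) (B : ℝ), ContDiff ℝ 1 F → GInv G g F →
  (∀ z, F z ≠ 0 → Hm g z ≤ B) → ∫ z, χ z.1 * De F z = 0

/-- the correction term of the next statement -/
noncomputable def qq {m : ℕ} (g : Form (m + 1)) (z : W (m + 1)) : ℝ :=
  inner ℝ (sh (fderiv ℝ g.val z.1 eL (vel g z))) (iop g z.1 (sh (fderiv ℝ g.val z.1 eL (vel g z))))

/-- Derivative of `z ↦ d1 g z.1 v` (uses `StOp`).  At fixed momentum the derivative of `v = iop g x p`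
in the direction `(e, 0)` is `- iop g x (sh (fderiv g.val x e v))` (differentiate
`iop g x (op g x w) = w`, as in MP_25cd3b_gt/M/I_Hd.lean), and `fderiv g.val x e` is symmetric;
`inner (sh l) w = l w`.  Invariance: `dac a x e = e` and `dac a (x + s e) = dac a x`. -/
def StDde : Prop := ∀ (m : ℕ) (g : Form (m + 1)), Riem g →
  ContDiff ℝ ∞ (fun z : W (m + 1) => d1 g z.1 (vel g z)) ∧
  (∀ z : W (m + 1), De (fun y => d1 g y.1 (vel g y)) z = d2 g z.1 (vel g z) - 2 * qq g z) ∧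
  (∀ z : W (m + 1), 0 ≤ qq g z) ∧ Continuous (qq g) ∧
  Continuous (fun z : W (m + 1) => d2 g z.1 (vel g z)) ∧
  ∀ (G : Type) [Group G] [MulAction G (E (m + 1))], Cocompact (m + 1) G → Vert (m + 1) G eL →
    Inv G g → GInv G g (fun z => d1 g z.1 (vel g z))

/-- `StIbp` for `F z = f z * d1 g z.1 v`, with `StDde` and the product rule. -/
def StIbp2 : Prop := ∀ (m : ℕ) (G : Type) [Group G] [MulAction G (E (m + 1))],
  Cocompact (m + 1) G → Vert (m + 1) G eL → ∀ g : Form (m + 1), Riem g → Inv G g → Blk g →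
  ∀ χ : E (m + 1) → ℝ, PU G χ → ∀ (f : W (m + 1) → ℝ) (B : ℝ), ContDiff ℝ 1 f → GInv G g f →
  (∀ z, f z ≠ 0 → Hm g z ≤ B) → ∫ z, χ z.1 * (f z * d2 g z.1 (vel g z)) =
    -(∫ z, χ z.1 * (De f z * d1 g z.1 (vel g z))) + 2 * ∫ z, χ z.1 * (f z * qq g z)

/-! ### B. the limit -/

/-- Continuous convergence (`CC` and its lemmas are in DR/CC.lean).  `CC.of_locUnif` for the values
at the vectors of the standard basis; every bilinear form is `∑ b(e_i, e_j) • B_ij` with fixed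
forms `B_ij` (products of coordinates), so `CC.sum` and `CC.smul` give the convergence in norm.
Same for the derivative in the direction `u`.  For `d2`: `d2 g x v = ∑ v_i v_j D(y ↦ D g(y)(e)(e_i, e_j))(x)(e)`, and the
limit is `0` because `g0` does not change along `e` (`TInv`). -/
def StN : Prop := ∀ (m : ℕ) (G : Type) [Group G] [MulAction G (E (m + 1))]
  (g : ℕ → Form (m + 1)) (g0 : Form (m + 1)) (lam : ℕ → ℝ)
  (κ : E (m + 1) → E (m + 1) →L[ℝ] E (m + 1) →L[ℝ] ℝ), Setup m G g g0 lam κ →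
  CC (fun j => (g j).val) g0.val ∧
  (∀ u, CC (fun j x => fderiv ℝ (g j).val x u) (fun x => fderiv ℝ g0.val x u)) ∧
  CC (fun j x => lam j • fderiv ℝ (g j).val x eL) κ ∧
  CC (fun j (p : E (m + 1) × E (m + 1)) => d2 (g j) p.1 p.2) (fun _ => 0)

/-- Properties of `κ`.  All by passing to the limit in the formulas for `lam_j D g_j(e)`: invariance
of `g j` and `dac a x e = e`, `dac a (x + s e) = dac a x` give the first; `Blk` the second
(derivative of a constant); symmetry of `g j` the third; the translation by `e` is in the group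
and its derivative is the identity, which gives the fourth; the last:
`∫_0^1 lam_j D g_j(x + s e)(e) ds = lam_j (g_j(x + e) - g_j(x)) = 0` and the convergence is uniform
on the segment. -/
def StKap : Prop := ∀ (m : ℕ) (G : Type) [Group G] [MulAction G (E (m + 1))]
  (g : ℕ → Form (m + 1)) (g0 : Form (m + 1)) (lam : ℕ → ℝ)
  (κ : E (m + 1) → E (m + 1) →L[ℝ] E (m + 1) →L[ℝ] ℝ), Setup m G g g0 lam κ →
  (∀ (a : G) (x u v : E (m + 1)), κ (a • x) (dac a x u) (dac a x v) = κ x u v) ∧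
  (∀ x v, κ x eL v = 0) ∧ (∀ x u v, κ x u v = κ x v u) ∧
  (∀ x : E (m + 1), κ (x + eL) = κ x) ∧
  (∀ x u v : E (m + 1), ∫ s in (0 : ℝ)..1, κ (x + s • eL) u v = 0)

/-- Properties of `k = kk g0 κ` (uses `StKap`, `StOp`, `StLftA`, `StBas`, `StLft`, and
`iop g0 (x + s e) = iop g0 x` by `TInv`). -/
def StKk : Prop := ∀ (m : ℕ) (G : Type) [Group G] [MulAction G (E (m + 1))]
  (g : ℕ → Form (m + 1)) (g0 : Form (m + 1)) (lam : ℕ → ℝ)
  (κ : E (m + 1) → E (m + 1) →L[ℝ] E (m + 1) →L[ℝ] ℝ), Setup m G g g0 lam κ →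
  ContDiff ℝ 1 (kk g0 κ) ∧ GInv G g0 (kk g0 κ) ∧ (∀ z, kk g0 κ (Tr 1 z) = kk g0 κ z) ∧
  (∀ z, ∫ s in (0 : ℝ)..1, kk g0 κ (Tr s z) = 0) ∧
  (∀ c z, kk g0 κ (Sh c z) = kk g0 κ z) ∧ (∀ r z, kk g0 κ (Dl r z) = r ^ 2 * kk g0 κ z)

/-- Convergence of the inverse operators (uses `StN`, `StOp`).  `op g x = sh.comp (g.val x)`,
`iop g x = Ring.inverse (op g x)`, and `Ring.inverse` is continuous at the units
(`NormedRing.inverse_continuousAt`); `op g0 x` is a unit because `iop g0 x` is its inverse. -/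
def StCvA : Prop := ∀ (m : ℕ) (G : Type) [Group G] [MulAction G (E (m + 1))]
  (g : ℕ → Form (m + 1)) (g0 : Form (m + 1)) (lam : ℕ → ℝ)
  (κ : E (m + 1) → E (m + 1) →L[ℝ] E (m + 1) →L[ℝ] ℝ), Setup m G g g0 lam κ →
  CC (fun j => iop (g j)) (iop g0) ∧ CC (fun j => vel (g j)) (vel g0) ∧
  CC (fun j => Hm (g j)) (Hm g0)

/-- Convergence of the other functions on phase space (uses `StN`, `StCvA`, `StOp`, `StHd`).  By
`StHd` the first component of `XH (Hm g)` is `vel g` and the second one is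
`∑ i, 1/2 D g(e_i)(v, v) e_i`.  `lam_j d1 (g j) x v = (lam_j D g_j(e)) v v`. -/
def StCv : Prop := ∀ (m : ℕ) (G : Type) [Group G] [MulAction G (E (m + 1))]
  (g : ℕ → Form (m + 1)) (g0 : Form (m + 1)) (lam : ℕ → ℝ)
  (κ : E (m + 1) → E (m + 1) →L[ℝ] E (m + 1) →L[ℝ] ℝ), Setup m G g g0 lam κ →
  CC (fun j => XH (Hm (g j))) (XH (Hm g0)) ∧
  CC (fun j z => lam j * d1 (g j) z.1 (vel (g j) z)) (kk g0 κ) ∧
  CC (fun j z => d2 (g j) z.1 (vel (g j) z)) (fun _ => 0) ∧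
  ∀ f : W (m + 1) → ℝ, ContDiff ℝ 1 f → CC (fun j => XX (g j) f) (XX g0 f)

/-- The correction term is of second order (uses `StN`, `StCvA`): `lam_j^2 qq (g j) z
= inner (sh (lam_j D g_j(e) v_j)) (iop g_j (sh (lam_j D g_j(e) v_j)))`; let
`q z = inner (sh (κ v)) (iop g0 (sh (κ v)))`. -/
def StQB : Prop := ∀ (m : ℕ) (G : Type) [Group G] [MulAction G (E (m + 1))]
  (g : ℕ → Form (m + 1)) (g0 : Form (m + 1)) (lam : ℕ → ℝ)
  (κ : E (m + 1) → E (m + 1) →L[ℝ] E (m + 1) →L[ℝ] ℝ), Setup m G g g0 lam κ →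
  ∃ q : W (m + 1) → ℝ, CC (fun j z => lam j ^ 2 * qq (g j) z) q

/-- `lam_j^2` times the mean of `tr(P^2)` is bounded (uses `StN`, `StDens`).  The matrices `gm g_j` and
`lam_j D g_j(e)` converge (`CC`), so `(gm g_j)⁻¹ = (det)⁻¹ • adjugate` (`det > 0` by `StDens`) and
`dens g_j` converge too, and `lam_j P_j`; use `CC.bdd` or `CC.integral` with the support of `χ`. -/
def StPmB : Prop := ∀ (m : ℕ) (G : Type) [Group G] [MulAction G (E (m + 1))]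
  (g : ℕ → Form (m + 1)) (g0 : Form (m + 1)) (lam : ℕ → ℝ)
  (κ : E (m + 1) → E (m + 1) →L[ℝ] E (m + 1) →L[ℝ] ℝ), Setup m G g g0 lam κ →
  ∀ χ : E (m + 1) → ℝ, PU G χ → ∃ C, ∀ᶠ j in atTop,
    lam j ^ 2 * ∫ x, χ x * ((Pm (g j) x * Pm (g j) x).trace * dens (g j) x) ≤ C

/-- Exact inequality before the limit (uses `StSec`, `StIbp2`, `StDd`, `StCvA`, `StLft`, `StLftA`,
`StBas`, `StSub`, `StOp`, `StDde`, ...).  Let `K` be a compact set with `G K = R^n`.  For large `j`,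
`f z ≠ 0` and `z.1 ∈ K` imply `δ/2 ≤ Hm (g j) z ≤ 1/2` (`CC.unif` on the compact set
`{z.1 ∈ K, Hm g0 z ≤ 1/4}`), and by invariance (`StLft`: `f` is invariant for `lft (g j)` too)
`f z ≠ 0` implies it for all `z`.  Apply `StSec` to
`g j` and `φ = 1 - f / lam_j` (`X φ = - X f / lam_j`), multiply by `lam_j^2`, drop the negative term
`- φ^2 d1^2 / (16 H)` of `SS`, and use `StDd` and `StIbp2`.  (All integrals with a factor `f` or `X f`
over the disk bundle are integrals over the whole space.) -/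
def StEx : Prop := ∀ (m : ℕ) (G : Type) [Group G] [MulAction G (E (m + 1))]
  (g : ℕ → Form (m + 1)) (g0 : Form (m + 1)) (lam : ℕ → ℝ)
  (κ : E (m + 1) → E (m + 1) →L[ℝ] E (m + 1) →L[ℝ] ℝ), Setup m G g g0 lam κ →
  ∀ χ : E (m + 1) → ℝ, PU G χ → ∀ f : W (m + 1) → ℝ, Tst G g0 f → ∀ᶠ j in atTop,
    0 ≤ 1 / 4 * (cn (m + 1) / (m + 1) *
        (lam j ^ 2 * ∫ x, χ x * ((Pm (g j) x * Pm (g j) x).trace * dens (g j) x))) +
      1 / 2 * (∫ z, χ z.1 * (De f z * (lam j * d1 (g j) z.1 (vel (g j) z)))) -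
      (∫ z, χ z.1 * (f z * (lam j * qq (g j) z))) +
      1 / 4 * (∫ z, χ z.1 * (f z ^ 2 * d2 (g j) z.1 (vel (g j) z))) +
      1 / 2 * (∫ z, χ z.1 * ((1 - ta z ^ 2 / (2 * Hm (g j) z)) * XX (g j) f z ^ 2)) +
      1 / 4 * (∫ z, χ z.1 * ((1 - f z / lam j) * ta z *
        (lam j * d1 (g j) z.1 (vel (g j) z)) * XX (g j) f z / Hm (g j) z))

/-- The limit (uses `StEx`, `StCvA`, `StCv`, `StQB`, `StPmB`, `StSub`, `StOp`).  All integrands of
`StEx` vanish outside of the compact set `{z.1 ∈ supp χ, Hm g0 z ≤ 1/4}` (where `f`, `fderiv f` may be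
nonzero) and converge in the sense of `CC`, so the integrals converge by `CC.integral`: the third
and the fourth integral tend to `0` (`lam_j qq = lam_j^2 qq / lam_j`), the others to the integrals
of `Lin` and `Quad`.  (For the quotients by `Hm (g j)`: at a point with `Hm g0 > 0` they converge, and
near a point with `Hm g0 z < δ` both `f` and `fderiv f` vanish, so they are `0`.  They are measurable,
being quotients of continuous functions.)  `C` is twice the bound of `StPmB` times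
`cn/(4(m+1))`. -/
def StSS : Prop := ∀ (m : ℕ) (G : Type) [Group G] [MulAction G (E (m + 1))]
  (g : ℕ → Form (m + 1)) (g0 : Form (m + 1)) (lam : ℕ → ℝ)
  (κ : E (m + 1) → E (m + 1) →L[ℝ] E (m + 1) →L[ℝ] ℝ), Setup m G g g0 lam κ →
  Tendsto lam atTop atTop → ∀ χ : E (m + 1) → ℝ, PU G χ →
  ∃ C, ∀ f : W (m + 1) → ℝ, Tst G g0 f → 0 ≤ C + Lin χ g0 κ f + Quad χ g0 f

/-- Scaling (uses `StSS`).  `Tst` is stable under multiplication with constants `r`, and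
`Lin (r f) = r Lin f`, `Quad (r f) = r^2 Quad f`; so `C + r Lin + r^2 Quad ≥ 0` for all `r`
(`discrim_le_zero` or by hand). -/
def StDag : Prop := ∀ (m : ℕ) (G : Type) [Group G] [MulAction G (E (m + 1))]
  (g : ℕ → Form (m + 1)) (g0 : Form (m + 1)) (lam : ℕ → ℝ)
  (κ : E (m + 1) → E (m + 1) →L[ℝ] E (m + 1) →L[ℝ] ℝ), Setup m G g g0 lam κ →
  Tendsto lam atTop atTop → ∀ χ : E (m + 1) → ℝ, PU G χ →
  ∃ C, 0 ≤ C ∧ ∀ f : W (m + 1) → ℝ, Tst G g0 f → Lin χ g0 κ f ^ 2 ≤ C * Quad χ g0 f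

/-! ### C. the product flow -/

/-- The flow `φ` of the product metric (uses `StOp`, `StHd`, `StBas`, `StGeo1`).  In all cases compare
solutions: by `IsFlow.uniq` for positive times, then for negative times by the group property.
`XH (Hm g0)` does not change under `Tr h` (`TInv`); its second component has last entry
`1/2 D g0(e)(v, v) = 0` (`StHd` with `w = e`), so `τ` is constant; `D g0(w)(e, .) = 0` (`StBas`), so
`s ↦ Tr (c s) (Sh c (φ s z))` solves the equation; `XH` is quadratic: `s ↦ Dl r (φ (r s) z)` solves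
it.  Energy: `StGeo1`. -/
def StPrd : Prop := ∀ (m : ℕ) (g0 : Form (m + 1)) (φ : ℝ → W (m + 1) → W (m + 1))
  (M : ℝ → W (m + 1) → W (m + 1) →L[ℝ] W (m + 1)), Riem g0 → Blk g0 → TInv g0 eL →
  IsFlow (XH (Hm g0)) φ M →
  (∀ h s z, φ s (Tr h z) = Tr h (φ s z)) ∧ (∀ s z, ta (φ s z) = ta z) ∧
  (∀ c s z, φ s (Sh c z) = Tr (c * s) (Sh c (φ s z))) ∧
  (∀ r s z, φ s (Dl r z) = Dl r (φ (r * s) z)) ∧
  (∀ s z, Hm g0 (φ s z) = Hm g0 z) ∧ (∀ h z, Hm g0 (Tr h z) = Hm g0 z) ∧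
  (∀ h z, vel g0 (Tr h z) = vel g0 z)

/-- The horizontal flow `zt φ` (uses `StPrd`, `StOp`, `StEqF`, `StLft`, `StBas`).
`zt φ s = Tr (-τ s) ∘ φ s`; `Tr h` commutes with `φ s` and `τ` is invariant, which gives the group
property (`IsFlow`) and the formulas with `Tr`, `Sh`, `Dl`.  With the group: `StEqF`, `StLft`. -/
def StZt : Prop := ∀ (m : ℕ) (G : Type) [Group G] [MulAction G (E (m + 1))],
  Cocompact (m + 1) G → Vert (m + 1) G eL → ∀ (g0 : Form (m + 1))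
  (φ : ℝ → W (m + 1) → W (m + 1)) (M : ℝ → W (m + 1) → W (m + 1) →L[ℝ] W (m + 1)), Riem g0 →
  Inv G g0 → Blk g0 → TInv g0 eL → IsFlow (XH (Hm g0)) φ M →
  Continuous (fun p : ℝ × W (m + 1) => zt φ p.1 p.2) ∧ (∀ z, zt φ 0 z = z) ∧
  (∀ s t z, zt φ (s + t) z = zt φ s (zt φ t z)) ∧ (∀ s z, ta (zt φ s z) = ta z) ∧
  (∀ c s z, zt φ s (Sh c z) = Sh c (zt φ s z)) ∧
  (∀ r s z, zt φ s (Dl r z) = Dl r (zt φ (r * s) z)) ∧
  (∀ s z, Hh g0 (zt φ s z) = Hh g0 z) ∧ (∀ s z, Hm g0 (zt φ s z) = Hm g0 z) ∧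
  (∀ s z, φ s z = Tr (ta z * s) (zt φ s z)) ∧
  (∀ (a : G) s z, zt φ s (lft g0 a z) = lft g0 a (zt φ s z))

/-- Fourier coefficients (uses `StKk`, `StLft`).  `k = kk g0 κ` is `C^1`, so `cc`, `cs`
are `C^1` (derivative under the integral; or `contDiff` of parametric integrals over a compact
interval).  `tr1`, `tr2`: substitute `s + h`, periodicity and addition theorems.  `sh`, `dl`: `Tr s` commutes with `Sh c` and with `Dl r`;
use `StKk`.  Invariance: `Tr` commutes with `lft`. -/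
def StMod : Prop := ∀ (m : ℕ) (G : Type) [Group G] [MulAction G (E (m + 1))]
  (g : ℕ → Form (m + 1)) (g0 : Form (m + 1)) (lam : ℕ → ℝ)
  (κ : E (m + 1) → E (m + 1) →L[ℝ] E (m + 1) →L[ℝ] ℝ), Setup m G g g0 lam κ → ∀ N : ℕ,
  Mode G g0 N (cc (kk g0 κ) N) (cs (kk g0 κ) N)

/-- The weight: invariant under everything, smooth, and supported where
`δ ≤ Hm g0 ≤ 3/16 + 1/32 ≤ 1/4` (`Hm g0 = Hh g0 + τ^2/2`; uses `StPrd`, `StLft`, `StLftA`,
`StBas`, `StOp`). -/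
def StWgt : Prop := ∀ (m : ℕ) (G : Type) [Group G] [MulAction G (E (m + 1))],
  Cocompact (m + 1) G → Vert (m + 1) G eL → ∀ (g0 : Form (m + 1))
  (φ : ℝ → W (m + 1) → W (m + 1)) (M : ℝ → W (m + 1) → W (m + 1) →L[ℝ] W (m + 1)), Riem g0 →
  Inv G g0 → Blk g0 → TInv g0 eL → IsFlow (XH (Hm g0)) φ M →
  ∀ (η θ : ℝ → ℝ) (δ : ℝ), Cut η (-(1 / 4)) (1 / 4) → Cut θ δ (3 / 16) → 0 < δ →
  ContDiff ℝ ∞ (wgt g0 η θ) ∧ GInv G g0 (wgt g0 η θ) ∧ (∀ z, 0 ≤ wgt g0 η θ z) ∧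
  (∀ z, wgt g0 η θ z ≠ 0 → δ ≤ Hm g0 z ∧ Hm g0 z ≤ 1 / 4) ∧
  (∀ s z, wgt g0 η θ (φ s z) = wgt g0 η θ z) ∧ (∀ h z, wgt g0 η θ (Tr h z) = wgt g0 η θ z) ∧
  (∀ s z, wgt g0 η θ (zt φ s z) = wgt g0 η θ z) ∧ ∃ C, 0 < C ∧ ∀ z, wgt g0 η θ z ≤ C

/-- Tent averages are test functions (uses `StWgt`, `StPrd`, `StEqF`).  `z ↦ c1 (φ s z)` is `C^1` with
derivative continuous in `(s, z)` (`IsFlow.diff`, `IsFlow.Mcont`), so the integral is `C^1`
(differentiate under the integral sign; the derivative is continuous as the integral of a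
continuous function of `(s, z)` over a compact interval).  Invariance: `StEqF`. -/
def StTenA : Prop := ∀ (m : ℕ) (G : Type) [Group G] [MulAction G (E (m + 1))],
  Cocompact (m + 1) G → Vert (m + 1) G eL → ∀ (g0 : Form (m + 1))
  (φ : ℝ → W (m + 1) → W (m + 1)) (M : ℝ → W (m + 1) → W (m + 1) →L[ℝ] W (m + 1)), Riem g0 →
  Inv G g0 → Blk g0 → TInv g0 eL → IsFlow (XH (Hm g0)) φ M →
  ∀ (N : ℕ) (c1 c2 : W (m + 1) → ℝ), Mode G g0 N c1 c2 →
  ∀ (η θ : ℝ → ℝ) (δ : ℝ), Cut η (-(1 / 4)) (1 / 4) → Cut θ δ (3 / 16) → 0 < δ →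
  ∀ R : ℝ, 0 ≤ R → Tst G g0 (tent g0 η θ φ R c1) ∧ Tst G g0 (tent g0 η θ φ R c2)

/-- Derivatives of tent averages (uses `StTenA`, `StWgt`, `StPrd`).  `X f z` is the derivative of
`t ↦ f (φ t z)` at `0` and `De f z` the derivative of `h ↦ f (Tr h z)` at `0`.  Along
the flow: `∫ (R - |s|) c2 (φ (s + t) z) ds = ∫ (R - |s - t|) c2 (φ s z) ds` over `[-R + t, R + t]`, with
derivative `∫_0^R c2(φ s z) - ∫_{-R}^0 c2(φ s z)` at `t = 0` (for instance: the tent integral is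
`∫_0^R (∫_{-r}^r c2(φ s z) ds) dr`, and the derivative of `∫_{-r+t}^{r+t} b(s) ds` is
`b(r) - b(-r)`), and the weight is constant along the flow.
Vertical: `c2 (φ s (Tr h z)) = c2 (Tr h (φ s z)) = cos(2πNh) c2 (φ s z) - sin(2πNh) c1 (φ s z)`. -/
def StTenB : Prop := ∀ (m : ℕ) (G : Type) [Group G] [MulAction G (E (m + 1))],
  Cocompact (m + 1) G → Vert (m + 1) G eL → ∀ (g0 : Form (m + 1))
  (φ : ℝ → W (m + 1) → W (m + 1)) (M : ℝ → W (m + 1) → W (m + 1) →L[ℝ] W (m + 1)), Riem g0 →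
  Inv G g0 → Blk g0 → TInv g0 eL → IsFlow (XH (Hm g0)) φ M →
  ∀ (N : ℕ) (c1 c2 : W (m + 1) → ℝ), Mode G g0 N c1 c2 →
  ∀ (η θ : ℝ → ℝ) (δ : ℝ), Cut η (-(1 / 4)) (1 / 4) → Cut θ δ (3 / 16) → 0 < δ →
  ∀ R : ℝ, 0 ≤ R →
  (∀ z, XX g0 (tent g0 η θ φ R c2) z = wgt g0 η θ z *
    ((∫ s in (0 : ℝ)..R, c2 (φ s z)) - ∫ s in (-R)..0, c2 (φ s z))) ∧
  (∀ z, De (tent g0 η θ φ R c2) z = -(2 * Real.pi * N) * tent g0 η θ φ R c1 z)

/-- Averages of products with a mode (uses `StUA`, `StPrd`, `StLft`, `StGB`, `StLftM`).  Let `F1`, `F2`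
satisfy the same translation rules as `Mode`.  By `StUA` for `Tr s` (which preserves the measure,
the energy and commutes with the group) `∫ χ F1 k = ∫ χ F1(Tr s z) k(Tr s z)` for all `s`; integrate
over `s ∈ [0, 1]` with `F1 (Tr s z) = cos F1 + sin F2` and exchange the integrals. -/
def StAvm : Prop := ∀ (m : ℕ) (G : Type) [Group G] [MulAction G (E (m + 1))],
  Cocompact (m + 1) G → Vert (m + 1) G eL → ∀ g0 : Form (m + 1), Riem g0 →
  Inv G g0 → Blk g0 → TInv g0 eL → ∀ χ : E (m + 1) → ℝ, PU G χ →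
  ∀ (N : ℕ) (k F1 F2 : W (m + 1) → ℝ), Continuous k → Continuous F1 → Continuous F2 →
  GInv G g0 k → GInv G g0 F1 → (∀ z, F1 z ≠ 0 → Hm g0 z ≤ 1 / 4) →
  (∀ z, F2 z ≠ 0 → Hm g0 z ≤ 1 / 4) →
  (∀ h z, F1 (Tr h z) = Real.cos (2 * Real.pi * N * h) * F1 z +
    Real.sin (2 * Real.pi * N * h) * F2 z) →
  ∫ z, χ z.1 * (F1 z * k z) = ∫ z, χ z.1 * (F1 z * cc k N z + F2 z * cs k N z)

/-- The averages `VV` as correlations (uses `StUA`, `StWgt`, `StPrd`, `StMP`, `StTr0`, `StOp`, `StEqF`,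
`StSub`).  `(∫_0^R c(φ s z) ds)^2 = ∫∫ c(φ s z) c(φ t z) ds dt` over `[0, R]^2`; exchange the integrals; by
`StUA` for `φ t` (with inverse `φ (-t)`): `∫ χ w c(φ s z) c(φ t z) dz = C(s - t)`,
`C u = ∫ χ w c(φ u z) c(z) dz` (a continuous function); and
`∫∫ C(s - t) ds dt = ∫_{-R}^R (R - |u|) C u du`. -/
def StFejA : Prop := ∀ (m : ℕ) (G : Type) [Group G] [MulAction G (E (m + 1))],
  Cocompact (m + 1) G → Vert (m + 1) G eL → ∀ (g0 : Form (m + 1))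
  (φ : ℝ → W (m + 1) → W (m + 1)) (M : ℝ → W (m + 1) → W (m + 1) →L[ℝ] W (m + 1)), Riem g0 →
  Inv G g0 → Blk g0 → TInv g0 eL → IsFlow (XH (Hm g0)) φ M → ∀ χ : E (m + 1) → ℝ, PU G χ →
  ∀ (N : ℕ) (c1 c2 : W (m + 1) → ℝ), Mode G g0 N c1 c2 →
  ∀ (η θ : ℝ → ℝ) (δ : ℝ), Cut η (-(1 / 4)) (1 / 4) → Cut θ δ (3 / 16) → 0 < δ →
  ∀ R : ℝ, 0 ≤ R →
  VV χ g0 η θ φ c1 c2 R = ∫ u in (-R)..R, (R - |u|) *
    ∫ z, χ z.1 * (wgt g0 η θ z * (c1 (φ u z) * c1 z + c2 (φ u z) * c2 z))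

/-- Second formula for `VV` (uses `StFejA`, `StWgt`, `StSub`): exchange the integrals (the integrand
is continuous and vanishes for `z` outside of the compact set
`{z.1 ∈ supp χ, Hm g0 z ≤ 1/4}`). -/
def StFejB : Prop := ∀ (m : ℕ) (G : Type) [Group G] [MulAction G (E (m + 1))],
  Cocompact (m + 1) G → Vert (m + 1) G eL → ∀ (g0 : Form (m + 1))
  (φ : ℝ → W (m + 1) → W (m + 1)) (M : ℝ → W (m + 1) → W (m + 1) →L[ℝ] W (m + 1)), Riem g0 →
  Inv G g0 → Blk g0 → TInv g0 eL → IsFlow (XH (Hm g0)) φ M → ∀ χ : E (m + 1) → ℝ, PU G χ →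
  ∀ (N : ℕ) (c1 c2 : W (m + 1) → ℝ), Mode G g0 N c1 c2 →
  ∀ (η θ : ℝ → ℝ) (δ : ℝ), Cut η (-(1 / 4)) (1 / 4) → Cut θ δ (3 / 16) → 0 < δ →
  ∀ R : ℝ, 0 ≤ R →
  VV χ g0 η θ φ c1 c2 R = ∫ z, χ z.1 *
    (tent g0 η θ φ R c1 z * c1 z + tent g0 η θ φ R c2 z * c2 z)

/-- Estimate (uses `StUA`, `StWgt`, `StPrd`, `StMP`, `StTr0`, `StOp`, `StEqF`, `StSub`).
`(a - b)^2 ≤ 2 a^2 + 2 b^2`, `w^2 ≤ C w`, and
`∫ χ w (∫_{-R}^0 c2(φ s z))^2 = ∫ χ w (∫_0^R c2(φ s z))^2` by `StUA` for `φ R`; this is at most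
`VV`. -/
def StFejC : Prop := ∀ (m : ℕ) (G : Type) [Group G] [MulAction G (E (m + 1))],
  Cocompact (m + 1) G → Vert (m + 1) G eL → ∀ (g0 : Form (m + 1))
  (φ : ℝ → W (m + 1) → W (m + 1)) (M : ℝ → W (m + 1) → W (m + 1) →L[ℝ] W (m + 1)), Riem g0 →
  Inv G g0 → Blk g0 → TInv g0 eL → IsFlow (XH (Hm g0)) φ M → ∀ χ : E (m + 1) → ℝ, PU G χ →
  ∀ (N : ℕ) (c1 c2 : W (m + 1) → ℝ), Mode G g0 N c1 c2 →
  ∀ (η θ : ℝ → ℝ) (δ : ℝ), Cut η (-(1 / 4)) (1 / 4) → Cut θ δ (3 / 16) → 0 < δ →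
  ∀ R : ℝ, 0 ≤ R →
  ∀ C : ℝ, (∀ z, wgt g0 η θ z ≤ C) →
    (∫ z, χ z.1 * (wgt g0 η θ z * ((∫ s in (0 : ℝ)..R, c2 (φ s z)) -
      ∫ s in (-R)..0, c2 (φ s z))) ^ 2) ≤ 4 * C * VV χ g0 η θ φ c1 c2 R

/-- BOUND (uses `StDag`, `StTenA`, `StTenB`, `StAvm`, `StFejB`, `StFejC`, `StMod`, `StKk`, `StWgt`,
`StPrd`, `StBas`, `StSub`, `StOp`).  Let
`f = tent R c2`, `V = VV R ≥ 0`, `c1 = cc k N`, `c2 = cs k N`.  `∫ χ De f k = - 2 π N ∫ χ tent(c1) k
= - 2 π N V` by `StAvm` (`F1 = tent c1`, `F2 = tent c2`) and `StFejB`.  The other term of `Lin` is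
at most `C₁ (∫ χ (X f)^2)^(1/2)` by Cauchy-Schwarz, `C₁^2` the integral of
`χ k^2 τ^2 / (4 H^2)` over `δ ≤ H ≤ 1/4`, and `∫ χ (X f)^2 ≤ C₂ V`, `Quad f ≤ ∫ χ (X f)^2` because
`0 ≤ 1 - τ^2/(2H) ≤ 1`.  By `StDag`, `2 π N V ≤ C₁ (C₂ V)^(1/2) + (C C₂ V)^(1/2)`, so `V` is bounded. -/
def StVB : Prop := ∀ (m : ℕ) (G : Type) [Group G] [MulAction G (E (m + 1))]
  (g : ℕ → Form (m + 1)) (g0 : Form (m + 1)) (lam : ℕ → ℝ)
  (κ : E (m + 1) → E (m + 1) →L[ℝ] E (m + 1) →L[ℝ] ℝ), Setup m G g g0 lam κ →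
  Tendsto lam atTop atTop → ∀ (φ : ℝ → W (m + 1) → W (m + 1))
  (M : ℝ → W (m + 1) → W (m + 1) →L[ℝ] W (m + 1)), IsFlow (XH (Hm g0)) φ M →
  ∀ χ : E (m + 1) → ℝ, PU G χ → ∀ N : ℕ, 1 ≤ N →
  ∀ (η θ : ℝ → ℝ) (δ : ℝ), Cut η (-(1 / 4)) (1 / 4) → Cut θ δ (3 / 16) → 0 < δ →
  ∃ C, ∀ R : ℝ, 0 ≤ R → VV χ g0 η θ φ (cc (kk g0 κ) N) (cs (kk g0 κ) N) R ≤ C

/-- Fubini for the vertical momentum.  `1 = ∫ w0 (τ + c) dc`; so
`∫ α(τ) F = ∫∫ α(τ) w0(τ + c) F(z) dc dz`; substitute `z ↦ Sh (-c) z` (translation of the last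
momentum: it preserves Lebesgue measure, `F` is invariant, `τ` becomes `τ - c`):
`= ∫∫ α(τ - c) w0(τ) F(z) dz dc = (∫ α) ∫ w0(τ) F`.  Everything is continuous with compact support
in `(z, c)`: `F z ≠ 0` bounds `z.1` and `Hh g0 z` and `α`, `w0` bound `τ` and `c`, and
`{z.1 ∈ K, Hm g0 z ≤ B + a^2}` is compact (`StSub`). -/
def StFub : Prop := ∀ (m : ℕ) (g0 : Form (m + 1)), Riem g0 → Blk g0 → ∀ (α w0 : ℝ → ℝ) (a : ℝ),
  Continuous α → Continuous w0 → (∀ x, α x ≠ 0 → |x| ≤ a) → (∀ x, w0 x ≠ 0 → |x| ≤ a) →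
  ∫ x, w0 x = 1 → ∀ (F : W (m + 1) → ℝ) (K : Set (E (m + 1))) (B : ℝ), IsCompact K →
  Continuous F → (∀ c z, F (Sh c z) = F z) → (∀ z, F z ≠ 0 → z.1 ∈ K ∧ Hh g0 z ≤ B) →
  ∫ z, α (ta z) * F z = (∫ x, α x) * ∫ z, w0 (ta z) * F z

/-- Separation (uses `StFejA`, `StZt`, `StFub`, `StBas`, `StOp`).  `φ u z = Tr (τ u) (zt φ u z)`, so by `tr1`, `tr2`
`c1(φ u z) c1 + c2(φ u z) c2 = cos(2πNτu) (c1(ζ) c1 + c2(ζ) c2) + sin(2πNτu) (c2(ζ) c1 - c1(ζ) c2)`,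
`ζ = zt φ u z`.  Apply `StFub` with `α(τ) = η(τ) cos(2πNτu)` and with `η(τ) sin(2πNτu)` (odd, of
integral `0`) to `F = χ θ(Hh) (...)`, which is invariant under `Sh`. -/
def StVG : Prop := ∀ (m : ℕ) (G : Type) [Group G] [MulAction G (E (m + 1))],
  Cocompact (m + 1) G → Vert (m + 1) G eL → ∀ (g0 : Form (m + 1))
  (φ : ℝ → W (m + 1) → W (m + 1)) (M : ℝ → W (m + 1) → W (m + 1) →L[ℝ] W (m + 1)), Riem g0 →
  Inv G g0 → Blk g0 → TInv g0 eL → IsFlow (XH (Hm g0)) φ M → ∀ χ : E (m + 1) → ℝ, PU G χ →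
  ∀ (N : ℕ) (c1 c2 : W (m + 1) → ℝ), Mode G g0 N c1 c2 →
  ∀ (η θ w0 : ℝ → ℝ) (δ : ℝ), Cut η (-(1 / 4)) (1 / 4) → (∀ x, η (-x) = η x) →
  Cut θ δ (3 / 16) → 0 < δ → Cut w0 (-(1 / 4)) (1 / 4) → ∫ x, w0 x = 1 → ∀ R : ℝ, 0 ≤ R →
  VV χ g0 η θ φ c1 c2 R =
    ∫ u in (-R)..R, (R - |u|) * (KK η N u * gam χ g0 w0 θ φ c1 c2 u)

/-- Scaling of the horizontal momentum (uses `StZt`, `StFub`, `StBas`).  Let `F_u z = χ θ(Hh z)
(c1 (zt φ u z) c1 z + c2 (zt φ u z) c2 z)`, invariant under `Sh`.  Substitute `z = Dl l z'`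
(`dz = l^(m+1) dz'`, `Hh (Dl l z') = l^2 Hh z'`, `ci (Dl l z') = l^2 ci z'`,
`zt φ u (Dl l z') = Dl l (zt φ (l u) z')`):
the left side is `l^(m+1+4) ∫ w0(l τ) F_(l u)(z') dz'`, and by `StFub` with `α τ = w0(l τ)`,
`∫ α = 1/l`, this is `l^(m+4) gam (l u)`. -/
def StScl : Prop := ∀ (m : ℕ) (G : Type) [Group G] [MulAction G (E (m + 1))],
  Cocompact (m + 1) G → Vert (m + 1) G eL → ∀ (g0 : Form (m + 1))
  (φ : ℝ → W (m + 1) → W (m + 1)) (M : ℝ → W (m + 1) → W (m + 1) →L[ℝ] W (m + 1)), Riem g0 →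
  Inv G g0 → Blk g0 → TInv g0 eL → IsFlow (XH (Hm g0)) φ M → ∀ χ : E (m + 1) → ℝ, PU G χ →
  ∀ (N : ℕ) (c1 c2 : W (m + 1) → ℝ), Mode G g0 N c1 c2 →
  ∀ (θ w0 : ℝ → ℝ) (δ : ℝ), Cut θ δ (3 / 16) → 0 < δ → Cut w0 (-(1 / 4)) (1 / 4) →
  ∫ x, w0 x = 1 → ∀ l u : ℝ, 0 < l →
  gam χ g0 w0 (fun h => θ (h / l ^ 2)) φ c1 c2 u = l ^ (m + 4) * gam χ g0 w0 θ φ c1 c2 (l * u)

/-- The correlation function is continuous and bounded (uses `StZt`, `StWgt`, `StSub`, `StGB`): the integrand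
is continuous in `(u, z)` and vanishes outside of a compact set of `z`; `|c1|`, `|c2|` are bounded
on `{Hm g0 ≤ 1}` by `StGB`, and `Hm g0 (zt φ u z) = Hm g0 z`. -/
def StGc : Prop := ∀ (m : ℕ) (G : Type) [Group G] [MulAction G (E (m + 1))],
  Cocompact (m + 1) G → Vert (m + 1) G eL → ∀ (g0 : Form (m + 1))
  (φ : ℝ → W (m + 1) → W (m + 1)) (M : ℝ → W (m + 1) → W (m + 1) →L[ℝ] W (m + 1)), Riem g0 →
  Inv G g0 → Blk g0 → TInv g0 eL → IsFlow (XH (Hm g0)) φ M → ∀ χ : E (m + 1) → ℝ, PU G χ →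
  ∀ (N : ℕ) (c1 c2 : W (m + 1) → ℝ), Mode G g0 N c1 c2 →
  ∀ (θ w0 : ℝ → ℝ) (δ : ℝ), Cut θ δ (3 / 16) → 0 < δ → Cut w0 (-(1 / 4)) (1 / 4) →
  Continuous (gam χ g0 w0 θ φ c1 c2) ∧ ∃ C, ∀ u, |gam χ g0 w0 θ φ c1 c2 u| ≤ C

/-! ### D. analysis on the line -/

/-- Decay of the cosine transform: twice integration by parts. -/
def StKd : Prop := ∀ (η : ℝ → ℝ) (N : ℕ), 1 ≤ N → Cut η (-(1 / 4)) (1 / 4) →
  Continuous (KK η N) ∧ ∃ C, 0 < C ∧ ∀ u, |KK η N u| ≤ C / (1 + u ^ 2)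

/-- Fejer identity and lower bound.  `∫_{-R}^R (R - |u|) cos(2πNτu) du = (sin(πNτR)/(πNτ))^2` (`= R^2`
for `τ = 0`), exchange the integrals.  For `|τ| ≤ 1/(2NR)` one has
`|sin(πNτR)/(πNτ)| ≥ 2R/π` (`Real.mul_le_sin`), and `η ≥ η(0)/2` near `0`. -/
def StFl : Prop := ∀ (η : ℝ → ℝ) (N : ℕ), 1 ≤ N → Cut η (-(1 / 4)) (1 / 4) → 0 < η 0 →
  ∃ c, 0 < c ∧ ∀ R : ℝ, 1 ≤ R → c * R ≤ ∫ u in (-R)..R, (R - |u|) * KK η N u

/-- Positivity (uses `StKd`, `StFl`).  `∫ |K(u)| |γ(l u) - γ(0)| du → 0` as `l → 0` (dominated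
convergence, `StKd`), and `∫_{-R}^R (R - |u|) K(u) γ(l u) du ≥ γ(0) c R
- R ∫ |K(u)| |γ(l u) - γ(0)| du`. -/
def StPos : Prop := ∀ (η : ℝ → ℝ) (N : ℕ), 1 ≤ N → Cut η (-(1 / 4)) (1 / 4) → 0 < η 0 →
  ∀ γ : ℝ → ℝ, Continuous γ → (∃ C, ∀ u, |γ u| ≤ C) → 0 < γ 0 →
  ∃ l c : ℝ, 0 < l ∧ l ≤ 1 ∧ 0 < c ∧ ∀ R : ℝ, 1 ≤ R →
    c * R ≤ ∫ u in (-R)..R, (R - |u|) * (KK η N u * γ (l * u))

/-- Uniqueness of Fourier series for continuous periodic functions (Mathlib: the Fourier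
coefficients of a continuous function on `AddCircle 1` determine it, for instance by
`hasSum_fourier_series_L2` or `tsum_sq_fourierCoeff`). -/
def StFou : Prop := ∀ u : ℝ → ℝ, Continuous u → (∀ s, u (s + 1) = u s) →
  ∫ s in (0 : ℝ)..1, u s = 0 →
  (∀ N : ℕ, 1 ≤ N → ∫ s in (0 : ℝ)..1, u s * Real.cos (2 * Real.pi * N * s) = 0) →
  (∀ N : ℕ, 1 ≤ N → ∫ s in (0 : ℝ)..1, u s * Real.sin (2 * Real.pi * N * s) = 0) → ∀ s, u s = 0

/-- Cut-off functions exist: `Cut η a b` with `η > 0` in the open interval and `η` symmetric with respect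
to the midpoint (`ContDiffBump` or `Real.smoothTransition`). -/
def StCut : Prop := ∀ a b : ℝ, a < b → ∃ η : ℝ → ℝ, Cut η a b ∧ (∀ x, a < x → x < b → 0 < η x) ∧
  (∀ x, η (a + b - x) = η x) ∧ 0 < ∫ x, η x

/-! ### E. conclusion -/

/-- The Fourier coefficients vanish (uses `StVB`, `StVG`, `StScl`, `StGc`, `StPos`, `StCut`, `StMod`,
`StKk`, `StKap`, `StBas`, `StZt`, `StWgt`, `StPU`, `StFlow`, `StOp`).  Let `c1 = cc k N`, `c2 = cs k N`, `η` an even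
cut-off function with `η 0 > 0`, `w0 = η / ∫ η`, `θ` a cut-off function which is positive
on `(1/16, 3/16)`.  `γ = gam ... θ` is continuous and bounded, `γ 0 = ∫ χ wgt (c1^2 + c2^2) ≥ 0`.  If
`γ 0 > 0`, take `l`, `c` from `StPos`; `θ_l(h) = θ(h / l^2)` is a `Cut` with `δ = l^2/16`, and by `StVG`
and `StScl` `VV (θ_l) R = l^(m+4) ∫ (R - |u|) K(u) γ(l u) du ≥ l^(m+4) c R`, which contradicts
`StVB`.  So `γ 0 = 0` and `c1 = c2 = 0` (continuity) where `χ > 0`, `|τ| < 1/4`,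
`1/16 < Hh < 3/16`; by invariance under the group (`∑ χ (a x) = 1`), `Sh` and `Dl`, at all points
with `Hh > 0`.  If `Hh z = 0` then `v = τ e` (`g(v - τ e, v - τ e) = 2 Hh`) and `k (Tr s z) = 0`. -/
def StVan : Prop := ∀ (m : ℕ) (G : Type) [Group G] [MulAction G (E (m + 1))]
  (g : ℕ → Form (m + 1)) (g0 : Form (m + 1)) (lam : ℕ → ℝ)
  (κ : E (m + 1) → E (m + 1) →L[ℝ] E (m + 1) →L[ℝ] ℝ), Setup m G g g0 lam κ →
  Tendsto lam atTop atTop → ∀ N : ℕ, 1 ≤ N → ∀ z, cc (kk g0 κ) N z = 0 ∧ cs (kk g0 κ) N z = 0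

/-- THEOREM DR (uses `StVan`, `StFou`, `StKap`, `StKk`, `StN`, `StOp`).  If `lam` does not tend to infinity there is a
subsequence on which it is bounded, and then `lam_j D g_j(e) → 0` along it since
`D g_j(e) → D g0(e) = 0` (`conv1`, `TInv`).  Otherwise `StVan`: for every `z` the function
`s ↦ k (Tr s z)` is `1`-periodic with all coefficients zero and mean zero (`StKap`), so `k = 0`, that is
`κ x (v, v) = 0` for all `v` (`v = vel g0 (x, op g0 x v)`); polarize. -/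
def StThDR : Prop := ∀ (m : ℕ) (G : Type) [Group G] [MulAction G (E (m + 1))]
  (g : ℕ → Form (m + 1)) (g0 : Form (m + 1)) (lam : ℕ → ℝ)
  (κ : E (m + 1) → E (m + 1) →L[ℝ] E (m + 1) →L[ℝ] ℝ), Setup m G g g0 lam κ → ∀ x, κ x = 0

end Pool.Agent.DR
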