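import Mathlib
import Pool.Agent.Work.MP_13b5d9_gt.DR.Stmts

set_option autoImplicit false

/-!
# MP_13b5d9_gt, block DR, item Cut: cut-off functions
-/

open MeasureTheory Set Filter Topology
open scoped ContDiff ENNReal

namespace Pool.Agent.DR

open Pool.Agent.MLS Pool.Agent.EC

/-- item Cut -/
theorem pr_Cut : StCut := by
  intro a b hab
  have hs : ContDiff ℝ ∞ (fun x : ℝ => expNegInvGlue (x - a) * expNegInvGlue (b - x)) :=
    (expNegInvGlue.contDiff.comp (contDiff_id.sub contDiff_const)).mul
      (expNegInvGlue.contDiff.comp (contDiff_const.sub contDiff_id))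
  have hn : ∀ x : ℝ, 0 ≤ expNegInvGlue (x - a) * expNegInvGlue (b - x) := fun x =>
    mul_nonneg (expNegInvGlue.nonneg _) (expNegInvGlue.nonneg _)
  have hz : ∀ x : ℝ, expNegInvGlue (x - a) * expNegInvGlue (b - x) ≠ 0 → a ≤ x ∧ x ≤ b := by
    intro x hx
    constructor
    · by_contra h
      exact hx (by rw [expNegInvGlue.zero_of_nonpos (by linarith), zero_mul])
    · by_contra h
      exact hx (by rw [expNegInvGlue.zero_of_nonpos (x := b - x) (by linarith), mul_zero])
  have hp : ∀ x : ℝ, a < x → x < b → 0 < expNegInvGlue (x - a) * expNegInvGlue (b - x) :=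
    fun x h1 h2 => mul_pos (expNegInvGlue.pos_of_pos (by linarith))
      (expNegInvGlue.pos_of_pos (by linarith))
  refine ⟨fun x => expNegInvGlue (x - a) * expNegInvGlue (b - x), ⟨hs, hn, hz⟩, hp, ?_, ?_⟩
  · intro x
    show expNegInvGlue (a + b - x - a) * expNegInvGlue (b - (a + b - x)) = _
    rw [show a + b - x - a = b - x by ring, show b - (a + b - x) = x - a by ring, mul_comm]
  · have hc : HasCompactSupport (fun x : ℝ => expNegInvGlue (x - a) * expNegInvGlue (b - x)) := by
      refine HasCompactSupport.intro (K := Set.Icc a b) isCompact_Icc ?_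
      intro x hx
      by_contra h
      exact hx (hz x h)
    refine hs.continuous.integral_pos_of_hasCompactSupport_nonneg_nonzero hc hn
      (x := (a + b) / 2) ?_
    exact (hp _ (by linarith) (by linarith)).ne'

end Pool.Agent.DR
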