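import Pool.Agent.Work.MP_13b5d9_gt.DR.Stmts

set_option autoImplicit false

/-!
# Block DR, item Cv (helper57): convergence of the functions on phase space
-/

open MeasureTheory Set Filter Topology
open scoped ContDiff ENNReal

namespace Pool.Agent.DR

open Pool.Agent.MLS Pool.Agent.EC

namespace IDRCv

theorem ccomp {α β δ : Type*} [TopologicalSpace α] [TopologicalSpace β] [TopologicalSpace δ]
    {F : ℕ → α → β} {f : α → β} (h : CC F f) {U : ℕ → δ → α} {u : δ → α} (hU : CC U u) :
    CC (fun j x => F j (U j x)) (fun x => f (u x)) := fun x =>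
  (h (u x)).comp (tendsto_fst.prodMk (hU x))

/-- the Hamiltonian field in terms of the metric -/
theorem xh_eq {m : ℕ} (h4 : StHd) (g : Form (m + 1)) (hg : Riem g) (z : W (m + 1)) :
    XH (Hm g) z = (vel g z, ∑ i, (1 / 2 * fderiv ℝ g.val z.1 (ee i) (vel g z) (vel g z)) • ee i) := by
  obtain ⟨e1, e2⟩ := h4 (m + 1) g hg z
  refine Prod.ext e1 ?_
  have h : ∀ x : E (m + 1), x = ∑ i, (inner ℝ x (ee i)) • ee i := by
    intro x
    ext k
    simp only [WithLp.ofLp_sum, Finset.sum_apply, PiLp.smul_apply, smul_eq_mul]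
    rw [Finset.sum_eq_single k]
    · simp [ee, EuclideanSpace.inner_single_right]
    · intro i _ hi
      simp [ee, hi]
    · intro hk
      exact absurd (Finset.mem_univ k) hk
  rw [h (XH (Hm g) z).2]
  refine Finset.sum_congr rfl fun i _ => ?_
  rw [e2]

end IDRCv

open IDRCv in
theorem pr_Cv (h1 : StN) (h2 : StCvA) (h4 : StHd) : StCv := by
  intro m G _ _ g g0 lam κ hS
  obtain ⟨-, n2, n3, n4⟩ := h1 m G g g0 lam κ hS
  obtain ⟨-, v2, -⟩ := h2 m G g g0 lam κ hS
  have hX : CC (fun j => XH (Hm (g j))) (XH (Hm g0)) := by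
    have h5 : ∀ i : Fin (m + 1), CC (fun j (z : W (m + 1)) =>
        fderiv ℝ (g j).val z.1 (ee i) (vel (g j) z) (vel (g j) z))
        (fun z => fderiv ℝ g0.val z.1 (ee i) (vel g0 z) (vel g0 z)) := fun i =>
      (((n2 (ee i)).compRight continuous_fst).clm_apply v2).clm_apply v2
    have h6 : CC (fun j (z : W (m + 1)) => (vel (g j) z,
        ∑ i, (1 / 2 * fderiv ℝ (g j).val z.1 (ee i) (vel (g j) z) (vel (g j) z)) • ee i))
        (fun z => (vel g0 z,
          ∑ i, (1 / 2 * fderiv ℝ g0.val z.1 (ee i) (vel g0 z) (vel g0 z)) • ee i)) :=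
      v2.prodMk (CC.sum _ fun i _ =>
        ((CC.const (continuous_const (y := (1 / 2 : ℝ)))).mul (h5 i)).smul
          (CC.const continuous_const))
    exact h6.congr (fun j z => (xh_eq h4 (g j) (hS.riem j) z).symm)
      fun z => (xh_eq h4 g0 hS.riem0 z).symm
  refine ⟨hX, ?_, ?_, ?_⟩
  · have h5 : CC (fun j (z : W (m + 1)) => (lam j • fderiv ℝ (g j).val z.1 eL) (vel (g j) z)
        (vel (g j) z)) (fun z => κ z.1 (vel g0 z) (vel g0 z)) :=
      ((n3.compRight continuous_fst).clm_apply v2).clm_apply v2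
    refine h5.congr (fun j z => ?_) (fun z => ?_)
    · rw [_root_.smul_apply, _root_.smul_apply, smul_eq_mul, d1]
    · rw [kk]
  · have hU : CC (fun j (z : W (m + 1)) => (z.1, vel (g j) z)) (fun z => (z.1, vel g0 z)) :=
      (CC.const continuous_fst).prodMk v2
    have h5 := ccomp (F := fun j (p : E (m + 1) × E (m + 1)) => d2 (g j) p.1 p.2)
      (f := fun _ => (0 : ℝ)) n4 hU
    exact h5
  · intro f hf
    have h5 : Continuous (fderiv ℝ f) := hf.continuous_fderiv (by norm_num)
    exact (CC.const h5).clm_apply hX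

end Pool.Agent.DR
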