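import Pool.Agent.Work.MP_13b5d9_gt.DR.Stmts

set_option autoImplicit false

/-!
# Block DR, item CvA: convergence of the inverse operators
-/

open MeasureTheory Set Filter Topology
open scoped ContDiff ENNReal

namespace Pool.Agent.DR

open Pool.Agent.MLS Pool.Agent.EC

theorem pr_CvA (h1 : StN) (h2 : StOp) : StCvA := by
  intro m G _ _ g g0 lam κ hS
  obtain ⟨n1, -, -, -⟩ := h1 m G g g0 lam κ hS
  obtain ⟨-, -, hl, hr, -⟩ := h2 (m + 1) g0 hS.riem0
  have hop : CC (fun j => op (g j)) (op g0) :=
    n1.comp' (u := fun A => (sh (n := m + 1)).comp A)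
      (ContinuousLinearMap.compL ℝ (E (m + 1)) (E (m + 1) →L[ℝ] ℝ) (E (m + 1)) sh).continuous
  have hi : CC (fun j => iop (g j)) (iop g0) := by
    refine hop.comp (u := Ring.inverse) fun x => ?_
    let U : (E (m + 1) →L[ℝ] E (m + 1))ˣ :=
      ⟨op g0 x, iop g0 x, ContinuousLinearMap.ext fun v => hr x v,
        ContinuousLinearMap.ext fun v => hl x v⟩
    exact NormedRing.inverse_continuousAt U
  have hv : CC (fun j => vel (g j)) (vel g0) :=
    (hi.compRight continuous_fst).clm_apply (CC.const continuous_snd)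
  refine ⟨hi, hv, ?_⟩
  exact (CC.const (continuous_const (y := (1 / 2 : ℝ)))).mul
    ((CC.const continuous_snd).inner hv)

end Pool.Agent.DR
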