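import Mathlib
import Pool.Agent.Work.MP_13b5d9_gt.DR.Stmts

set_option autoImplicit false

/-!
# Block [13b5d9 DR], item Dag (helper94): scaling
-/

open MeasureTheory Set Filter Topology
open scoped ContDiff ENNReal

namespace Pool.Agent.DR

open Pool.Agent.MLS Pool.Agent.EC

namespace IDRDag

theorem De_smul {m : ℕ} {f : W (m + 1) → ℝ} (hf : ContDiff ℝ 1 f) (r : ℝ) (z : W (m + 1)) :
    De (fun z => r * f z) z = r * De f z := by
  unfold De
  rw [fderiv_const_mul ((hf.differentiable one_ne_zero) z)]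
  rfl

theorem XX_smul {m : ℕ} (g : Form (m + 1)) {f : W (m + 1) → ℝ} (hf : ContDiff ℝ 1 f) (r : ℝ)
    (z : W (m + 1)) : XX g (fun z => r * f z) z = r * XX g f z := by
  unfold XX
  rw [fderiv_const_mul ((hf.differentiable one_ne_zero) z)]
  rfl

theorem Lin_smul {m : ℕ} (χ : E (m + 1) → ℝ) (g0 : Form (m + 1))
    (κ : E (m + 1) → E (m + 1) →L[ℝ] E (m + 1) →L[ℝ] ℝ) {f : W (m + 1) → ℝ}
    (hf : ContDiff ℝ 1 f) (r : ℝ) : Lin χ g0 κ (fun z => r * f z) = r * Lin χ g0 κ f := by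
  unfold Lin
  rw [← integral_const_mul]
  congr 1
  funext z
  rw [De_smul hf, XX_smul g0 hf]
  ring

theorem Quad_smul {m : ℕ} (χ : E (m + 1) → ℝ) (g0 : Form (m + 1)) {f : W (m + 1) → ℝ}
    (hf : ContDiff ℝ 1 f) (r : ℝ) : Quad χ g0 (fun z => r * f z) = r ^ 2 * Quad χ g0 f := by
  unfold Quad
  rw [← integral_const_mul]
  congr 1
  funext z
  rw [XX_smul g0 hf]
  ring

theorem Tst_smul {m : ℕ} {G : Type} [Group G] [MulAction G (E (m + 1))] {g0 : Form (m + 1)}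
    {f : W (m + 1) → ℝ} (hf : Tst G g0 f) (r : ℝ) : Tst G g0 (fun z => r * f z) := by
  refine ⟨contDiff_const.mul hf.smooth, ?_, ?_⟩
  · intro a z
    show r * f (lft g0 a z) = r * f z
    rw [hf.inv a z]
  · obtain ⟨δ, hδ, h⟩ := hf.supp
    exact ⟨δ, hδ, fun z hz => h z (right_ne_zero_of_mul hz)⟩

theorem Tst_zero {m : ℕ} (G : Type) [Group G] [MulAction G (E (m + 1))] (g0 : Form (m + 1)) :
    Tst G g0 (fun _ => 0) :=
  ⟨contDiff_const, fun _ _ => rfl, ⟨1, one_pos, fun _ hz => absurd rfl hz⟩⟩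

end IDRDag

open IDRDag in
/-- Item Dag. -/
theorem pr_Dag (h1 : StSS) : StDag := by
  intro m G _ _ g g0 lam κ hS hlam χ hχ
  obtain ⟨C, hC⟩ := h1 m G g g0 lam κ hS hlam χ hχ
  have key : ∀ f : W (m + 1) → ℝ, Tst G g0 f → ∀ r : ℝ,
      0 ≤ Quad χ g0 f * (r * r) + Lin χ g0 κ f * r + C := by
    intro f hf r
    have h := hC _ (Tst_smul hf r)
    rw [Lin_smul χ g0 κ hf.smooth, Quad_smul χ g0 hf.smooth] at h
    linarith
  have hC0 : 0 ≤ C := by
    have h := key _ (Tst_zero G g0) 0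
    linarith
  refine ⟨4 * C, by linarith, fun f hf => ?_⟩
  have h := discrim_le_zero (key f hf)
  unfold discrim at h
  linarith

end Pool.Agent.DR
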