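import Pool.Agent.Work.MP_13b5d9_gt.DR.Stmts

set_option autoImplicit false

/-!
# Item Dd: mean of the second derivative
-/

open MeasureTheory Set Filter Topology
open scoped ContDiff ENNReal

namespace Pool.Agent.DR

open Pool.Agent.MLS Pool.Agent.EC

namespace IDRDd

variable {n : ℕ}

theorem vel_cont (h3 : StOp) (g : Form n) (hg : Riem g) : Continuous (vel g) := by
  have h := (h3 n g hg).2.2.2.2.2.2.1
  have hc : Continuous (iop g) := h.continuous
  have e : vel g = fun z : W n => iop g z.1 z.2 := rfl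
  rw [e]
  exact (hc.comp continuous_fst).clm_apply continuous_snd

/-- integrability over the disk bundle of functions supported over a compact set -/
theorem integrableOn_disk (h4 : StSub) (h3 : StOp) (g : Form n) (hg : Riem g) (χ : E n → ℝ)
    (hχ : Continuous χ) (hc : HasCompactSupport χ) (f : W n → ℝ) (hf : Continuous f) :
    IntegrableOn (fun z : W n => χ z.1 * f z) {z : W n | Hm g z ≤ 1 / 2} := by
  have hHc : Continuous (Hm g) := (h3 n g hg).2.2.2.2.2.2.2.1.continuous
  have hS := h4 n g hg (tsupport χ) (1 / 2) hc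
  have h1 : IntegrableOn (fun z : W n => χ z.1 * f z)
      {z : W n | z.1 ∈ tsupport χ ∧ Hm g z ≤ 1 / 2} :=
    ((hχ.comp continuous_fst).mul hf).continuousOn.integrableOn_compact hS
  refine h1.of_forall_sdiff_eq_zero (measurableSet_le hHc.measurable measurable_const) ?_
  rintro z ⟨hz1, hz2⟩
  have : z.1 ∉ tsupport χ := fun h => hz2 ⟨h, hz1⟩
  have h0 : χ z.1 = 0 := image_eq_zero_of_notMem_tsupport this
  simp [h0]

/-- Fubini and the fibre integral for a field of bilinear forms -/
theorem fubini (h2 : StFib) (h3 : StOp) (h4 : StSub) (g : Form n) (hR : Riem g)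
    (χ : E n → ℝ) (hχ : Continuous χ) (hc : HasCompactSupport χ)
    (b : E n → E n →L[ℝ] E n →L[ℝ] ℝ) (hb : Continuous b) :
    ∫ z in {z : W n | Hm g z ≤ 1 / 2}, χ z.1 * b z.1 (vel g z) (vel g z) =
      cn n / n * ∫ x, χ x * (((gm g x)⁻¹ * Matrix.of fun i j => b x (ee i) (ee j)).trace *
        dens g x) := by
  have hHc : Continuous (Hm g) := (h3 n g hR).2.2.2.2.2.2.2.1.continuous
  have hvc : Continuous (vel g) := vel_cont h3 g hR
  set B : Set (W n) := {z : W n | Hm g z ≤ 1 / 2} with hB
  have hBm : MeasurableSet B := measurableSet_le hHc.measurable measurable_const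
  set f : W n → ℝ := fun z => χ z.1 * b z.1 (vel g z) (vel g z) with hf
  have hfc : Continuous (fun z : W n => b z.1 (vel g z) (vel g z)) :=
    ((hb.comp continuous_fst).clm_apply hvc).clm_apply hvc
  have hint : IntegrableOn f B := integrableOn_disk h4 h3 g hR χ hχ hc _ hfc
  have hint2 : Integrable (B.indicator f) (volume : Measure (W n)) :=
    (integrable_indicator_iff hBm).2 hint
  rw [← integral_indicator hBm]
  have e0 : ∫ z, B.indicator f z = ∫ x, ∫ p, B.indicator f (x, p) := by
    rw [Measure.volume_eq_prod] at hint2 ⊢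
    exact integral_prod _ hint2
  rw [e0, ← integral_const_mul]
  refine integral_congr_ae (Eventually.of_forall fun x => ?_)
  change ∫ p, B.indicator f (x, p) = cn n / n * (χ x *
    (((gm g x)⁻¹ * Matrix.of fun i j => b x (ee i) (ee j)).trace * dens g x))
  have hBx : MeasurableSet {p : E n | Hm g (x, p) ≤ 1 / 2} :=
    measurableSet_le (hHc.comp (continuous_const.prodMk continuous_id)).measurable measurable_const
  have e1 : (fun p => B.indicator f (x, p)) =
      {p : E n | Hm g (x, p) ≤ 1 / 2}.indicator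
        (fun p => χ x * b x (vel g (x, p)) (vel g (x, p))) := by
    funext p
    by_cases hp : Hm g (x, p) ≤ 1 / 2
    · rw [indicator_of_mem (show (x, p) ∈ B from hp),
        indicator_of_mem (show p ∈ {p : E n | Hm g (x, p) ≤ 1 / 2} from hp)]
    · rw [indicator_of_notMem (show (x, p) ∉ B from hp),
        indicator_of_notMem (show p ∉ {p : E n | Hm g (x, p) ≤ 1 / 2} from hp)]
  rw [e1, integral_indicator hBx, integral_const_mul, h2 n g hR x (b x)]
  ring

/-- the first derivative in the direction `e` is smooth -/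
theorem G1_smooth {n : ℕ} (g : Form n) (e : E n) :
    ContDiff ℝ ∞ (fun y => fderiv ℝ g.val y e) := by
  have h : ContDiff ℝ ∞ (Function.uncurry fun (_ : E n) (y : E n) => g.val y) :=
    g.smooth.comp contDiff_snd
  exact ContDiff.fderiv_apply h contDiff_id contDiff_const (by simp)

theorem G2_cont {n : ℕ} (g : Form n) (e : E n) :
    Continuous (fun x => fderiv ℝ (fun y => fderiv ℝ g.val y e) x e) := by
  have h : ContDiff ℝ ∞ (Function.uncurry fun (_ : E n) (y : E n) => fderiv ℝ g.val y e) :=
    (G1_smooth g e).comp contDiff_snd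
  have h2 : ContDiff ℝ ∞ (fun x => fderiv ℝ (fun y => fderiv ℝ g.val y e) x e) :=
    ContDiff.fderiv_apply h contDiff_id contDiff_const (by simp)
  exact h2.continuous

theorem G2_apply {n : ℕ} (g : Form n) (e x v w : E n) :
    fderiv ℝ (fun y => fderiv ℝ g.val y e v w) x e =
      fderiv ℝ (fun y => fderiv ℝ g.val y e) x e v w := by
  have h0 : ContDiff ℝ ∞ (fun y => fderiv ℝ g.val y e v w) :=
    ((G1_smooth g e).clm_apply contDiff_const).clm_apply contDiff_const
  have hl : HasDerivAt (fun s : ℝ => x + s • e) e 0 := by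
    simpa using ((hasDerivAt_id (0 : ℝ)).smul_const e).const_add x
  have hx : (fun s : ℝ => x + s • e) 0 = x := by simp
  have h1 : HasDerivAt (fun s : ℝ => fderiv ℝ g.val (x + s • e) e)
      (fderiv ℝ (fun y => fderiv ℝ g.val y e) x e) 0 :=
    (((G1_smooth g e).differentiable (by simp)) x).hasFDerivAt.comp_hasDerivAt_of_eq (0 : ℝ) hl
      hx.symm
  have h2 : HasDerivAt (fun s : ℝ => fderiv ℝ g.val (x + s • e) e v w)
      (fderiv ℝ (fun y => fderiv ℝ g.val y e) x e v w) 0 := by
    have k := (h1.clm_apply (hasDerivAt_const (0 : ℝ) v)).clm_apply (hasDerivAt_const (0 : ℝ) w)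
    simpa using k
  have h3 : HasDerivAt (fun s : ℝ => fderiv ℝ g.val (x + s • e) e v w)
      (fderiv ℝ (fun y => fderiv ℝ g.val y e v w) x e) 0 := by
    have h : HasFDerivAt (fun y => fderiv ℝ g.val y e v w)
        (fderiv ℝ (fun y => fderiv ℝ g.val y e v w) x) ((fun s : ℝ => x + s • e) 0) := by
      rw [hx]
      exact ((h0.differentiable (by simp)) x).hasFDerivAt
    exact h.comp_hasDerivAt (0 : ℝ) hl
  exact h3.unique h2

/-- the group commutes with the translations -/
theorem dac_eL {m : ℕ} {G : Type} [Group G] [MulAction G (E (m + 1))]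
    (hc : Cocompact (m + 1) G) (hv : Vert (m + 1) G eL) (a : G) (x : E (m + 1)) :
    dac a x eL = eL := by
  have h1 : HasFDerivAt (fun y : E (m + 1) => a • y) (dac a x) x :=
    (((hc.smooth a).differentiable (by simp)) x).hasFDerivAt
  have h2 : HasDerivAt (fun s : ℝ => x + s • (eL : E (m + 1))) eL 0 := by
    simpa using ((hasDerivAt_id (0 : ℝ)).smul_const (eL : E (m + 1))).const_add x
  have h3 : HasDerivAt (fun s : ℝ => a • (x + s • (eL : E (m + 1)))) (dac a x eL) 0 := by
    have h1' : HasFDerivAt (fun y : E (m + 1) => a • y) (dac a x)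
        ((fun s : ℝ => x + s • (eL : E (m + 1))) 0) := by simpa using h1
    exact h1'.comp_hasDerivAt (0 : ℝ) h2
  have h4 : HasDerivAt (fun s : ℝ => a • (x + s • (eL : E (m + 1)))) eL 0 := by
    have e : (fun s : ℝ => a • (x + s • (eL : E (m + 1)))) = fun s => a • x + s • eL := by
      funext s
      exact hv.comm a x s
    rw [e]
    simpa using ((hasDerivAt_id (0 : ℝ)).smul_const (eL : E (m + 1))).const_add (a • x)
  exact h3.unique h4

theorem eL_apply {m : ℕ} (j : Fin (m + 1)) :
    (eL : E (m + 1)) j = if j = Fin.last m then 1 else 0 := by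
  simp [eL, ee, Pi.single_apply]

end IDRDd

open IDRDd in
theorem pr_Dd (h1 : StFib) (h2 : StDivZ) (h3 : StDens) (h4 : StJac) (h5 : StJacI) (h6 : StOp)
    (h7 : StSub) : StDd := by
  intro m G _ _ hco hve g hR hI χ hPU
  have hχ : Continuous χ := hPU.smooth.continuous
  have hcs : HasCompactSupport χ := hPU.cpt
  obtain ⟨hT1, hT2, hT3⟩ := h4 m g hR
  obtain ⟨-, hd1, hd2⟩ := h3 (m + 1) g hR
  obtain ⟨hd3, -⟩ := hd2 G hco hI
  set b : E (m + 1) → E (m + 1) →L[ℝ] E (m + 1) →L[ℝ] ℝ :=
    fun x => fderiv ℝ (fun y => fderiv ℝ g.val y eL) x eL with hb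
  have hbc : Continuous b := G2_cont g eL
  have hF := fubini h1 h6 h7 g hR χ hχ hcs b hbc
  have hL : ∫ z in Disk g, χ z.1 * d2 g z.1 (vel g z) =
      ∫ z in {z : W (m + 1) | Hm g z ≤ 1 / 2}, χ z.1 * b z.1 (vel g z) (vel g z) := by
    refine integral_congr_ae (Eventually.of_forall fun z => ?_)
    show χ z.1 * d2 g z.1 (vel g z) = χ z.1 * b z.1 (vel g z) (vel g z)
    congr 1
    exact G2_apply g eL z.1 (vel g z) (vel g z)
  rw [hL, hF]
  set ρ : E (m + 1) → ℝ := fun y => (Pm g y).trace * dens g y with hρ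
  have hρs : ContDiff ℝ ∞ ρ := hT1.mul hd1
  have hDc : Continuous (fun x => fderiv ℝ ρ x eL) :=
    (hρs.continuous_fderiv (by simp)).clm_apply continuous_const
  have hJ : ∀ x, ((gm g x)⁻¹ * Matrix.of fun i j => b x (ee i) (ee j)).trace * dens g x =
      fderiv ℝ ρ x eL + (Pm g x * Pm g x).trace * dens g x -
        1 / 2 * (Pm g x).trace ^ 2 * dens g x := by
    intro x
    have e := hT3 x
    have e2 : (Matrix.of fun i j => fderiv ℝ (fun y => fderiv ℝ g.val y eL (ee i) (ee j)) x eL :
        Matrix (Fin (m + 1)) (Fin (m + 1)) ℝ) = Matrix.of fun i j => b x (ee i) (ee j) := by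
      ext i j
      exact G2_apply g eL x (ee i) (ee j)
    rw [e2] at e
    rw [hρ, e]
    ring
  have hZ : ∫ x, χ x * fderiv ℝ ρ x eL = 0 := by
    have k := h2 (m + 1) G hco χ hPU ρ hρs (fun a x => by
      show (Pm g (a • x)).trace * dens g (a • x) * |(dac a x).det| = (Pm g x).trace * dens g x
      rw [h5 m G hco hve g hR hI a x, mul_assoc, hd3 a x]) (fun _ => eL) contDiff_const
      (fun a x => (dac_eL hco hve a x).symm)
    rw [← k]
    refine integral_congr_ae (Eventually.of_forall fun x => ?_)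
    show χ x * fderiv ℝ ρ x eL = χ x * ∑ j, fderiv ℝ (fun y => ρ y * (eL : E (m + 1)) j) x (ee j)
    congr 1
    have e : ∀ j, fderiv ℝ (fun y => ρ y * (eL : E (m + 1)) j) x (ee j) =
        (if j = Fin.last m then 1 else 0) * fderiv ℝ ρ x (ee j) := by
      intro j
      rw [fderiv_mul_const ((hρs.differentiable (by simp)) x), eL_apply]
      rfl
    rw [Finset.sum_congr rfl fun j _ => e j]
    simp [eL]
  have hcn : 0 ≤ cn (m + 1) / ((m + 1 : ℕ) : ℝ) := by
    refine div_nonneg ?_ (Nat.cast_nonneg _)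
    exact integral_nonneg fun ξ => by positivity
  have hcn2 : cn (m + 1) / ((m + 1 : ℕ) : ℝ) = cn (m + 1) / (m + 1) := by push_cast; rfl
  rw [← hcn2]
  refine mul_le_mul_of_nonneg_left ?_ hcn
  have hdc : Continuous (dens g) := hd1.continuous
  have i1 : Integrable (fun x => χ x * fderiv ℝ ρ x eL) :=
    (hχ.mul hDc).integrable_of_hasCompactSupport hcs.mul_right
  have i2 : Integrable (fun x => χ x * ((Pm g x * Pm g x).trace * dens g x)) :=
    (hχ.mul (hT2.mul hdc)).integrable_of_hasCompactSupport hcs.mul_right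
  have i3 : Integrable (fun x => χ x * (1 / 2 * (Pm g x).trace ^ 2 * dens g x)) :=
    (hχ.mul ((continuous_const.mul (hT1.continuous.pow 2)).mul
      hdc)).integrable_of_hasCompactSupport hcs.mul_right
  have hS : ∫ x, χ x * (((gm g x)⁻¹ * Matrix.of fun i j => b x (ee i) (ee j)).trace *
      dens g x) = (∫ x, χ x * fderiv ℝ ρ x eL) +
        (∫ x, χ x * ((Pm g x * Pm g x).trace * dens g x)) -
        ∫ x, χ x * (1 / 2 * (Pm g x).trace ^ 2 * dens g x) := by
    have i12 : Integrable (fun x => χ x * fderiv ℝ ρ x eL +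
        χ x * ((Pm g x * Pm g x).trace * dens g x)) := i1.add i2
    rw [← integral_add i1 i2, ← integral_sub i12 i3]
    refine integral_congr_ae (Eventually.of_forall fun x => ?_)
    show χ x * (((gm g x)⁻¹ * Matrix.of fun i j => b x (ee i) (ee j)).trace * dens g x) =
      χ x * fderiv ℝ ρ x eL + χ x * ((Pm g x * Pm g x).trace * dens g x) -
        χ x * (1 / 2 * (Pm g x).trace ^ 2 * dens g x)
    rw [hJ x]
    ring
  have hpos : 0 ≤ ∫ x, χ x * (1 / 2 * (Pm g x).trace ^ 2 * dens g x) := by
    refine integral_nonneg fun x => ?_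
    have : 0 ≤ dens g x := Real.sqrt_nonneg _
    have h0 := hPU.nonneg x
    positivity
  rw [hS, hZ]
  linarith

end Pool.Agent.DR
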