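import Pool.Agent.Work.MP_13b5d9_gt.DR.Stmts

/-!
# MP_13b5d9_gt, block DR: item Ex (exact inequality before the limit)
-/

set_option autoImplicit false

open MeasureTheory Set Filter Topology
open scoped ContDiff ENNReal

namespace Pool.Agent.DR

open Pool.Agent.MLS Pool.Agent.EC

namespace IDREx

/-- algebra of the second variation for `φ = 1 - f / l` -/
theorem alg (l f a b X τ H : ℝ) (hl : 0 < l) (hH : 0 ≤ H) :
    l ^ 2 * (1 / 4 * (1 - f / l) ^ 2 * b + 1 / 2 * (-(X / l)) ^ 2 -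
      ((1 - f / l) * a + 2 * τ * (-(X / l))) ^ 2 / (16 * H)) ≤
    1 / 4 * (l ^ 2 * b) - 1 / 2 * (l * (f * b)) + 1 / 4 * (f ^ 2 * b) +
      1 / 2 * ((1 - τ ^ 2 / (2 * H)) * X ^ 2) +
      1 / 4 * ((1 - f / l) * τ * (l * a) * X / H) := by
  obtain ⟨s, rfl⟩ : ∃ s, f = l * s := ⟨f / l, by field_simp⟩
  obtain ⟨Y, rfl⟩ : ∃ Y, X = l * Y := ⟨X / l, by field_simp⟩
  rw [mul_div_cancel_left₀ _ hl.ne', mul_div_cancel_left₀ _ hl.ne']
  have h1 : 0 ≤ l ^ 2 * (1 - s) ^ 2 * a ^ 2 * (1 / 16) * H⁻¹ := by positivity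
  have h2 : 1 / 4 * (l ^ 2 * b) - 1 / 2 * (l * (l * s * b)) + 1 / 4 * ((l * s) ^ 2 * b) +
      1 / 2 * ((1 - τ ^ 2 / (2 * H)) * (l * Y) ^ 2) +
      1 / 4 * ((1 - s) * τ * (l * a) * (l * Y) / H) -
      l ^ 2 * (1 / 4 * (1 - s) ^ 2 * b + 1 / 2 * (-Y) ^ 2 -
      ((1 - s) * a + 2 * τ * (-Y)) ^ 2 / (16 * H)) =
      l ^ 2 * (1 - s) ^ 2 * a ^ 2 * (1 / 16) * H⁻¹ := by
    ring
  linarith

variable {m : ℕ}

theorem cont_XH (h8 : StOp) {g : Form (m + 1)} (hg : Riem g) : Continuous (XH (Hm g)) := by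
  have h1 : ContDiff ℝ ∞ (Hm g) := (h8 (m + 1) g hg).2.2.2.2.2.2.2.1
  have h2 : Continuous (fderiv ℝ (Hm g)) := h1.continuous_fderiv (by simp)
  unfold XH
  exact (sh.continuous.comp (h2.clm_comp continuous_const)).prodMk
    (sh.continuous.comp (h2.clm_comp continuous_const)).neg

theorem cont_XX (h8 : StOp) {g : Form (m + 1)} (hg : Riem g) {f : W (m + 1) → ℝ}
    (hf : ContDiff ℝ 1 f) : Continuous (XX g f) :=
  (hf.continuous_fderiv (by simp)).clm_apply (cont_XH h8 hg)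

theorem cont_ta : Continuous (ta (m := m)) := by
  unfold ta
  exact (EuclideanSpace.proj (𝕜 := ℝ) (Fin.last m)).continuous.comp continuous_snd

theorem XX_phi (g : Form (m + 1)) {f : W (m + 1) → ℝ} (hf : ContDiff ℝ 1 f) (l : ℝ)
    (z : W (m + 1)) : XX g (fun y => 1 - f y / l) z = -(XX g f z / l) := by
  have h1 : HasFDerivAt f (fderiv ℝ f z) z := (hf.differentiable (by simp) z).hasFDerivAt
  have h2 : HasFDerivAt (fun y => 1 - f y / l) (-(l⁻¹ • fderiv ℝ f z)) z := by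
    have h3 := (h1.const_mul l⁻¹).const_sub 1
    refine h3.congr_of_eventuallyEq (Eventually.of_forall fun y => ?_)
    simp only [div_eq_inv_mul]
  unfold XX
  rw [h2.fderiv]
  simp [div_eq_inv_mul]

/-- integrability on the disk bundle -/
theorem intD (h7 : StSub) {g : Form (m + 1)} (hg : Riem g) {χ : E (m + 1) → ℝ}
    (hχ : Continuous χ) (hχc : HasCompactSupport χ) (hH : Continuous (Hm g))
    {F : W (m + 1) → ℝ} (hF : Measurable F)
    {C : ℝ} (hC : ∀ z : W (m + 1), z.1 ∈ tsupport χ → Hm g z ≤ 1 / 2 → |F z| ≤ C) :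
    IntegrableOn (fun z : W (m + 1) => χ z.1 * F z) (Disk g) := by
  obtain ⟨A, hA⟩ := hχc.exists_bound_of_continuous hχ
  have hc : IsCompact {z : W (m + 1) | z.1 ∈ tsupport χ ∧ Hm g z ≤ 1 / 2} :=
    h7 (m + 1) g hg (tsupport χ) (1 / 2) hχc
  have hm : Measurable (fun z : W (m + 1) => χ z.1 * F z) :=
    (hχ.measurable.comp measurable_fst).mul hF
  have hD : MeasurableSet (Disk g) := (isClosed_le hH continuous_const).measurableSet
  have h1 : IntegrableOn (fun z : W (m + 1) => χ z.1 * F z)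
      {z : W (m + 1) | z.1 ∈ tsupport χ ∧ Hm g z ≤ 1 / 2} := by
    refine Measure.integrableOn_of_bounded (M := A * C) hc.measure_lt_top.ne
      hm.aestronglyMeasurable ?_
    refine (ae_restrict_iff' hc.measurableSet).2 (Eventually.of_forall fun z hz => ?_)
    rw [norm_mul]
    exact mul_le_mul (hA _) (hC z hz.1 hz.2) (norm_nonneg _) ((norm_nonneg _).trans (hA z.1))
  refine h1.of_forall_sdiff_eq_zero hD fun z hz => ?_
  have h2 : z.1 ∉ tsupport χ := fun h => hz.2 ⟨h, hz.1⟩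
  rw [image_eq_zero_of_notMem_tsupport h2, zero_mul]

/-- integrability of continuous functions on the disk bundle -/
theorem intC (h7 : StSub) {g : Form (m + 1)} (hg : Riem g) {χ : E (m + 1) → ℝ}
    (hχ : Continuous χ) (hχc : HasCompactSupport χ) (hH : Continuous (Hm g))
    {F : W (m + 1) → ℝ} (hF : Continuous F) :
    IntegrableOn (fun z : W (m + 1) => χ z.1 * F z) (Disk g) := by
  have hc : IsCompact {z : W (m + 1) | z.1 ∈ tsupport χ ∧ Hm g z ≤ 1 / 2} :=
    h7 (m + 1) g hg (tsupport χ) (1 / 2) hχc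
  obtain ⟨C, hC⟩ := hc.exists_bound_of_continuousOn hF.continuousOn
  exact intD h7 hg hχ hχc hH hF.measurable (C := C) fun z h1 h2 => hC z ⟨h1, h2⟩

/-- integral of a linear combination -/
theorem lin5 {X : Type} [MeasurableSpace X] {μ : Measure X} {a b c d e : X → ℝ}
    (k1 k2 k3 k4 k5 : ℝ) (ha : Integrable a μ) (hb : Integrable b μ) (hc : Integrable c μ)
    (hd : Integrable d μ) (he : Integrable e μ) :
    Integrable (fun x => k1 * a x - k2 * b x + k3 * c x + k4 * d x + k5 * e x) μ ∧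
    ∫ x, (k1 * a x - k2 * b x + k3 * c x + k4 * d x + k5 * e x) ∂μ =
      k1 * (∫ x, a x ∂μ) - k2 * (∫ x, b x ∂μ) + k3 * (∫ x, c x ∂μ) + k4 * (∫ x, d x ∂μ) +
        k5 * (∫ x, e x ∂μ) := by
  have i1 : Integrable (fun x => k1 * a x) μ := ha.const_mul k1
  have i2 : Integrable (fun x => k2 * b x) μ := hb.const_mul k2
  have i3 : Integrable (fun x => k3 * c x) μ := hc.const_mul k3
  have i4 : Integrable (fun x => k4 * d x) μ := hd.const_mul k4
  have i5 : Integrable (fun x => k5 * e x) μ := he.const_mul k5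
  have j1 : Integrable (fun x => k1 * a x - k2 * b x) μ := i1.sub i2
  have j2 : Integrable (fun x => k1 * a x - k2 * b x + k3 * c x) μ := j1.add i3
  have j3 : Integrable (fun x => k1 * a x - k2 * b x + k3 * c x + k4 * d x) μ := j2.add i4
  have j4 : Integrable (fun x => k1 * a x - k2 * b x + k3 * c x + k4 * d x + k5 * e x) μ :=
    j3.add i5
  refine ⟨j4, ?_⟩
  rw [integral_add j3 i5, integral_add j2 i4, integral_add j1 i3, integral_sub i1 i2,
    integral_const_mul, integral_const_mul, integral_const_mul, integral_const_mul,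
    integral_const_mul]

/-- the inequality for one metric -/
theorem one (h1 : StSec) (h2 : StIbp2) (h3 : StDd) (h6 : StBas) (h7 : StSub) (h8 : StOp)
    (h10 : StDde) (h12 : StTay) (G : Type) [Group G] [MulAction G (E (m + 1))]
    (hG : Cocompact (m + 1) G) (hV : Vert (m + 1) G eL) (g : Form (m + 1)) (hg : Riem g)
    (hi : Inv G g) (hmz : Minz g) (hb : Blk g) (χ : E (m + 1) → ℝ) (hχ : PU G χ)
    (f : W (m + 1) → ℝ) (hf : ContDiff ℝ 1 f) (hfi : GInv G g f) (δ l : ℝ) (hδ : 0 < δ)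
    (hl : 0 < l) (hs : ∀ z, f z ≠ 0 → δ ≤ Hm g z ∧ Hm g z ≤ 1 / 2) :
    0 ≤ 1 / 4 * (cn (m + 1) / (m + 1) *
        (l ^ 2 * ∫ x, χ x * ((Pm g x * Pm g x).trace * dens g x))) +
      1 / 2 * (∫ z, χ z.1 * (De f z * (l * d1 g z.1 (vel g z)))) -
      (∫ z, χ z.1 * (f z * (l * qq g z))) +
      1 / 4 * (∫ z, χ z.1 * (f z ^ 2 * d2 g z.1 (vel g z))) +
      1 / 2 * (∫ z, χ z.1 * ((1 - ta z ^ 2 / (2 * Hm g z)) * XX g f z ^ 2)) +
      1 / 4 * (∫ z, χ z.1 * ((1 - f z / l) * ta z *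
        (l * d1 g z.1 (vel g z)) * XX g f z / Hm g z)) := by
  have hH : Continuous (Hm g) := (h8 (m + 1) g hg).2.2.2.2.2.2.2.1.continuous
  have hχ1 : Continuous χ := hχ.smooth.continuous
  obtain ⟨q1, _, _, _, q5, _⟩ := h10 m g hg
  have q1' : Continuous (fun z : W (m + 1) => d1 g z.1 (vel g z)) := q1.continuous
  have hX : Continuous (XX g f) := cont_XX h8 hg hf
  have hfc : Continuous f := hf.continuous
  obtain ⟨_, _, _, _, _, b6, b7, _⟩ := h6 m g hg hb
  -- supports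
  have hcl : ∀ z, z ∈ tsupport f → δ ≤ Hm g z ∧ Hm g z ≤ 1 / 2 := by
    intro z hz
    have h3 : IsClosed {z : W (m + 1) | δ ≤ Hm g z ∧ Hm g z ≤ 1 / 2} :=
      (isClosed_le continuous_const hH).inter (isClosed_le hH continuous_const)
    exact closure_minimal (fun y hy => hs y hy) h3 hz
  have hXs : ∀ z, XX g f z ≠ 0 → δ ≤ Hm g z ∧ Hm g z ≤ 1 / 2 := by
    intro z hz
    refine hcl z (support_fderiv_subset ℝ ?_)
    intro h
    exact hz (by unfold XX; rw [h]; simp)
  -- continuity of the quotients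
  have hmax : ∀ z, 0 < max (Hm g z) δ := fun z => lt_max_of_lt_right hδ
  have hq1 : ∀ z, (1 - ta z ^ 2 / (2 * Hm g z)) * XX g f z ^ 2 =
      (1 - ta z ^ 2 / (2 * max (Hm g z) δ)) * XX g f z ^ 2 := by
    intro z
    by_cases h : XX g f z = 0
    · rw [h]; ring
    · rw [max_eq_left (hXs z h).1]
  have hq2 : ∀ z, (1 - f z / l) * ta z * (l * d1 g z.1 (vel g z)) * XX g f z / Hm g z =
      (1 - f z / l) * ta z * (l * d1 g z.1 (vel g z)) * XX g f z / max (Hm g z) δ := by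
    intro z
    by_cases h : XX g f z = 0
    · rw [h]; simp
    · rw [max_eq_left (hXs z h).1]
  have c4 : Continuous (fun z => (1 - ta z ^ 2 / (2 * Hm g z)) * XX g f z ^ 2) := by
    simp_rw [hq1]
    refine (continuous_const.sub ((cont_ta.pow 2).div₀ (continuous_const.mul
      (hH.max continuous_const)) fun z => ?_)).mul (hX.pow 2)
    exact mul_ne_zero two_ne_zero (hmax z).ne'
  have c5 : Continuous (fun z => (1 - f z / l) * ta z * (l * d1 g z.1 (vel g z)) * XX g f z /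
      Hm g z) := by
    simp_rw [hq2]
    exact ((((continuous_const.sub (hfc.div_const l)).mul cont_ta).mul
      (continuous_const.mul q1')).mul hX).div₀ (hH.max continuous_const) fun z => (hmax z).ne'
  -- the second variation
  have hφ : ContDiff ℝ 1 (fun y => 1 - f y / l) := contDiff_const.sub (hf.div_const l)
  have hφi : GInv G g (fun y => 1 - f y / l) := fun a z => by
    simp only [hfi a z]
  have hsec := h1 m G hG hV g hg hi hmz hb _ hφ hφi χ hχ
  -- integrability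
  have i1 := intC h7 hg hχ1 hχ.cpt hH q5
  have i2 : IntegrableOn (fun z : W (m + 1) => χ z.1 * (f z * d2 g z.1 (vel g z)))
      (Disk g) := intC h7 hg hχ1 hχ.cpt hH (hfc.mul q5)
  have i3 : IntegrableOn (fun z : W (m + 1) => χ z.1 * (f z ^ 2 * d2 g z.1 (vel g z)))
      (Disk g) := intC h7 hg hχ1 hχ.cpt hH ((hfc.pow 2).mul q5)
  have i4 := intC h7 hg hχ1 hχ.cpt hH c4
  have i5 := intC h7 hg hχ1 hχ.cpt hH c5
  have iS : IntegrableOn (fun z : W (m + 1) => χ z.1 * SS g (fun y => 1 - f y / l) z)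
      (Disk g) := by
    have hcX : Continuous (XX g (fun y => 1 - f y / l)) := cont_XX h8 hg hφ
    have hcc : IsCompact {z : W (m + 1) | z.1 ∈ tsupport χ ∧ Hm g z ≤ 1 / 2} :=
      h7 (m + 1) g hg (tsupport χ) (1 / 2) hχ.cpt
    obtain ⟨A, hA⟩ := hcc.exists_bound_of_continuousOn
      (f := fun z : W (m + 1) => 1 / 4 * (1 - f z / l) ^ 2 * d2 g z.1 (vel g z) +
        1 / 2 * XX g (fun y => 1 - f y / l) z ^ 2)
      (((continuous_const.mul ((continuous_const.sub (hfc.div_const l)).pow 2)).mul q5).add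
        (continuous_const.mul (hcX.pow 2))).continuousOn
    obtain ⟨B, hB⟩ := hcc.exists_bound_of_continuousOn
      (f := fun z : W (m + 1) => (1 - f z / l))
      (continuous_const.sub (hfc.div_const l)).continuousOn
    obtain ⟨B', hB'⟩ := hcc.exists_bound_of_continuousOn hcX.continuousOn
    obtain ⟨C, hC, hC'⟩ := h12 m g hg (tsupport χ) hχ.cpt
    refine intD h7 hg hχ1 hχ.cpt hH (C := A + (B ^ 2 * C ^ 2 + B' ^ 2)) ?_ ?_
    · unfold SS
      exact ((((continuous_const.mul ((continuous_const.sub (hfc.div_const l)).pow 2)).mul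
        q5).add (continuous_const.mul (hcX.pow 2))).measurable).sub
        ((((((continuous_const.sub (hfc.div_const l)).mul q1').add
        ((continuous_const.mul cont_ta).mul hcX)).pow 2).measurable).div
        (continuous_const.mul hH).measurable)
    · intro z hz1 hz2
      have e1 := hA z ⟨hz1, hz2⟩
      have e2 := hB z ⟨hz1, hz2⟩
      have e3 := hB' z ⟨hz1, hz2⟩
      have e4 := (hC' z.1 hz1 (vel g z)).1
      rw [b7 z] at e4
      have e5 := (b6 z).1
      have e6 := (b6 z).2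
      unfold SS
      rw [Real.norm_eq_abs] at e1 e2 e3
      refine (abs_sub _ _).trans (add_le_add e1 ?_)
      have e7 : 0 ≤ (((1 - f z / l) * d1 g z.1 (vel g z) +
          2 * ta z * XX g (fun y => 1 - f y / l) z) ^ 2 / (16 * Hm g z)) := by positivity
      rw [abs_of_nonneg e7]
      have e8 : (1 - f z / l) ^ 2 ≤ B ^ 2 := by
        rw [← sq_abs]; exact pow_le_pow_left₀ (abs_nonneg _) e2 2
      have e9 : (XX g (fun y => 1 - f y / l) z) ^ 2 ≤ B' ^ 2 := by
        rw [← sq_abs]; exact pow_le_pow_left₀ (abs_nonneg _) e3 2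
      have e10 : (d1 g z.1 (vel g z)) ^ 2 ≤ (C * (2 * Hm g z)) ^ 2 := by
        rw [← sq_abs]; exact pow_le_pow_left₀ (abs_nonneg _) e4 2
      refine div_le_of_le_mul₀ (by positivity) (by positivity) ?_
      set u := (1 - f z / l) with hu
      set d := d1 g z.1 (vel g z) with hd
      set X := XX g (fun y => 1 - f y / l) z with hX'
      have e11 : (u * d + 2 * ta z * X) ^ 2 ≤ 2 * (u ^ 2 * d ^ 2) + 8 * (ta z ^ 2 * X ^ 2) := by
        nlinarith [sq_nonneg (u * d - 2 * ta z * X)]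
      have e12 : u ^ 2 * d ^ 2 ≤ B ^ 2 * (C * (2 * Hm g z)) ^ 2 :=
        mul_le_mul e8 e10 (sq_nonneg _) (sq_nonneg _)
      have e13 : ta z ^ 2 * X ^ 2 ≤ 2 * Hm g z * B' ^ 2 :=
        mul_le_mul e6 e9 (sq_nonneg _) (by positivity)
      have e14 : (Hm g z) ^ 2 ≤ 1 / 2 * Hm g z := by nlinarith
      have e15 : B ^ 2 * (C * (2 * Hm g z)) ^ 2 ≤ B ^ 2 * C ^ 2 * (2 * Hm g z) := by
        have : B ^ 2 * (C * (2 * Hm g z)) ^ 2 = B ^ 2 * C ^ 2 * 4 * (Hm g z) ^ 2 := by ring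
        rw [this]
        have h5 : B ^ 2 * C ^ 2 * 4 * (Hm g z) ^ 2 ≤ B ^ 2 * C ^ 2 * 4 * (1 / 2 * Hm g z) :=
          mul_le_mul_of_nonneg_left e14 (by positivity)
        linarith
      have e16 : 0 ≤ B ^ 2 * C ^ 2 * Hm g z := by positivity
      nlinarith
  -- pointwise
  have hpt : ∀ z ∈ Disk g, l ^ 2 * (χ z.1 * SS g (fun y => 1 - f y / l) z) ≤
      1 / 4 * l ^ 2 * (χ z.1 * d2 g z.1 (vel g z)) -
      1 / 2 * l * (χ z.1 * (f z * d2 g z.1 (vel g z))) +
      1 / 4 * (χ z.1 * (f z ^ 2 * d2 g z.1 (vel g z))) +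
      1 / 2 * (χ z.1 * ((1 - ta z ^ 2 / (2 * Hm g z)) * XX g f z ^ 2)) +
      1 / 4 * (χ z.1 * ((1 - f z / l) * ta z * (l * d1 g z.1 (vel g z)) * XX g f z /
        Hm g z)) := by
    intro z _
    have e1 := mul_le_mul_of_nonneg_left
      (alg l (f z) (d1 g z.1 (vel g z)) (d2 g z.1 (vel g z)) (XX g f z) (ta z) (Hm g z) hl
        (b6 z).1) (hχ.nonneg z.1)
    unfold SS
    rw [XX_phi g hf l z]
    refine le_of_eq_of_le ?_ (e1.trans (le_of_eq ?_))
    · ring
    · ring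
  obtain ⟨j1, j2⟩ := lin5 (1 / 4 * l ^ 2) (1 / 2 * l) (1 / 4) (1 / 2) (1 / 4) i1 i2 i3 i4 i5
  have hmono := setIntegral_mono_on (iS.const_mul (l ^ 2)) j1
    (isClosed_le hH continuous_const).measurableSet hpt
  rw [integral_const_mul, j2] at hmono
  have h0 : 0 ≤ l ^ 2 * ∫ z in Disk g, χ z.1 * SS g (fun y => 1 - f y / l) z :=
    mul_nonneg (sq_nonneg l) hsec
  have hsplit := h0.trans hmono
  -- from the disk bundle to the whole space
  have f0 : ∀ z, z ∉ Disk g → f z = 0 := fun z hz => by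
    by_contra h
    exact hz (hs z h).2
  have X0 : ∀ z, z ∉ Disk g → XX g f z = 0 := fun z hz => by
    by_contra h
    exact hz (hXs z h).2
  rw [setIntegral_eq_integral_of_forall_compl_eq_zero
      (f := fun z : W (m + 1) => χ z.1 * (f z * d2 g z.1 (vel g z)))
      (fun z hz => by rw [f0 z hz]; ring),
    setIntegral_eq_integral_of_forall_compl_eq_zero
      (f := fun z : W (m + 1) => χ z.1 * (f z ^ 2 * d2 g z.1 (vel g z)))
      (fun z hz => by rw [f0 z hz]; ring),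
    setIntegral_eq_integral_of_forall_compl_eq_zero
      (f := fun z : W (m + 1) => χ z.1 * ((1 - ta z ^ 2 / (2 * Hm g z)) * XX g f z ^ 2))
      (fun z hz => by rw [X0 z hz]; ring),
    setIntegral_eq_integral_of_forall_compl_eq_zero
      (f := fun z : W (m + 1) => χ z.1 * ((1 - f z / l) * ta z * (l * d1 g z.1 (vel g z)) *
        XX g f z / Hm g z))
      (fun z hz => by rw [X0 z hz]; simp)] at hsplit
  have hdd := h3 m G hG hV g hg hi χ hχ
  have hib := h2 m G hG hV g hg hi hb χ hχ f (1 / 2) hf hfi (fun z hz => (hs z hz).2)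
  have k1 : (∫ z : W (m + 1), χ z.1 * (De f z * (l * d1 g z.1 (vel g z)))) =
      l * ∫ z : W (m + 1), χ z.1 * (De f z * d1 g z.1 (vel g z)) := by
    rw [← integral_const_mul]
    exact integral_congr_ae (Eventually.of_forall fun z => by ring)
  have k2 : (∫ z : W (m + 1), χ z.1 * (f z * (l * qq g z))) =
      l * ∫ z : W (m + 1), χ z.1 * (f z * qq g z) := by
    rw [← integral_const_mul]
    exact integral_congr_ae (Eventually.of_forall fun z => by ring)
  rw [k1, k2]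
  rw [hib] at hsplit
  have hdd2 := mul_le_mul_of_nonneg_left hdd (by positivity : (0 : ℝ) ≤ 1 / 4 * l ^ 2)
  refine hsplit.trans (le_of_sub_nonneg ?_)
  have hdd3 := sub_nonneg.2 hdd2
  refine hdd3.trans (le_of_eq ?_)
  ring

end IDREx

theorem pr_Ex (h1 : StSec) (h2 : StIbp2) (h3 : StDd) (h4 : StCvA) (h5 : StLft) (h6 : StBas)
    (h7 : StSub) (h8 : StOp) (h9 : StLftA) (h10 : StDde) (h12 : StTay) : StEx := by
  intro m G _ _ g g0 lam κ S χ hχ f hf
  obtain ⟨δ, hδ, hsupp⟩ := hf.supp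
  obtain ⟨K, hK, hKG⟩ := S.coc.cocompact
  have hQ : IsCompact {z : W (m + 1) | z.1 ∈ K ∧ Hm g0 z ≤ 1 / 4} :=
    h7 (m + 1) g0 S.riem0 K (1 / 4) hK
  have hcv : CC (fun j => Hm (g j)) (Hm g0) := (h4 m G g g0 lam κ S).2.2
  have hε : 0 < min (δ / 2) (1 / 4 : ℝ) := lt_min (by positivity) (by norm_num)
  filter_upwards [hcv.unif hQ hε] with j hj
  obtain ⟨l1, _⟩ := h5 m G S.coc S.vert g0 (g j) S.riem0 (S.riem j) S.inv0 (S.inv j) S.blk0
  have hs : ∀ z, f z ≠ 0 → δ / 2 ≤ Hm (g j) z ∧ Hm (g j) z ≤ 1 / 2 := by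
    intro z hz
    obtain ⟨a, ha⟩ := hKG z.1
    have e1 : Hm g0 (lft g0 a z) = Hm g0 z := (h9 (m + 1) G S.coc g0 S.riem0 S.inv0).2.1 a z
    have e2 : Hm (g j) (lft (g j) a z) = Hm (g j) z :=
      (h9 (m + 1) G S.coc (g j) (S.riem j) (S.inv j)).2.1 a z
    have e3 := hsupp z hz
    have e4 := hj (lft g0 a z) ⟨ha, by rw [e1]; exact e3.2⟩
    rw [← l1 a z, e2, l1 a z, e1, Real.dist_eq, abs_lt] at e4
    have e5 := min_le_left (δ / 2) (1 / 4 : ℝ)
    have e6 := min_le_right (δ / 2) (1 / 4 : ℝ)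
    constructor <;> linarith [e4.1, e4.2, e3.1, e3.2]
  have hfi : GInv G (g j) f := fun a z => by rw [l1 a z]; exact hf.inv a z
  exact IDREx.one h1 h2 h3 h6 h7 h8 h10 h12 G S.coc S.vert (g j) (S.riem j) (S.inv j)
    (S.minz j) (S.blk j) χ hχ f hf.smooth hfi (δ / 2) (lam j) (by positivity) (S.lam_pos j) hs

end Pool.Agent.DR
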