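import Pool.Agent.Work.MP_13b5d9_gt.DR.Stmts

set_option autoImplicit false

/-!
# MP_13b5d9_gt, block DR, item FejA: the averages `VV` as correlations
-/

open MeasureTheory Set Filter Topology
open scoped ContDiff ENNReal
open Pool.Agent.Work.MP_c9f990_an.Al (IsFlow)

namespace Pool.Agent.DR

open Pool.Agent.MLS Pool.Agent.EC

namespace IDRFejA

/-- the one dimensional identity -/
theorem tri (C : ℝ → ℝ) (hC : Continuous C) (R : ℝ) (hR : 0 ≤ R) :
    ∫ t in (0 : ℝ)..R, ∫ s in (0 : ℝ)..R, C (s - t) = ∫ u in (-R)..R, (R - |u|) * C u := by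
  set G : ℝ → ℝ := fun x => ∫ u in (0 : ℝ)..x, C u with hG
  have hGd : ∀ x, HasDerivAt G (C x) x := fun x => (hC.integral_hasStrictDerivAt 0 x).hasDerivAt
  have hGc : Continuous G := continuous_iff_continuousAt.2 fun x => (hGd x).continuousAt
  have hG0 : G 0 = 0 := intervalIntegral.integral_same
  have h1 : ∀ t, ∫ s in (0 : ℝ)..R, C (s - t) = G (R - t) - G (-t) := by
    intro t
    rw [intervalIntegral.integral_comp_sub_right (fun x => C x) t, hG]
    simp only
    rw [intervalIntegral.integral_interval_sub_left (hC.intervalIntegrable _ _)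
      (hC.intervalIntegrable _ _), zero_sub]
  have h2 : ∫ t in (0 : ℝ)..R, (G (R - t) - G (-t)) =
      (∫ x in (0 : ℝ)..R, G x) - ∫ x in (-R)..0, G x := by
    have hx : Continuous fun t => G (R - t) := hGc.comp (by fun_prop)
    have hy : Continuous fun t => G (-t) := hGc.comp (by fun_prop)
    rw [intervalIntegral.integral_sub (hx.intervalIntegrable _ _) (hy.intervalIntegrable _ _),
      intervalIntegral.integral_comp_sub_left (fun x => G x) R,
      intervalIntegral.integral_comp_neg (fun x => G x), sub_self, sub_zero, neg_zero]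
  have h4 : ∫ u in (0 : ℝ)..R, (R - u) * C u = ∫ u in (0 : ℝ)..R, G u := by
    have h : ∫ u in (0 : ℝ)..R, ((-1) * G u + (R - u) * C u) = (R - R) * G R - (R - 0) * G 0 := by
      refine intervalIntegral.integral_eq_sub_of_hasDerivAt
        (f := fun u => (R - u) * G u) (fun u _ => ?_) (Continuous.intervalIntegrable ?_ _ _)
      · have : HasDerivAt (fun u => (R - u) * G u) (-1 * G u + (R - u) * C u) u :=
          ((hasDerivAt_id' u).const_sub R).fun_mul (hGd u)
        exact this
      · fun_prop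
    rw [sub_self, zero_mul, hG0, mul_zero, sub_zero, intervalIntegral.integral_add
      (Continuous.intervalIntegrable (by fun_prop) _ _)
      (Continuous.intervalIntegrable (by fun_prop) _ _),
      intervalIntegral.integral_const_mul] at h
    linarith
  have h5 : ∫ u in (-R)..0, (R + u) * C u = - ∫ u in (-R)..0, G u := by
    have h : ∫ u in (-R)..0, (1 * G u + (R + u) * C u) = (R + 0) * G 0 - (R + -R) * G (-R) := by
      refine intervalIntegral.integral_eq_sub_of_hasDerivAt
        (f := fun u => (R + u) * G u) (fun u _ => ?_) (Continuous.intervalIntegrable ?_ _ _)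
      · have : HasDerivAt (fun u => (R + u) * G u) (1 * G u + (R + u) * C u) u :=
          ((hasDerivAt_id' u).const_add R).fun_mul (hGd u)
        exact this
      · fun_prop
    rw [add_neg_cancel, zero_mul, hG0, mul_zero, sub_zero, intervalIntegral.integral_add
      (Continuous.intervalIntegrable (by fun_prop) _ _)
      (Continuous.intervalIntegrable (by fun_prop) _ _),
      intervalIntegral.integral_const_mul] at h
    linarith
  have h6 : ∫ u in (-R)..R, (R - |u|) * C u =
      (∫ u in (-R)..0, (R + u) * C u) + ∫ u in (0 : ℝ)..R, (R - u) * C u := by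
    have hc : Continuous fun u : ℝ => (R - |u|) * C u := by fun_prop
    rw [← intervalIntegral.integral_add_adjacent_intervals (hc.intervalIntegrable (-R) 0)
      (hc.intervalIntegrable 0 R)]
    congr 1
    · refine intervalIntegral.integral_congr fun u hu => ?_
      rw [uIcc_of_le (by linarith)] at hu
      show (R - |u|) * C u = (R + u) * C u
      rw [abs_of_nonpos hu.2]
      ring
    · refine intervalIntegral.integral_congr fun u hu => ?_
      rw [uIcc_of_le hR] at hu
      show (R - |u|) * C u = (R - u) * C u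
      rw [abs_of_nonneg hu.1]
  simp_rw [h1]
  rw [h2, h6, h4, h5]
  ring

/-- exchange of integrals -/
theorem swap {n : ℕ} (f : ℝ → W n → ℝ) (hf : Continuous (fun p : ℝ × W n => f p.1 p.2))
    {Q : Set (W n)} (hQ : IsCompact Q) (h0 : ∀ t z, z ∉ Q → f t z = 0) (R : ℝ) (hR : 0 ≤ R) :
    ∫ z, ∫ t in (0 : ℝ)..R, f t z = ∫ t in (0 : ℝ)..R, ∫ z, f t z := by
  have h1 : ∀ z, z ∉ Q → ∫ t in (0 : ℝ)..R, f t z = 0 := fun z hz => by
    have : (fun t => f t z) = fun _ => 0 := funext fun t => h0 t z hz
    rw [this, intervalIntegral.integral_zero]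
  have h2 : ∀ t, ∫ z, f t z = ∫ z in Q, f t z := fun t =>
    (setIntegral_eq_integral_of_forall_compl_eq_zero fun z hz => h0 t z hz).symm
  rw [← setIntegral_eq_integral_of_forall_compl_eq_zero (s := Q) (fun z hz => h1 z hz)]
  simp_rw [h2, intervalIntegral.integral_of_le hR]
  refine integral_integral_swap ?_
  rw [Measure.prod_restrict]
  have h3 : Continuous (Function.uncurry fun (z : W n) (t : ℝ) => f t z) :=
    hf.comp (continuous_snd.prodMk continuous_fst)
  exact (h3.continuousOn.integrableOn_compact (hQ.prod isCompact_Icc)).mono_set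
    (prod_mono_right Ioc_subset_Icc_self)

end IDRFejA

open IDRFejA in
theorem pr_FejA (h1 : StUA) (h2 : StWgt) (h4 : StMP) (h6 : StOp)
    (h7 : StEqF) (h8 : StSub) : StFejA := by
  intro m G _ _ hco hve g0 φ M hR0 hInv hB hT hfl χ hχ N c1 c2 hM η θ δ hη hθ hδ R hR
  obtain ⟨hw1, hw2, hw3, hw4, hw5, -, -, -⟩ := h2 m G hco hve g0 φ M hR0 hInv hB hT hfl η θ δ
    hη hθ hδ
  have hwc : Continuous (wgt g0 η θ) := hw1.continuous
  have hχc : Continuous χ := hχ.smooth.continuous
  have hc1 : Continuous c1 := hM.smooth1.continuous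
  have hc2 : Continuous c2 := hM.smooth2.continuous
  have hφ : Continuous (fun p : ℝ × W (m + 1) => φ p.1 p.2) := hfl.cont
  set Q : Set (W (m + 1)) := {z | z.1 ∈ tsupport χ ∧ Hm g0 z ≤ 1 / 4} with hQdef
  have hQ : IsCompact Q := h8 (m + 1) g0 hR0 (tsupport χ) (1 / 4) hχ.cpt
  have hzero : ∀ z : W (m + 1), z ∉ Q → χ z.1 * wgt g0 η θ z = 0 := by
    intro z hz
    by_cases hz1 : z.1 ∈ tsupport χ
    · have hz2 : ¬ Hm g0 z ≤ 1 / 4 := fun h => hz ⟨hz1, h⟩
      have : wgt g0 η θ z = 0 := by
        by_contra hne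
        exact hz2 (hw4 z hne).2
      rw [this, mul_zero]
    · rw [image_eq_zero_of_notMem_tsupport hz1, zero_mul]
  -- the correlation
  set C : ℝ → ℝ := fun u => ∫ z, χ z.1 * (wgt g0 η θ z *
    (c1 (φ u z) * c1 z + c2 (φ u z) * c2 z)) with hCdef
  have hCc : Continuous C := by
    have e : C = fun u => ∫ z in Q, χ z.1 * (wgt g0 η θ z *
        (c1 (φ u z) * c1 z + c2 (φ u z) * c2 z)) := by
      funext u
      refine (setIntegral_eq_integral_of_forall_compl_eq_zero fun z hz => ?_).symm
      rw [← mul_assoc, hzero z hz, zero_mul]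
    rw [e]
    refine continuous_parametric_integral_of_continuous
      (f := fun u (z : W (m + 1)) => χ z.1 * (wgt g0 η θ z *
        (c1 (φ u z) * c1 z + c2 (φ u z) * c2 z))) ?_ hQ
    have q1 : Continuous fun p : ℝ × W (m + 1) => χ p.2.1 :=
      hχc.comp (continuous_fst.comp continuous_snd)
    have q2 : Continuous fun p : ℝ × W (m + 1) => wgt g0 η θ p.2 := hwc.comp continuous_snd
    have q3 : Continuous fun p : ℝ × W (m + 1) => c1 (φ p.1 p.2) := hc1.comp hφ
    have q4 : Continuous fun p : ℝ × W (m + 1) => c1 p.2 := hc1.comp continuous_snd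
    have q5 : Continuous fun p : ℝ × W (m + 1) => c2 (φ p.1 p.2) := hc2.comp hφ
    have q6 : Continuous fun p : ℝ × W (m + 1) => c2 p.2 := hc2.comp continuous_snd
    exact q1.mul (q2.mul ((q3.mul q4).add (q5.mul q6)))
  -- shift
  have hshift : ∀ s t : ℝ, ∫ z, χ z.1 * (wgt g0 η θ z *
      (c1 (φ s z) * c1 (φ t z) + c2 (φ s z) * c2 (φ t z))) = C (s - t) := by
    intro s t
    set F : W (m + 1) → ℝ := fun y => wgt g0 η θ y *
      (c1 (φ (s - t) y) * c1 y + c2 (φ (s - t) y) * c2 y) with hF
    have hφt : ∀ r, Continuous (φ r) := fun r =>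
      hφ.comp (continuous_const.prodMk continuous_id)
    have hinv1 : ∀ r z, φ r (φ (-r) z) = z := fun r z => by
      rw [← hfl.add, add_neg_cancel, hfl.zero]
    have hinv2 : ∀ r z, φ (-r) (φ r z) = z := fun r z => by
      rw [← hfl.add, neg_add_cancel, hfl.zero]
    have hFc : Continuous F := hwc.mul (((hc1.comp (hφt _)).mul hc1).add
      ((hc2.comp (hφt _)).mul hc2))
    have hFi : ∀ (a : G) (z : W (m + 1)), F (lft g0 a z) = F z := by
      intro a z
      simp only [hF]
      rw [hw2 a z, h7 (m + 1) G hco g0 hR0 hInv φ M hfl a (s - t) z, hM.inv1 a z, hM.inv2 a z,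
        hM.inv1 a, hM.inv2 a]
    have hFs : ∀ z, F z ≠ 0 → Hm g0 z ≤ 1 / 4 := fun z hz =>
      (hw4 z (left_ne_zero_of_mul hz)).2
    have hFs' : ∀ z, F (φ t z) ≠ 0 → Hm g0 z ≤ 1 / 4 := fun z hz => by
      have := left_ne_zero_of_mul hz
      rw [hw5 t z] at this
      exact (hw4 z this).2
    have hmp := h4 (m + 1) (Hm g0) φ M (h6 (m + 1) g0 hR0).2.2.2.2.2.2.2.1 hfl t
    have hUA := h1 (m + 1) G hco g0 hR0 hInv χ hχ (φ t) (φ (-t)) (hφt t) (hφt (-t))
      (hinv1 t) (hinv2 t) hmp (fun a z => h7 (m + 1) G hco g0 hR0 hInv φ M hfl a t z) F (1 / 4)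
      hFc hFi hFs hFs'
    have e1 : ∀ z, F (φ t z) = wgt g0 η θ z *
        (c1 (φ s z) * c1 (φ t z) + c2 (φ s z) * c2 (φ t z)) := by
      intro z
      simp only [hF]
      rw [hw5 t z, ← hfl.add, sub_add_cancel]
    simp_rw [e1] at hUA
    exact hUA
  -- continuity of the integrals along the orbits
  set I1 : W (m + 1) → ℝ := fun z => ∫ s in (0 : ℝ)..R, c1 (φ s z) with hI1
  set I2 : W (m + 1) → ℝ := fun z => ∫ s in (0 : ℝ)..R, c2 (φ s z) with hI2
  have hφ' : Continuous (fun p : W (m + 1) × ℝ => φ p.2 p.1) :=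
    hφ.comp (continuous_snd.prodMk continuous_fst)
  have hI1c : Continuous I1 :=
    intervalIntegral.continuous_parametric_intervalIntegral_of_continuous'
      (f := fun z s => c1 (φ s z)) (hc1.comp hφ') 0 R
  have hI2c : Continuous I2 :=
    intervalIntegral.continuous_parametric_intervalIntegral_of_continuous'
      (f := fun z s => c2 (φ s z)) (hc2.comp hφ') 0 R
  have hcz : ∀ (c : W (m + 1) → ℝ), Continuous c → ∀ z, Continuous fun s => c (φ s z) :=
    fun c hc z => hc.comp (hφ.comp (continuous_id.prodMk continuous_const))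
  have p1 : Continuous fun p : ℝ × W (m + 1) => χ p.2.1 :=
    hχc.comp (continuous_fst.comp continuous_snd)
  have p2 : Continuous fun p : ℝ × W (m + 1) => wgt g0 η θ p.2 := hwc.comp continuous_snd
  have p3 : Continuous fun p : ℝ × W (m + 1) => c1 (φ p.1 p.2) := hc1.comp hφ
  have p5 : Continuous fun p : ℝ × W (m + 1) => c2 (φ p.1 p.2) := hc2.comp hφ
  -- first exchange
  have s1 : VV χ g0 η θ φ c1 c2 R = ∫ z, ∫ t in (0 : ℝ)..R, χ z.1 * (wgt g0 η θ z *
      (I1 z * c1 (φ t z) + I2 z * c2 (φ t z))) := by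
    rw [VV]
    refine integral_congr_ae (Eventually.of_forall fun z => ?_)
    simp only
    rw [intervalIntegral.integral_const_mul, intervalIntegral.integral_const_mul,
      intervalIntegral.integral_add
        (((hcz c1 hc1 z).intervalIntegrable _ _).const_mul _)
        (((hcz c2 hc2 z).intervalIntegrable _ _).const_mul _),
      intervalIntegral.integral_const_mul, intervalIntegral.integral_const_mul]
    simp only [hI1, hI2]
    ring
  have s2 : ∫ z, ∫ t in (0 : ℝ)..R, χ z.1 * (wgt g0 η θ z *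
      (I1 z * c1 (φ t z) + I2 z * c2 (φ t z))) = ∫ t in (0 : ℝ)..R, ∫ z, χ z.1 * (wgt g0 η θ z *
      (I1 z * c1 (φ t z) + I2 z * c2 (φ t z))) := by
    refine swap (fun t z => χ z.1 * (wgt g0 η θ z *
      (I1 z * c1 (φ t z) + I2 z * c2 (φ t z)))) ?_ hQ (fun t z hz => ?_) R hR
    · exact p1.mul (p2.mul (((hI1c.comp continuous_snd).mul p3).add
        ((hI2c.comp continuous_snd).mul p5)))
    · rw [← mul_assoc, hzero z hz, zero_mul]
  -- second exchange
  have s3 : ∀ t, ∫ z, χ z.1 * (wgt g0 η θ z * (I1 z * c1 (φ t z) + I2 z * c2 (φ t z))) =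
      ∫ s in (0 : ℝ)..R, C (s - t) := by
    intro t
    have a1 : ∫ z, χ z.1 * (wgt g0 η θ z * (I1 z * c1 (φ t z) + I2 z * c2 (φ t z))) =
        ∫ z, ∫ s in (0 : ℝ)..R, χ z.1 * (wgt g0 η θ z *
          (c1 (φ s z) * c1 (φ t z) + c2 (φ s z) * c2 (φ t z))) := by
      refine integral_congr_ae (Eventually.of_forall fun z => ?_)
      simp only
      rw [intervalIntegral.integral_const_mul, intervalIntegral.integral_const_mul,
        intervalIntegral.integral_add
          (((hcz c1 hc1 z).intervalIntegrable _ _).mul_const _)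
          (((hcz c2 hc2 z).intervalIntegrable _ _).mul_const _),
        intervalIntegral.integral_mul_const, intervalIntegral.integral_mul_const]
    have a2 : ∫ z, ∫ s in (0 : ℝ)..R, χ z.1 * (wgt g0 η θ z *
          (c1 (φ s z) * c1 (φ t z) + c2 (φ s z) * c2 (φ t z))) =
        ∫ s in (0 : ℝ)..R, ∫ z, χ z.1 * (wgt g0 η θ z *
          (c1 (φ s z) * c1 (φ t z) + c2 (φ s z) * c2 (φ t z))) := by
      refine swap (fun s z => χ z.1 * (wgt g0 η θ z *
          (c1 (φ s z) * c1 (φ t z) + c2 (φ s z) * c2 (φ t z)))) ?_ hQ (fun s z hz => ?_) R hR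
      · have hφt : Continuous fun p : ℝ × W (m + 1) => φ t p.2 :=
          hφ.comp (continuous_const.prodMk continuous_snd)
        exact p1.mul (p2.mul ((p3.mul (hc1.comp hφt)).add (p5.mul (hc2.comp hφt))))
      · rw [← mul_assoc, hzero z hz, zero_mul]
    rw [a1, a2]
    exact intervalIntegral.integral_congr fun s _ => hshift s t
  rw [s1, s2]
  simp_rw [s3]
  exact tri C hCc R hR

end Pool.Agent.DR
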