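import Mathlib
import Pool.Agent.Work.MP_13b5d9_gt.DR.Stmts

set_option autoImplicit false

/-!
# MP_13b5d9_gt, block DR, item FejB
-/

open MeasureTheory Set Filter Topology
open scoped ContDiff ENNReal
open Pool.Agent.Work.MP_c9f990_an.Al (IsFlow)

namespace Pool.Agent.DR

open Pool.Agent.MLS Pool.Agent.EC

namespace IDRFejB

theorem ivl (R : ℝ) (hR : 0 ≤ R) (G : ℝ → ℝ) :
    ∫ u in (-R)..R, (R - |u|) * G u = ∫ u, max (R - |u|) 0 * G u := by
  rw [intervalIntegral.integral_of_le (by linarith)]
  have h1 : ∫ u in Ioc (-R) R, (R - |u|) * G u = ∫ u in Ioc (-R) R, max (R - |u|) 0 * G u := by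
    apply setIntegral_congr_fun measurableSet_Ioc
    intro u hu
    have h2 : |u| ≤ R := abs_le.mpr ⟨hu.1.le, hu.2⟩
    simp only
    rw [max_eq_left (by linarith)]
  rw [h1]
  apply setIntegral_eq_integral_of_forall_compl_eq_zero
  intro u hu
  have h2 : R ≤ |u| := by
    by_contra hcon
    push Not at hcon
    rw [abs_lt] at hcon
    exact hu ⟨hcon.1, hcon.2.le⟩
  rw [max_eq_right (by linarith), zero_mul]

end IDRFejB

open IDRFejB

theorem pr_FejB (h1 : StFejA) (h2 : StWgt) (h3 : StSub) : StFejB := by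
  intro m G _ _ hG hV g0 φ M hR hI hB hT hφ χ hχ N c1 c2 hm η θ δ hη hθ hδ R hR0
  rw [h1 m G hG hV g0 φ M hR hI hB hT hφ χ hχ N c1 c2 hm η θ δ hη hθ hδ R hR0]
  obtain ⟨w1, w2, w3, w4, w5, w6, w7, w8⟩ := h2 m G hG hV g0 φ M hR hI hB hT hφ η θ δ hη hθ hδ
  rw [ivl R hR0]
  have hc1 : Continuous c1 := hm.smooth1.continuous
  have hc2 : Continuous c2 := hm.smooth2.continuous
  have hw : Continuous (wgt g0 η θ) := w1.continuous
  have hχc : Continuous χ := hχ.smooth.continuous
  set F : ℝ → W (m + 1) → ℝ := fun u z => max (R - |u|) 0 *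
    (χ z.1 * (wgt g0 η θ z * (c1 (φ u z) * c1 z + c2 (φ u z) * c2 z))) with hF
  have hcont : Continuous F.uncurry := by
    have e1 : Continuous (fun p : ℝ × W (m + 1) => c1 (φ p.1 p.2)) := hc1.comp hφ.cont
    have e2 : Continuous (fun p : ℝ × W (m + 1) => c2 (φ p.1 p.2)) := hc2.comp hφ.cont
    have e3 : Continuous (fun p : ℝ × W (m + 1) => c1 p.2) := hc1.comp continuous_snd
    have e4 : Continuous (fun p : ℝ × W (m + 1) => c2 p.2) := hc2.comp continuous_snd
    have e5 : Continuous (fun p : ℝ × W (m + 1) => wgt g0 η θ p.2) := hw.comp continuous_snd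
    have e6 : Continuous (fun p : ℝ × W (m + 1) => χ p.2.1) :=
      hχc.comp (continuous_fst.comp continuous_snd)
    have e7 : Continuous (fun p : ℝ × W (m + 1) => max (R - |p.1|) 0) :=
      (continuous_const.sub continuous_fst.abs).max continuous_const
    exact e7.mul (e6.mul (e5.mul ((e1.mul e3).add (e2.mul e4))))
  have hcs : HasCompactSupport F.uncurry := by
    have hQ : IsCompact {z : W (m + 1) | z.1 ∈ tsupport χ ∧ Hm g0 z ≤ 1 / 4} :=
      h3 (m + 1) g0 hR (tsupport χ) (1 / 4) hχ.cpt
    apply HasCompactSupport.intro ((isCompact_Icc (a := -R) (b := R)).prod hQ)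
    rintro ⟨u, z⟩ hu
    show max (R - |u|) 0 *
      (χ z.1 * (wgt g0 η θ z * (c1 (φ u z) * c1 z + c2 (φ u z) * c2 z))) = 0
    by_cases hu1 : |u| ≤ R
    · by_cases hz1 : z.1 ∈ tsupport χ
      · have hw0 : wgt g0 η θ z = 0 := by
          by_contra hne
          exact hu ⟨abs_le.mp hu1, hz1, (w4 z hne).2⟩
        rw [hw0, zero_mul, mul_zero, mul_zero]
      · rw [image_eq_zero_of_notMem_tsupport hz1, zero_mul, mul_zero]
    · rw [max_eq_right (by linarith [not_le.mp hu1]), zero_mul]
  calc ∫ u, max (R - |u|) 0 *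
        ∫ z, χ z.1 * (wgt g0 η θ z * (c1 (φ u z) * c1 z + c2 (φ u z) * c2 z))
      = ∫ u, ∫ z, F u z := by
        congr 1
        ext u
        rw [← integral_const_mul]
    _ = ∫ z, ∫ u, F u z := integral_integral_swap_of_hasCompactSupport hcont hcs
    _ = ∫ z, χ z.1 * (tent g0 η θ φ R c1 z * c1 z + tent g0 η θ φ R c2 z * c2 z) := by
        congr 1
        ext z
        have e0 : ∫ u, F u z = ∫ u in (-R)..R, (R - |u|) *
            (χ z.1 * (wgt g0 η θ z * (c1 (φ u z) * c1 z + c2 (φ u z) * c2 z))) :=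
          (ivl R hR0 _).symm
        rw [e0]
        have hφz : Continuous (fun u : ℝ => φ u z) :=
          hφ.cont.comp (continuous_id.prodMk continuous_const)
        have i1 : IntervalIntegrable (fun u : ℝ => (χ z.1 * wgt g0 η θ z * c1 z) *
            ((R - |u|) * c1 (φ u z))) volume (-R) R := by
          apply Continuous.intervalIntegrable
          exact continuous_const.mul
            ((continuous_const.sub continuous_abs).mul (hc1.comp hφz))
        have i2 : IntervalIntegrable (fun u : ℝ => (χ z.1 * wgt g0 η θ z * c2 z) *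
            ((R - |u|) * c2 (φ u z))) volume (-R) R := by
          apply Continuous.intervalIntegrable
          exact continuous_const.mul
            ((continuous_const.sub continuous_abs).mul (hc2.comp hφz))
        have e1 : ∫ u in (-R)..R, (R - |u|) *
            (χ z.1 * (wgt g0 η θ z * (c1 (φ u z) * c1 z + c2 (φ u z) * c2 z))) =
            ∫ u in (-R)..R, ((χ z.1 * wgt g0 η θ z * c1 z) * ((R - |u|) * c1 (φ u z)) +
              (χ z.1 * wgt g0 η θ z * c2 z) * ((R - |u|) * c2 (φ u z))) := by
          congr 1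
          ext u
          ring
        rw [e1, intervalIntegral.integral_add i1 i2, intervalIntegral.integral_const_mul,
          intervalIntegral.integral_const_mul]
        unfold tent
        ring

end Pool.Agent.DR
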