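import Mathlib
import Pool.Agent.Work.MP_13b5d9_gt.DR.Stmts

set_option autoImplicit false

/-!
# MP_13b5d9_gt, block DR, item FejC
-/

open MeasureTheory Set Filter Topology
open scoped ContDiff ENNReal
open Pool.Agent.Work.MP_c9f990_an.Al (IsFlow)

namespace Pool.Agent.DR

open Pool.Agent.MLS Pool.Agent.EC

namespace IDRFejC

/-- integrals along the orbits are continuous -/
theorem cont {m : ℕ} {φ : ℝ → W (m + 1) → W (m + 1)}
    (hφ : Continuous (fun p : ℝ × W (m + 1) => φ p.1 p.2)) {c : W (m + 1) → ℝ}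
    (hc : Continuous c) (a b : ℝ) : Continuous (fun z => ∫ s in a..b, c (φ s z)) := by
  apply intervalIntegral.continuous_parametric_intervalIntegral_of_continuous'
  have e : Continuous (fun p : W (m + 1) × ℝ => (p.2, p.1)) := continuous_snd.prodMk continuous_fst
  exact hc.comp (hφ.comp e)

end IDRFejC

open IDRFejC

theorem pr_FejC (h1 : StUA) (h2 : StWgt) (h4 : StMP) (h6 : StOp) (h7 : StEqF) (h8 : StSub) :
    StFejC := by
  intro m G _ _ hG hV g0 φ M hR hI hB hT hφ χ hχ N c1 c2 hm η θ δ hη hθ hδ R hR0 C hC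
  obtain ⟨w1, w2, w3, w4, w5, w6, w7, w8⟩ := h2 m G hG hV g0 φ M hR hI hB hT hφ η θ δ hη hθ hδ
  have hc1 : Continuous c1 := hm.smooth1.continuous
  have hc2 : Continuous c2 := hm.smooth2.continuous
  have hw : Continuous (wgt g0 η θ) := w1.continuous
  have hχc : Continuous χ := hχ.smooth.continuous
  have hχf : Continuous (fun z : W (m + 1) => χ z.1) := hχc.comp continuous_fst
  set A1 : W (m + 1) → ℝ := fun z => ∫ s in (0 : ℝ)..R, c1 (φ s z) with hA1
  set A : W (m + 1) → ℝ := fun z => ∫ s in (0 : ℝ)..R, c2 (φ s z) with hA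
  set B : W (m + 1) → ℝ := fun z => ∫ s in (-R)..0, c2 (φ s z) with hBd
  have kA1 : Continuous A1 := cont hφ.cont hc1 0 R
  have kA : Continuous A := cont hφ.cont hc2 0 R
  have kB : Continuous B := cont hφ.cont hc2 (-R) 0
  have hC0 : 0 ≤ C := (w3 0).trans (hC 0)
  have hQ : IsCompact {z : W (m + 1) | z.1 ∈ tsupport χ ∧ Hm g0 z ≤ 1 / 4} :=
    h8 (m + 1) g0 hR (tsupport χ) (1 / 4) hχ.cpt
  have hint : ∀ f : W (m + 1) → ℝ, Continuous f →
      Integrable (fun z => χ z.1 * (wgt g0 η θ z * f z)) := by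
    intro f hf
    apply (hχf.mul (hw.mul hf)).integrable_of_hasCompactSupport
    apply HasCompactSupport.intro hQ
    intro z hz
    show χ z.1 * (wgt g0 η θ z * f z) = 0
    by_cases hz1 : z.1 ∈ tsupport χ
    · have hw0 : wgt g0 η θ z = 0 := by
        by_contra hne
        exact hz ⟨hz1, (w4 z hne).2⟩
      rw [hw0, zero_mul, mul_zero]
    · rw [image_eq_zero_of_notMem_tsupport hz1, zero_mul]
  -- the average of `B ^ 2` is the average of `A ^ 2`
  have hBA : ∀ z, B (φ R z) = A z := by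
    intro z
    show ∫ s in (-R)..0, c2 (φ s (φ R z)) = ∫ s in (0 : ℝ)..R, c2 (φ s z)
    have e1 : ∫ s in (-R)..0, c2 (φ s (φ R z)) = ∫ s in (-R)..0, c2 (φ (s + R) z) := by
      congr 1
      ext s
      rw [hφ.add]
    rw [e1, intervalIntegral.integral_comp_add_right (fun s => c2 (φ s z)) R]
    simp
  have hU : ∫ z, χ z.1 * (wgt g0 η θ z * A z ^ 2) = ∫ z, χ z.1 * (wgt g0 η θ z * B z ^ 2) := by
    have e0 : ∀ (s : ℝ) (z : W (m + 1)), φ s (φ (-s) z) = z := by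
      intro s z
      rw [← hφ.add, add_neg_cancel, hφ.zero]
    have e0' : ∀ (s : ℝ) (z : W (m + 1)), φ (-s) (φ s z) = z := by
      intro s z
      rw [← hφ.add, neg_add_cancel, hφ.zero]
    have e1 := h1 (m + 1) G hG g0 hR hI χ hχ (φ R) (φ (-R))
      (hφ.cont.comp (continuous_const.prodMk continuous_id))
      (hφ.cont.comp (continuous_const.prodMk continuous_id)) (e0 R) (e0' R)
      (h4 (m + 1) (Hm g0) φ M (h6 (m + 1) g0 hR).2.2.2.2.2.2.2.1 hφ R)
      (fun a z => h7 (m + 1) G hG g0 hR hI φ M hφ a R z)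
      (fun z => wgt g0 η θ z * B z ^ 2) (1 / 4) (hw.mul (kB.pow 2)) ?_ ?_ ?_
    · rw [← e1]
      congr 1
      ext z
      rw [hBA, w5]
    · intro a z
      show wgt g0 η θ (lft g0 a z) * (∫ s in (-R)..0, c2 (φ s (lft g0 a z))) ^ 2 =
        wgt g0 η θ z * (∫ s in (-R)..0, c2 (φ s z)) ^ 2
      rw [w2 a z]
      congr 2
      congr 1
      ext s
      rw [h7 (m + 1) G hG g0 hR hI φ M hφ a s z, hm.inv2 a]
    · intro z hz
      exact (w4 z (left_ne_zero_of_mul hz)).2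
    · intro z hz
      have h := left_ne_zero_of_mul hz
      rw [w5] at h
      exact (w4 z h).2
  have i1 := hint (fun z => A z ^ 2) (kA.pow 2)
  have i2 := hint (fun z => B z ^ 2) (kB.pow 2)
  have i3 := hint (fun z => A1 z ^ 2 + A z ^ 2) ((kA1.pow 2).add (kA.pow 2))
  have i4 : Integrable (fun z => χ z.1 * (wgt g0 η θ z * (A z - B z)) ^ 2) := by
    have h := hint (fun z => wgt g0 η θ z * (A z - B z) ^ 2) (hw.mul ((kA.sub kB).pow 2))
    refine h.congr (Eventually.of_forall fun z => ?_)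
    show χ z.1 * (wgt g0 η θ z * (wgt g0 η θ z * (A z - B z) ^ 2)) =
      χ z.1 * (wgt g0 η θ z * (A z - B z)) ^ 2
    ring
  have s1 : ∫ z, χ z.1 * (wgt g0 η θ z * (A z - B z)) ^ 2 ≤
      ∫ z, (2 * C * (χ z.1 * (wgt g0 η θ z * A z ^ 2)) +
        2 * C * (χ z.1 * (wgt g0 η θ z * B z ^ 2))) := by
    apply integral_mono i4 ((i1.const_mul _).add (i2.const_mul _))
    intro z
    show χ z.1 * (wgt g0 η θ z * (A z - B z)) ^ 2 ≤
      2 * C * (χ z.1 * (wgt g0 η θ z * A z ^ 2)) + 2 * C * (χ z.1 * (wgt g0 η θ z * B z ^ 2))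
    have a1 : (A z - B z) ^ 2 ≤ 2 * A z ^ 2 + 2 * B z ^ 2 := by nlinarith [sq_nonneg (A z + B z)]
    have a2 : wgt g0 η θ z ^ 2 ≤ C * wgt g0 η θ z := by
      rw [sq]
      exact mul_le_mul_of_nonneg_right (hC z) (w3 z)
    calc χ z.1 * (wgt g0 η θ z * (A z - B z)) ^ 2
        = χ z.1 * (wgt g0 η θ z ^ 2 * (A z - B z) ^ 2) := by ring
      _ ≤ χ z.1 * ((C * wgt g0 η θ z) * (2 * A z ^ 2 + 2 * B z ^ 2)) := by
          apply mul_le_mul_of_nonneg_left _ (hχ.nonneg z.1)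
          exact mul_le_mul a2 a1 (sq_nonneg _) (mul_nonneg hC0 (w3 z))
      _ = _ := by ring
  rw [integral_add (i1.const_mul _) (i2.const_mul _), integral_const_mul, integral_const_mul,
    ← hU] at s1
  have s2 : ∫ z, χ z.1 * (wgt g0 η θ z * A z ^ 2) ≤
      ∫ z, χ z.1 * (wgt g0 η θ z * (A1 z ^ 2 + A z ^ 2)) := by
    apply integral_mono i1 i3
    intro z
    apply mul_le_mul_of_nonneg_left _ (hχ.nonneg z.1)
    apply mul_le_mul_of_nonneg_left _ (w3 z)
    linarith [sq_nonneg (A1 z)]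
  have s3 : VV χ g0 η θ φ c1 c2 R = ∫ z, χ z.1 * (wgt g0 η θ z * (A1 z ^ 2 + A z ^ 2)) := rfl
  rw [s3]
  calc ∫ z, χ z.1 * (wgt g0 η θ z * (A z - B z)) ^ 2
      ≤ 2 * C * (∫ z, χ z.1 * (wgt g0 η θ z * A z ^ 2)) +
        2 * C * ∫ z, χ z.1 * (wgt g0 η θ z * A z ^ 2) := s1
    _ = 4 * C * ∫ z, χ z.1 * (wgt g0 η θ z * A z ^ 2) := by ring
    _ ≤ _ := mul_le_mul_of_nonneg_left s2 (by linarith)

end Pool.Agent.DR
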