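import Pool.Agent.Work.MP_13b5d9_gt.DR.Stmts

set_option autoImplicit false

/-!
# MP_13b5d9_gt, block DR, item Fl: Fejer identity and lower bound
-/

open MeasureTheory Set Filter Topology
open scoped ContDiff ENNReal

namespace Pool.Agent.DR

open Pool.Agent.MLS Pool.Agent.EC

namespace IDRFl

/-- the Fejer kernel -/
noncomputable def Fj (a R : ℝ) : ℝ := ∫ u in (-R)..R, (R - |u|) * Real.cos (a * u)

theorem Fj_eq (a R : ℝ) (hR : 0 ≤ R) :
    Fj a R = 2 * ∫ u in (0 : ℝ)..R, (R - u) * Real.cos (a * u) := by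
  have hc : Continuous fun u : ℝ => (R - |u|) * Real.cos (a * u) := by fun_prop
  have h1 : Fj a R = (∫ u in (-R)..0, (R - |u|) * Real.cos (a * u)) +
      ∫ u in (0 : ℝ)..R, (R - |u|) * Real.cos (a * u) := by
    unfold Fj
    rw [intervalIntegral.integral_add_adjacent_intervals (hc.intervalIntegrable _ _)
      (hc.intervalIntegrable _ _)]
  have h2 : (∫ u in (-R)..0, (R - |u|) * Real.cos (a * u)) =
      ∫ u in (0 : ℝ)..R, (R - |u|) * Real.cos (a * u) := by
    have h3 := intervalIntegral.integral_comp_neg (a := 0) (b := R)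
      (fun u : ℝ => (R - |u|) * Real.cos (a * u))
    rw [neg_zero] at h3
    rw [← h3]
    refine intervalIntegral.integral_congr fun u _ => ?_
    show (R - |-u|) * Real.cos (a * -u) = (R - |u|) * Real.cos (a * u)
    rw [abs_neg, mul_neg, Real.cos_neg]
  have h4 : (∫ u in (0 : ℝ)..R, (R - |u|) * Real.cos (a * u)) =
      ∫ u in (0 : ℝ)..R, (R - u) * Real.cos (a * u) := by
    refine intervalIntegral.integral_congr fun u hu => ?_
    rw [uIcc_of_le hR] at hu
    show (R - |u|) * Real.cos (a * u) = (R - u) * Real.cos (a * u)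
    rw [abs_of_nonneg hu.1]
  rw [h1, h2, h4, two_mul]

theorem Fj_nonneg (a R : ℝ) (hR : 0 ≤ R) : 0 ≤ Fj a R := by
  by_cases ha : a = 0
  · unfold Fj
    refine intervalIntegral.integral_nonneg (by linarith) fun u hu => ?_
    rw [ha, zero_mul, Real.cos_zero, mul_one, sub_nonneg]
    exact abs_le.2 ⟨hu.1, hu.2⟩
  · have hd : ∀ u ∈ uIcc 0 R, HasDerivAt (fun u : ℝ => (R - u) * (Real.sin (a * u) / a) -
        Real.cos (a * u) / a ^ 2) ((R - u) * Real.cos (a * u)) u := by
      intro u _
      have h1 : HasDerivAt (fun u : ℝ => a * u) a u := by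
        simpa using (hasDerivAt_id u).const_mul a
      have h2 := (h1.sin.div_const a)
      have h3 := (h1.cos.div_const (a ^ 2))
      have h4 : HasDerivAt (fun u : ℝ => R - u) (-1) u := by
        simpa using (hasDerivAt_id u).const_sub R
      convert! (h4.mul h2).sub h3 using 1
      field_simp
      ring
    have h5 : Continuous fun u : ℝ => (R - u) * Real.cos (a * u) := by fun_prop
    rw [Fj_eq a R hR, intervalIntegral.integral_eq_sub_of_hasDerivAt hd
      (h5.intervalIntegrable _ _)]
    have h6 : ((R - R) * (Real.sin (a * R) / a) - Real.cos (a * R) / a ^ 2) -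
        ((R - 0) * (Real.sin (a * 0) / a) - Real.cos (a * 0) / a ^ 2) =
        (1 - Real.cos (a * R)) / a ^ 2 := by
      rw [mul_zero, Real.sin_zero, Real.cos_zero]
      ring
    rw [h6]
    have h7 := Real.cos_le_one (a * R)
    positivity [sub_nonneg.2 h7]

theorem Fj_ge (a R : ℝ) (hR : 0 ≤ R) (ha : |a| * R ≤ 1) : R ^ 2 / 2 ≤ Fj a R := by
  rw [Fj_eq a R hR]
  have h1 : (∫ u in (0 : ℝ)..R, (R - u) * (1 / 2)) ≤
      ∫ u in (0 : ℝ)..R, (R - u) * Real.cos (a * u) := by
    refine intervalIntegral.integral_mono_on hR ?_ ?_ fun u hu => ?_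
    · exact Continuous.intervalIntegrable (by fun_prop) _ _
    · exact Continuous.intervalIntegrable (by fun_prop) _ _
    · refine mul_le_mul_of_nonneg_left ?_ (sub_nonneg.2 hu.2)
      have h2 : |a * u| ≤ 1 := by
        rw [abs_mul, abs_of_nonneg hu.1]
        exact (mul_le_mul_of_nonneg_left hu.2 (abs_nonneg a)).trans ha
      have h3 : (a * u) ^ 2 ≤ 1 := by
        rw [← sq_abs]
        exact pow_le_one₀ (abs_nonneg _) h2
      have h4 := Real.one_sub_sq_div_two_le_cos (x := a * u)
      linarith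
  have h5 : (∫ u in (0 : ℝ)..R, (R - u) * (1 / 2)) = R ^ 2 / 4 := by
    have hd : ∀ u ∈ uIcc 0 R, HasDerivAt (fun u : ℝ => -((R - u) ^ 2 / 4))
        ((R - u) * (1 / 2)) u := by
      intro u _
      have h4 : HasDerivAt (fun u : ℝ => R - u) (-1) u := by
        simpa using (hasDerivAt_id u).const_sub R
      convert! ((h4.pow 2).div_const 4).neg using 1
      ring
    rw [intervalIntegral.integral_eq_sub_of_hasDerivAt hd
      (Continuous.intervalIntegrable (by fun_prop) _ _)]
    ring
  rw [h5] at h1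
  linarith

end IDRFl

open IDRFl

theorem pr_Fl : StFl := by
  intro η N hN hη h0
  have hNr : (1 : ℝ) ≤ N := by exact_mod_cast hN
  have hηc : Continuous η := hη.smooth.continuous
  -- the neighbourhood of zero
  obtain ⟨δ, hδ, hδη⟩ : ∃ δ > 0, ∀ τ : ℝ, |τ| ≤ δ → η 0 / 2 ≤ η τ := by
    have h1 : ∀ᶠ τ in 𝓝 (0 : ℝ), η 0 / 2 < η τ :=
      (hηc.tendsto 0).eventually (lt_mem_nhds (by linarith))
    obtain ⟨δ, hδ, h2⟩ := Metric.eventually_nhds_iff.1 h1
    refine ⟨δ / 2, by positivity, fun τ hτ => (h2 ?_).le⟩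
    rw [Real.dist_eq, sub_zero]
    linarith
  set e : ℝ := min δ 1 with he
  have hepos : 0 < e := lt_min hδ one_pos
  refine ⟨e * η 0 / (14 * N), by positivity, fun R hR => ?_⟩
  have hR0 : 0 < R := by linarith
  -- the integral over an interval
  have hK : ∀ u, KK η N u = ∫ τ in (-1 : ℝ)..1, η τ * Real.cos (2 * Real.pi * N * (τ * u)) := by
    intro u
    unfold KK
    refine (intervalIntegral.integral_eq_integral_of_support_subset ?_).symm
    intro τ hτ
    have h1 : η τ ≠ 0 := left_ne_zero_of_mul hτ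
    obtain ⟨h2, h3⟩ := hη.supp τ h1
    constructor <;> linarith
  have hcont : Continuous (Function.uncurry fun u τ : ℝ => (R - |u|) *
      (η τ * Real.cos (2 * Real.pi * N * (τ * u)))) := by
    unfold Function.uncurry
    fun_prop
  have hswap : (∫ u in (-R)..R, (R - |u|) * KK η N u) =
      ∫ τ in (-1 : ℝ)..1, η τ * Fj (2 * Real.pi * N * τ) R := by
    have h1 : (∫ u in (-R)..R, (R - |u|) * KK η N u) = ∫ u in (-R)..R, ∫ τ in (-1 : ℝ)..1,
        (R - |u|) * (η τ * Real.cos (2 * Real.pi * N * (τ * u))) := by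
      refine intervalIntegral.integral_congr fun u _ => ?_
      show (R - |u|) * KK η N u = _
      rw [hK u, intervalIntegral.integral_const_mul]
    rw [h1, intervalIntegral_intervalIntegral_swap]
    · refine intervalIntegral.integral_congr fun τ _ => ?_
      show (∫ u in (-R)..R, (R - |u|) * (η τ * Real.cos (2 * Real.pi * N * (τ * u)))) = _
      unfold Fj
      rw [← intervalIntegral.integral_const_mul]
      refine intervalIntegral.integral_congr fun u _ => ?_
      show (R - |u|) * (η τ * Real.cos (2 * Real.pi * N * (τ * u))) =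
        η τ * ((R - |u|) * Real.cos (2 * Real.pi * N * τ * u))
      rw [show 2 * Real.pi * N * (τ * u) = 2 * Real.pi * N * τ * u by ring]
      ring
    · have hi : IntegrableOn (Function.uncurry fun u τ : ℝ => (R - |u|) *
          (η τ * Real.cos (2 * Real.pi * N * (τ * u)))) (uIcc (-R) R ×ˢ uIcc (-1) 1) :=
        hcont.continuousOn.integrableOn_compact (isCompact_uIcc.prod isCompact_uIcc)
      exact hi.mono_set (prod_mono uIoc_subset_uIcc uIoc_subset_uIcc)
  rw [hswap]
  have hFc : Continuous fun τ : ℝ => η τ * Fj (2 * Real.pi * N * τ) R := by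
    refine hηc.mul ?_
    unfold Fj
    refine intervalIntegral.continuous_parametric_intervalIntegral_of_continuous' ?_ _ _
    unfold Function.uncurry
    fun_prop
  set t : ℝ := e / (7 * N * R) with ht
  have hden : (1 : ℝ) ≤ 7 * N * R := by nlinarith
  have htpos : 0 < t := by positivity
  have hte : t ≤ e := div_le_self hepos.le hden
  have ht1 : t ≤ 1 := hte.trans (min_le_right _ _)
  have htδ : t ≤ δ := hte.trans (min_le_left _ _)
  have hnn : ∀ τ, 0 ≤ η τ * Fj (2 * Real.pi * N * τ) R := fun τ =>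
    mul_nonneg (hη.nonneg τ) (Fj_nonneg _ _ hR0.le)
  have h1 : (∫ τ in (-t)..t, η τ * Fj (2 * Real.pi * N * τ) R) ≤
      ∫ τ in (-1 : ℝ)..1, η τ * Fj (2 * Real.pi * N * τ) R :=
    intervalIntegral.integral_mono_interval (by linarith) (by linarith) ht1
      (Eventually.of_forall hnn) (hFc.intervalIntegrable _ _)
  have h2 : (∫ τ in (-t)..t, η 0 / 2 * (R ^ 2 / 2)) ≤
      ∫ τ in (-t)..t, η τ * Fj (2 * Real.pi * N * τ) R := by
    refine intervalIntegral.integral_mono_on (by linarith) ?_ (hFc.intervalIntegrable _ _)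
      fun τ hτ => ?_
    · exact Continuous.intervalIntegrable (by fun_prop) _ _
    · have hτt : |τ| ≤ t := abs_le.2 ⟨hτ.1, hτ.2⟩
      refine mul_le_mul (hδη τ (hτt.trans htδ)) (Fj_ge _ _ hR0.le ?_) (by positivity)
        (hη.nonneg τ)
      have h3 : |2 * Real.pi * N * τ| = 2 * Real.pi * N * |τ| := by
        rw [abs_mul, abs_of_nonneg (by positivity)]
      rw [h3]
      have h4 : 2 * Real.pi * N * |τ| * R ≤ 7 * N * R * t := by
        have h5 : Real.pi < 3.15 := Real.pi_lt_d2
        calc 2 * Real.pi * N * |τ| * R = 2 * Real.pi * (N * R * |τ|) := by ring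
          _ ≤ 7 * (N * R * t) := by
              refine mul_le_mul (by linarith) ?_ (by positivity) (by norm_num)
              exact mul_le_mul_of_nonneg_left hτt (by positivity)
          _ = _ := by ring
      refine h4.trans ?_
      rw [ht, mul_div_cancel₀ _ (by positivity)]
      exact min_le_right _ _
  have h6 : (∫ τ in (-t)..t, η 0 / 2 * (R ^ 2 / 2)) = e * η 0 / (14 * N) * R := by
    rw [intervalIntegral.integral_const, smul_eq_mul, ht]
    field_simp
    ring
  rw [h6] at h2
  exact h2.trans h1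

end Pool.Agent.DR
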