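import Pool.Agent.Work.MP_13b5d9_gt.DR.Stmts

set_option autoImplicit false

/-!
# Item Fou: uniqueness of Fourier series of continuous periodic functions
-/

open MeasureTheory Set Filter Topology
open scoped ContDiff ENNReal

namespace Pool.Agent.DR

open Pool.Agent.MLS Pool.Agent.EC

namespace IDRFou

theorem fourier_eq (n : ℤ) (x : ℝ) :
    (fourier (-n) (x : AddCircle (1 : ℝ)) : ℂ) =
      ((Real.cos (2 * Real.pi * n * x) : ℝ) : ℂ) -
        ((Real.sin (2 * Real.pi * n * x) : ℝ) : ℂ) * Complex.I := by
  rw [fourier_coe_apply]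
  have h : (2 * (Real.pi : ℂ) * Complex.I * ((-n : ℤ) : ℂ) * (x : ℂ) / ((1 : ℝ) : ℂ)) =
      ((-(2 * Real.pi * n * x) : ℝ) : ℂ) * Complex.I := by
    push_cast
    ring
  rw [h, Complex.exp_mul_I, ← Complex.ofReal_cos, ← Complex.ofReal_sin, Real.cos_neg,
    Real.sin_neg]
  push_cast
  ring

end IDRFou

open IDRFou in
/-- item Fou -/
theorem pr_Fou : StFou := by
  intro u hu hper h0 hcos hsin
  have hcos' : ∀ n : ℤ, ∫ s in (0 : ℝ)..1, u s * Real.cos (2 * Real.pi * n * s) = 0 := by
    intro n
    obtain ⟨N, rfl | rfl⟩ := n.eq_nat_or_neg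
    · rcases Nat.eq_zero_or_pos N with rfl | hN
      · simpa using h0
      · simpa using hcos N hN
    · rcases Nat.eq_zero_or_pos N with rfl | hN
      · simpa using h0
      · have h := hcos N hN
        rw [← h]
        congr 1
        funext s
        have : 2 * Real.pi * ((-(N : ℤ) : ℤ) : ℝ) * s = -(2 * Real.pi * N * s) := by
          push_cast
          ring
        rw [this, Real.cos_neg]
  have hsin' : ∀ n : ℤ, ∫ s in (0 : ℝ)..1, u s * Real.sin (2 * Real.pi * n * s) = 0 := by
    intro n
    obtain ⟨N, rfl | rfl⟩ := n.eq_nat_or_neg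
    · rcases Nat.eq_zero_or_pos N with rfl | hN
      · simp
      · simpa using hsin N hN
    · rcases Nat.eq_zero_or_pos N with rfl | hN
      · simp
      · have h := hsin N hN
        have h2 : (fun s : ℝ => u s * Real.sin (2 * Real.pi * ((-(N : ℤ) : ℤ) : ℝ) * s)) =
            fun s => -(u s * Real.sin (2 * Real.pi * N * s)) := by
          funext s
          have : 2 * Real.pi * ((-(N : ℤ) : ℤ) : ℝ) * s = -(2 * Real.pi * N * s) := by
            push_cast
            ring
          rw [this, Real.sin_neg]
          ring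
        rw [h2, intervalIntegral.integral_neg, h, neg_zero]
  have hp : Function.Periodic (fun s : ℝ => (u s : ℂ)) 1 := fun s => by
    show ((u (s + 1) : ℝ) : ℂ) = _
    rw [hper]
  have hcl : Continuous hp.lift := by
    have hq : Topology.IsQuotientMap (fun s : ℝ => (s : AddCircle (1 : ℝ))) :=
      isQuotientMap_quotient_mk'
    rw [hq.continuous_iff]
    exact Complex.continuous_ofReal.comp hu
  let f : C(AddCircle (1 : ℝ), ℂ) := ⟨hp.lift, hcl⟩
  have hf : ∀ s : ℝ, f (s : AddCircle (1 : ℝ)) = (u s : ℂ) := fun s => rfl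
  have hcoef : ∀ n : ℤ, fourierCoeff f n = 0 := by
    intro n
    rw [fourierCoeff_eq_intervalIntegral f n 0, zero_add]
    have h1 : (fun x : ℝ => (fourier (-n) (x : AddCircle (1 : ℝ)) : ℂ) •
        f (x : AddCircle (1 : ℝ))) = fun x : ℝ =>
        ((u x * Real.cos (2 * Real.pi * n * x) : ℝ) : ℂ) -
          ((u x * Real.sin (2 * Real.pi * n * x) : ℝ) : ℂ) * Complex.I := by
      funext x
      rw [fourier_eq, hf, smul_eq_mul]
      push_cast
      ring
    rw [h1, intervalIntegral.integral_sub, intervalIntegral.integral_mul_const,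
      intervalIntegral.integral_ofReal, intervalIntegral.integral_ofReal, hcos' n, hsin' n]
    · simp
    · apply Continuous.intervalIntegrable
      fun_prop
    · apply Continuous.intervalIntegrable
      fun_prop
  have hsum : HasSum (fun i => fourierCoeff f i • fourier i) f := by
    apply hasSum_fourier_series_of_summable
    have : fourierCoeff f = fun _ => 0 := funext hcoef
    rw [this]
    exact summable_zero
  have hzero : f = 0 := by
    have h2 : (fun i : ℤ => fourierCoeff f i • (fourier i : C(AddCircle (1 : ℝ), ℂ))) =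
        fun _ => 0 := by
      funext i
      rw [hcoef]
      ext x
      simp
    rw [h2] at hsum
    exact hsum.unique hasSum_zero
  intro s
  have h3 := hf s
  rw [hzero] at h3
  have h4 : ((u s : ℝ) : ℂ) = 0 := h3.symm
  exact_mod_cast h4

end Pool.Agent.DR
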