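import Pool.Agent.Work.MP_13b5d9_gt.DR.Stmts
import Mathlib

set_option autoImplicit false

/-!
# MP_13b5d9_gt, block DR, item Fub: Fubini for the vertical momentum
-/

open MeasureTheory Set Filter Topology
open scoped ContDiff ENNReal

namespace Pool.Agent.DR

open Pool.Agent.MLS Pool.Agent.EC

namespace IDRFub

variable {m : ℕ}

theorem continuous_ta : Continuous (fun z : W (m + 1) => ta z) := by
  unfold ta
  exact (continuous_apply (Fin.last m)).comp
    ((PiLp.continuous_ofLp 2 (fun _ : Fin (m + 1) => ℝ)).comp continuous_snd)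

theorem ta_Sh (c : ℝ) (z : W (m + 1)) : ta (Sh c z) = ta z + c := by
  simp [ta, Sh, eL, ee]

theorem Sh_eq (c : ℝ) (z : W (m + 1)) : Sh c z = z + ((0 : E (m + 1)), c • (eL : E (m + 1))) := by
  simp [Sh, Prod.ext_iff]

theorem addRight : (volume : Measure (W (m + 1))).IsAddRightInvariant := by
  rw [Measure.volume_eq_prod]
  infer_instance

theorem mem_box {g0 : Form (m + 1)} {F : W (m + 1) → ℝ} {K : Set (E (m + 1))} {a B : ℝ}
    (hFs : ∀ z, F z ≠ 0 → z.1 ∈ K ∧ Hh g0 z ≤ B) {z : W (m + 1)} (hz : F z ≠ 0)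
    (ht : |ta z| ≤ a) : z ∈ {z : W (m + 1) | z.1 ∈ K ∧ Hm g0 z ≤ B + a ^ 2 / 2} := by
  obtain ⟨h1, h2⟩ := hFs z hz
  refine ⟨h1, ?_⟩
  unfold Hh at h2
  have h3 : ta z ^ 2 ≤ a ^ 2 := sq_le_sq' (by linarith [neg_le_of_abs_le ht]) (le_of_abs_le ht)
  linarith

end IDRFub

open IDRFub in
/-- Item Fub. -/
theorem pr_Fub (h3 : StSub) : StFub := by
  intro m g0 hg _ α w0 a hα hw hαs hws hw1 F K B hK hF hSh hFs
  have := addRight (m := m)
  have hta : Continuous (fun z : W (m + 1) => ta z) := continuous_ta
  have hS : IsCompact {z : W (m + 1) | z.1 ∈ K ∧ Hm g0 z ≤ B + a ^ 2 / 2} :=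
    h3 (m + 1) g0 hg K _ hK
  have hΦ : Integrable (Function.uncurry fun (z : W (m + 1)) (c : ℝ) =>
      α (ta z) * w0 (ta z + c) * F z) ((volume : Measure (W (m + 1))).prod volume) := by
    have hc : Continuous (Function.uncurry fun (z : W (m + 1)) (c : ℝ) =>
        α (ta z) * w0 (ta z + c) * F z) := by
      have h1 : Continuous fun p : W (m + 1) × ℝ => ta p.1 := hta.comp continuous_fst
      exact ((hα.comp h1).mul (hw.comp (h1.add continuous_snd))).mul (hF.comp continuous_fst)
    refine hc.integrable_of_hasCompactSupport ?_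
    refine HasCompactSupport.intro (hS.prod (isCompact_Icc (a := -(2 * a)) (b := 2 * a))) ?_
    rintro ⟨z, c⟩ hzc
    by_contra hne
    apply hzc
    simp only [Function.uncurry_apply_pair] at hne
    have hF0 : F z ≠ 0 := right_ne_zero_of_mul hne
    have h1 := left_ne_zero_of_mul hne
    have hα0 := hαs _ (left_ne_zero_of_mul h1)
    have hw0 := hws _ (right_ne_zero_of_mul h1)
    refine ⟨mem_box hFs hF0 hα0, ?_⟩
    rw [abs_le] at hα0 hw0
    constructor
    · show -(2 * a) ≤ c
      linarith [hα0.2, hw0.1]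
    · show c ≤ 2 * a
      linarith [hα0.1, hw0.2]
  have hΨ : Integrable (Function.uncurry fun (z : W (m + 1)) (c : ℝ) =>
      α (ta z - c) * (w0 (ta z) * F z)) ((volume : Measure (W (m + 1))).prod volume) := by
    have hc : Continuous (Function.uncurry fun (z : W (m + 1)) (c : ℝ) =>
        α (ta z - c) * (w0 (ta z) * F z)) := by
      have h1 : Continuous fun p : W (m + 1) × ℝ => ta p.1 := hta.comp continuous_fst
      exact (hα.comp (h1.sub continuous_snd)).mul ((hw.comp h1).mul (hF.comp continuous_fst))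
    refine hc.integrable_of_hasCompactSupport ?_
    refine HasCompactSupport.intro (hS.prod (isCompact_Icc (a := -(2 * a)) (b := 2 * a))) ?_
    rintro ⟨z, c⟩ hzc
    by_contra hne
    apply hzc
    simp only [Function.uncurry_apply_pair] at hne
    have h1 := right_ne_zero_of_mul hne
    have hF0 : F z ≠ 0 := right_ne_zero_of_mul h1
    have hα0 := hαs _ (left_ne_zero_of_mul hne)
    have hw0 := hws _ (left_ne_zero_of_mul h1)
    refine ⟨mem_box hFs hF0 hw0, ?_⟩
    rw [abs_le] at hα0 hw0
    constructor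
    · show -(2 * a) ≤ c
      linarith [hα0.2, hw0.1]
    · show c ≤ 2 * a
      linarith [hα0.1, hw0.2]
  calc ∫ z, α (ta z) * F z
      = ∫ z : W (m + 1), ∫ c : ℝ, α (ta z) * w0 (ta z + c) * F z := by
        refine integral_congr_ae (Eventually.of_forall fun z => ?_)
        have h1 : ∫ c, w0 (ta z + c) = 1 := by
          rw [integral_add_left_eq_self (μ := volume) w0 (ta z)]
          exact hw1
        show α (ta z) * F z = ∫ c : ℝ, α (ta z) * w0 (ta z + c) * F z
        rw [integral_mul_const, integral_const_mul, h1, mul_one]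
    _ = ∫ c : ℝ, ∫ z : W (m + 1), α (ta z) * w0 (ta z + c) * F z :=
        integral_integral_swap hΦ
    _ = ∫ c : ℝ, ∫ z : W (m + 1), α (ta z - c) * (w0 (ta z) * F z) := by
        refine integral_congr_ae (Eventually.of_forall fun c => ?_)
        show ∫ z : W (m + 1), α (ta z) * w0 (ta z + c) * F z =
          ∫ z : W (m + 1), α (ta z - c) * (w0 (ta z) * F z)
        rw [← integral_add_right_eq_self (μ := volume)
          (fun z : W (m + 1) => α (ta z - c) * (w0 (ta z) * F z))
          ((0 : E (m + 1)), c • (eL : E (m + 1)))]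
        refine integral_congr_ae (Eventually.of_forall fun z => ?_)
        show α (ta z) * w0 (ta z + c) * F z = _
        simp only [← Sh_eq, ta_Sh, hSh]
        rw [add_sub_cancel_right]
        ring
    _ = ∫ z : W (m + 1), ∫ c : ℝ, α (ta z - c) * (w0 (ta z) * F z) :=
        (integral_integral_swap hΨ).symm
    _ = ∫ z : W (m + 1), (∫ x, α x) * (w0 (ta z) * F z) := by
        refine integral_congr_ae (Eventually.of_forall fun z => ?_)
        show ∫ c : ℝ, α (ta z - c) * (w0 (ta z) * F z) = (∫ x, α x) * (w0 (ta z) * F z)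
        rw [integral_mul_const, integral_sub_left_eq_self α volume (ta z)]
    _ = (∫ x, α x) * ∫ z, w0 (ta z) * F z := integral_const_mul _ _

end Pool.Agent.DR
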