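import Pool.Agent.Work.MP_13b5d9_gt.DR.Stmts

set_option autoImplicit false

/-!
# MP_13b5d9_gt, block DR, item GB: bounds for invariant functions
-/

open MeasureTheory Set Filter Topology
open scoped ContDiff ENNReal

namespace Pool.Agent.DR

open Pool.Agent.MLS Pool.Agent.EC

/-- Item GB. -/
theorem pr_GB (h1 : StSub) (h2 : StLftA) : StGB := by
  intro n G _ _ hG g hR hI f hf hinv B
  obtain ⟨K, hK, hcov⟩ := hG.cocompact
  have hS : IsCompact {z : W n | z.1 ∈ K ∧ Hm g z ≤ B} := h1 n g hR K B hK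
  obtain ⟨C, hC⟩ := hS.exists_bound_of_continuousOn hf.continuousOn
  refine ⟨|C|, abs_nonneg C, fun z hz => ?_⟩
  obtain ⟨a, ha⟩ := hcov z.1
  have hH : Hm g (lft g a z) = Hm g z := (h2 n G hG g hR hI).2.1 a z
  have hmem : lft g a z ∈ {z : W n | z.1 ∈ K ∧ Hm g z ≤ B} := ⟨ha, by rw [hH]; exact hz⟩
  have h3 := hC _ hmem
  rw [hinv, Real.norm_eq_abs] at h3
  exact h3.trans (le_abs_self C)

end Pool.Agent.DR
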