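import Pool.Agent.Work.MP_13b5d9_gt.DR.Stmts

set_option autoImplicit false

/-!
# MP_13b5d9_gt, block DR, item Gc (the correlation function is continuous and bounded).
Author: helper73
-/

open MeasureTheory Set Filter Topology
open scoped ContDiff

namespace Pool.Agent.DR

open Pool.Agent.MLS Pool.Agent.EC

theorem pr_Gc (h1 : StZt) (h2 : StWgt) (h3 : StSub) (h5 : StGB) : StGc := by
  intro m G _ _ hc hv g0 φ M hg hi hb ht hφ χ hχ N c1 c2 hM θ w0 δ hθ hδ hw
  obtain ⟨ztc, -, -, -, -, -, -, ztH, -, -⟩ := h1 m G hc hv g0 φ M hg hi hb ht hφ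
  obtain ⟨wS, -, wN, wsup, -, -, -, Cw, hCw, hwb⟩ :=
    h2 m G hc hv g0 φ M hg hi hb ht hφ w0 θ δ hw hθ hδ
  obtain ⟨C1, hC1, hC1b⟩ := h5 (m + 1) G hc g0 hg hi c1 hM.smooth1.continuous hM.inv1 (1 / 4)
  obtain ⟨C2, hC2, hC2b⟩ := h5 (m + 1) G hc g0 hg hi c2 hM.smooth2.continuous hM.inv2 (1 / 4)
  obtain ⟨Cχ, hCχ⟩ := hχ.smooth.continuous.bounded_above_of_compact_support hχ.cpt
  set Q : Set (W (m + 1)) := {z | z.1 ∈ tsupport χ ∧ Hm g0 z ≤ 1 / 4} with hQdef
  have hQ : IsCompact Q := h3 (m + 1) g0 hg (tsupport χ) (1 / 4) hχ.cpt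
  set F : ℝ → W (m + 1) → ℝ := fun u z =>
    χ z.1 * (wgt g0 w0 θ z * (c1 (zt φ u z) * c1 z + c2 (zt φ u z) * c2 z)) with hFdef
  have k1 : Continuous c1 := hM.smooth1.continuous
  have k2 : Continuous c2 := hM.smooth2.continuous
  have k3 : Continuous χ := hχ.smooth.continuous
  have k4 : Continuous (wgt g0 w0 θ) := wS.continuous
  have hF : Continuous (Function.uncurry F) := by
    have a1 : Continuous fun p : ℝ × W (m + 1) => χ p.2.1 :=
      k3.comp (continuous_fst.comp continuous_snd)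
    have a2 : Continuous fun p : ℝ × W (m + 1) => wgt g0 w0 θ p.2 := k4.comp continuous_snd
    have a3 : Continuous fun p : ℝ × W (m + 1) => c1 (zt φ p.1 p.2) * c1 p.2 :=
      (k1.comp ztc).mul (k1.comp continuous_snd)
    have a4 : Continuous fun p : ℝ × W (m + 1) => c2 (zt φ p.1 p.2) * c2 p.2 :=
      (k2.comp ztc).mul (k2.comp continuous_snd)
    exact a1.mul (a2.mul (a3.add a4))
  have h0 : ∀ u z, z ∉ Q → F u z = 0 := by
    intro u z hz
    by_contra hne
    apply hz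
    have b1 : χ z.1 ≠ 0 := fun h => hne (by simp only [hFdef, h, zero_mul])
    have b2 : wgt g0 w0 θ z ≠ 0 := fun h => hne (by simp only [hFdef, h, zero_mul, mul_zero])
    exact ⟨subset_tsupport χ b1, (wsup z b2).2⟩
  have e : gam χ g0 w0 θ φ c1 c2 = fun u => ∫ z in Q, F u z := by
    funext u
    rw [setIntegral_eq_integral_of_forall_compl_eq_zero (h0 u)]
    rfl
  refine ⟨?_, ?_⟩
  · rw [e]
    exact continuous_parametric_integral_of_continuous hF hQ
  · refine ⟨(Cχ * (Cw * (C1 * C1 + C2 * C2))) * volume.real Q, fun u => ?_⟩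
    rw [e]
    have hb' : ∀ z ∈ Q, ‖F u z‖ ≤ Cχ * (Cw * (C1 * C1 + C2 * C2)) := by
      intro z hz
      have d1 : |c1 (zt φ u z)| ≤ C1 := hC1b _ (by rw [ztH]; exact hz.2)
      have d2 : |c2 (zt φ u z)| ≤ C2 := hC2b _ (by rw [ztH]; exact hz.2)
      have d3 : |c1 z| ≤ C1 := hC1b _ hz.2
      have d4 : |c2 z| ≤ C2 := hC2b _ hz.2
      have d5 : |wgt g0 w0 θ z| ≤ Cw := by
        rw [abs_of_nonneg (wN z)]
        exact hwb z
      have d6 : |c1 (zt φ u z) * c1 z + c2 (zt φ u z) * c2 z| ≤ C1 * C1 + C2 * C2 := by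
        calc |c1 (zt φ u z) * c1 z + c2 (zt φ u z) * c2 z|
            ≤ |c1 (zt φ u z) * c1 z| + |c2 (zt φ u z) * c2 z| := abs_add_le _ _
          _ ≤ C1 * C1 + C2 * C2 := by
              rw [abs_mul, abs_mul]
              exact add_le_add (mul_le_mul d1 d3 (abs_nonneg _) hC1)
                (mul_le_mul d2 d4 (abs_nonneg _) hC2)
      have d7 : |χ z.1| ≤ Cχ := hCχ z.1
      simp only [hFdef]
      rw [Real.norm_eq_abs, abs_mul, abs_mul]
      exact mul_le_mul d7 (mul_le_mul d5 d6 (abs_nonneg _) hCw.le)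
        (by positivity) ((abs_nonneg _).trans d7)
    have hlt : (volume : Measure (W (m + 1))) Q < ⊤ := hQ.measure_lt_top
    have h6 : ‖∫ z in Q, F u z‖ ≤ (Cχ * (Cw * (C1 * C1 + C2 * C2))) * volume.real Q :=
      norm_setIntegral_le_of_norm_le_const hlt hb'
    exact h6

end Pool.Agent.DR
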