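import Mathlib
import Pool.Agent.Work.MP_13b5d9_gt.DR.Stmts

set_option autoImplicit false

/-!
# [13b5d9 DR Ibp2] integration by parts with the first derivative of the metric
-/

open MeasureTheory Set Filter Topology
open scoped ContDiff ENNReal

namespace Pool.Agent.DR

open Pool.Agent.MLS Pool.Agent.EC

namespace IDRIbp2

/-- products of the weight and a continuous function with support in a sublevel are integrable -/
lemma integ {m : ℕ} (h3 : StSub) {g : Form (m + 1)} (hg : Riem g) {χ : E (m + 1) → ℝ}
    (hχ : Continuous χ) (hc : HasCompactSupport χ) {F : W (m + 1) → ℝ} (hF : Continuous F) {B : ℝ}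
    (hB : ∀ z, F z ≠ 0 → Hm g z ≤ B) :
    Integrable (fun z : W (m + 1) => χ z.1 * F z) := by
  have hcont : Continuous (fun z : W (m + 1) => χ z.1 * F z) :=
    (hχ.comp continuous_fst).mul hF
  apply hcont.integrable_of_hasCompactSupport
  refine HasCompactSupport.of_support_subset_isCompact
    (h3 (m + 1) g hg (tsupport χ) B hc) ?_
  intro z hz
  rw [Function.mem_support] at hz
  have h1 : χ z.1 ≠ 0 := fun h => hz (by rw [h, zero_mul])
  have h2 : F z ≠ 0 := fun h => hz (by rw [h, mul_zero])
  exact ⟨subset_tsupport _ h1, hB z h2⟩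

end IDRIbp2

/-- [13b5d9 DR Ibp2] -/
theorem pr_Ibp2 (h1 : StIbp) (h2 : StDde) (h3 : StSub) (h4 : StOp) : StIbp2 := by
  intro m G _ _ hG hV g hg hi hb χ hχ f B hf hfi hfB
  obtain ⟨d1s, dd, q0, qc, d2c, dinv⟩ := h2 m g hg
  have hHc : Continuous (Hm g) := by
    obtain ⟨_, _, _, _, _, _, _, h, _⟩ := h4 (m + 1) g hg
    exact h.continuous
  have hdi := dinv G hG hV hi
  set D : W (m + 1) → ℝ := fun z => d1 g z.1 (vel g z) with hD
  have hDs : ContDiff ℝ 1 D := d1s.of_le (by norm_num)
  have hDe : Continuous (De f) := by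
    unfold De
    exact (hf.continuous_fderiv (by norm_num)).clm_apply continuous_const
  have hDeB : ∀ z, De f z ≠ 0 → Hm g z ≤ B := by
    intro z hz
    have hz1 : fderiv ℝ f z ≠ 0 := fun h => hz (by simp [De, h])
    have hz2 : z ∈ tsupport f := support_fderiv_subset ℝ hz1
    have hcl : IsClosed {z : W (m + 1) | Hm g z ≤ B} := isClosed_le hHc continuous_const
    exact closure_minimal (fun w hw => hfB w hw) hcl hz2
  have hprod := h1 m G hG hV g hg hi hb χ hχ (fun z => f z * D z) B (hf.mul hDs)
    (fun a z => by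
      show f (lft g a z) * D (lft g a z) = f z * D z
      rw [hfi a z, hdi a z]) (fun z hz => hfB z (left_ne_zero_of_mul hz))
  have hDF : ∀ z, De (fun z => f z * D z) z = De f z * D z + f z * d2 g z.1 (vel g z) -
      2 * (f z * qq g z) := by
    intro z
    have e1 : De (fun z => f z * D z) z = f z * De D z + D z * De f z := by
      unfold De
      rw [fderiv_fun_mul (hf.differentiable (by norm_num) z) (hDs.differentiable (by norm_num) z)]
      simp
    rw [e1, dd z]
    ring
  have i1 : Integrable (fun z : W (m + 1) => χ z.1 * (De f z * D z)) :=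
    IDRIbp2.integ h3 hg hχ.smooth.continuous hχ.cpt (hDe.mul hDs.continuous)
      (fun z hz => hDeB z (left_ne_zero_of_mul hz))
  have i2 : Integrable (fun z : W (m + 1) => χ z.1 * (f z * d2 g z.1 (vel g z))) :=
    IDRIbp2.integ h3 hg hχ.smooth.continuous hχ.cpt (hf.continuous.mul d2c)
      (fun z hz => hfB z (left_ne_zero_of_mul hz))
  have i3 : Integrable (fun z : W (m + 1) => χ z.1 * (f z * qq g z)) :=
    IDRIbp2.integ h3 hg hχ.smooth.continuous hχ.cpt (hf.continuous.mul qc)
      (fun z hz => hfB z (left_ne_zero_of_mul hz))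
  have e2 : ∫ z : W (m + 1), χ z.1 * De (fun z => f z * D z) z =
      (∫ z : W (m + 1), χ z.1 * (De f z * D z)) + (∫ z : W (m + 1), χ z.1 * (f z * d2 g z.1 (vel g z))) -
        2 * ∫ z : W (m + 1), χ z.1 * (f z * qq g z) := by
    rw [← integral_add i1 i2, ← integral_const_mul]
    refine Eq.trans ?_ (integral_sub (i1.add i2) (i3.const_mul 2))
    refine integral_congr_ae (Filter.Eventually.of_forall fun z => ?_)
    simp only [hDF z]
    ring
  rw [e2] at hprod
  linarith

end Pool.Agent.DR
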