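import Pool.Agent.Work.MP_13b5d9_gt.DR.Stmts
import Pool.Agent.Work.MP_25cd3b_gt.M.I_Div
import Pool.Agent.Work.MP_25cd3b_gt.M.I_TrI

set_option autoImplicit false

/-!
# Item Jac (helper61): derivative of `tr(P) dens`
-/

open MeasureTheory Set Filter Topology
open scoped ContDiff ENNReal

namespace Pool.Agent.DR

open Pool.Agent.MLS Pool.Agent.EC

namespace IDRJac

variable {m : ℕ}

/-- The derivative of the matrix in the vertical direction. -/
noncomputable def A1 (g : Form (m + 1)) (y : E (m + 1)) : Matrix (Fin (m + 1)) (Fin (m + 1)) ℝ :=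
  Matrix.of fun i j => fderiv ℝ g.val y eL (ee i) (ee j)

/-- The second derivative of the matrix in the vertical direction. -/
noncomputable def A2 (g : Form (m + 1)) (x : E (m + 1)) : Matrix (Fin (m + 1)) (Fin (m + 1)) ℝ :=
  Matrix.of fun i j => fderiv ℝ (fun y => fderiv ℝ g.val y eL (ee i) (ee j)) x eL

theorem fderiv_gm (g : Form (m + 1)) (x v : E (m + 1)) (i j : Fin (m + 1)) :
    fderiv ℝ (fun y => gm g y i j) x v = fderiv ℝ g.val x v (ee i) (ee j) := by
  have h := ((g.smooth.differentiable (by norm_num)) x).hasFDerivAt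
  have h1 := (h.clm_apply (hasFDerivAt_const (ee i) x)).clm_apply (hasFDerivAt_const (ee j) x)
  have h2 : (fun y => gm g y i j) = fun y => g.val y (ee i) (ee j) := rfl
  rw [h2, h1.fderiv]
  simp

theorem A1_smooth (g : Form (m + 1)) (i j : Fin (m + 1)) :
    ContDiff ℝ ∞ (fun x => A1 g x i j) := by
  have h0 : (fun x => A1 g x i j) = fun x => fderiv ℝ (fun y => gm g y i j) x eL :=
    funext fun x => (fderiv_gm g x eL i j).symm
  have h1 : ContDiff ℝ ∞ (fderiv ℝ (fun y => gm g y i j)) :=
    (ITrI.gm_smooth g i j).fderiv_right (by norm_num)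
  rw [h0]
  exact h1.clm_apply contDiff_const

theorem trP (g : Form (m + 1)) (y : E (m + 1)) :
    (Pm g y).trace = ∑ i, ∑ j, (gm g y)⁻¹ i j * A1 g y j i := by
  have h : Pm g y = (gm g y)⁻¹ * A1 g y := rfl
  rw [h]
  simp [Matrix.trace, Matrix.mul_apply]

theorem trPP (g : Form (m + 1)) (y : E (m + 1)) :
    (Pm g y * Pm g y).trace =
      ∑ i, ∑ j, ((gm g y)⁻¹ * A1 g y * (gm g y)⁻¹) i j * A1 g y j i := by
  have h : Pm g y = (gm g y)⁻¹ * A1 g y := rfl
  rw [h, ← Matrix.mul_assoc]
  simp [Matrix.trace, Matrix.mul_apply]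

end IDRJac

open IDRJac in
theorem pr_Jac (h1 : StDens) : StJac := by
  intro m g hR
  obtain ⟨hpos, hdens, -⟩ := h1 (m + 1) g hR
  have hne : ∀ x, (gm g x).det ≠ 0 := fun x => (hpos x).ne'
  have hsm : ∀ i j, ContDiff ℝ ∞ (fun x => gm g x i j) := ITrI.gm_smooth g
  have hsi : ∀ i j, ContDiff ℝ ∞ (fun x => (gm g x)⁻¹ i j) := ITrI.inv_smooth hsm hne
  have hP : ∀ i j, ContDiff ℝ ∞ (fun x => Pm g x i j) := by
    intro i j
    have h2 : (fun x => Pm g x i j) = fun x => ∑ k, (gm g x)⁻¹ i k * A1 g x k j := by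
      funext x
      exact Matrix.mul_apply
    rw [h2]
    exact ContDiff.sum fun k _ => (hsi i k).mul (A1_smooth g k j)
  have hT : ContDiff ℝ ∞ (fun y => (Pm g y).trace) := by
    simp only [Matrix.trace, Matrix.diag_apply]
    exact ContDiff.sum fun i _ => hP i i
  refine ⟨hT, ?_, ?_⟩
  · simp only [Matrix.trace, Matrix.diag_apply, Matrix.mul_apply]
    exact continuous_finsetSum _ fun i _ => continuous_finsetSum _ fun j _ =>
      (hP i j).continuous.mul (hP j i).continuous
  · intro x
    have hd : ∀ i j, DifferentiableAt ℝ (fun y => gm g y i j) x := fun i j =>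
      ((hsm i j).differentiable (by norm_num)) x
    have hdi : ∀ i j, DifferentiableAt ℝ (fun y => (gm g y)⁻¹ i j) x := fun i j =>
      ((hsi i j).differentiable (by norm_num)) x
    have hd1 : ∀ i j, DifferentiableAt ℝ (fun y => A1 g y i j) x := fun i j =>
      ((A1_smooth g i j).differentiable (by norm_num)) x
    have hTd : DifferentiableAt ℝ (fun y => (Pm g y).trace) x :=
      (hT.differentiable (by norm_num)) x
    have hDd : DifferentiableAt ℝ (dens g) x := (hdens.differentiable (by norm_num)) x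
    have hA1 : (Matrix.of fun i j => fderiv ℝ (fun y => gm g y i j) x eL) = A1 g x := by
      ext i j
      exact fderiv_gm g x eL i j
    -- the derivative of the density
    have e1 : fderiv ℝ (dens g) x eL = 1 / 2 * (Pm g x).trace * dens g x := by
      have h2 : dens g = fun y => Real.sqrt (gm g y).det := rfl
      have h3 : 0 < Real.sqrt (gm g x).det := Real.sqrt_pos.2 (hpos x)
      have h4 : Real.sqrt (gm g x).det * Real.sqrt (gm g x).det = (gm g x).det :=
        Real.mul_self_sqrt (hpos x).le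
      rw [h2, fderiv_sqrt (IDiv.diff_det hd) (hne x), smul_apply, IDiv.fderiv_det hd (hne x),
        smul_eq_mul, hA1]
      have h5 : (gm g x)⁻¹ * A1 g x = Pm g x := rfl
      rw [h5]
      have h6 : 1 / (2 * Real.sqrt (gm g x).det) * (Real.sqrt (gm g x).det *
          Real.sqrt (gm g x).det * (Pm g x).trace) =
          1 / 2 * (Pm g x).trace * Real.sqrt (gm g x).det := by
        field_simp
      rw [h4] at h6
      exact h6
    -- the derivative of the trace
    have e2 : fderiv ℝ (fun y => (Pm g y).trace) x eL =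
        ((gm g x)⁻¹ * A2 g x).trace - (Pm g x * Pm g x).trace := by
      have h2 : (fun y => (Pm g y).trace) = fun y => ∑ i, ∑ j, (gm g y)⁻¹ i j * A1 g y j i :=
        funext fun y => trP g y
      have hk : ∀ i ∈ (Finset.univ : Finset (Fin (m + 1))),
          DifferentiableAt ℝ (fun y => ∑ j, (gm g y)⁻¹ i j * A1 g y j i) x := fun i _ =>
        DifferentiableAt.fun_sum fun j _ => (hdi i j).mul (hd1 j i)
      rw [h2, fderiv_fun_sum hk, sum_apply, trPP]
      have h3 : ((gm g x)⁻¹ * A2 g x).trace = ∑ i, ∑ j, (gm g x)⁻¹ i j * A2 g x j i := by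
        simp [Matrix.trace, Matrix.mul_apply]
      rw [h3, ← Finset.sum_sub_distrib]
      refine Finset.sum_congr rfl fun i _ => ?_
      have hk' : ∀ j ∈ (Finset.univ : Finset (Fin (m + 1))),
          DifferentiableAt ℝ (fun y => (gm g y)⁻¹ i j * A1 g y j i) x := fun j _ =>
        (hdi i j).mul (hd1 j i)
      rw [fderiv_fun_sum hk', sum_apply, ← Finset.sum_sub_distrib]
      refine Finset.sum_congr rfl fun j _ => ?_
      have h4 : fderiv ℝ (fun y => A1 g y j i) x eL = A2 g x j i := rfl
      rw [fderiv_fun_mul (hdi i j) (hd1 j i)]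
      simp only [add_apply, smul_apply, smul_eq_mul]
      rw [IDiv.fderiv_inv hd hne, hA1, h4]
      ring
    rw [fderiv_fun_mul hTd hDd]
    simp only [add_apply, smul_apply, smul_eq_mul]
    rw [e1, e2]
    have h6 : ((gm g x)⁻¹ * Matrix.of fun i j =>
        fderiv ℝ (fun y => fderiv ℝ g.val y eL (ee i) (ee j)) x eL).trace =
        ((gm g x)⁻¹ * A2 g x).trace := rfl
    rw [h6]
    ring

end Pool.Agent.DR
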