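import Pool.Agent.Work.MP_13b5d9_gt.DR.Stmts

set_option autoImplicit false
set_option maxSynthPendingDepth 3

/-!
# MP_13b5d9_gt, block DR: invariance of the trace of the logarithmic derivative
-/

open MeasureTheory Set Filter Topology
open scoped ContDiff ENNReal

namespace Pool.Agent.DR

open Pool.Agent.MLS Pool.Agent.EC

namespace IDRJacI

lemma sum_ee {n : ℕ} (v : E n) : v = ∑ i, v i • ee i := by
  ext j
  simp [ee, Pi.single_apply]

lemma val_expand {n : ℕ} (b : E n →L[ℝ] E n →L[ℝ] ℝ) (u v : E n) :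
    b u v = ∑ i, ∑ j, u i * (b (ee i) (ee j)) * v j := by
  conv_lhs => rw [sum_ee u, sum_ee v]
  simp only [map_sum, map_smul, _root_.sum_apply, _root_.smul_apply,
    smul_eq_mul, Finset.mul_sum]
  rw [Finset.sum_comm]
  refine Finset.sum_congr rfl fun i _ => Finset.sum_congr rfl fun j _ => ?_
  ring

/-- matrix of a linear map -/
noncomputable def mt {n : ℕ} (A : E n →L[ℝ] E n) : Matrix (Fin n) (Fin n) ℝ :=
  Matrix.of fun i j => A (ee j) i

/-- matrix of a bilinear form -/
noncomputable def bmt {n : ℕ} (b : E n →L[ℝ] E n →L[ℝ] ℝ) : Matrix (Fin n) (Fin n) ℝ :=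
  Matrix.of fun i j => b (ee i) (ee j)

lemma bmt_eq {n : ℕ} (b b' : E n →L[ℝ] E n →L[ℝ] ℝ) (A : E n →L[ℝ] E n)
    (h : ∀ u v, b' (A u) (A v) = b u v) : bmt b = (mt A).transpose * bmt b' * mt A := by
  ext i j
  have h := h (ee i) (ee j)
  rw [val_expand] at h
  simp only [bmt, Matrix.of_apply, Matrix.mul_apply, Matrix.transpose_apply, mt, Finset.sum_mul]
  rw [← h, Finset.sum_comm]

/-- derivative along a line -/
lemma line {n : ℕ} (g : Form n) (y e u v : E n) :
    HasDerivAt (fun s : ℝ => g.val (y + s • e) u v) (fderiv ℝ g.val y e u v) 0 := by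
  have h0 : HasFDerivAt g.val (fderiv ℝ g.val y) (y + (0 : ℝ) • e) := by
    rw [zero_smul, add_zero]
    exact (g.smooth.differentiable (by norm_num) y).hasFDerivAt
  have h1 : HasDerivAt (fun s : ℝ => y + s • e) e 0 := by
    simpa using ((hasDerivAt_id (0 : ℝ)).smul_const e).const_add y
  have h2 : HasDerivAt (fun s : ℝ => g.val (y + s • e)) (fderiv ℝ g.val y e) 0 :=
    h0.comp_hasDerivAt (0 : ℝ) h1
  have h3 := (h2.clm_apply (hasDerivAt_const (0 : ℝ) u)).clm_apply (hasDerivAt_const (0 : ℝ) v)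
  simpa using h3

lemma dac_shift {m : ℕ} {G : Type} [Group G] [MulAction G (E (m + 1))]
    (hV : Vert (m + 1) G eL) (a : G) (x : E (m + 1)) (s : ℝ) :
    dac a (x + s • (eL : E (m + 1))) = dac a x := by
  unfold dac
  rw [← fderiv_comp_add_right (f := fun y : E (m + 1) => a • y) (s • (eL : E (m + 1)))]
  have h : (fun y : E (m + 1) => a • (y + s • (eL : E (m + 1)))) =
      fun y => a • y + s • (eL : E (m + 1)) := by
    funext y
    exact hV.comm a y s
  rw [h, fderiv_add_const]

lemma deriv_inv {m : ℕ} {G : Type} [Group G] [MulAction G (E (m + 1))]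
    (hV : Vert (m + 1) G eL) (g : Form (m + 1)) (hI : Inv G g) (a : G) (x u v : E (m + 1)) :
    fderiv ℝ g.val (a • x) eL (dac a x u) (dac a x v) = fderiv ℝ g.val x eL u v := by
  have h1 := line g (a • x) eL (dac a x u) (dac a x v)
  have h2 := line g x eL u v
  have h3 : (fun s : ℝ => g.val (a • x + s • (eL : E (m + 1))) (dac a x u) (dac a x v)) =
      fun s : ℝ => g.val (x + s • (eL : E (m + 1))) u v := by
    funext s
    have h4 := hI a (x + s • eL) u v
    rw [dac_shift hV, hV.comm] at h4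
    exact h4
  rw [h3] at h1
  exact h1.unique h2

end IDRJacI

open IDRJacI in
/-- invariance of the trace of `P` -/
theorem pr_JacI (h1 : StDens) : StJacI := by
  intro m G _ _ hG hV g hg hI a x
  have e1 : gm g x = (mt (dac a x)).transpose * gm g (a • x) * mt (dac a x) :=
    bmt_eq (g.val x) (g.val (a • x)) (dac a x) (hI a x)
  have e2 : bmt (fderiv ℝ g.val x eL) =
      (mt (dac a x)).transpose * bmt (fderiv ℝ g.val (a • x) eL) * mt (dac a x) :=
    bmt_eq _ _ (dac a x) (deriv_inv hV g hI a x)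
  have hpos := (h1 (m + 1) g hg).1 x
  have hD : (mt (dac a x)).det ≠ 0 := by
    intro h0
    rw [e1, Matrix.det_mul, h0, mul_zero] at hpos
    exact lt_irrefl _ hpos
  have hDu : IsUnit (mt (dac a x)).det := isUnit_iff_ne_zero.2 hD
  have hDt : IsUnit (mt (dac a x)).transpose.det := by rwa [Matrix.det_transpose]
  have p1 : Pm g x = (gm g x)⁻¹ * bmt (fderiv ℝ g.val x eL) := rfl
  have p2 : Pm g (a • x) = (gm g (a • x))⁻¹ * bmt (fderiv ℝ g.val (a • x) eL) := rfl
  rw [p1, p2, e1, e2]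
  generalize mt (dac a x) = D at hDu hDt ⊢
  generalize gm g (a • x) = A
  generalize bmt (fderiv ℝ g.val (a • x) eL) = B
  rw [Matrix.mul_inv_rev, Matrix.mul_inv_rev]
  have h2 : D⁻¹ * (A⁻¹ * (D.transpose)⁻¹) * (D.transpose * B * D) =
      D⁻¹ * (A⁻¹ * (((D.transpose)⁻¹ * D.transpose) * B) * D) := by
    simp only [Matrix.mul_assoc]
  rw [h2, Matrix.nonsing_inv_mul _ hDt, Matrix.one_mul, Matrix.trace_mul_comm D⁻¹,
    Matrix.mul_assoc (A⁻¹ * B), Matrix.mul_nonsing_inv _ hDu, Matrix.mul_one]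

end Pool.Agent.DR
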