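import Pool.Agent.Work.MP_13b5d9_gt.DR.Stmts

set_option autoImplicit false

/-!
# Item Kap: properties of the limit form
-/

open MeasureTheory Set Filter Topology
open scoped ContDiff ENNReal

namespace Pool.Agent.DR

open Pool.Agent.MLS Pool.Agent.EC

namespace IDRKap

/-- derivative of the form along a line -/
theorem hder {n : ℕ} (g : Form n) (x w u v : E n) (s : ℝ) :
    HasDerivAt (fun s : ℝ => g.val (x + s • w) u v) (fderiv ℝ g.val (x + s • w) w u v) s := by
  have h1 : HasFDerivAt g.val (fderiv ℝ g.val (x + s • w)) (x + s • w) :=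
    (g.smooth.differentiable (by norm_num) _).hasFDerivAt
  have h2 := (h1.clm_apply (hasFDerivAt_const u (x + s • w))).clm_apply
    (hasFDerivAt_const v (x + s • w))
  have hl : HasDerivAt (fun s : ℝ => x + s • w) w s := by
    simpa using ((hasDerivAt_id s).smul_const w).const_add x
  have h3 := h2.comp_hasDerivAt s hl
  convert! h3 using 1
  simp

theorem hsm {n : ℕ} (g : Form n) (x w u v : E n) :
    ContDiff ℝ ∞ (fun s : ℝ => g.val (x + s • w) u v) := by
  have h1 : ContDiff ℝ ∞ (fun s : ℝ => x + s • w) :=
    contDiff_const.add (contDiff_id.smul contDiff_const)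
  exact ((g.smooth.comp h1).clm_apply contDiff_const).clm_apply contDiff_const

theorem hct {n : ℕ} (g : Form n) (x w u v : E n) :
    Continuous (fun s : ℝ => fderiv ℝ g.val (x + s • w) w u v) := by
  have h1 : (fun s : ℝ => fderiv ℝ g.val (x + s • w) w u v) =
      deriv (fun s : ℝ => g.val (x + s • w) u v) := by
    funext s
    exact (hder g x w u v s).deriv.symm
  rw [h1]
  exact (hsm g x w u v).continuous_deriv (by simp)

/-- derivative of the form along a line at zero -/
theorem hder0 {n : ℕ} (g : Form n) (x w u v : E n) :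
    HasDerivAt (fun s : ℝ => g.val (x + s • w) u v) (fderiv ℝ g.val x w u v) 0 := by
  have h := hder g x w u v 0
  rwa [zero_smul, add_zero] at h

/-- the derivative of the action is invariant under vertical translations -/
theorem dac_add {n : ℕ} {G : Type} [Group G] [MulAction G (E n)] {e : E n} (hv : Vert n G e)
    (a : G) (x : E n) (s : ℝ) : dac a (x + s • e) = dac a x := by
  unfold dac
  rw [← fderiv_comp_add_right (f := fun y : E n => a • y) (s • e)]
  have h : (fun y : E n => a • (y + s • e)) = fun y : E n => a • y + s • e := by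
    funext y
    exact hv.comm a y s
  rw [h, fderiv_add_const]

/-- invariance of the vertical derivative -/
theorem fd_inv {n : ℕ} {G : Type} [Group G] [MulAction G (E n)] {e : E n} (hv : Vert n G e)
    (g : Form n) (hg : Inv G g) (a : G) (x u v : E n) :
    fderiv ℝ g.val (a • x) e (dac a x u) (dac a x v) = fderiv ℝ g.val x e u v := by
  have h1 := hder0 g (a • x) e (dac a x u) (dac a x v)
  have h2 := hder0 g x e u v
  have h3 : (fun s : ℝ => g.val (a • x + s • e) (dac a x u) (dac a x v)) =
      fun s : ℝ => g.val (x + s • e) u v := by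
    funext s
    rw [← hv.comm a x s, ← hg a (x + s • e) u v, dac_add hv a x s]
  rw [h3] at h1
  exact h1.unique h2

/-- the derivative of a constant value vanishes -/
theorem fd_blk {m : ℕ} (g : Form (m + 1)) (hg : Blk g) (x w v : E (m + 1)) :
    fderiv ℝ g.val x w eL v = 0 := by
  have h1 := hder0 g x w eL v
  have h3 : (fun s : ℝ => g.val (x + s • w) eL v) = fun _ : ℝ => v (Fin.last m) := by
    funext s
    exact hg _ v
  rw [h3] at h1
  exact h1.unique (hasDerivAt_const 0 _)

theorem fd_symm {n : ℕ} (g : Form n) (x w u v : E n) :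
    fderiv ℝ g.val x w u v = fderiv ℝ g.val x w v u := by
  have h1 := hder0 g x w u v
  have h3 : (fun s : ℝ => g.val (x + s • w) u v) = fun s : ℝ => g.val (x + s • w) v u := by
    funext s
    exact g.symm _ u v
  rw [h3] at h1
  exact h1.unique (hder0 g x w v u)

/-- periodicity -/
theorem per {n : ℕ} {G : Type} [Group G] [MulAction G (E n)] {e : E n} (z : G)
    (hz : ∀ x : E n, z • x = x + e) (x : E n) : dac z x = ContinuousLinearMap.id ℝ (E n) := by
  unfold dac
  have h : (fun y : E n => z • y) = fun y : E n => y + e := by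
    funext y
    exact hz y
  rw [h, fderiv_add_const, fderiv_fun_id]

end IDRKap

open IDRKap in
theorem pr_Kap (h1 : StN) : StKap := by
  intro m G _ _ g g0 lam κ hS
  have hK := (h1 m G g g0 lam κ hS).2.2.1
  have hlim : ∀ x u v : E (m + 1),
      Tendsto (fun j => lam j * fderiv ℝ (g j).val x eL u v) atTop (𝓝 (κ x u v)) := by
    intro x u v
    have h2 := hK.tendsto x
    have h3 := ((ContinuousLinearMap.apply ℝ (E (m + 1) →L[ℝ] ℝ) u).continuous.tendsto _).comp h2
    exact ((ContinuousLinearMap.apply ℝ ℝ v).continuous.tendsto _).comp h3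
  have hinv : ∀ (a : G) (x u v : E (m + 1)), κ (a • x) (dac a x u) (dac a x v) = κ x u v := by
    intro a x u v
    refine tendsto_nhds_unique (hlim (a • x) (dac a x u) (dac a x v)) ?_
    refine (hlim x u v).congr fun j => ?_
    rw [fd_inv hS.vert (g j) (hS.inv j) a x u v]
  obtain ⟨z, hz⟩ := hS.per
  refine ⟨hinv, ?_, ?_, ?_, ?_⟩
  · intro x v
    refine tendsto_nhds_unique (hlim x eL v) ?_
    refine tendsto_const_nhds.congr fun j => ?_
    rw [fd_blk (g j) (hS.blk j) x eL v, mul_zero]
  · intro x u v
    refine tendsto_nhds_unique (hlim x u v) ?_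
    refine (hlim x v u).congr fun j => ?_
    rw [fd_symm (g j) x eL u v]
  · intro x
    ext u v
    have h2 := hinv z x u v
    rw [per z hz x, hz x] at h2
    exact h2
  · intro x u v
    -- the integrals of the approximations vanish
    have hper : ∀ j, (g j).val (x + eL) u v = (g j).val x u v := by
      intro j
      have h2 := hS.inv j z x u v
      rw [per z hz x, hz x] at h2
      exact h2
    have hline : Continuous fun s : ℝ => x + s • (eL : E (m + 1)) :=
      continuous_const.add (continuous_id.smul continuous_const)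
    have hFc : ∀ j, Continuous fun s : ℝ =>
        lam j * fderiv ℝ (g j).val (x + s • eL) eL u v := by
      intro j
      exact continuous_const.mul (hct (g j) x eL u v)
    have hF0 : ∀ j, ∫ s in (0 : ℝ)..1, lam j * fderiv ℝ (g j).val (x + s • eL) eL u v = 0 := by
      intro j
      have h2 : ∀ s ∈ uIcc (0 : ℝ) 1, HasDerivAt
          (fun s : ℝ => lam j * (g j).val (x + s • eL) u v)
          (lam j * fderiv ℝ (g j).val (x + s • eL) eL u v) s := fun s _ =>
        (hder (g j) x eL u v s).const_mul _
      rw [intervalIntegral.integral_eq_sub_of_hasDerivAt h2 ((hFc j).intervalIntegrable _ _)]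
      rw [one_smul, zero_smul, add_zero, hper j, sub_self]
    have hCC : CC (fun j (s : ℝ) => lam j * fderiv ℝ (g j).val (x + s • eL) eL u v)
        (fun s : ℝ => κ (x + s • eL) u v) := by
      have h2 := hK.compRight hline
      have h3 := h2.comp' (ContinuousLinearMap.apply ℝ (E (m + 1) →L[ℝ] ℝ) u).continuous
      exact h3.comp' (ContinuousLinearMap.apply ℝ ℝ v).continuous
    have hfc : Continuous fun s : ℝ => κ (x + s • eL) u v := hCC.continuous
    rw [← norm_eq_zero]
    refine le_antisymm (le_of_forall_pos_le_add fun ε hε => ?_) (norm_nonneg _)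
    obtain ⟨j, hj⟩ := (hCC.unif (isCompact_Icc (a := (0 : ℝ)) (b := 1)) hε).exists
    have h4 : ∫ s in (0 : ℝ)..1, κ (x + s • eL) u v =
        ∫ s in (0 : ℝ)..1, (κ (x + s • eL) u v -
          lam j * fderiv ℝ (g j).val (x + s • eL) eL u v) := by
      rw [intervalIntegral.integral_sub (hfc.intervalIntegrable _ _)
        ((hFc j).intervalIntegrable _ _), hF0 j, sub_zero]
    rw [h4]
    have h5 := intervalIntegral.norm_integral_le_of_norm_le_const (a := (0 : ℝ)) (b := 1)
      (C := ε) (f := fun s : ℝ => κ (x + s • eL) u v -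
          lam j * fderiv ℝ (g j).val (x + s • eL) eL u v) (fun s hs => by
        rw [uIoc_of_le zero_le_one] at hs
        have h6 := hj s ⟨hs.1.le, hs.2⟩
        rw [dist_comm, dist_eq_norm] at h6
        exact h6.le)
    simpa using h5

end Pool.Agent.DR
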