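import Pool.Agent.Work.MP_13b5d9_gt.DR.Stmts
import Mathlib

set_option autoImplicit false

/-!
# MP_13b5d9_gt, block DR, item Kd: decay of the cosine transform of a cut-off
-/

open MeasureTheory Set Filter Topology
open scoped ContDiff ENNReal

namespace Pool.Agent.DR

open Pool.Agent.MLS Pool.Agent.EC

namespace IDRKd

lemma cut_cs {η : ℝ → ℝ} {a b : ℝ} (h : Cut η a b) : HasCompactSupport η :=
  HasCompactSupport.intro (isCompact_Icc (a := a) (b := b)) (fun x hx => by
    by_contra hne
    exact hx (h.supp x hne))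

lemma int_mul {f k : ℝ → ℝ} (hf : Continuous f) (hc : HasCompactSupport f) (hk : Continuous k) :
    Integrable (fun x => f x * k x) :=
  (hf.mul hk).integrable_of_hasCompactSupport hc.mul_right

/-- two integrations by parts -/
lemma ibp {η : ℝ → ℝ} (hη : ContDiff ℝ ∞ η) (hc : HasCompactSupport η) (b : ℝ) :
    b ^ 2 * ∫ τ, η τ * Real.cos (b * τ) = - ∫ τ, deriv (deriv η) τ * Real.cos (b * τ) := by
  have h1 : ContDiff ℝ ∞ (deriv η) := (contDiff_infty_iff_deriv.1 hη).2
  have h2 : ContDiff ℝ ∞ (deriv (deriv η)) := (contDiff_infty_iff_deriv.1 h1).2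
  have hc1 : HasCompactSupport (deriv η) := hc.deriv
  have hc2 : HasCompactSupport (deriv (deriv η)) := hc1.deriv
  have hcos : Continuous fun τ : ℝ => Real.cos (b * τ) := by fun_prop
  have hsin : Continuous fun τ : ℝ => Real.sin (b * τ) := by fun_prop
  have dsin : ∀ τ : ℝ, HasDerivAt (fun τ : ℝ => Real.sin (b * τ)) (b * Real.cos (b * τ)) τ := by
    intro τ
    have h := (Real.hasDerivAt_sin (b * τ)).comp τ ((hasDerivAt_id τ).const_mul b)
    simpa [mul_comm, Function.comp_def] using h
  have dcos : ∀ τ : ℝ, HasDerivAt (fun τ : ℝ => - Real.cos (b * τ)) (b * Real.sin (b * τ)) τ := by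
    intro τ
    have h : HasDerivAt (fun τ : ℝ => - Real.cos (b * τ)) (-(-Real.sin (b * τ) * (b * 1))) τ :=
      ((Real.hasDerivAt_cos (b * τ)).comp τ ((hasDerivAt_id τ).const_mul b)).neg
    have e : -(-Real.sin (b * τ) * (b * 1)) = b * Real.sin (b * τ) := by ring
    rwa [e] at h
  have e1 : ∫ τ, η τ * (b * Real.cos (b * τ)) = - ∫ τ, deriv η τ * Real.sin (b * τ) := by
    refine integral_mul_deriv_eq_deriv_mul_of_integrable
      (fun x _ => (hη.differentiable (by simp) x).hasDerivAt) (fun x _ => dsin x) ?_ ?_ ?_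
    · exact int_mul hη.continuous hc (hcos.const_mul b |>.congr fun _ => rfl)
    · exact int_mul h1.continuous hc1 hsin
    · exact int_mul hη.continuous hc hsin
  have e2 : ∫ τ, deriv η τ * (b * Real.sin (b * τ)) =
      - ∫ τ, deriv (deriv η) τ * (- Real.cos (b * τ)) := by
    refine integral_mul_deriv_eq_deriv_mul_of_integrable
      (fun x _ => (h1.differentiable (by simp) x).hasDerivAt) (fun x _ => dcos x) ?_ ?_ ?_
    · exact int_mul h1.continuous hc1 (hsin.const_mul b |>.congr fun _ => rfl)
    · exact int_mul h2.continuous hc2 hcos.neg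
    · exact int_mul h1.continuous hc1 hcos.neg
  have s1 : ∫ τ, η τ * (b * Real.cos (b * τ)) = b * ∫ τ, η τ * Real.cos (b * τ) := by
    rw [← integral_const_mul]
    exact integral_congr_ae (Filter.Eventually.of_forall fun τ => by simp only; ring)
  have s2 : ∫ τ, deriv η τ * (b * Real.sin (b * τ)) = b * ∫ τ, deriv η τ * Real.sin (b * τ) := by
    rw [← integral_const_mul]
    exact integral_congr_ae (Filter.Eventually.of_forall fun τ => by simp only; ring)
  have s3 : ∫ τ, deriv (deriv η) τ * (- Real.cos (b * τ)) =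
      - ∫ τ, deriv (deriv η) τ * Real.cos (b * τ) := by
    rw [← integral_neg]
    exact integral_congr_ae (Filter.Eventually.of_forall fun τ => by simp only; ring)
  rw [s1] at e1
  rw [s2, s3, neg_neg] at e2
  calc b ^ 2 * ∫ τ, η τ * Real.cos (b * τ)
      = b * (b * ∫ τ, η τ * Real.cos (b * τ)) := by ring
    _ = b * (- ∫ τ, deriv η τ * Real.sin (b * τ)) := by rw [e1]
    _ = - (b * ∫ τ, deriv η τ * Real.sin (b * τ)) := by ring
    _ = - ∫ τ, deriv (deriv η) τ * Real.cos (b * τ) := by rw [e2]

/-- the integral against a cosine is bounded by the `L^1` norm -/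
lemma bd {f : ℝ → ℝ} (hf : Continuous f) (hc : HasCompactSupport f) (b : ℝ) :
    |∫ τ, f τ * Real.cos (b * τ)| ≤ ∫ τ, |f τ| := by
  rw [← Real.norm_eq_abs]
  refine (norm_integral_le_integral_norm _).trans ?_
  have hi : Integrable f := hf.integrable_of_hasCompactSupport hc
  refine integral_mono_of_nonneg (Filter.Eventually.of_forall fun τ => norm_nonneg _) hi.abs
    (Filter.Eventually.of_forall fun τ => ?_)
  simp only [norm_mul, Real.norm_eq_abs]
  calc |f τ| * |Real.cos (b * τ)| ≤ |f τ| * 1 :=
        mul_le_mul_of_nonneg_left (Real.abs_cos_le_one _) (abs_nonneg _)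
    _ = |f τ| := mul_one _

end IDRKd

open IDRKd

theorem pr_Kd : StKd := by
  intro η N hN hη
  have hc : HasCompactSupport η := cut_cs hη
  have hcont : Continuous η := hη.smooth.continuous
  have hi : Integrable η := hcont.integrable_of_hasCompactSupport hc
  have h1 : ContDiff ℝ ∞ (deriv η) := (contDiff_infty_iff_deriv.1 hη.smooth).2
  have h2 : ContDiff ℝ ∞ (deriv (deriv η)) := (contDiff_infty_iff_deriv.1 h1).2
  have hc2 : HasCompactSupport (deriv (deriv η)) := hc.deriv.deriv
  refine ⟨?_, ?_⟩
  · unfold KK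
    refine continuous_of_dominated (bound := fun τ => |η τ|) (fun u => ?_) (fun u => ?_) hi.abs ?_
    · exact (by fun_prop : Continuous fun τ : ℝ =>
        η τ * Real.cos (2 * Real.pi * N * (τ * u))).aestronglyMeasurable
    · refine Filter.Eventually.of_forall fun τ => ?_
      rw [norm_mul, Real.norm_eq_abs, Real.norm_eq_abs]
      calc |η τ| * |Real.cos (2 * Real.pi * N * (τ * u))| ≤ |η τ| * 1 :=
            mul_le_mul_of_nonneg_left (Real.abs_cos_le_one _) (abs_nonneg _)
        _ = |η τ| := mul_one _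
    · refine Filter.Eventually.of_forall fun τ => ?_
      fun_prop
  · set A : ℝ := ∫ τ, |η τ| with hA
    set B : ℝ := ∫ τ, |deriv (deriv η) τ| with hB
    have hA0 : 0 ≤ A := integral_nonneg fun τ => abs_nonneg _
    have hB0 : 0 ≤ B := integral_nonneg fun τ => abs_nonneg _
    refine ⟨A + B + 1, by linarith, fun u => ?_⟩
    have hK : KK η N u = ∫ τ, η τ * Real.cos ((2 * Real.pi * N * u) * τ) := by
      unfold KK
      refine integral_congr_ae (Filter.Eventually.of_forall fun τ => ?_)
      simp only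
      congr 2
      ring
    have b1 : |KK η N u| ≤ A := by
      rw [hK]
      exact bd hcont hc _
    have b2 : (2 * Real.pi * N * u) ^ 2 * |KK η N u| ≤ B := by
      have h := ibp hη.smooth hc (2 * Real.pi * N * u)
      rw [← hK] at h
      have h' : |(2 * Real.pi * N * u) ^ 2 * KK η N u| ≤ B := by
        rw [h, abs_neg]
        exact bd h2.continuous hc2 _
      rwa [abs_mul, abs_of_nonneg (sq_nonneg _)] at h'
    have hN' : (1 : ℝ) ≤ N := by exact_mod_cast hN
    have hpi : (1 : ℝ) ≤ 2 * Real.pi := by linarith [Real.pi_gt_three]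
    have hge : (1 : ℝ) ≤ (2 * Real.pi * N) ^ 2 := by
      have : (1 : ℝ) ≤ 2 * Real.pi * N := by nlinarith
      nlinarith
    have b3 : u ^ 2 * |KK η N u| ≤ B := by
      have h0 : 0 ≤ u ^ 2 * |KK η N u| := by positivity
      calc u ^ 2 * |KK η N u| = 1 * (u ^ 2 * |KK η N u|) := (one_mul _).symm
        _ ≤ (2 * Real.pi * N) ^ 2 * (u ^ 2 * |KK η N u|) :=
            mul_le_mul_of_nonneg_right hge h0
        _ = (2 * Real.pi * N * u) ^ 2 * |KK η N u| := by ring
        _ ≤ B := b2
    rw [le_div_iff₀ (by positivity)]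
    calc |KK η N u| * (1 + u ^ 2) = |KK η N u| + u ^ 2 * |KK η N u| := by ring
      _ ≤ A + B := add_le_add b1 b3
      _ ≤ A + B + 1 := by linarith

end Pool.Agent.DR
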