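import Mathlib
import Pool.Agent.Work.MP_13b5d9_gt.DR.Stmts

set_option autoImplicit false

/-!
# MP_13b5d9_gt, block DR, item Kk (helper9): properties of the function `k`
-/

open MeasureTheory Set Filter Topology
open scoped ContDiff ENNReal

namespace Pool.Agent.DR

open Pool.Agent.MLS Pool.Agent.EC

namespace IDRKk

theorem op_tr {m : ℕ} {g0 : Form (m + 1)} (ht : TInv g0 (eL (m := m))) (x : E (m + 1)) (s : ℝ) :
    op g0 (x + s • eL) = op g0 x := by
  rw [op, op, ht x s]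

theorem vel_tr {m : ℕ} {g0 : Form (m + 1)} (ht : TInv g0 (eL (m := m))) (z : W (m + 1)) (s : ℝ) :
    vel g0 (Tr s z) = vel g0 z := by
  show iop g0 (z.1 + s • eL) z.2 = iop g0 z.1 z.2
  rw [iop, iop, op_tr ht]

end IDRKk

open IDRKk in
theorem pr_Kk (h1 : StKap) (h2 : StOp) (h3 : StLftA) (h4 : StBas) : StKk := by
  intro m G _ _ g g0 lam κ hS
  obtain ⟨k1, k2, k3, k4, k5⟩ := h1 m G g g0 lam κ hS
  obtain ⟨-, -, -, -, -, -, o7, -, -⟩ := h2 (m + 1) g0 hS.riem0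
  obtain ⟨l1, -⟩ := h3 (m + 1) G hS.coc g0 hS.riem0 hS.inv0
  obtain ⟨-, b2, b3, -⟩ := h4 m g0 hS.riem0 hS.blk0
  refine ⟨?_, ?_, ?_, ?_, ?_, ?_⟩
  · have hv : ContDiff ℝ 1 (fun z : W (m + 1) => vel g0 z) := by
      have h5 : ContDiff ℝ 1 (fun z : W (m + 1) => iop g0 z.1) :=
        (o7.of_le (by norm_num)).comp contDiff_fst
      exact h5.clm_apply contDiff_snd
    have hk : ContDiff ℝ 1 (fun z : W (m + 1) => κ z.1) := hS.smooth.comp contDiff_fst
    exact (hk.clm_apply hv).clm_apply hv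
  · intro a z
    show κ (a • z.1) (vel g0 (lft g0 a z)) (vel g0 (lft g0 a z)) = κ z.1 (vel g0 z) (vel g0 z)
    rw [l1, k1]
  · intro z
    show κ (z.1 + (1 : ℝ) • eL) (vel g0 (Tr 1 z)) (vel g0 (Tr 1 z)) = κ z.1 (vel g0 z) (vel g0 z)
    rw [vel_tr hS.tinv0, one_smul, k4]
  · intro z
    have h6 : ∀ s : ℝ, kk g0 κ (Tr s z) = κ (z.1 + s • eL) (vel g0 z) (vel g0 z) := by
      intro s
      show κ (z.1 + s • eL) (vel g0 (Tr s z)) (vel g0 (Tr s z)) = _
      rw [vel_tr hS.tinv0]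
    simp only [h6]
    exact k5 z.1 (vel g0 z) (vel g0 z)
  · intro c z
    show κ z.1 (vel g0 (Sh c z)) (vel g0 (Sh c z)) = κ z.1 (vel g0 z) (vel g0 z)
    have e1 : ∀ v, κ z.1 v eL = 0 := fun v => by rw [k3, k2]
    have e2 : κ z.1 (vel g0 z + c • eL) (vel g0 z + c • eL) =
        κ z.1 (vel g0 z) (vel g0 z) + c * κ z.1 (vel g0 z) eL +
          c * (κ z.1 eL (vel g0 z) + c * κ z.1 eL eL) := by
      have e0 : κ z.1 (vel g0 z + c • eL) = κ z.1 (vel g0 z) + c • κ z.1 eL := by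
        rw [map_add, map_smul]
      rw [e0]
      show κ z.1 (vel g0 z) (vel g0 z + c • eL) + c * κ z.1 eL (vel g0 z + c • eL) = _
      rw [map_add, map_add, map_smul, map_smul, smul_eq_mul, smul_eq_mul]
    rw [b2, e2, e1, k2, k2]
    ring
  · intro r z
    show κ z.1 (vel g0 (Dl r z)) (vel g0 (Dl r z)) = r ^ 2 * κ z.1 (vel g0 z) (vel g0 z)
    rw [b3]
    have e0 : κ z.1 (r • vel g0 z) = r • κ z.1 (vel g0 z) := map_smul _ _ _
    rw [e0]
    show r * κ z.1 (vel g0 z) (r • vel g0 z) = _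
    rw [map_smul, smul_eq_mul]
    ring

end Pool.Agent.DR
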