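import Pool.Agent.Work.MP_13b5d9_gt.DR.Stmts

set_option autoImplicit false

/-!
# MP_13b5d9_gt, block DR, item Lft: the lifted action does not depend on the metric
-/

open MeasureTheory Set Filter Topology
open scoped ContDiff ENNReal

namespace Pool.Agent.DR

open Pool.Agent.MLS Pool.Agent.EC

namespace IDRLft

variable {m : ℕ} {G : Type} [Group G] [MulAction G (E (m + 1))]

theorem inner_eL (w : E (m + 1)) : inner ℝ w (eL (m := m)) = w (Fin.last m) := by
  unfold eL ee
  rw [EuclideanSpace.inner_single_right]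
  simp

theorem diffAt (hG : Cocompact (m + 1) G) (a : G) (x : E (m + 1)) :
    DifferentiableAt ℝ (fun y : E (m + 1) => a • y) x :=
  ((hG.smooth a).differentiable (by simp)) x

/-- the derivative of the action is surjective -/
theorem dac_surj (hG : Cocompact (m + 1) G) (a : G) (x : E (m + 1)) (u : E (m + 1)) :
    dac a x (dac a⁻¹ (a • x) u) = u := by
  have h1 : (fun y : E (m + 1) => a • (a⁻¹ • y)) = id := by
    funext y
    rw [smul_inv_smul]; rfl
  have h2 : HasFDerivAt (fun y : E (m + 1) => a⁻¹ • y) (dac a⁻¹ (a • x)) (a • x) :=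
    (diffAt hG a⁻¹ (a • x)).hasFDerivAt
  have h3 : HasFDerivAt (fun y : E (m + 1) => a • y) (dac a x) (a⁻¹ • (a • x)) := by
    rw [inv_smul_smul]
    exact (diffAt hG a x).hasFDerivAt
  have h4 : HasFDerivAt (fun y : E (m + 1) => a • (a⁻¹ • y))
      ((dac a x).comp (dac a⁻¹ (a • x))) (a • x) :=
    HasFDerivAt.comp (g := fun y : E (m + 1) => a • y) (f := fun y : E (m + 1) => a⁻¹ • y)
      (a • x) h3 h2
  rw [h1] at h4
  have h5 := h4.unique (hasFDerivAt_id (a • x))
  have h6 := congrArg (fun A : E (m + 1) →L[ℝ] E (m + 1) => A u) h5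
  simpa using h6

/-- the derivative of the action does not change along the vertical direction -/
theorem dac_tr (hV : Vert (m + 1) G eL) (a : G) (x : E (m + 1)) (s : ℝ) :
    dac a (x + s • eL) = dac a x := by
  unfold dac
  have h1 : fderiv ℝ (fun y : E (m + 1) => a • (y + s • (eL : E (m + 1)))) x =
      fderiv ℝ (fun y : E (m + 1) => a • y) (x + s • eL) :=
    fderiv_comp_add_right (f := fun y : E (m + 1) => a • y) (s • eL)
  have h2 : (fun y : E (m + 1) => a • (y + s • (eL : E (m + 1)))) =
      fun y : E (m + 1) => a • y + s • eL := by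
    funext y
    exact hV.comm a y s
  rw [← h1, h2, fderiv_add_const]

/-- the derivative of the action fixes the vertical vector -/
theorem dac_eL (hG : Cocompact (m + 1) G) (hV : Vert (m + 1) G eL) (a : G) (x : E (m + 1)) :
    dac a x eL = eL := by
  have h1 : HasDerivAt (fun s : ℝ => x + s • (eL : E (m + 1))) eL 0 := by
    have h := ((hasDerivAt_id (0 : ℝ)).smul_const (eL : E (m + 1))).const_add x
    simpa using h
  have h2 : HasFDerivAt (fun y : E (m + 1) => a • y) (dac a x) (x + (0 : ℝ) • eL) := by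
    rw [zero_smul, add_zero]
    exact (diffAt hG a x).hasFDerivAt
  have h3 : HasDerivAt (fun s : ℝ => a • (x + s • (eL : E (m + 1)))) (dac a x eL) 0 :=
    HasFDerivAt.comp_hasDerivAt (l := fun y : E (m + 1) => a • y)
      (f := fun s : ℝ => x + s • (eL : E (m + 1))) (0 : ℝ) h2 h1
  have h4 : (fun s : ℝ => a • (x + s • (eL : E (m + 1)))) = fun s : ℝ => a • x + s • eL := by
    funext s
    exact hV.comm a x s
  rw [h4] at h3
  have h5 : HasDerivAt (fun s : ℝ => a • x + s • (eL : E (m + 1))) eL 0 := by
    have h := ((hasDerivAt_id (0 : ℝ)).smul_const (eL : E (m + 1))).const_add (a • x)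
    simpa using h
  exact h3.unique h5

/-- the description of the momentum of the lifted action which does not use the metric -/
theorem inner_lft (h1 : StOp) {g : Form (m + 1)} (hg : Riem g) (hI : Inv G g) (a : G)
    (z : W (m + 1)) (w : E (m + 1)) :
    inner ℝ (lft g a z).2 (dac a z.1 w) = inner ℝ z.2 w := by
  obtain ⟨-, hop, -, hoi, -⟩ := h1 (m + 1) g hg
  show inner ℝ (op g (a • z.1) (dac a z.1 (iop g z.1 z.2))) (dac a z.1 w) = _
  rw [hop, hI, ← hop, hoi]

/-- uniqueness -/
theorem ext_inner (hG : Cocompact (m + 1) G) (a : G) (x : E (m + 1)) {q q' : E (m + 1)}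
    (h : ∀ w, inner ℝ q (dac a x w) = inner ℝ q' (dac a x w)) : q = q' := by
  refine ext_inner_right ℝ fun u => ?_
  have h1 := h (dac a⁻¹ (a • x) u)
  rwa [dac_surj hG] at h1

end IDRLft

open IDRLft in
/-- Lft: the lifted action does not depend on the metric. -/
theorem pr_Lft (h1 : StOp) : StLft := by
  intro m G _ _ hG hV g g' hg hg' hI hI' hB
  have hlast : ∀ (a : G) (x w : E (m + 1)), dac a x w (Fin.last m) = w (Fin.last m) := by
    intro a x w
    rw [← hB (a • x) (dac a x w), ← hB x w]
    have h := hI a x eL w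
    rwa [dac_eL hG hV] at h
  refine ⟨?_, ?_, ?_, ?_, ?_⟩
  · intro a z
    refine Prod.ext rfl (ext_inner hG a z.1 fun w => ?_)
    rw [inner_lft h1 hg' hI', inner_lft h1 hg hI]
  · intro a s z
    refine Prod.ext (hV.comm a z.1 s) ?_
    show (lft g a (Tr s z)).2 = (lft g a z).2
    refine ext_inner hG a z.1 fun w => ?_
    rw [inner_lft h1 hg hI]
    have h := inner_lft h1 hg hI a (Tr s z) w
    have h2 : dac a (Tr s z).1 = dac a z.1 := dac_tr hV a z.1 s
    rw [h2] at h
    exact h
  · intro a c z
    refine Prod.ext rfl ?_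
    show (lft g a (Sh c z)).2 = (lft g a z).2 + c • eL
    refine ext_inner hG a z.1 fun w => ?_
    have h : inner ℝ (lft g a (Sh c z)).2 (dac a z.1 w) = inner ℝ (z.2 + c • eL) w :=
      inner_lft h1 hg hI a (Sh c z) w
    have h3 : ∀ u : E (m + 1), inner ℝ (eL : E (m + 1)) u = u (Fin.last m) := fun u => by
      rw [real_inner_comm]; exact inner_eL u
    rw [h, inner_add_left, inner_add_left, inner_lft h1 hg hI, inner_smul_left, inner_smul_left,
      h3, h3, hlast]
  · intro a r z
    refine Prod.ext rfl ?_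
    show op g (a • z.1) (dac a z.1 (iop g z.1 (r • z.2))) =
      r • op g (a • z.1) (dac a z.1 (iop g z.1 z.2))
    rw [map_smul, map_smul, map_smul]
  · intro a z
    have h := inner_lft h1 hg hI a z eL
    rw [dac_eL hG hV, inner_eL, inner_eL] at h
    exact h

end Pool.Agent.DR
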