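import Mathlib
import Pool.Agent.Work.MP_13b5d9_gt.DR.Stmts

set_option autoImplicit false

/-!
# MP_13b5d9_gt, block DR, item Mas: the master inequality
-/

open MeasureTheory Set Filter Topology
open scoped ContDiff ENNReal

namespace Pool.Agent.DR

open Pool.Agent.MLS Pool.Agent.EC

theorem pr_Mas (h1 : StAvgF) (h2 : StSpd) (h3 : StMasP) (h4 : StOp) (h5 : StLftA) : StMas := by
  intro m G _ _ hG hV g hg hI hM hB ψ hψ hψG χ hχ
  obtain ⟨hc, hn, -, hi⟩ := h2 m G hG hV g hg hI hB ψ hψ hψG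
  obtain ⟨-, -, -, -, -, -, -, hH, hHv⟩ := h4 (m + 1) g hg
  obtain ⟨-, hL, -, -, -⟩ := h5 (m + 1) G hG g hg hI
  have hF : Continuous fun z : W (m + 1) => Real.sqrt (2 * Hm g z) * Real.sqrt (spd g ψ z) :=
    ((continuous_const.mul hH.continuous).sqrt).mul hc.sqrt
  have hF0 : ∀ z : W (m + 1), 0 ≤ Real.sqrt (2 * Hm g z) * Real.sqrt (spd g ψ z) :=
    fun z => mul_nonneg (Real.sqrt_nonneg _) (Real.sqrt_nonneg _)
  have hFi : ∀ (a : G) (z : W (m + 1)),
      Real.sqrt (2 * Hm g (lft g a z)) * Real.sqrt (spd g ψ (lft g a z)) =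
        Real.sqrt (2 * Hm g z) * Real.sqrt (spd g ψ z) := fun a z => by
    rw [hL a z, hi a z]
  have key := h1 (m + 1) G hG g hg hI
    (fun z => Real.sqrt (2 * Hm g z) * Real.sqrt (spd g ψ z)) hF hF0 hFi
    (h3 m G hG g hg hI hM hB ψ hψ hψG) χ hχ
  have h6 : ∀ z : W (m + 1), 2 * Hm g z = g.val z.1 (vel g z) (vel g z) := fun z => by
    rw [hHv z]
    ring
  have h7 : (fun z : W (m + 1) => χ z.1 * (2 * Hm g z)) =
      fun z => χ z.1 * g.val z.1 (vel g z) (vel g z) := by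
    funext z
    rw [h6 z]
  have h8 : (∫ z in Disk g, χ z.1 * (2 * Hm g z)) =
      ∫ z in {z : W (m + 1) | Hm g z ≤ 1 / 2}, χ z.1 * g.val z.1 (vel g z) (vel g z) := by
    rw [h7]
    rfl
  rw [h8]
  exact key

end Pool.Agent.DR
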