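import Pool.Agent.Work.MP_13b5d9_gt.DR.Stmts
import Pool.Agent.Work.MP_25cd3b_gt.M.I_Key

set_option autoImplicit false

/-!
# MP_13b5d9_gt, block DR: displaced geodesics (item MasP)
-/

open MeasureTheory Set Filter Topology
open scoped ContDiff ENNReal

namespace Pool.Agent.DR

open Pool.Agent.MLS Pool.Agent.EC

namespace IDRMasP

variable {m : ℕ}

theorem eL_last : (eL (m := m)) (Fin.last m) = 1 := by
  simp [eL, ee]

/-- the form at a vector displaced vertically -/
theorem val_add (g : Form (m + 1)) (hB : Blk g) (y v : E (m + 1)) (s : ℝ) :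
    g.val y (v + s • eL) (v + s • eL) = g.val y v v + 2 * v (Fin.last m) * s + s ^ 2 := by
  have h1 : g.val y eL v = v (Fin.last m) := hB y v
  have h2 : g.val y v eL = v (Fin.last m) := by rw [g.symm, h1]
  have h3 : g.val y (eL (m := m)) eL = 1 := by rw [hB y eL, eL_last]
  simp only [map_add, map_smul, add_apply, smul_apply, smul_eq_mul, h1, h2, h3]
  ring

/-- vertical segments -/
theorem gd_vert (h2 : StGd) (g : Form (m + 1)) (hB : Blk g) (x : E (m + 1)) (s : ℝ) :
    gd g x (x + s • eL) ≤ |s| := by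
  have hc : ContDiff ℝ 1 (fun t : ℝ => x + t • (s • eL (m := m))) :=
    contDiff_const.add (contDiff_id.smul contDiff_const)
  have h := (h2 (m + 1) g).2.2.2 (fun t : ℝ => x + t • (s • eL (m := m))) 0 1 hc zero_le_one
  have hd : ∀ t : ℝ, deriv (fun t : ℝ => x + t • (s • eL (m := m))) t = s • eL := by
    intro t
    have h1 : HasDerivAt (fun t : ℝ => x + t • (s • eL (m := m))) ((1 : ℝ) • (s • eL)) t :=
      ((hasDerivAt_id t).smul_const (s • eL (m := m))).const_add x
    rw [h1.deriv, one_smul]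
  have hn : ∀ y : E (m + 1), nrm g y (s • eL) = |s| := by
    intro y
    unfold nrm
    have h1 := val_add g hB y 0 s
    simp only [zero_add, map_zero, PiLp.zero_apply, mul_zero, zero_mul] at h1
    rw [h1, Real.sqrt_sq_eq_abs]
  simp only [hd, hn, zero_smul, add_zero, one_smul] at h
  simpa using h

end IDRMasP

open IDRMasP in
theorem pr_MasP (h1 : StGB) (h2 : StGd) (h3 : StGeo1) (h4 : StOp) (h5 : StBas) (h6 : StHd)
    (h7 : StTr0) : StMasP := by
  intro m G _ _ hG g hR hI hM hB ψ hψ hψI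
  obtain ⟨C, hC0, hC⟩ := h1 (m + 1) G hG g hR hI ψ hψ.continuous hψI (1 / 2)
  refine ⟨2 * C, by positivity, fun z hz hE T hT => ?_⟩
  obtain ⟨hgeo, hder, hen⟩ := h3 (m + 1) g hR z hz
  have hop := h4 (m + 1) g hR
  have hHs : ContDiff ℝ ∞ (Hm g) := hop.2.2.2.2.2.2.2.1
  have hHm := hop.2.2.2.2.2.2.2.2
  have hXs : ContDiff ℝ ∞ (XH (Hm g)) := (h7 (m + 1) (Hm g) hHs).1
  obtain ⟨hb1, -, -, -, -, hb6, hb7, -⟩ := h5 m g hR hB
  -- the curve in phase space
  have hzc : Continuous z := continuous_iff_continuousAt.2 fun t => (hz t).continuousAt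
  have hzC : ContDiff ℝ 1 z := by
    rw [contDiff_one_iff_deriv]
    refine ⟨fun t => (hz t).differentiableAt, ?_⟩
    have e : deriv z = fun t => XH (Hm g) (z t) := funext fun t => (hz t).deriv
    rw [e]
    exact hXs.continuous.comp hzc
  set c : ℝ → E (m + 1) := fun t => (z t).1 with hcdef
  set σ : ℝ → E (m + 1) := fun t => (z t).1 + ψ (z t) • eL with hσdef
  have hσC : ContDiff ℝ 1 σ :=
    (contDiff_fst.comp hzC).add ((hψ.comp hzC).smul contDiff_const)
  have hσd : ∀ t, deriv σ t = vel g (z t) + XX g ψ (z t) • eL := by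
    intro t
    have e1 : HasDerivAt (fun t => (z t).1) (XH (Hm g) (z t)).1 t := by
      have := (hasFDerivAt_fst (𝕜 := ℝ) (p := z t)).comp_hasDerivAt t (hz t)
      exact this
    have e2 : HasDerivAt (fun t => ψ (z t)) (XX g ψ (z t)) t := by
      have hd : HasFDerivAt ψ (fderiv ℝ ψ (z t)) (z t) :=
        ((hψ.differentiable (by norm_num)) (z t)).hasFDerivAt
      exact hd.comp_hasDerivAt t (hz t)
    have e3 := e1.add (e2.smul_const (eL (m := m)))
    rw [(h6 (m + 1) g hR (z t)).1] at e3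
    exact e3.deriv
  have hnrm : ∀ t, nrm g (σ t) (deriv σ t) = Real.sqrt (spd g ψ (z t)) := by
    intro t
    unfold nrm
    rw [hσd t, val_add g hB, hb1 (z t)]
    rfl
  -- the speed
  set r : ℝ := Real.sqrt (2 * Hm g (z 0)) with hr
  have hH0 : 0 ≤ 2 * Hm g (z 0) := by
    have := (hb6 (z 0)).1
    linarith
  have hr0 : 0 ≤ r := Real.sqrt_nonneg _
  have hr2 : r ^ 2 = 2 * Hm g (z 0) := Real.sq_sqrt hH0
  have hr1 : r ≤ 1 := by
    have : r ^ 2 ≤ 1 := by rw [hr2]; linarith
    nlinarith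
  have hval : ∀ t, g.val (z t).1 (vel g (z t)) (vel g (z t)) = r ^ 2 := by
    intro t
    rw [hb7 (z t), hen t, hr2]
  have hint : (∫ t in (0 : ℝ)..T, Real.sqrt (2 * Hm g (z t)) * Real.sqrt (spd g ψ (z t)))
      = r * ∫ t in (0 : ℝ)..T, nrm g (σ t) (deriv σ t) := by
    rw [← intervalIntegral.integral_const_mul]
    refine intervalIntegral.integral_congr fun t _ => ?_
    simp only [hnrm t, hen t]
    rfl
  rw [hint]
  have hI0 : 0 ≤ ∫ t in (0 : ℝ)..T, nrm g (σ t) (deriv σ t) :=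
    intervalIntegral.integral_nonneg hT fun t _ => IKey.nrm_nonneg _ _ _
  rcases hr0.eq_or_lt with h0 | hpos
  · rw [← hr2, ← h0]
    simp only [zero_mul, mul_zero, ne_eq, OfNat.ofNat_ne_zero, not_false_eq_true, zero_pow]
    linarith
  · -- distances
    have hgeo' := IKey.geo_scale g c hgeo r⁻¹
    have hunit : ∀ t, g.val ((fun s => c (r⁻¹ * s)) t) (deriv (fun s => c (r⁻¹ * s)) t)
        (deriv (fun s => c (r⁻¹ * s)) t) = 1 := by
      intro t
      rw [IKey.deriv_scale c hgeo.smooth]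
      have e2 : deriv c (r⁻¹ * t) = vel g (z (r⁻¹ * t)) := hder _
      have e3 : g.val (c (r⁻¹ * t)) (vel g (z (r⁻¹ * t))) (vel g (z (r⁻¹ * t))) = r ^ 2 :=
        hval (r⁻¹ * t)
      simp only [map_smul, smul_apply, smul_eq_mul, e2]
      rw [e3]
      field_simp
    have hS := hM (fun s => c (r⁻¹ * s)) hgeo' hunit 0 (r * T)
    have e4 : r⁻¹ * (r * T) = T := by field_simp
    simp only [mul_zero, e4, zero_sub, abs_neg] at hS
    rw [abs_of_nonneg (by positivity)] at hS
    have hpm := (h2 (m + 1) g).2.1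
    have hv : ∀ t, gd g (c t) (σ t) ≤ C := by
      intro t
      refine le_trans (gd_vert h2 g hB (c t) (ψ (z t))) (hC (z t) ?_)
      rw [hen t]
      exact hE
    have t1 := hpm.tri (c 0) (σ 0) (c T)
    have t2 := hpm.tri (σ 0) (σ T) (c T)
    have t3 := hpm.symm (σ T) (c T)
    have t4 := (h2 (m + 1) g).2.2.2 σ 0 T hσC hT
    have t5 := hv 0
    have t6 := hv T
    have key : r * T - 2 * C ≤ ∫ t in (0 : ℝ)..T, nrm g (σ t) (deriv σ t) := by
      linarith
    have h8 : r * (r * T - 2 * C) ≤ r * ∫ t in (0 : ℝ)..T, nrm g (σ t) (deriv σ t) :=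
      mul_le_mul_of_nonneg_left key hr0
    have h9 : T * (2 * Hm g (z 0)) - 2 * C ≤ r * (r * T - 2 * C) := by
      rw [← hr2]
      nlinarith
    linarith

end Pool.Agent.DR
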