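import Pool.Agent.Work.MP_13b5d9_gt.DR.Stmts

set_option autoImplicit false

/-!
# Item N: continuous convergence of the metrics and their derivatives
-/

open MeasureTheory Set Filter Topology
open scoped ContDiff ENNReal

namespace Pool.Agent.DR

open Pool.Agent.MLS Pool.Agent.EC

namespace IDRN

/-- the product of two coordinates -/
noncomputable def Bf {n : ℕ} (i k : Fin n) : E n →L[ℝ] E n →L[ℝ] ℝ :=
  (EuclideanSpace.proj i : E n →L[ℝ] ℝ).smulRight (EuclideanSpace.proj k : E n →L[ℝ] ℝ)

theorem Bf_apply {n : ℕ} (i k : Fin n) (v w : E n) : Bf i k v w = v i * w k := rfl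

theorem sum_ee {n : ℕ} (v : E n) : ∑ i, v i • (ee i : E n) = v := by
  ext k
  rw [WithLp.ofLp_sum, Finset.sum_apply, Finset.sum_eq_single k]
  · simp [ee]
  · intro i _ hik
    simp [ee, hik.symm]
  · intro h
    exact absurd (Finset.mem_univ k) h

theorem expand {n : ℕ} (A : E n →L[ℝ] E n →L[ℝ] ℝ) :
    ∑ i, ∑ k, A (ee i) (ee k) • Bf i k = A := by
  ext v w
  have h1 : A v w = ∑ i, ∑ k, v i * (w k * A (ee i) (ee k)) := by
    conv_lhs => rw [← sum_ee v, ← sum_ee w]
    rw [map_sum A, _root_.sum_apply]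
    refine Finset.sum_congr rfl fun i _ => ?_
    rw [map_smul, _root_.smul_apply, map_sum, smul_eq_mul, Finset.mul_sum]
    refine Finset.sum_congr rfl fun k _ => ?_
    rw [map_smul, smul_eq_mul]
  rw [h1, _root_.sum_apply, _root_.sum_apply]
  refine Finset.sum_congr rfl fun i _ => ?_
  rw [_root_.sum_apply, _root_.sum_apply]
  refine Finset.sum_congr rfl fun k _ => ?_
  rw [_root_.smul_apply, _root_.smul_apply, Bf_apply, smul_eq_mul]
  ring

theorem expand2 {n : ℕ} (A : E n →L[ℝ] E n →L[ℝ] ℝ) :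
    ∑ p : Fin n × Fin n, A (ee p.1) (ee p.2) • Bf p.1 p.2 = A := by
  rw [Fintype.sum_prod_type]
  exact expand A

theorem CC_comb {α V ι : Type*} [TopologicalSpace α] [NormedAddCommGroup V] [NormedSpace ℝ V]
    (s : Finset ι) (B : ι → V) (F : ι → ℕ → α → ℝ) (f : ι → α → ℝ)
    (h : ∀ i ∈ s, CC (F i) (f i)) :
    CC (fun j x => ∑ i ∈ s, F i j x • B i) (fun x => ∑ i ∈ s, f i x • B i) :=
  CC.sum s fun i hi => (h i hi).smul (CC.const continuous_const)

theorem CC_form {α : Type*} [TopologicalSpace α] {n : ℕ} {A : ℕ → α → E n →L[ℝ] E n →L[ℝ] ℝ}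
    {a : α → E n →L[ℝ] E n →L[ℝ] ℝ}
    (h : ∀ v w, CC (fun j x => A j x v w) (fun x => a x v w)) : CC A a := by
  have h1 := CC_comb (Finset.univ : Finset (Fin n × Fin n)) (fun p => Bf (n := n) p.1 p.2)
    (fun p j x => A j x (ee p.1) (ee p.2)) (fun p x => a x (ee p.1) (ee p.2))
    fun p _ => h (ee p.1) (ee p.2)
  exact h1.congr (fun j x => expand2 _) fun x => expand2 _

theorem cd1 {n : ℕ} (g : Form n) (u : E n) : ContDiff ℝ ∞ (fun x => fderiv ℝ g.val x u) :=
  (g.smooth.fderiv_right (by norm_num)).clm_apply contDiff_const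

theorem fderiv_eval {n : ℕ} {A : E n → E n →L[ℝ] E n →L[ℝ] ℝ} (hA : ContDiff ℝ ∞ A)
    (v w x u : E n) : fderiv ℝ (fun y => A y v w) x u = fderiv ℝ A x u v w := by
  have h1 : HasFDerivAt A (fderiv ℝ A x) x :=
    ((hA.differentiable (by simp)) x).hasFDerivAt
  have h2 := (h1.clm_apply (hasFDerivAt_const v x)).clm_apply (hasFDerivAt_const w x)
  rw [h2.fderiv]
  simp

theorem zero0 {n : ℕ} (g : Form n) (e : E n) (h : TInv g e) (x : E n) :
    fderiv ℝ g.val x e = 0 := by
  have h1 : HasFDerivAt g.val (fderiv ℝ g.val x) x :=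
    ((g.smooth.differentiable (by simp)) x).hasFDerivAt
  have h2 : HasDerivAt (fun s : ℝ => x + s • e) e 0 := by
    have h3 := ((hasDerivAt_id (0 : ℝ)).smul_const e).const_add x
    simpa using h3
  have h4 : HasDerivAt (fun s : ℝ => g.val (x + s • e)) (fderiv ℝ g.val x e) 0 := by
    have h5 : HasFDerivAt g.val (fderiv ℝ g.val x) (x + (0 : ℝ) • e) := by
      rw [zero_smul, add_zero]
      exact h1
    exact HasFDerivAt.comp_hasDerivAt (l := g.val) 0 h5 h2
  have h6 : (fun s : ℝ => g.val (x + s • e)) = fun _ => g.val x := by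
    funext s
    exact h x s
  rw [h6] at h4
  exact (h4.unique (hasDerivAt_const (0 : ℝ) (g.val x)))

end IDRN

open IDRN

theorem pr_N : StN := by
  intro m G _ _ g g0 lam κ hS
  refine ⟨?_, ?_, ?_, ?_⟩
  · refine CC_form fun v w => CC.of_locUnif (hS.conv0 v w) ?_
    exact ((g0.smooth.continuous.clm_apply continuous_const).clm_apply continuous_const)
  · intro u
    refine CC_form fun v w => CC.of_locUnif (hS.conv1 u v w) ?_
    exact (((cd1 g0 u).continuous.clm_apply continuous_const).clm_apply continuous_const)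
  · refine CC_form fun v w => ?_
    have h1 := CC.of_locUnif (hS.convk v w)
      ((hS.smooth.continuous.clm_apply continuous_const).clm_apply continuous_const)
    refine h1.congr (fun j x => ?_) fun x => rfl
    rw [_root_.smul_apply, _root_.smul_apply, smul_eq_mul]
  · have h0 : ∀ v w : E (m + 1), (fun y => fderiv ℝ g0.val y eL v w) = fun _ => 0 := by
      intro v w
      funext y
      rw [zero0 g0 eL hS.tinv0 y]
      rfl
    have h1 : CC (fun j x => fderiv ℝ (fun y => fderiv ℝ (g j).val y eL) x eL)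
        (fun _ : E (m + 1) => (0 : E (m + 1) →L[ℝ] E (m + 1) →L[ℝ] ℝ)) := by
      refine CC_form fun v w => ?_
      have h2 := CC.of_locUnif (hS.conv2 eL eL v w) (by
        simp only [h0]
        simpa using continuous_const)
      refine h2.congr (fun j x => ?_) fun x => ?_
      · rw [fderiv_eval (cd1 (g j) eL)]
      · rw [h0]
        simp
    have h3 : CC (fun j (p : E (m + 1) × E (m + 1)) =>
        fderiv ℝ (fun y => fderiv ℝ (g j).val y eL) p.1 eL p.2 p.2)
        (fun p => (0 : E (m + 1) →L[ℝ] E (m + 1) →L[ℝ] ℝ) p.2 p.2) :=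
      ((h1.compRight continuous_fst).clm_apply (CC.const continuous_snd)).clm_apply
        (CC.const continuous_snd)
    refine h3.congr (fun j p => ?_) fun p => ?_
    · rw [d2, fderiv_eval (cd1 (g j) eL)]
    · rfl

end Pool.Agent.DR
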