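import Pool.Agent.Work.MP_13b5d9_gt.DR.Stmts

set_option autoImplicit false

/-!
# Item PmB: the mean of the trace of the square of the logarithmic derivative is bounded
-/

open MeasureTheory Set Filter Topology
open scoped ContDiff ENNReal

namespace Pool.Agent.DR

open Pool.Agent.MLS Pool.Agent.EC

namespace IDRPmB

/-- continuous convergence of matrices -/
theorem CC_matrix {α : Type*} [TopologicalSpace α] {n : ℕ}
    {F : ℕ → α → Matrix (Fin n) (Fin n) ℝ} {f : α → Matrix (Fin n) (Fin n) ℝ}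
    (h : ∀ i k, CC (fun j x => F j x i k) (fun x => f x i k)) : CC F f := by
  intro x
  refine tendsto_pi_nhds.2 fun i => tendsto_pi_nhds.2 fun k => ?_
  exact h i k x

/-- continuous convergence of the inverse matrices -/
theorem CC_inv {α : Type*} [TopologicalSpace α] {n : ℕ}
    {F : ℕ → α → Matrix (Fin n) (Fin n) ℝ} {f : α → Matrix (Fin n) (Fin n) ℝ} (h : CC F f)
    (h0 : ∀ x, (f x).det ≠ 0) : CC (fun j x => (F j x)⁻¹) (fun x => (f x)⁻¹) := by
  have h1 : CC (fun j x => (F j x).det) (fun x => (f x).det) :=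
    h.comp' (u := fun M : Matrix (Fin n) (Fin n) ℝ => M.det) (continuous_id.matrix_det)
  have h2 : CC (fun j x => (F j x).adjugate) (fun x => (f x).adjugate) :=
    h.comp' (u := fun M : Matrix (Fin n) (Fin n) ℝ => M.adjugate) (continuous_id.matrix_adjugate)
  have h3 : CC (fun j x => ((F j x).det)⁻¹) (fun x => ((f x).det)⁻¹) := fun x =>
    (h1 x).inv₀ (h0 x)
  refine (h3.smul h2).congr (fun j x => ?_) fun x => ?_
  · rw [Matrix.inv_def, Ring.inverse_eq_inv']
  · rw [Matrix.inv_def, Ring.inverse_eq_inv']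

/-- the integrand as a function of two matrices -/
noncomputable def J {n : ℕ} (c : ℝ) (A B : Matrix (Fin n) (Fin n) ℝ) : ℝ :=
  c * (((A⁻¹ * B) * (A⁻¹ * B)).trace * Real.sqrt A.det)

theorem CC_J {α : Type*} [TopologicalSpace α] {n : ℕ} {χ : α → ℝ} (hχ : Continuous χ)
    {A B : ℕ → α → Matrix (Fin n) (Fin n) ℝ} {a b : α → Matrix (Fin n) (Fin n) ℝ} (hA : CC A a)
    (hB : CC B b) (h0 : ∀ x, (a x).det ≠ 0) :
    CC (fun j x => J (χ x) (A j x) (B j x)) (fun x => J (χ x) (a x) (b x)) := by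
  have h1 := CC_inv hA h0
  have h2 : CC (fun j x => (A j x)⁻¹ * B j x) (fun x => (a x)⁻¹ * b x) := h1.mul hB
  have h3 : CC (fun j x => ((A j x)⁻¹ * B j x) * ((A j x)⁻¹ * B j x))
      (fun x => ((a x)⁻¹ * b x) * ((a x)⁻¹ * b x)) := h2.mul h2
  have h4 : CC (fun j x => (((A j x)⁻¹ * B j x) * ((A j x)⁻¹ * B j x)).trace)
      (fun x => (((a x)⁻¹ * b x) * ((a x)⁻¹ * b x)).trace) :=
    h3.comp' (u := fun M : Matrix (Fin n) (Fin n) ℝ => M.trace) (continuous_id.matrix_trace)
  have h5 : CC (fun j x => (A j x).det) (fun x => (a x).det) :=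
    hA.comp' (u := fun M : Matrix (Fin n) (Fin n) ℝ => M.det) (continuous_id.matrix_det)
  have h6 : CC (fun j x => Real.sqrt (A j x).det) (fun x => Real.sqrt (a x).det) :=
    h5.comp' Real.continuous_sqrt
  exact (CC.const hχ).mul (h4.mul h6)

/-- the matrix of a bilinear form -/
noncomputable def mat {n : ℕ} (b : E n →L[ℝ] E n →L[ℝ] ℝ) : Matrix (Fin n) (Fin n) ℝ :=
  Matrix.of fun i k => b (ee i) (ee k)

theorem CC_mat {α : Type*} [TopologicalSpace α] {n : ℕ} {A : ℕ → α → E n →L[ℝ] E n →L[ℝ] ℝ}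
    {a : α → E n →L[ℝ] E n →L[ℝ] ℝ} (h : CC A a) :
    CC (fun j x => mat (A j x)) (fun x => mat (a x)) := by
  refine CC_matrix fun i k => ?_
  exact (h.clm_apply (CC.const continuous_const)).clm_apply (CC.const continuous_const)

theorem J_eq {m : ℕ} (g : Form (m + 1)) (c l : ℝ) (x : E (m + 1)) :
    J c (mat (g.val x)) (mat (l • fderiv ℝ g.val x eL)) =
      l ^ 2 * (c * ((Pm g x * Pm g x).trace * dens g x)) := by
  have h1 : (mat (g.val x))⁻¹ * mat (l • fderiv ℝ g.val x eL) = l • Pm g x := by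
    have h2 : mat (l • fderiv ℝ g.val x eL) = l • mat (fderiv ℝ g.val x eL) := by
      ext i k
      rfl
    rw [h2, Matrix.mul_smul]
    rfl
  rw [J, h1, Matrix.smul_mul, Matrix.mul_smul, Matrix.trace_smul, Matrix.trace_smul]
  have h3 : Real.sqrt (mat (g.val x)).det = dens g x := rfl
  rw [h3, smul_eq_mul, smul_eq_mul]
  ring

end IDRPmB

open IDRPmB

theorem pr_PmB (h1 : StN) (h2 : StDens) : StPmB := by
  intro m G _ _ g g0 lam κ hS χ hχ
  obtain ⟨hN1, -, hN3, -⟩ := h1 m G g g0 lam κ hS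
  have hd0 : ∀ x, (mat (g0.val x)).det ≠ 0 := fun x => ((h2 (m + 1) g0 hS.riem0).1 x).ne'
  have hdj : ∀ j x, (mat ((g j).val x)).det ≠ 0 := fun j x =>
    ((h2 (m + 1) (g j) (hS.riem j)).1 x).ne'
  have hχc : Continuous χ := hχ.smooth.continuous
  have hCC := CC_J hχc (CC_mat hN1) (CC_mat hN3) hd0
  -- continuity for fixed `j`
  have hcont : ∀ j, Continuous fun x =>
      J (χ x) (mat ((g j).val x)) (mat (lam j • fderiv ℝ (g j).val x eL)) := by
    intro j
    have h3 : Continuous fun x => lam j • fderiv ℝ (g j).val x eL :=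
      (((g j).smooth.fderiv_right (m := ∞) (by norm_num)).continuous.clm_apply
        continuous_const).const_smul (lam j)
    exact (CC_J hχc (CC_mat (CC.const (g j).smooth.continuous)) (CC_mat (CC.const h3))
      (hdj j)).continuous
  have hlim := hCC.integral (μ := (volume : Measure (E (m + 1)))) (Q := tsupport χ) hχ.cpt
    (fun j x hx => by
      have h4 : χ x = 0 := image_eq_zero_of_notMem_tsupport hx
      simp only [J, h4, zero_mul])
    fun j => (hcont j).aestronglyMeasurable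
  refine ⟨(∫ x, J (χ x) (mat (g0.val x)) (mat (κ x))) + 1, ?_⟩
  filter_upwards [hlim.eventually (eventually_le_nhds (lt_add_one _))] with j hj
  rw [← integral_const_mul]
  refine le_trans (le_of_eq ?_) hj
  refine integral_congr_ae (Eventually.of_forall fun x => ?_)
  exact (J_eq (g j) (χ x) (lam j) x).symm

end Pool.Agent.DR
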