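import Pool.Agent.Work.MP_13b5d9_gt.DR.Stmts

set_option autoImplicit false

/-!
# MP_13b5d9_gt, block DR, item Pos (positivity).  Author: helper73
-/

open MeasureTheory Set Filter Topology

namespace Pool.Agent.DR

open Pool.Agent.MLS Pool.Agent.EC

namespace IDRPos

theorem bint (C D : ℝ) : Integrable (fun u : ℝ => C / (1 + u ^ 2) * D) := by
  have h := (integrable_inv_one_add_sq.const_mul C).mul_const D
  simpa [div_eq_mul_inv] using h

theorem gint {K γ : ℝ → ℝ} (hK : Continuous K) (hγ : Continuous γ) {C D : ℝ}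
    (h1 : ∀ u, |K u| ≤ C / (1 + u ^ 2)) (h2 : ∀ u, |γ u| ≤ D) (l : ℝ) :
    Integrable (fun u : ℝ => |K u| * |γ (l * u) - γ 0|) := by
  apply (bint C (2 * D)).mono'
  · apply Continuous.aestronglyMeasurable
    fun_prop
  · refine Eventually.of_forall fun u => ?_
    rw [Real.norm_eq_abs, abs_mul, abs_abs, abs_abs]
    have h3 : |γ (l * u) - γ 0| ≤ 2 * D := by
      calc |γ (l * u) - γ 0| ≤ |γ (l * u)| + |γ 0| := abs_sub _ _
        _ ≤ D + D := add_le_add (h2 _) (h2 _)
        _ = 2 * D := by ring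
    exact mul_le_mul (h1 u) h3 (abs_nonneg _) ((abs_nonneg _).trans (h1 u))

theorem lim {K γ : ℝ → ℝ} (hK : Continuous K) (hγ : Continuous γ) {C D : ℝ}
    (h1 : ∀ u, |K u| ≤ C / (1 + u ^ 2)) (h2 : ∀ u, |γ u| ≤ D) :
    Tendsto (fun l : ℝ => ∫ u, |K u| * |γ (l * u) - γ 0|) (𝓝 0) (𝓝 0) := by
  have h := tendsto_integral_filter_of_dominated_convergence (μ := volume) (l := 𝓝 (0 : ℝ))
    (F := fun l u => |K u| * |γ (l * u) - γ 0|) (f := fun _ : ℝ => (0 : ℝ))
    (fun u : ℝ => C / (1 + u ^ 2) * (2 * D)) ?_ ?_ (bint C (2 * D)) ?_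
  · simpa using h
  · refine Eventually.of_forall fun l => ?_
    apply Continuous.aestronglyMeasurable
    fun_prop
  · refine Eventually.of_forall fun l => Eventually.of_forall fun u => ?_
    rw [Real.norm_eq_abs, abs_mul, abs_abs, abs_abs]
    have h3 : |γ (l * u) - γ 0| ≤ 2 * D := by
      calc |γ (l * u) - γ 0| ≤ |γ (l * u)| + |γ 0| := abs_sub _ _
        _ ≤ D + D := add_le_add (h2 _) (h2 _)
        _ = 2 * D := by ring
    exact mul_le_mul (h1 u) h3 (abs_nonneg _) ((abs_nonneg _).trans (h1 u))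
  · refine Eventually.of_forall fun u => ?_
    have h4 : Continuous fun l : ℝ => |K u| * |γ (l * u) - γ 0| := by fun_prop
    have h5 := h4.tendsto 0
    simpa using h5

end IDRPos

open IDRPos

theorem pr_Pos (h1 : StKd) (h2 : StFl) : StPos := by
  intro η N hN hη h0 γ hγ hγb hγ0
  obtain ⟨hK, C, hC, hKb⟩ := h1 η N hN hη
  obtain ⟨c0, hc0, hfl⟩ := h2 η N hN hη h0
  obtain ⟨D, hD⟩ := hγb
  set K := KK η N with hKdef
  have hpos : 0 < γ 0 * c0 / 2 := by positivity
  have h3 := (lim hK hγ hKb hD).eventually_lt_const hpos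
  have h4 : ∀ᶠ l in 𝓝[>] (0 : ℝ), (∫ u, |K u| * |γ (l * u) - γ 0|) < γ 0 * c0 / 2 ∧
      l ∈ Ioc (0 : ℝ) 1 :=
    (h3.filter_mono nhdsWithin_le_nhds).and (Ioc_mem_nhdsGT one_pos)
  obtain ⟨l, hl, hl0, hl1⟩ := h4.exists
  refine ⟨l, γ 0 * c0 / 2, hl0, hl1, hpos, ?_⟩
  intro R hR
  have hR0 : 0 ≤ R := by linarith
  have hRR : -R ≤ R := by linarith
  have c1 : Continuous fun u : ℝ => (R - |u|) * K u := by fun_prop
  have c2 : Continuous fun u : ℝ => (R - |u|) * (K u * (γ (l * u) - γ 0)) := by fun_prop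
  have c3 : Continuous fun u : ℝ => |K u| * |γ (l * u) - γ 0| := by fun_prop
  have e1 : ∫ u in (-R)..R, (R - |u|) * (K u * γ (l * u)) =
      γ 0 * (∫ u in (-R)..R, (R - |u|) * K u) +
        ∫ u in (-R)..R, (R - |u|) * (K u * (γ (l * u) - γ 0)) := by
    rw [← intervalIntegral.integral_const_mul, ← intervalIntegral.integral_add]
    · apply intervalIntegral.integral_congr
      intro u _
      ring
    · exact (continuous_const.mul c1).intervalIntegrable _ _
    · exact c2.intervalIntegrable _ _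
  have e2 : |∫ u in (-R)..R, (R - |u|) * (K u * (γ (l * u) - γ 0))| ≤
      R * ∫ u, |K u| * |γ (l * u) - γ 0| := by
    calc |∫ u in (-R)..R, (R - |u|) * (K u * (γ (l * u) - γ 0))|
        ≤ ∫ u in (-R)..R, |(R - |u|) * (K u * (γ (l * u) - γ 0))| :=
          intervalIntegral.abs_integral_le_integral_abs hRR
      _ ≤ ∫ u in (-R)..R, R * (|K u| * |γ (l * u) - γ 0|) := by
          apply intervalIntegral.integral_mono_on hRR
          · exact c2.abs.intervalIntegrable _ _
          · exact (continuous_const.mul c3).intervalIntegrable _ _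
          · intro u hu
            rw [abs_mul, abs_mul]
            apply mul_le_mul_of_nonneg_right _ (by positivity)
            have h5 : |u| ≤ R := abs_le.2 ⟨hu.1, hu.2⟩
            rw [abs_of_nonneg (by linarith)]
            linarith [abs_nonneg u]
      _ = R * ∫ u in (-R)..R, |K u| * |γ (l * u) - γ 0| := by
          rw [intervalIntegral.integral_const_mul]
      _ ≤ R * ∫ u, |K u| * |γ (l * u) - γ 0| := by
          apply mul_le_mul_of_nonneg_left _ hR0
          rw [intervalIntegral.integral_of_le hRR]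
          apply setIntegral_le_integral (gint hK hγ hKb hD l)
          exact Eventually.of_forall fun u => by positivity
  have e3 := (abs_le.1 e2).1
  have e4 := hfl R hR
  have e5 : γ 0 * (c0 * R) ≤ γ 0 * ∫ u in (-R)..R, (R - |u|) * K u :=
    mul_le_mul_of_nonneg_left e4 hγ0.le
  have e6 : R * (∫ u, |K u| * |γ (l * u) - γ 0|) ≤ R * (γ 0 * c0 / 2) :=
    mul_le_mul_of_nonneg_left hl.le hR0
  rw [e1]
  nlinarith

end Pool.Agent.DR
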