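import Pool.Agent.Work.MP_13b5d9_gt.DR.Stmts

/-!
# MP_13b5d9_gt, block DR, item Prd: the flow of the product metric
-/

set_option autoImplicit false

open MeasureTheory Set Filter Topology
open scoped ContDiff ENNReal
open Pool.Agent.Work.MP_c9f990_an.Al (IsFlow)

namespace Pool.Agent.DR

open Pool.Agent.MLS Pool.Agent.EC

namespace IDRPrd

/-- comparison of solutions for all times -/
theorem cmp {Q : Type} [NormedAddCommGroup Q] [NormedSpace ℝ Q] {F : Q → Q} {φ : ℝ → Q → Q}
    {M : ℝ → Q → Q →L[ℝ] Q} (hφ : IsFlow F φ M) (y : ℝ → Q)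
    (hy : ∀ t, HasDerivAt y (F (y t)) t) (t : ℝ) : y t = φ t (y 0) := by
  rcases le_total 0 t with ht | ht
  · exact hφ.uniq y (fun s _ => (hy s).hasDerivWithinAt) t ht
  · have h1 : ∀ s, HasDerivAt (fun r => y (t + r)) (F (y (t + s))) s := by
      intro s
      have h2 : HasDerivAt (fun r => y (t + r)) ((1 : ℝ) • F (y (t + s))) s :=
        (hy (t + s)).scomp s ((hasDerivAt_id s).const_add t)
      rwa [one_smul] at h2
    have h3 := hφ.uniq (fun r => y (t + r)) (fun s _ => (h1 s).hasDerivWithinAt) (-t) (by linarith)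
    simp only [add_neg_cancel, add_zero] at h3
    rw [h3, ← hφ.add, add_neg_cancel, hφ.zero]

theorem inner_eL {m : ℕ} (v : E (m + 1)) : inner ℝ v (eL (m := m)) = v (Fin.last m) := by
  rw [eL, ee, EuclideanSpace.inner_single_right]
  simp

theorem op_tr {m : ℕ} {g : Form (m + 1)} (hT : TInv g eL) (x : E (m + 1)) (h : ℝ) :
    op g (x + h • eL) = op g x := by
  rw [op, op, hT x h]

theorem vel_tr {m : ℕ} {g : Form (m + 1)} (hT : TInv g eL) (h : ℝ) (z : W (m + 1)) :
    vel g (Tr h z) = vel g z := by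
  change Ring.inverse (op g (z.1 + h • eL)) z.2 = Ring.inverse (op g z.1) z.2
  rw [op_tr hT]

theorem Hm_tr {m : ℕ} {g : Form (m + 1)} (hT : TInv g eL) (h : ℝ) (z : W (m + 1)) :
    Hm g (Tr h z) = Hm g z := by
  change 1 / 2 * inner ℝ z.2 (vel g (Tr h z)) = 1 / 2 * inner ℝ z.2 (vel g z)
  rw [vel_tr hT]

theorem fderiv_tr {m : ℕ} {g : Form (m + 1)} (hT : TInv g eL) (x : E (m + 1)) (h : ℝ) :
    fderiv ℝ g.val (x + h • eL) = fderiv ℝ g.val x := by
  have h1 : (fun y : E (m + 1) => g.val (y + h • eL)) = g.val := funext fun y => hT y h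
  have h2 := fderiv_comp_add_right (𝕜 := ℝ) (f := g.val) (x := x) (h • (eL (m := m)))
  rw [h1] at h2
  exact h2.symm

theorem fderiv_line {V F : Type} [NormedAddCommGroup V] [NormedSpace ℝ V]
    [NormedAddCommGroup F] [NormedSpace ℝ F] (f : V → F) (x e : V)
    (hd : DifferentiableAt ℝ f x) (h : ∀ s : ℝ, f (x + s • e) = f x) : fderiv ℝ f x e = 0 := by
  have h1 : HasDerivAt (fun s : ℝ => f (x + s • e)) (fderiv ℝ f x e) 0 :=
    hd.hasFDerivAt.hasLineDerivAt e
  have h4 : (fun s : ℝ => f (x + s • e)) = fun _ => f x := funext h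
  rw [h4] at h1
  exact h1.unique (hasDerivAt_const (0 : ℝ) (f x))

theorem fderiv_eL {m : ℕ} {g : Form (m + 1)} (hT : TInv g eL) (x : E (m + 1)) :
    fderiv ℝ g.val x eL = 0 :=
  fderiv_line g.val x eL ((g.smooth.differentiable (by norm_num)) x) (fun s => hT x s)

/-- symmetry of the derivative -/
theorem fderiv_symm {m : ℕ} (g : Form (m + 1)) (x u v w : E (m + 1)) :
    fderiv ℝ g.val x u v w = fderiv ℝ g.val x u w v := by
  have hd : DifferentiableAt ℝ g.val x := (g.smooth.differentiable (by norm_num)) x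
  have h1 : ∀ a b : E (m + 1),
      HasFDerivAt (fun y => g.val y a b)
        (((fderiv ℝ g.val x).flip a).flip b) x := by
    intro a b
    have h2 := (hd.hasFDerivAt.clm_apply (hasFDerivAt_const a x)).clm_apply (hasFDerivAt_const b x)
    refine h2.congr_fderiv ?_
    ext w
    simp
  have h3 : (fun y => g.val y v w) = fun y => g.val y w v := funext fun y => g.symm y v w
  have h4 := h1 v w
  rw [h3] at h4
  have h5 := h4.unique (h1 w v)
  have h6 := congrArg (fun l : E (m + 1) →L[ℝ] ℝ => l u) h5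
  simpa using h6

theorem ext_inner {m : ℕ} {a b : E (m + 1)} (h : ∀ w, inner ℝ a w = inner ℝ b w) : a = b :=
  ext_inner_right ℝ h

end IDRPrd

open IDRPrd in
theorem pr_Prd (h2 : StHd) (h3 : StBas) (h4 : StGeo1) : StPrd := by
  intro m g0 φ M hR hB hT hφ
  obtain ⟨b1, b2, b3, b4, b5, b6, b7, b8⟩ := h3 m g0 hR hB
  have hX := h2 (m + 1) g0 hR
  have hXtr : ∀ (h : ℝ) (z : W (m + 1)), XH (Hm g0) (Tr h z) = XH (Hm g0) z := by
    intro h z
    refine Prod.ext ?_ ?_
    · rw [(hX _).1, (hX _).1, vel_tr hT]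
    · refine ext_inner fun w => ?_
      rw [(hX _).2, (hX _).2, vel_tr hT]
      change 1 / 2 * fderiv ℝ g0.val (z.1 + h • eL) w _ _ = _
      rw [fderiv_tr hT]
  have hXsh : ∀ (c : ℝ) (z : W (m + 1)), XH (Hm g0) (Sh c z) =
      ((XH (Hm g0) z).1 + c • eL, (XH (Hm g0) z).2) := by
    intro c z
    refine Prod.ext ?_ ?_
    · change (XH (Hm g0) (Sh c z)).1 = (XH (Hm g0) z).1 + c • eL
      rw [(hX _).1, (hX _).1, b2]
    · refine ext_inner fun w => ?_
      change inner ℝ (XH (Hm g0) (Sh c z)).2 w = inner ℝ (XH (Hm g0) z).2 w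
      rw [(hX _).2, (hX _).2, b2]
      change 1 / 2 * fderiv ℝ g0.val z.1 w (vel g0 z + c • eL) (vel g0 z + c • eL) = _
      have e1 : ∀ v, fderiv ℝ g0.val z.1 w (eL (m := m)) v = 0 := by
        intro v; rw [(b8 z.1 w).2]; rfl
      have e2 : ∀ v, fderiv ℝ g0.val z.1 w v (eL (m := m)) = 0 := by
        intro v; rw [fderiv_symm, e1]
      simp only [map_add, map_smul, add_apply, smul_apply,
        e1, e2, smul_zero, add_zero]
  have hXdl : ∀ (r : ℝ) (z : W (m + 1)), XH (Hm g0) (Dl r z) =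
      (r • (XH (Hm g0) z).1, r ^ 2 • (XH (Hm g0) z).2) := by
    intro r z
    refine Prod.ext ?_ ?_
    · change (XH (Hm g0) (Dl r z)).1 = r • (XH (Hm g0) z).1
      rw [(hX _).1, (hX _).1, b3]
    · refine ext_inner fun w => ?_
      change inner ℝ (XH (Hm g0) (Dl r z)).2 w = inner ℝ (r ^ 2 • (XH (Hm g0) z).2) w
      rw [inner_smul_left, (hX _).2, (hX _).2, b3]
      change 1 / 2 * fderiv ℝ g0.val z.1 w (r • vel g0 z) (r • vel g0 z) = _
      simp only [map_smul, smul_apply, smul_eq_mul]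
      simp
      ring
  have hd1 : ∀ (z : W (m + 1)) (s : ℝ), HasDerivAt (fun r => (φ r z).1) (XH (Hm g0) (φ s z)).1 s :=
    fun z s => (hφ.ode z s).fst
  have hd2 : ∀ (z : W (m + 1)) (s : ℝ), HasDerivAt (fun r => (φ r z).2) (XH (Hm g0) (φ s z)).2 s :=
    fun z s => (hφ.ode z s).snd
  have Tr0 : ∀ z : W (m + 1), Tr 0 z = z := by
    intro z
    refine Prod.ext ?_ rfl
    change z.1 + (0 : ℝ) • eL = z.1
    rw [zero_smul, add_zero]
  refine ⟨?_, ?_, ?_, ?_, ?_, ?_, ?_⟩
  · intro h s z
    have key := cmp hφ (fun r => Tr h (φ r z)) (by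
      intro t
      rw [hXtr]
      exact ((hd1 z t).add_const (h • eL)).prodMk (hd2 z t)) s
    simp only [hφ.zero] at key
    exact key.symm
  · intro s z
    have hder : ∀ t, HasDerivAt (fun r => ta (φ r z)) 0 t := by
      intro t
      have e1 : HasDerivAt (fun r => inner ℝ (φ r z).2 (eL (m := m)))
          (inner ℝ (XH (Hm g0) (φ t z)).2 (eL (m := m))) t := by
        have := (hd2 z t).inner ℝ (hasDerivAt_const t (eL (m := m)))
        simpa using this
      rw [(hX _).2, fderiv_eL hT] at e1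
      have e2 : (fun r => inner ℝ (φ r z).2 (eL (m := m))) = fun r => ta (φ r z) :=
        funext fun r => inner_eL _
      rw [e2] at e1
      simpa using e1
    have hc := is_const_of_deriv_eq_zero (f := fun r => ta (φ r z))
      (fun t => (hder t).differentiableAt) (fun t => (hder t).deriv) s 0
    simp only [hφ.zero] at hc
    exact hc
  · intro c s z
    have key := cmp hφ (fun r => Tr (c * r) (Sh c (φ r z))) (by
      intro t
      rw [hXtr, hXsh]
      have e1 : HasDerivAt (fun r : ℝ => (c * r) • (eL (m := m))) (c • eL) t := by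
        have := ((hasDerivAt_id t).const_mul c).smul_const (eL (m := m))
        simpa using this
      exact ((hd1 z t).add e1).prodMk ((hd2 z t).add_const (c • eL))) s
    simp only [hφ.zero, mul_zero, Tr0] at key
    exact key.symm
  · intro r s z
    have key := cmp hφ (fun t => Dl r (φ (r * t) z)) (by
      intro t
      rw [hXdl]
      have e0 : HasDerivAt (fun u : ℝ => r * u) r t := by
        simpa using (hasDerivAt_id t).const_mul r
      have e1 := (hd1 z (r * t)).scomp t e0
      have e2 := ((hd2 z (r * t)).scomp t e0).const_smul r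
      have e3 : r ^ 2 • (XH (Hm g0) (φ (r * t) z)).2 = r • r • (XH (Hm g0) (φ (r * t) z)).2 := by
        rw [pow_two, mul_smul]
      rw [e3]
      exact e1.prodMk e2) s
    simp only [hφ.zero, mul_zero] at key
    exact key.symm
  · intro s z
    have key := (h4 (m + 1) g0 hR (fun r => φ r z) (fun t => hφ.ode z t)).2.2 s
    simp only [hφ.zero] at key
    exact key
  · intro h z
    exact Hm_tr hT h z
  · intro h z
    exact vel_tr hT h z

end Pool.Agent.DR
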