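import Pool.Agent.Work.MP_13b5d9_gt.DR.Stmts

set_option autoImplicit false

open MeasureTheory Set Filter Topology
open scoped ContDiff ENNReal

namespace Pool.Agent.DR

open Pool.Agent.MLS Pool.Agent.EC

/-- The correction term is of second order. -/
theorem pr_QB (h1 : StN) (h2 : StCvA) : StQB := by
  intro m G _ _ g g0 lam κ hS
  obtain ⟨hA, hV, -⟩ := h2 m G g g0 lam κ hS
  have hK := (h1 m G g g0 lam κ hS).2.2.1
  have e1 : CC (fun j (z : W (m + 1)) => (lam j • fderiv ℝ (g j).val z.1 eL)) (fun z => κ z.1) :=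
    CC.compRight hK continuous_fst
  have e2 : CC (fun j (z : W (m + 1)) => (lam j • fderiv ℝ (g j).val z.1 eL) (vel (g j) z))
      (fun z => κ z.1 (vel g0 z)) := CC.clm_apply e1 hV
  have e3 : CC (fun j (z : W (m + 1)) => sh ((lam j • fderiv ℝ (g j).val z.1 eL) (vel (g j) z)))
      (fun z => sh (κ z.1 (vel g0 z))) := CC.comp' e2 sh.continuous
  have e4 : CC (fun j (z : W (m + 1)) => iop (g j) z.1) (fun z => iop g0 z.1) :=
    CC.compRight hA continuous_fst
  refine ⟨fun z => inner ℝ (sh (κ z.1 (vel g0 z))) (iop g0 z.1 (sh (κ z.1 (vel g0 z)))), ?_⟩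
  refine CC.congr (CC.inner e3 (CC.clm_apply e4 e3)) (fun j z => ?_) (fun _ => rfl)
  unfold qq
  rw [ContinuousLinearMap.smul_apply, map_smul, map_smul, real_inner_smul_left, real_inner_smul_right]
  ring

end Pool.Agent.DR
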