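import Mathlib
import Pool.Agent.Work.MP_13b5d9_gt.DR.Stmts

set_option autoImplicit false

/-!
# MP_13b5d9_gt, block DR, item SS: the limit of the second variation inequality
-/

open MeasureTheory Set Filter Topology
open scoped ContDiff ENNReal

namespace Pool.Agent.DR

open Pool.Agent.MLS Pool.Agent.EC

namespace IDRSS

theorem cont_ta {m : ℕ} : Continuous (ta (m := m)) := by
  unfold ta
  fun_prop

theorem cont_XH {n : ℕ} {H : W n → ℝ} (hH : ContDiff ℝ ∞ H) : Continuous (XH H) := by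
  unfold XH
  have h1 : Continuous (fderiv ℝ H) := hH.continuous_fderiv (by simp)
  refine Continuous.prodMk ?_ ?_
  · exact sh.continuous.comp (h1.clm_comp continuous_const)
  · exact (sh.continuous.comp (h1.clm_comp continuous_const)).neg

theorem cont_XX {m : ℕ} {g : Form (m + 1)} (hH : ContDiff ℝ ∞ (Hm g)) {f : W (m + 1) → ℝ}
    (hf : ContDiff ℝ 1 f) : Continuous (XX g f) := by
  unfold XX
  exact (hf.continuous_fderiv one_ne_zero).clm_apply (cont_XH hH)

theorem cont_De {m : ℕ} {f : W (m + 1) → ℝ} (hf : ContDiff ℝ 1 f) : Continuous (De f) := by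
  unfold De
  exact (hf.continuous_fderiv one_ne_zero).clm_apply continuous_const

theorem ev_zero {m : ℕ} {f H : W (m + 1) → ℝ} {δ : ℝ} (hH : Continuous H)
    (hs : ∀ z, f z ≠ 0 → δ ≤ H z ∧ H z ≤ 1 / 4) {z : W (m + 1)} (hz : H z < δ ∨ 1 / 4 < H z) :
    ∀ᶠ y in 𝓝 z, f y = 0 ∧ fderiv ℝ f y = 0 := by
  have ho : IsOpen {y : W (m + 1) | H y < δ ∨ 1 / 4 < H y} := by
    have h1 : IsOpen {y : W (m + 1) | H y < δ} := isOpen_lt hH continuous_const
    have h2 : IsOpen {y : W (m + 1) | 1 / 4 < H y} := isOpen_lt continuous_const hH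
    exact h1.union h2
  have h0 : ∀ y, (H y < δ ∨ 1 / 4 < H y) → f y = 0 := by
    intro y hy
    by_contra hne
    obtain ⟨h1, h2⟩ := hs y hne
    rcases hy with h3 | h3 <;> linarith
  filter_upwards [ho.mem_nhds hz] with y hy
  refine ⟨h0 y hy, ?_⟩
  have h3 : f =ᶠ[𝓝 y] fun _ => (0 : ℝ) := by
    filter_upwards [ho.mem_nhds hy] with u hu using h0 u hu
  rw [h3.fderiv_eq]
  simp

theorem cn_nonneg (n : ℕ) : 0 ≤ cn n := by
  unfold cn
  exact integral_nonneg fun _ => by positivity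

end IDRSS

theorem pr_SS (h1 : StEx) (h2 : StCvA) (h3 : StCv) (h4 : StQB) (h5 : StPmB) (h6 : StSub)
    (h7 : StOp) (h8 : StDde) : StSS := by
  intro m G _ _ g g0 lam κ hS hlam χ hχ
  obtain ⟨C₀, hC₀⟩ := h5 m G g g0 lam κ hS χ hχ
  obtain ⟨-, -, cH⟩ := h2 m G g g0 lam κ hS
  obtain ⟨-, cd1, cd2, cXX⟩ := h3 m G g g0 lam κ hS
  obtain ⟨q, cq⟩ := h4 m G g g0 lam κ hS
  refine ⟨2 * (1 / 4 * (cn (m + 1) / (m + 1) * C₀)), ?_⟩
  intro f hf
  obtain ⟨δ, hδ, hsupp⟩ := hf.supp
  have hH0s : ContDiff ℝ ∞ (Hm g0) := (h7 (m + 1) g0 hS.riem0).2.2.2.2.2.2.2.1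
  have hHjs : ∀ j, ContDiff ℝ ∞ (Hm (g j)) := fun j => (h7 (m + 1) (g j) (hS.riem j)).2.2.2.2.2.2.2.1
  have hH0 : Continuous (Hm g0) := hH0s.continuous
  have hfc : Continuous f := hf.smooth.continuous
  -- the compact set
  set Q : Set (W (m + 1)) := {z | z.1 ∈ tsupport χ ∧ Hm g0 z ≤ 1 / 4} with hQdef
  have hQ : IsCompact Q := h6 (m + 1) g0 hS.riem0 (tsupport χ) (1 / 4) hχ.cpt
  have hχc : Continuous fun z : W (m + 1) => χ z.1 := hχ.smooth.continuous.comp continuous_fst
  -- general limit lemma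
  have key : ∀ (F : ℕ → W (m + 1) → ℝ) (F0 : W (m + 1) → ℝ), CC F F0 →
      (∀ j z, 1 / 4 < Hm g0 z → F j z = 0) → (∀ j, Measurable (F j)) →
      Tendsto (fun j => ∫ z, χ z.1 * F j z) atTop (𝓝 (∫ z, χ z.1 * F0 z)) ∧
      Integrable (fun z => χ z.1 * F0 z) := by
    intro F F0 hF h0 hm
    have h00 : ∀ z, 1 / 4 < Hm g0 z → F0 z = 0 := by
      intro z hz
      have h := hF.tendsto z
      have h' : (fun j => F j z) = fun _ => (0 : ℝ) := funext fun j => h0 j z hz
      rw [h'] at h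
      exact tendsto_nhds_unique h tendsto_const_nhds
    have hCC : CC (fun j z => χ z.1 * F j z) (fun z => χ z.1 * F0 z) := (CC.const hχc).mul hF
    refine ⟨?_, ?_⟩
    · refine CC.integral hCC hQ ?_ fun j => (hχc.measurable.mul (hm j)).aestronglyMeasurable
      intro j z hz
      by_cases h : z.1 ∈ tsupport χ
      · have h' : 1 / 4 < Hm g0 z := by
          by_contra hc
          exact hz ⟨h, not_lt.mp hc⟩
        simp only [h0 j z h', mul_zero]
      · simp only [image_eq_zero_of_notMem_tsupport h, zero_mul]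
    · refine hCC.continuous.integrable_of_hasCompactSupport (HasCompactSupport.intro hQ ?_)
      intro z hz
      by_cases h : z.1 ∈ tsupport χ
      · have h' : 1 / 4 < Hm g0 z := by
          by_contra hc
          exact hz ⟨h, not_lt.mp hc⟩
        simp only [h00 z h', mul_zero]
      · simp only [image_eq_zero_of_notMem_tsupport h, zero_mul]
  -- vanishing
  have fz : ∀ z, 1 / 4 < Hm g0 z → f z = 0 ∧ fderiv ℝ f z = 0 := fun z hz =>
    (IDRSS.ev_zero hH0 hsupp (Or.inr hz)).self_of_nhds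
  have fz' : ∀ z, Hm g0 z < δ → ∀ᶠ y in 𝓝 z, f y = 0 ∧ fderiv ℝ f y = 0 := fun z hz =>
    IDRSS.ev_zero hH0 hsupp (Or.inl hz)
  -- measurability
  have mH : ∀ j, Measurable (Hm (g j)) := fun j => (hHjs j).continuous.measurable
  have mX : ∀ j, Measurable (XX (g j) f) := fun j => (IDRSS.cont_XX (hHjs j) hf.smooth).measurable
  have mta : Measurable (ta (m := m)) := IDRSS.cont_ta.measurable
  have mf : Measurable f := hfc.measurable
  have mDe : Measurable (De f) := (IDRSS.cont_De hf.smooth).measurable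
  have md1 : ∀ j, Measurable (fun z : W (m + 1) => d1 (g j) z.1 (vel (g j) z)) := fun j =>
    (h8 m (g j) (hS.riem j)).1.continuous.measurable
  have md2 : ∀ j, Measurable (fun z : W (m + 1) => d2 (g j) z.1 (vel (g j) z)) := fun j =>
    (h8 m (g j) (hS.riem j)).2.2.2.2.1.measurable
  have mqq : ∀ j, Measurable (qq (g j)) := fun j =>
    (h8 m (g j) (hS.riem j)).2.2.2.1.measurable
  have hinv : Tendsto (fun j => (lam j)⁻¹) atTop (𝓝 0) := tendsto_inv_atTop_zero.comp hlam
  -- the five terms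
  have t1 := key (fun j z => De f z * (lam j * d1 (g j) z.1 (vel (g j) z)))
    (fun z => De f z * kk g0 κ z) ((CC.const (IDRSS.cont_De hf.smooth)).mul cd1)
    (fun j z hz => by
      have : De f z = 0 := by unfold De; rw [(fz z hz).2]; rfl
      simp only [this, zero_mul])
    (fun j => mDe.mul ((md1 j).const_mul _))
  have t2 := key (fun j z => f z * (lam j * qq (g j) z)) (fun z => f z * (q z * 0))
    ((CC.const hfc).mul ((cq.mul (CC.seq hinv)).congr
      (fun j x => by
        have := (hS.lam_pos j).ne'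
        field_simp) (fun _ => rfl)))
    (fun j z hz => by simp only [(fz z hz).1, zero_mul])
    (fun j => mf.mul ((mqq j).const_mul _))
  have t3 := key (fun j z => f z ^ 2 * d2 (g j) z.1 (vel (g j) z)) (fun z => f z ^ 2 * 0)
    ((CC.const (hfc.pow 2)).mul cd2)
    (fun j z hz => by simp [(fz z hz).1])
    (fun j => (mf.pow_const 2).mul (md2 j))
  have c4 : CC (fun j z => (1 - ta z ^ 2 / (2 * Hm (g j) z)) * XX (g j) f z ^ 2)
      (fun z => (1 - ta z ^ 2 / (2 * Hm g0 z)) * XX g0 f z ^ 2) := by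
    intro x
    by_cases hx : Hm g0 x < δ
    · have e1 : ∀ᶠ y : ℕ × W (m + 1) in atTop ×ˢ 𝓝 x,
          (0 : ℝ) = (1 - ta y.2 ^ 2 / (2 * Hm (g y.1) y.2)) * XX (g y.1) f y.2 ^ 2 := by
        filter_upwards [tendsto_snd.eventually (fz' x hx)] with y hy
        have : XX (g y.1) f y.2 = 0 := by unfold XX; rw [hy.2]; rfl
        rw [this]
        ring
      have e2 : (1 - ta x ^ 2 / (2 * Hm g0 x)) * XX g0 f x ^ 2 = 0 := by
        have : XX g0 f x = 0 := by unfold XX; rw [(fz' x hx).self_of_nhds.2]; rfl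
        rw [this]
        ring
      simp only [e2]
      exact tendsto_const_nhds.congr' e1
    · have hne : (2 : ℝ) * Hm g0 x ≠ 0 := by
        have : δ ≤ Hm g0 x := not_lt.mp hx
        have : 0 < Hm g0 x := lt_of_lt_of_le hδ this
        positivity
      exact ((tendsto_const_nhds.sub ((((CC.const (IDRSS.cont_ta (m := m))) x).pow 2).div
        ((cH x).const_mul 2) hne)).mul (((cXX f hf.smooth) x).pow 2))
  have t4 := key _ _ c4
    (fun j z hz => by
      have : XX (g j) f z = 0 := by unfold XX; rw [(fz z hz).2]; rfl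
      simp only [this]
      ring)
    (fun j => (measurable_const.sub ((mta.pow_const 2).div ((mH j).const_mul 2))).mul
      ((mX j).pow_const 2))
  have c5 : CC (fun j z => (1 - f z / lam j) * ta z *
        (lam j * d1 (g j) z.1 (vel (g j) z)) * XX (g j) f z / Hm (g j) z)
      (fun z => (1 - f z * 0) * ta z * kk g0 κ z * XX g0 f z / Hm g0 z) := by
    intro x
    by_cases hx : Hm g0 x < δ
    · have e1 : ∀ᶠ y : ℕ × W (m + 1) in atTop ×ˢ 𝓝 x,
          (0 : ℝ) = (1 - f y.2 / lam y.1) * ta y.2 *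
            (lam y.1 * d1 (g y.1) y.2.1 (vel (g y.1) y.2)) * XX (g y.1) f y.2 /
              Hm (g y.1) y.2 := by
        filter_upwards [tendsto_snd.eventually (fz' x hx)] with y hy
        have : XX (g y.1) f y.2 = 0 := by unfold XX; rw [hy.2]; rfl
        rw [this, mul_zero, zero_div]
      have e2 : (1 - f x * 0) * ta x * kk g0 κ x * XX g0 f x / Hm g0 x = 0 := by
        have : XX g0 f x = 0 := by unfold XX; rw [(fz' x hx).self_of_nhds.2]; rfl
        rw [this, mul_zero, zero_div]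
      simp only [e2]
      exact tendsto_const_nhds.congr' e1
    · have hne : Hm g0 x ≠ 0 := by
        have : δ ≤ Hm g0 x := not_lt.mp hx
        have : 0 < Hm g0 x := lt_of_lt_of_le hδ this
        positivity
      have a1 : Tendsto (fun y : ℕ × W (m + 1) => 1 - f y.2 / lam y.1) (atTop ×ˢ 𝓝 x)
          (𝓝 (1 - f x * 0)) := by
        have := ((CC.const hfc) x).mul ((CC.seq (α := W (m + 1)) hinv) x)
        refine (tendsto_const_nhds.sub this).congr fun y => ?_
        rw [div_eq_mul_inv]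
      exact (((a1.mul ((CC.const (IDRSS.cont_ta (m := m))) x)).mul (cd1 x)).mul
        ((cXX f hf.smooth) x)).div (cH x) hne
  have t5 := key _ _ c5
    (fun j z hz => by
      have : XX (g j) f z = 0 := by unfold XX; rw [(fz z hz).2]; rfl
      simp only [this, mul_zero, zero_div])
    (fun j => (((((measurable_const.sub (mf.div_const _)).mul mta).mul
      ((md1 j).const_mul _)).mul (mX j)).div (mH j)))
  -- the limit of the inequality
  have hcn : 0 ≤ cn (m + 1) / ((m : ℝ) + 1) := div_nonneg (IDRSS.cn_nonneg _) (by positivity)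
  have hlim := (((((t1.1.const_mul (1 / 2)).sub t2.1).add (t3.1.const_mul (1 / 4))).add
    (t4.1.const_mul (1 / 2))).add (t5.1.const_mul (1 / 4))).const_add
      (1 / 4 * (cn (m + 1) / (m + 1) * C₀))
  have hev : ∀ᶠ j in atTop, 0 ≤ 1 / 4 * (cn (m + 1) / (m + 1) * C₀) +
      (1 / 2 * (∫ z, χ z.1 * (De f z * (lam j * d1 (g j) z.1 (vel (g j) z)))) -
      (∫ z, χ z.1 * (f z * (lam j * qq (g j) z))) +
      1 / 4 * (∫ z, χ z.1 * (f z ^ 2 * d2 (g j) z.1 (vel (g j) z))) +
      1 / 2 * (∫ z, χ z.1 * ((1 - ta z ^ 2 / (2 * Hm (g j) z)) * XX (g j) f z ^ 2)) +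
      1 / 4 * (∫ z, χ z.1 * ((1 - f z / lam j) * ta z *
        (lam j * d1 (g j) z.1 (vel (g j) z)) * XX (g j) f z / Hm (g j) z))) := by
    filter_upwards [h1 m G g g0 lam κ hS χ hχ f hf, hC₀] with j hj hCj
    have h9 : 1 / 4 * (cn (m + 1) / (m + 1) *
        (lam j ^ 2 * ∫ x, χ x * ((Pm (g j) x * Pm (g j) x).trace * dens (g j) x))) ≤
        1 / 4 * (cn (m + 1) / (m + 1) * C₀) := by
      have := mul_le_mul_of_nonneg_left hCj hcn
      linarith
    linarith
  have hfin := ge_of_tendsto hlim hev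
  -- rewrite the limits
  have z2 : ∫ z, χ z.1 * (f z * (q z * 0)) = 0 := by simp
  have z3 : ∫ z, χ z.1 * (f z ^ 2 * 0) = 0 := by simp
  have hLin : Lin χ g0 κ f = (∫ z, χ z.1 * (De f z * kk g0 κ z)) + 1 / 2 *
      ∫ z, χ z.1 * ((1 - f z * 0) * ta z * kk g0 κ z * XX g0 f z / Hm g0 z) := by
    unfold Lin
    rw [← integral_const_mul, ← integral_add t1.2 (t5.2.const_mul (1 / 2))]
    refine integral_congr_ae (Eventually.of_forall fun z => ?_)
    simp only [div_eq_mul_inv, mul_inv]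
    ring
  have hQuad : Quad χ g0 f = ∫ z, χ z.1 * ((1 - ta z ^ 2 / (2 * Hm g0 z)) * XX g0 f z ^ 2) := rfl
  rw [z2, z3] at hfin
  rw [hLin, hQuad]
  linarith

end Pool.Agent.DR
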