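import Pool.Agent.Work.MP_13b5d9_gt.DR.Stmts

set_option autoImplicit false

/-!
# MP_13b5d9_gt, block DR, item Scl: scaling of the horizontal momentum
-/

open MeasureTheory Set Filter Topology
open scoped ContDiff ENNReal
open Pool.Agent.Work.MP_c9f990_an.Al (IsFlow)

namespace Pool.Agent.DR

open Pool.Agent.MLS Pool.Agent.EC

namespace IDRScl

variable {m : ℕ}

theorem ta_Sh (c : ℝ) (z : W (m + 1)) : ta (Sh c z) = ta z + c := by
  simp [ta, Sh, eL, ee]

theorem ta_Dl (r : ℝ) (z : W (m + 1)) : ta (Dl r z) = r * ta z := by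
  simp [ta, Dl]

/-- the dilation of the momentum multiplies integrals by a power of the factor -/
theorem integral_Dl {l : ℝ} (hl : 0 < l) (F : W (m + 1) → ℝ) :
    ∫ z, F z = l ^ (m + 1) * ∫ z, F (Dl l z) := by
  have hl0 : l ≠ 0 := hl.ne'
  set c : ℝ≥0∞ := ENNReal.ofReal |(l ^ Module.finrank ℝ (E (m + 1)))⁻¹| with hc
  have h1 : Measure.map (fun z : W (m + 1) => Dl l z) volume = c • volume := by
    have e1 : (fun z : W (m + 1) => Dl l z) =
        Prod.map (id : E (m + 1) → E (m + 1)) (fun p : E (m + 1) => l • p) := by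
      funext z
      rfl
    have e2 : Measure.map (fun p : E (m + 1) => l • p) (volume : Measure (E (m + 1))) =
        c • volume := Measure.map_addHaar_smul volume hl0
    rw [e1, Measure.volume_eq_prod,
      ← Measure.map_prod_map _ _ measurable_id (measurable_const_smul l), e2, Measure.map_id,
      Measure.prod_smul_right]
  have hinj : Function.Injective (fun z : W (m + 1) => Dl l z) := by
    rintro ⟨a, b⟩ ⟨a', b'⟩ h
    simp only [Dl, Prod.mk.injEq] at h
    obtain ⟨h2, h3⟩ := h
    rw [h2, smul_right_injective _ hl0 h3]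
  have hcont : Continuous (fun z : W (m + 1) => Dl l z) := by
    unfold Dl
    fun_prop
  have hemb : MeasurableEmbedding (fun z : W (m + 1) => Dl l z) := by
    have hh : Topology.IsClosedEmbedding (fun z : W (m + 1) => Dl l z) := by
      have e : (fun z : W (m + 1) => Dl l z) =
        (Homeomorph.prodCongr (Homeomorph.refl (E (m + 1)))
          (Homeomorph.smulOfNeZero l hl0 : E (m + 1) ≃ₜ E (m + 1))) := by
        funext z
        rfl
      rw [e]
      exact Homeomorph.isClosedEmbedding _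
    exact hh.measurableEmbedding
  have h2 : ∫ z, F (Dl l z) = ∫ z, F z ∂(c • (volume : Measure (W (m + 1)))) := by
    rw [← h1, hemb.integral_map]
  have hcr : c.toReal = (l ^ (m + 1))⁻¹ := by
    rw [hc, ENNReal.toReal_ofReal (abs_nonneg _), finrank_euclideanSpace_fin]
    exact abs_of_pos (by positivity)
  rw [h2, integral_smul_measure, hcr, smul_eq_mul, ← mul_assoc, mul_inv_cancel₀ (by positivity),
    one_mul]

end IDRScl

open IDRScl in
theorem pr_Scl (h1 : StZt) (h2 : StFub) (h3 : StBas) (h4 : StOp) : StScl := by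
  intro m G _ _ hG hV g0 φ M hR hI hB hT hφ χ hχ N c1 c2 hM θ w0 δ hθ hδ hw0 hw1 l u hl
  obtain ⟨z1, -, -, z4, z5, z6, z7, -, -, -⟩ := h1 m G hG hV g0 φ M hR hI hB hT hφ
  obtain ⟨-, -, -, b4, b5, -, -, -⟩ := h3 m g0 hR hB
  obtain ⟨-, -, -, -, -, -, -, o8, -⟩ := h4 (m + 1) g0 hR
  have hl0 : l ≠ 0 := hl.ne'
  have hHm : Continuous (Hm g0) := o8.continuous
  have hta : Continuous (fun z : W (m + 1) => ta z) := by
    unfold ta
    fun_prop
  have hHh : Continuous (Hh g0) := by
    unfold Hh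
    fun_prop
  have hHhD : ∀ z : W (m + 1), Hh g0 (Dl l z) / l ^ 2 = Hh g0 z := by
    intro z
    unfold Hh
    rw [b5, ta_Dl]
    field_simp
  have hHhS : ∀ (c : ℝ) (z : W (m + 1)), Hh g0 (Sh c z) = Hh g0 z := by
    intro c z
    unfold Hh
    rw [b4, ta_Sh]
    ring
  set F : W (m + 1) → ℝ := fun z => χ z.1 * (θ (Hh g0 z) *
    (c1 (zt φ (l * u) z) * c1 z + c2 (zt φ (l * u) z) * c2 z)) with hF
  have hzc : Continuous (fun z : W (m + 1) => zt φ (l * u) z) :=
    z1.comp (continuous_const.prodMk continuous_id)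
  have hFc : Continuous F := by
    have a1 : Continuous c1 := hM.smooth1.continuous
    have a2 : Continuous c2 := hM.smooth2.continuous
    have a3 : Continuous χ := hχ.smooth.continuous
    have a4 : Continuous θ := hθ.smooth.continuous
    rw [hF]
    exact (a3.comp continuous_fst).mul ((a4.comp hHh).mul
      (((a1.comp hzc).mul a1).add ((a2.comp hzc).mul a2)))
  have hFS : ∀ (c : ℝ) (z : W (m + 1)), F (Sh c z) = F z := by
    intro c z
    simp only [hF]
    rw [hHhS, z5, hM.sh1, hM.sh1, hM.sh2, hM.sh2]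
    rfl
  have hFsupp : ∀ z, F z ≠ 0 → z.1 ∈ tsupport χ ∧ Hh g0 z ≤ 3 / 16 := by
    intro z hz
    simp only [hF] at hz
    have k1 : χ z.1 ≠ 0 := left_ne_zero_of_mul hz
    have k2 : θ (Hh g0 z) ≠ 0 := left_ne_zero_of_mul (right_ne_zero_of_mul hz)
    exact ⟨subset_tsupport χ k1, (hθ.supp _ k2).2⟩
  have hα : Continuous (fun x => w0 (l * x)) :=
    hw0.smooth.continuous.comp (continuous_const.mul continuous_id)
  have hfub := h2 m g0 hR hB (fun x => w0 (l * x)) w0 (1 / 4 + 1 / (4 * l)) hα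
    hw0.smooth.continuous (by
      intro x hx
      have := hw0.supp _ hx
      have e1 : |l * x| ≤ 1 / 4 := abs_le.mpr ⟨this.1, this.2⟩
      rw [abs_mul, abs_of_pos hl] at e1
      have e2 : |x| ≤ 1 / (4 * l) := by
        rw [le_div_iff₀ (by positivity)]
        nlinarith
      linarith) (by
      intro x hx
      have := hw0.supp _ hx
      have e1 : |x| ≤ 1 / 4 := abs_le.mpr ⟨this.1, this.2⟩
      have : 0 < 1 / (4 * l) := by positivity
      linarith) hw1 F (tsupport χ) (3 / 16) hχ.cpt hFc hFS hFsupp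
  have hint : ∫ x, w0 (l * x) = l⁻¹ := by
    rw [Measure.integral_comp_mul_left, hw1, abs_of_pos (inv_pos.mpr hl)]
    simp
  rw [hint] at hfub
  have hL : gam χ g0 w0 (fun h => θ (h / l ^ 2)) φ c1 c2 u =
      l ^ (m + 1) * (l ^ 4 * ∫ z, w0 (l * ta z) * F z) := by
    unfold gam
    rw [integral_Dl hl, ← integral_const_mul (l ^ 4)]
    congr 1
    apply integral_congr_ae
    refine Eventually.of_forall fun z => ?_
    simp only [wgt, hF]
    rw [ta_Dl, hHhD, z6, hM.dl1, hM.dl1, hM.dl2, hM.dl2]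
    simp only [Dl]
    ring
  have hRt : gam χ g0 w0 θ φ c1 c2 (l * u) = ∫ z, w0 (ta z) * F z := by
    unfold gam
    apply integral_congr_ae
    refine Eventually.of_forall fun z => ?_
    simp only [wgt, hF]
    ring
  rw [hL, hfub, hRt]
  have : l ^ (m + 1) * (l ^ 4 * (l⁻¹ * ∫ z, w0 (ta z) * F z)) =
      (l ^ (m + 4) * (l * l⁻¹)) * ∫ z, w0 (ta z) * F z := by ring
  rw [this, mul_inv_cancel₀ hl0, mul_one]

end Pool.Agent.DR
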