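import Mathlib
import Pool.Agent.Work.MP_13b5d9_gt.DR.Stmts

set_option autoImplicit false
set_option maxSynthPendingDepth 3

open MeasureTheory Set Filter Topology
open scoped ContDiff ENNReal

namespace Pool.Agent.DR

open Pool.Agent.MLS Pool.Agent.EC

namespace IDRSec

variable {m : ℕ}

theorem cont_vel (h7 : StOp) (g : Form (m + 1)) (hR : Riem g) : Continuous (vel g) := by
  obtain ⟨-, -, -, -, -, -, hi, -, -⟩ := h7 (m + 1) g hR
  exact (hi.continuous.comp continuous_fst).clm_apply continuous_snd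

theorem cont_Hm (h7 : StOp) (g : Form (m + 1)) (hR : Riem g) : Continuous (Hm g) := by
  obtain ⟨-, -, -, -, -, -, -, hH, -⟩ := h7 (m + 1) g hR
  exact hH.continuous

theorem cont_fd (g : Form (m + 1)) : ContDiff ℝ ∞ (fun y => fderiv ℝ g.val y (eL (m := m))) := by
  have h1 : ContDiff ℝ ∞ (fderiv ℝ g.val) := g.smooth.fderiv_right (by norm_num)
  exact h1.clm_apply contDiff_const

theorem d2_eq (g : Form (m + 1)) (x v : E (m + 1)) :
    d2 g x v = fderiv ℝ (fun y => fderiv ℝ g.val y (eL (m := m))) x eL v v := by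
  unfold d2
  have h1 : DifferentiableAt ℝ (fun y => fderiv ℝ g.val y (eL (m := m))) x :=
    (cont_fd g).contDiffAt.differentiableAt (by norm_num)
  have h2 := h1.hasFDerivAt
  have h3 : HasFDerivAt (fun y => fderiv ℝ g.val y (eL (m := m)) v)
      ((fderiv ℝ (fun y => fderiv ℝ g.val y (eL (m := m))) x).flip v) x := by
    have := h2.clm_apply (hasFDerivAt_const v x)
    simpa using this
  have h4 : HasFDerivAt (fun y => fderiv ℝ g.val y (eL (m := m)) v v)
      ((((fderiv ℝ (fun y => fderiv ℝ g.val y (eL (m := m))) x).flip v)).flip v) x := by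
    have := h3.clm_apply (hasFDerivAt_const v x)
    simpa using this
  rw [h4.fderiv]
  rfl

theorem cont_d1 (h7 : StOp) (g : Form (m + 1)) (hR : Riem g) :
    Continuous (fun z : W (m + 1) => d1 g z.1 (vel g z)) := by
  unfold d1
  have h1 := (cont_fd g).continuous.comp (continuous_fst (X := E (m + 1)) (Y := E (m + 1)))
  exact (h1.clm_apply (cont_vel h7 g hR)).clm_apply (cont_vel h7 g hR)

theorem cont_d2 (h7 : StOp) (g : Form (m + 1)) (hR : Riem g) :
    Continuous (fun z : W (m + 1) => d2 g z.1 (vel g z)) := by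
  simp only [d2_eq]
  have h0 : Continuous (fderiv ℝ (fun y => fderiv ℝ g.val y (eL (m := m)))) :=
    (cont_fd g).continuous_fderiv (by norm_num)
  have h1 := (h0.comp (continuous_fst (X := E (m + 1)) (Y := E (m + 1)))).clm_apply
    (continuous_const (y := (eL : E (m + 1))))
  exact (h1.clm_apply (cont_vel h7 g hR)).clm_apply (cont_vel h7 g hR)

theorem cont_XH (h7 : StOp) (g : Form (m + 1)) (hR : Riem g) : Continuous (XH (Hm g)) := by
  obtain ⟨-, -, -, -, -, -, -, hH, -⟩ := h7 (m + 1) g hR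
  have h1 : Continuous (fderiv ℝ (Hm g)) := hH.continuous_fderiv (by norm_num)
  unfold XH
  refine Continuous.prodMk ?_ ?_
  · exact (ContinuousLinearMap.continuous _).comp (h1.clm_comp continuous_const)
  · exact ((ContinuousLinearMap.continuous _).comp (h1.clm_comp continuous_const)).neg

theorem cont_XX (h7 : StOp) (g : Form (m + 1)) (hR : Riem g) (φ : W (m + 1) → ℝ)
    (hφ : ContDiff ℝ 1 φ) : Continuous (XX g φ) := by
  unfold XX
  exact (hφ.continuous_fderiv (by norm_num)).clm_apply (cont_XH h7 g hR)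

theorem cont_ta : Continuous (ta (m := m)) := by
  unfold ta
  fun_prop

theorem cont_L (h7 : StOp) (g : Form (m + 1)) (hR : Riem g) (φ : W (m + 1) → ℝ)
    (hφ : ContDiff ℝ 1 φ) :
    Continuous (fun z : W (m + 1) => φ z * d1 g z.1 (vel g z) + 2 * ta z * XX g φ z) :=
  (hφ.continuous.mul (cont_d1 h7 g hR)).add
    ((continuous_const.mul cont_ta).mul (cont_XX h7 g hR φ hφ))

/-- the first terms of the second variation -/
noncomputable def S1 (g : Form (m + 1)) (φ : W (m + 1) → ℝ) (z : W (m + 1)) : ℝ :=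
  1 / 4 * φ z ^ 2 * d2 g z.1 (vel g z) + 1 / 2 * XX g φ z ^ 2

theorem cont_S1 (h7 : StOp) (g : Form (m + 1)) (hR : Riem g) (φ : W (m + 1) → ℝ)
    (hφ : ContDiff ℝ 1 φ) : Continuous (S1 g φ) := by
  unfold S1
  exact ((continuous_const.mul (hφ.continuous.pow 2)).mul (cont_d2 h7 g hR)).add
    (continuous_const.mul ((cont_XX h7 g hR φ hφ).pow 2))

theorem meas_SS (h7 : StOp) (g : Form (m + 1)) (hR : Riem g) (φ : W (m + 1) → ℝ)
    (hφ : ContDiff ℝ 1 φ) : Measurable (SS g φ) := by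
  have h1 := (cont_S1 h7 g hR φ hφ).measurable
  have h2 := ((cont_L h7 g hR φ hφ).pow 2).measurable
  have h3 := (continuous_const.mul (cont_Hm h7 g hR) : Continuous fun z => 16 * Hm g z).measurable
  exact h1.sub (h2.div h3)

/-- bound of the second variation on compact sets -/
theorem bound_SS (h3 : StTay) (h4 : StXB) (h5 : StSub) (h6 : StBas) (h7 : StOp)
    (g : Form (m + 1)) (hR : Riem g) (hB : Blk g) (φ : W (m + 1) → ℝ) (hφ : ContDiff ℝ 1 φ)
    (K : Set (E (m + 1))) (hK : IsCompact K) :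
    ∃ B, ∀ z : W (m + 1), z.1 ∈ K → Hm g z ≤ 1 / 2 → |SS g φ z| ≤ B := by
  obtain ⟨B1, hB1⟩ := (h5 (m + 1) g hR K (1 / 2) hK).exists_bound_of_continuousOn
    (cont_S1 h7 g hR φ hφ).continuousOn
  obtain ⟨C1, hC1, hT⟩ := h3 m g hR K hK
  obtain ⟨C2, hC2, hX⟩ := h4 m g hR K hK φ hφ
  obtain ⟨-, -, -, -, -, hpos, hE, -⟩ := h6 m g hR hB
  refine ⟨B1 + (C2 * C1 + 2 * C2) ^ 2 / 8, ?_⟩
  intro z hz hH
  have a1 : |S1 g φ z| ≤ B1 := hB1 z ⟨hz, hH⟩
  obtain ⟨hX1, hX2⟩ := hX z hz hH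
  obtain ⟨hT1, -, -⟩ := hT z.1 hz (vel g z)
  rw [hE z] at hT1
  obtain ⟨hH0, hta⟩ := hpos z
  have hta' : |ta z| ≤ Real.sqrt (2 * Hm g z) := Real.abs_le_sqrt hta
  have hs : Real.sqrt (2 * Hm g z) * Real.sqrt (2 * Hm g z) = 2 * Hm g z :=
    Real.mul_self_sqrt (by linarith)
  have a2 : |φ z * d1 g z.1 (vel g z) + 2 * ta z * XX g φ z| ≤
      (C2 * C1 + 2 * C2) * (2 * Hm g z) := by
    have b1 : |φ z * d1 g z.1 (vel g z)| ≤ C2 * (C1 * (2 * Hm g z)) := by
      rw [abs_mul]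
      exact mul_le_mul hX1 hT1 (abs_nonneg _) hC2.le
    have b2 : |2 * ta z * XX g φ z| ≤ 2 * C2 * (2 * Hm g z) := by
      rw [abs_mul, abs_mul, abs_of_pos (by norm_num : (0 : ℝ) < 2)]
      calc 2 * |ta z| * |XX g φ z|
          ≤ 2 * Real.sqrt (2 * Hm g z) * (C2 * Real.sqrt (2 * Hm g z)) := by
            apply mul_le_mul _ hX2 (abs_nonneg _) (by positivity)
            exact mul_le_mul_of_nonneg_left hta' (by norm_num)
        _ = 2 * C2 * (Real.sqrt (2 * Hm g z) * Real.sqrt (2 * Hm g z)) := by ring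
        _ = 2 * C2 * (2 * Hm g z) := by rw [hs]
    calc |φ z * d1 g z.1 (vel g z) + 2 * ta z * XX g φ z|
        ≤ |φ z * d1 g z.1 (vel g z)| + |2 * ta z * XX g φ z| := abs_add_le _ _
      _ ≤ C2 * (C1 * (2 * Hm g z)) + 2 * C2 * (2 * Hm g z) := add_le_add b1 b2
      _ = (C2 * C1 + 2 * C2) * (2 * Hm g z) := by ring
  set D := C2 * C1 + 2 * C2 with hD
  have a3 : |(φ z * d1 g z.1 (vel g z) + 2 * ta z * XX g φ z) ^ 2 / (16 * Hm g z)| ≤
      D ^ 2 / 8 := by
    rw [abs_of_nonneg (div_nonneg (sq_nonneg _) (by linarith))]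
    rcases eq_or_lt_of_le hH0 with h0 | h0
    · rw [← h0, mul_zero, div_zero]
      positivity
    · rw [div_le_iff₀ (by linarith)]
      have e1 : (φ z * d1 g z.1 (vel g z) + 2 * ta z * XX g φ z) ^ 2 ≤
          (D * (2 * Hm g z)) ^ 2 := by
        rw [← sq_abs]
        exact pow_le_pow_left₀ (abs_nonneg _) a2 2
      have e2 : (D * (2 * Hm g z)) ^ 2 ≤ D ^ 2 / 8 * (16 * Hm g z) := by
        have e3 : D ^ 2 / 8 * (16 * Hm g z) - (D * (2 * Hm g z)) ^ 2 =
            D ^ 2 * (4 * Hm g z * (1 / 2 - Hm g z)) := by ring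
        have e4 : 0 ≤ D ^ 2 * (4 * Hm g z * (1 / 2 - Hm g z)) := by
          apply mul_nonneg (sq_nonneg _)
          apply mul_nonneg (by linarith)
          linarith
        linarith
      linarith
  have e : SS g φ z = S1 g φ z -
      (φ z * d1 g z.1 (vel g z) + 2 * ta z * XX g φ z) ^ 2 / (16 * Hm g z) := rfl
  rw [e]
  calc |S1 g φ z - (φ z * d1 g z.1 (vel g z) + 2 * ta z * XX g φ z) ^ 2 / (16 * Hm g z)|
      ≤ |S1 g φ z| +
        |(φ z * d1 g z.1 (vel g z) + 2 * ta z * XX g φ z) ^ 2 / (16 * Hm g z)| := abs_sub _ _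
    _ ≤ B1 + D ^ 2 / 8 := add_le_add a1 a3

/-- integrability over the disk bundle -/
theorem integrable (h5 : StSub) (h7 : StOp) (g : Form (m + 1)) (hR : Riem g)
    (χ : E (m + 1) → ℝ) (hc : Continuous χ) (hs : HasCompactSupport χ) (F : W (m + 1) → ℝ)
    (hF : Measurable F) (B : ℝ)
    (hb : ∀ z : W (m + 1), z.1 ∈ tsupport χ → Hm g z ≤ 1 / 2 → |F z| ≤ B) :
    IntegrableOn (fun z : W (m + 1) => χ z.1 * F z) (Disk g) := by
  have hcm := h5 (m + 1) g hR (tsupport χ) (1 / 2) hs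
  have hD : MeasurableSet (Disk g) :=
    (isClosed_le (cont_Hm h7 g hR) continuous_const).measurableSet
  obtain ⟨M, hM⟩ := hs.exists_bound_of_continuousOn hc.continuousOn
  have h1 : IntegrableOn (fun z : W (m + 1) => χ z.1 * F z)
      {z : W (m + 1) | z.1 ∈ tsupport χ ∧ Hm g z ≤ 1 / 2} := by
    refine Measure.integrableOn_of_bounded (M := M * B) hcm.measure_lt_top.ne ?_ ?_
    · exact ((hc.comp continuous_fst).measurable.mul hF).aestronglyMeasurable
    · refine (ae_restrict_iff' hcm.measurableSet).2 (Eventually.of_forall fun z hz => ?_)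
      rw [norm_mul]
      exact mul_le_mul (hM z.1 hz.1) (hb z hz.1 hz.2) (norm_nonneg _)
        (le_trans (norm_nonneg _) (hM z.1 hz.1))
  refine h1.of_forall_sdiff_eq_zero hD ?_
  rintro z ⟨hz1, hz2⟩
  have : z.1 ∉ tsupport χ := fun h => hz2 ⟨h, hz1⟩
  show χ z.1 * F z = 0
  rw [image_eq_zero_of_notMem_tsupport this, zero_mul]

/-- a positivity criterion -/
theorem nonneg_of_forall {I V δ₀ : ℝ} (hδ : 0 < δ₀) (hV : 0 ≤ V)
    (h : ∀ δ, 0 < δ → δ ≤ δ₀ → 0 ≤ I + V * δ) : 0 ≤ I := by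
  by_contra hI
  push Not at hI
  have hp : 0 < -I / (2 * (V + 1)) := div_pos (by linarith) (by linarith)
  have h1 := h (min δ₀ (-I / (2 * (V + 1)))) (lt_min hδ hp) (min_le_left _ _)
  have h2 : V * min δ₀ (-I / (2 * (V + 1))) ≤ V * (-I / (2 * (V + 1))) :=
    mul_le_mul_of_nonneg_left (min_le_right _ _) hV
  have h3 : V * (-I / (2 * (V + 1))) ≤ -I / 2 := by
    have e : -I / 2 - V * (-I / (2 * (V + 1))) = -I / (2 * (V + 1)) := by
      field_simp
      ring
    linarith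
  linarith

end IDRSec

/-- Second variation. -/
theorem pr_Sec (h1 : StMas) (h2 : StSecP) (h3 : StTay) (h4 : StXB) (h5 : StSub) (h6 : StBas)
    (h7 : StOp) : StSec := by
  intro m G _ _ hG hV g hR hI hM hB φ hφ hφi χ hχ
  have hχc : Continuous χ := hχ.smooth.continuous
  set K := tsupport χ with hKd
  have hK : IsCompact K := hχ.cpt
  obtain ⟨C, δ₀, hC, hδ₀, hP⟩ := h2 m g hR hB K hK φ hφ
  set L : W (m + 1) → ℝ := fun z => φ z * d1 g z.1 (vel g z) + 2 * ta z * XX g φ z with hL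
  have hLc : Continuous L := IDRSec.cont_L h7 g hR φ hφ
  have hHc : Continuous (Hm g) := IDRSec.cont_Hm h7 g hR
  have hcm := h5 (m + 1) g hR K (1 / 2) hK
  have hD : MeasurableSet (Disk g) := (isClosed_le hHc continuous_const).measurableSet
  -- integrability
  have i1 : IntegrableOn (fun z : W (m + 1) => χ z.1 * (2 * Hm g z)) (Disk g) := by
    obtain ⟨B, hb⟩ := hcm.exists_bound_of_continuousOn
      (continuous_const.mul hHc : Continuous fun z => 2 * Hm g z).continuousOn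
    exact IDRSec.integrable h5 h7 g hR χ hχc hχ.cpt _
      (continuous_const.mul hHc : Continuous fun z => 2 * Hm g z).measurable B
      (fun z hz hz' => hb z ⟨hz, hz'⟩)
  have i2 : IntegrableOn (fun z : W (m + 1) => χ z.1 * L z) (Disk g) := by
    obtain ⟨B, hb⟩ := hcm.exists_bound_of_continuousOn hLc.continuousOn
    exact IDRSec.integrable h5 h7 g hR χ hχc hχ.cpt _ hLc.measurable B
      (fun z hz hz' => hb z ⟨hz, hz'⟩)
  have i3 : IntegrableOn (fun z : W (m + 1) => χ z.1 * SS g φ z) (Disk g) := by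
    obtain ⟨B, hb⟩ := IDRSec.bound_SS h3 h4 h5 h6 h7 g hR hB φ hφ K hK
    exact IDRSec.integrable h5 h7 g hR χ hχc hχ.cpt _ (IDRSec.meas_SS h7 g hR φ hφ) B hb
  have i4 : IntegrableOn (fun z : W (m + 1) => χ z.1 * (1 : ℝ)) (Disk g) :=
    IDRSec.integrable h5 h7 g hR χ hχc hχ.cpt (fun _ => (1 : ℝ)) measurable_const 1
      (fun z _ _ => by simp)
  -- the inequality for every small number
  have key : ∀ δ : ℝ, |δ| ≤ δ₀ →
      0 ≤ δ / 2 * (∫ z in Disk g, χ z.1 * L z) + δ ^ 2 * (∫ z in Disk g, χ z.1 * SS g φ z) +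
        C * |δ| ^ 3 * ∫ z in Disk g, χ z.1 * (1 : ℝ) := by
    intro δ hδ
    have b1 := h1 m G hG hV g hR hI hM hB (fun z => δ * φ z) (contDiff_const.mul hφ)
      (fun a z => by
        show δ * φ (lft g a z) = δ * φ z
        rw [hφi a z]) χ hχ
    have b2 : ∫ z in Disk g, χ z.1 *
        (Real.sqrt (2 * Hm g z) * Real.sqrt (spd g (fun z => δ * φ z) z)) ≤
        ∫ z in Disk g, (χ z.1 * (2 * Hm g z) + δ / 2 * (χ z.1 * L z) +
          δ ^ 2 * (χ z.1 * SS g φ z) + C * |δ| ^ 3 * (χ z.1 * (1 : ℝ))) := by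
      apply integral_mono_of_nonneg
      · exact Eventually.of_forall fun z => mul_nonneg (hχ.nonneg _)
          (mul_nonneg (Real.sqrt_nonneg _) (Real.sqrt_nonneg _))
      · exact ((i1.add (i2.const_mul _)).add (i3.const_mul _)).add (i4.const_mul _)
      · refine (ae_restrict_iff' hD).2 (Eventually.of_forall fun z hz => ?_)
        by_cases hzK : z.1 ∈ K
        · have c1 := hP z hzK hz δ hδ
          have c2 := mul_le_mul_of_nonneg_left c1 (hχ.nonneg z.1)
          refine le_trans c2 (le_of_eq ?_)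
          simp only [hL]
          ring
        · have c0 : χ z.1 = 0 := image_eq_zero_of_notMem_tsupport hzK
          simp [c0]
    have j2 : Integrable (fun z : W (m + 1) => δ / 2 * (χ z.1 * L z))
        (volume.restrict (Disk g)) := i2.const_mul _
    have j3 : Integrable (fun z : W (m + 1) => δ ^ 2 * (χ z.1 * SS g φ z))
        (volume.restrict (Disk g)) := i3.const_mul _
    have j4 : Integrable (fun z : W (m + 1) => C * |δ| ^ 3 * (χ z.1 * (1 : ℝ)))
        (volume.restrict (Disk g)) := i4.const_mul _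
    have j12 : Integrable (fun z : W (m + 1) => χ z.1 * (2 * Hm g z) +
        δ / 2 * (χ z.1 * L z)) (volume.restrict (Disk g)) := i1.add j2
    have j123 : Integrable (fun z : W (m + 1) => χ z.1 * (2 * Hm g z) +
        δ / 2 * (χ z.1 * L z) + δ ^ 2 * (χ z.1 * SS g φ z)) (volume.restrict (Disk g)) :=
      j12.add j3
    rw [integral_add j123 j4, integral_add j12 j3, integral_add i1 j2, integral_const_mul,
      integral_const_mul, integral_const_mul] at b2
    linarith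
  have hV0 : 0 ≤ ∫ z in Disk g, χ z.1 * (1 : ℝ) :=
    integral_nonneg fun z => mul_nonneg (hχ.nonneg _) zero_le_one
  refine IDRSec.nonneg_of_forall hδ₀ (mul_nonneg hC.le hV0) ?_
  intro δ hδ1 hδ2
  have k1 := key δ (by rw [abs_of_pos hδ1]; exact hδ2)
  have k2 := key (-δ) (by rw [abs_neg, abs_of_pos hδ1]; exact hδ2)
  rw [abs_neg] at k2
  rw [abs_of_pos hδ1] at k1 k2
  have k3 : 0 ≤ 2 * δ ^ 2 * ((∫ z in Disk g, χ z.1 * SS g φ z) +
      C * (∫ z in Disk g, χ z.1 * (1 : ℝ)) * δ) := by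
    have e : 2 * δ ^ 2 * ((∫ z in Disk g, χ z.1 * SS g φ z) +
      C * (∫ z in Disk g, χ z.1 * (1 : ℝ)) * δ) =
      (δ / 2 * (∫ z in Disk g, χ z.1 * L z) + δ ^ 2 * (∫ z in Disk g, χ z.1 * SS g φ z) +
        C * δ ^ 3 * ∫ z in Disk g, χ z.1 * (1 : ℝ)) +
      (-δ / 2 * (∫ z in Disk g, χ z.1 * L z) + (-δ) ^ 2 * (∫ z in Disk g, χ z.1 * SS g φ z) +
        C * δ ^ 3 * ∫ z in Disk g, χ z.1 * (1 : ℝ)) := by ring
    rw [e]
    exact add_nonneg k1 k2
  exact (mul_nonneg_iff_of_pos_left (by positivity)).1 k3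

end Pool.Agent.DR
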