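import Pool.Agent.Work.MP_13b5d9_gt.DR.Stmts

/-! MP_13b5d9_gt, block DR, item SecP (helper28): the pointwise second variation. -/

set_option autoImplicit false

open MeasureTheory Set Filter Topology
open scoped ContDiff ENNReal

namespace Pool.Agent.DR

open Pool.Agent.MLS Pool.Agent.EC

namespace IDRSecP

/-- the estimate for real numbers -/
theorem core (hsq : StSq) {r A1 A2 R3 δ a b c : ℝ} (hr : 0 < r) (hr1 : r ≤ 1) (ha : 0 ≤ a) (hb : 0 ≤ b)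
    (hc : 0 ≤ c) (hδ : |δ| ≤ 1) (hA1 : |A1| ≤ a * r ^ 2) (hA2 : |A2| ≤ b * r ^ 2)
    (hR3 : |R3| ≤ c * |δ| ^ 3 * r ^ 2) (hu : -r ^ 2 ≤ δ * A1 + δ ^ 2 * A2 + R3) :
    r * Real.sqrt (r ^ 2 + (δ * A1 + δ ^ 2 * A2 + R3)) ≤ r ^ 2 + δ / 2 * A1 +
      δ ^ 2 * (A2 / 2 - A1 ^ 2 / (8 * r ^ 2)) + (c / 2 + a * (b + c) / 4 + (a + b + c) ^ 3 / 16) * |δ| ^ 3 := by
  have h0 := hsq r _ hr hu
  set D := |δ| with hD
  have hD0 : 0 ≤ D := abs_nonneg δ
  have hr2 : 0 < r ^ 2 := by positivity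
  have hr21 : r ^ 2 ≤ 1 := pow_le_one₀ hr.le hr1
  have hDD : δ ^ 2 = D ^ 2 := (sq_abs δ).symm
  have hD2 : D ^ 2 ≤ D := by nlinarith
  have hD3 : D ^ 3 ≤ D ^ 2 := by nlinarith [sq_nonneg D]
  have hD3' : 0 ≤ D ^ 3 := by positivity
  set w := δ ^ 2 * A2 + R3 with hw
  set u := δ * A1 + δ ^ 2 * A2 + R3 with hu'
  have huw : u = δ * A1 + w := by rw [hu', hw]; ring
  have h1 : |δ * A1| ≤ D * (a * r ^ 2) := by
    rw [abs_mul]
    exact mul_le_mul_of_nonneg_left hA1 hD0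
  have h2 : |w| ≤ D ^ 2 * ((b + c) * r ^ 2) := by
    calc |w| ≤ |δ ^ 2 * A2| + |R3| := abs_add_le _ _
      _ ≤ D ^ 2 * (b * r ^ 2) + c * D ^ 3 * r ^ 2 := by
          refine add_le_add ?_ hR3
          rw [abs_mul, hDD, abs_of_nonneg (by positivity : (0 : ℝ) ≤ D ^ 2)]
          exact mul_le_mul_of_nonneg_left hA2 (by positivity)
      _ ≤ D ^ 2 * (b * r ^ 2) + c * D ^ 2 * r ^ 2 := by
          have : c * D ^ 3 * r ^ 2 ≤ c * D ^ 2 * r ^ 2 :=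
            mul_le_mul_of_nonneg_right (mul_le_mul_of_nonneg_left hD3 hc) hr2.le
          linarith
      _ = D ^ 2 * ((b + c) * r ^ 2) := by ring
  have h3 : |u| ≤ D * ((a + b + c) * r ^ 2) := by
    have e1 : |u| ≤ |δ * A1| + |w| := by rw [huw]; exact abs_add_le _ _
    have e2 : D ^ 2 * ((b + c) * r ^ 2) ≤ D * ((b + c) * r ^ 2) :=
      mul_le_mul_of_nonneg_right hD2 (by positivity)
    calc |u| ≤ D * (a * r ^ 2) + D * ((b + c) * r ^ 2) := by linarith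
      _ = D * ((a + b + c) * r ^ 2) := by ring
  have c1 : R3 / 2 ≤ c / 2 * D ^ 3 := by
    have e1 : R3 ≤ c * D ^ 3 * r ^ 2 := (le_abs_self _).trans hR3
    have e2 : c * D ^ 3 * r ^ 2 ≤ c * D ^ 3 * 1 := mul_le_mul_of_nonneg_left hr21 (by positivity)
    linarith
  have c2 : -(u ^ 2 / (8 * r ^ 2)) ≤ -(δ ^ 2 * (A1 ^ 2 / (8 * r ^ 2))) + a * (b + c) / 4 * D ^ 3 := by
    have e1 : (δ * A1) ^ 2 - 2 * (D * (a * r ^ 2)) * (D ^ 2 * ((b + c) * r ^ 2)) ≤ u ^ 2 := by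
      have e2 : |δ * A1 * w| ≤ (D * (a * r ^ 2)) * (D ^ 2 * ((b + c) * r ^ 2)) := by
        rw [abs_mul]
        exact mul_le_mul h1 h2 (abs_nonneg _) (by positivity)
      have e3 := (abs_le.1 e2).1
      rw [huw]
      have e7 : (δ * A1 + w) ^ 2 = (δ * A1) ^ 2 + 2 * (δ * A1 * w) + w ^ 2 := by ring
      have e8 := sq_nonneg w
      linarith
    have e4 : ((δ * A1) ^ 2 - 2 * (D * (a * r ^ 2)) * (D ^ 2 * ((b + c) * r ^ 2))) / (8 * r ^ 2) ≤ u ^ 2 / (8 * r ^ 2) :=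
      div_le_div_of_nonneg_right e1 (by positivity)
    have e5 : ((δ * A1) ^ 2 - 2 * (D * (a * r ^ 2)) * (D ^ 2 * ((b + c) * r ^ 2))) / (8 * r ^ 2)
        = δ ^ 2 * (A1 ^ 2 / (8 * r ^ 2)) - a * (b + c) / 4 * D ^ 3 * r ^ 2 := by
      field_simp
      ring
    have e6 : a * (b + c) / 4 * D ^ 3 * r ^ 2 ≤ a * (b + c) / 4 * D ^ 3 * 1 :=
      mul_le_mul_of_nonneg_left hr21 (by positivity)
    rw [e5] at e4
    linarith
  have c3 : u ^ 3 / (16 * r ^ 4) ≤ (a + b + c) ^ 3 / 16 * D ^ 3 := by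
    have e1 : u ^ 3 ≤ (D * ((a + b + c) * r ^ 2)) ^ 3 := by
      calc u ^ 3 ≤ |u ^ 3| := le_abs_self _
        _ = |u| ^ 3 := abs_pow _ _
        _ ≤ _ := pow_le_pow_left₀ (abs_nonneg _) h3 3
    have e2 : u ^ 3 / (16 * r ^ 4) ≤ (D * ((a + b + c) * r ^ 2)) ^ 3 / (16 * r ^ 4) :=
      div_le_div_of_nonneg_right e1 (by positivity)
    have e3 : (D * ((a + b + c) * r ^ 2)) ^ 3 / (16 * r ^ 4) = (a + b + c) ^ 3 / 16 * D ^ 3 * r ^ 2 := by
      field_simp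
    have e4 : (a + b + c) ^ 3 / 16 * D ^ 3 * r ^ 2 ≤ (a + b + c) ^ 3 / 16 * D ^ 3 * 1 :=
      mul_le_mul_of_nonneg_left hr21 (by positivity)
    rw [e3] at e2
    linarith
  have c4 : u / 2 = δ / 2 * A1 + δ ^ 2 * (A2 / 2) + R3 / 2 := by rw [hu']; ring
  calc r * Real.sqrt (r ^ 2 + u) ≤ r ^ 2 + u / 2 - u ^ 2 / (8 * r ^ 2) + u ^ 3 / (16 * r ^ 4) := h0
    _ ≤ _ := by
      rw [c4]
      have e : δ ^ 2 * (A2 / 2 - A1 ^ 2 / (8 * r ^ 2)) = δ ^ 2 * (A2 / 2) - δ ^ 2 * (A1 ^ 2 / (8 * r ^ 2)) := by ring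
      have e' : (c / 2 + a * (b + c) / 4 + (a + b + c) ^ 3 / 16) * D ^ 3
          = c / 2 * D ^ 3 + a * (b + c) / 4 * D ^ 3 + (a + b + c) ^ 3 / 16 * D ^ 3 := by ring
      rw [e, e']
      linarith

/-- the last coordinate of the last vector of the basis -/
theorem eL_last (m : ℕ) : (eL (m := m)) (Fin.last m) = 1 := by
  simp [eL, ee]

/-- the speed is nonnegative -/
theorem spd_nonneg (h4 : StBas) {m : ℕ} {g : Form (m + 1)} (hR : Riem g) (hB : Blk g)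
    (ψ : W (m + 1) → ℝ) (z : W (m + 1)) : 0 ≤ spd g ψ z := by
  obtain ⟨b1, -⟩ := h4 m g hR hB
  have h := g.nonneg (z.1 + ψ z • eL) (vel g z + XX g ψ z • eL)
  have e1 : g.val (z.1 + ψ z • eL) eL (vel g z) = ta z := by rw [hB, b1]
  have e2 : g.val (z.1 + ψ z • eL) (vel g z) eL = ta z := by rw [g.symm, e1]
  have e3 : g.val (z.1 + ψ z • eL) eL (eL (m := m)) = 1 := by rw [hB, eL_last]
  have e : g.val (z.1 + ψ z • eL) (vel g z + XX g ψ z • eL) (vel g z + XX g ψ z • eL) = spd g ψ z := by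
    simp only [map_add, add_apply, map_smul, smul_apply, smul_eq_mul, e1, e2, e3]
    unfold spd
    ring
  rw [← e]
  exact h

/-- derivative along the flow of a multiple -/
theorem XX_mul {m : ℕ} (g : Form (m + 1)) {φ : W (m + 1) → ℝ} (hφ : ContDiff ℝ 1 φ) (δ : ℝ) (z : W (m + 1)) :
    XX g (fun y => δ * φ y) z = δ * XX g φ z := by
  unfold XX
  rw [fderiv_const_mul (hφ.differentiable (by norm_num) z)]
  rfl

end IDRSecP

open IDRSecP in
/-- Item SecP. -/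
theorem pr_SecP (h1 : StSq) (h2 : StTay) (h3 : StXB) (h4 : StBas) : StSecP := by
  intro m g hR hB K hK φ hφ
  obtain ⟨C1, hC1, hX⟩ := h3 m g hR K hK φ hφ
  obtain ⟨C2, hC2, hT⟩ := h2 m g hR K hK
  obtain ⟨b1, -, -, -, -, b6, b7, -⟩ := h4 m g hR hB
  set a : ℝ := C1 * C2 + 2 * C1 with ha
  set b : ℝ := C1 ^ 2 * C2 / 2 + C1 ^ 2 with hb
  set c : ℝ := C2 * C1 ^ 3 with hc
  have ha0 : 0 ≤ a := by positivity
  have hb0 : 0 ≤ b := by positivity
  have hc0 : 0 ≤ c := by positivity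
  refine ⟨c / 2 + a * (b + c) / 4 + (a + b + c) ^ 3 / 16 + 1, min 1 (1 / C1), by positivity,
    lt_min one_pos (by positivity), ?_⟩
  intro z hz hH δ hδ
  have hδ1 : |δ| ≤ 1 := hδ.trans (min_le_left _ _)
  have hδ2 : |δ| ≤ 1 / C1 := hδ.trans (min_le_right _ _)
  obtain ⟨hφ1, hφ2⟩ := hX z hz hH
  obtain ⟨hH0, hta⟩ := b6 z
  obtain ⟨t1, t2, t3⟩ := hT z.1 hz (vel g z)
  rw [b7] at t1 t2
  set r := Real.sqrt (2 * Hm g z) with hr
  have hr2 : 2 * Hm g z = r ^ 2 := (Real.sq_sqrt (by linarith)).symm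
  have hr0 : 0 ≤ r := Real.sqrt_nonneg _
  have hr1 : r ≤ 1 := by
    rw [hr]
    exact Real.sqrt_le_one.2 (by linarith)
  rw [hr2] at t1 t2 hta
  have hD3 : 0 ≤ |δ| ^ 3 := by positivity
  have hspd := spd_nonneg h4 hR hB (fun y => δ * φ y) z
  have hta' : |ta z| ≤ r := abs_le_of_sq_le_sq hta hr0
  rcases hr0.eq_or_lt with h0 | h0
  · -- zero velocity
    have e1 : d1 g z.1 (vel g z) = 0 := by
      rw [← h0] at t1
      simpa using t1
    have e2 : d2 g z.1 (vel g z) = 0 := by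
      rw [← h0] at t2
      simpa using t2
    have e3 : XX g φ z = 0 := by
      rw [← h0] at hφ2
      simpa using hφ2
    have e4 : SS g φ z = 0 := by
      unfold SS
      rw [e1, e2, e3]
      simp
    rw [hr2, e1, e3, e4, ← h0]
    have : 0 ≤ (c / 2 + a * (b + c) / 4 + (a + b + c) ^ 3 / 16 + 1) * |δ| ^ 3 := by positivity
    simpa using this
  · set A1 := φ z * d1 g z.1 (vel g z) + 2 * ta z * XX g φ z with hA1
    set A2 := φ z ^ 2 * d2 g z.1 (vel g z) / 2 + XX g φ z ^ 2 with hA2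
    set R3 := g.val (z.1 + (δ * φ z) • eL) (vel g z) (vel g z) -
      (g.val z.1 (vel g z) (vel g z) + (δ * φ z) * d1 g z.1 (vel g z) +
      (δ * φ z) ^ 2 / 2 * d2 g z.1 (vel g z)) with hR3
    have hs : |δ * φ z| ≤ 1 := by
      rw [abs_mul]
      calc |δ| * |φ z| ≤ (1 / C1) * C1 := mul_le_mul hδ2 hφ1 (abs_nonneg _) (by positivity)
        _ = 1 := by field_simp
    have k1 : |A1| ≤ a * r ^ 2 := by
      have e1 : |φ z * d1 g z.1 (vel g z)| ≤ C1 * (C2 * r ^ 2) := by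
        rw [abs_mul]
        exact mul_le_mul hφ1 t1 (abs_nonneg _) hC1.le
      have e2 : |2 * ta z * XX g φ z| ≤ 2 * r * (C1 * r) := by
        rw [abs_mul, abs_mul, abs_two]
        exact mul_le_mul (mul_le_mul_of_nonneg_left hta' (by norm_num)) hφ2 (abs_nonneg _) (by positivity)
      calc |A1| ≤ |φ z * d1 g z.1 (vel g z)| + |2 * ta z * XX g φ z| := abs_add_le _ _
        _ ≤ C1 * (C2 * r ^ 2) + 2 * r * (C1 * r) := add_le_add e1 e2
        _ = a * r ^ 2 := by rw [ha]; ring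
    have k2 : |A2| ≤ b * r ^ 2 := by
      have e1 : |φ z ^ 2 * d2 g z.1 (vel g z) / 2| ≤ C1 ^ 2 * (C2 * r ^ 2) / 2 := by
        rw [abs_div, abs_mul, abs_pow, abs_two]
        refine div_le_div_of_nonneg_right ?_ (by norm_num)
        exact mul_le_mul (pow_le_pow_left₀ (abs_nonneg _) hφ1 2) t2 (abs_nonneg _) (by positivity)
      have e2 : |XX g φ z ^ 2| ≤ (C1 * r) ^ 2 := by
        rw [abs_pow]
        exact pow_le_pow_left₀ (abs_nonneg _) hφ2 2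
      calc |A2| ≤ |φ z ^ 2 * d2 g z.1 (vel g z) / 2| + |XX g φ z ^ 2| := abs_add_le _ _
        _ ≤ C1 ^ 2 * (C2 * r ^ 2) / 2 + (C1 * r) ^ 2 := add_le_add e1 e2
        _ = b * r ^ 2 := by rw [hb]; ring
    have k3 : |R3| ≤ c * |δ| ^ 3 * r ^ 2 := by
      have e1 := t3 (δ * φ z) hs
      rw [b7, hr2] at e1
      have e2 : |δ * φ z| ^ 3 ≤ (|δ| * C1) ^ 3 := by
        rw [abs_mul]
        exact pow_le_pow_left₀ (by positivity) (mul_le_mul_of_nonneg_left hφ1 (abs_nonneg _)) 3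
      calc |R3| ≤ C2 * |δ * φ z| ^ 3 * r ^ 2 := by
            rw [hR3, b7, hr2]
            exact e1
        _ ≤ C2 * (|δ| * C1) ^ 3 * r ^ 2 :=
            mul_le_mul_of_nonneg_right (mul_le_mul_of_nonneg_left e2 hC2.le) (by positivity)
        _ = c * |δ| ^ 3 * r ^ 2 := by rw [hc]; ring
    have hsp : spd g (fun y => δ * φ y) z = r ^ 2 + (δ * A1 + δ ^ 2 * A2 + R3) := by
      unfold spd
      rw [XX_mul g hφ]
      show g.val (z.1 + (δ * φ z) • eL) (vel g z) (vel g z) + 2 * ta z * (δ * XX g φ z) + (δ * XX g φ z) ^ 2 = _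
      rw [hR3, b7, hr2, hA1, hA2]
      ring
    have hu : -r ^ 2 ≤ δ * A1 + δ ^ 2 * A2 + R3 := by
      rw [hsp] at hspd
      linarith
    have hcore := core h1 h0 hr1 ha0 hb0 hc0 hδ1 k1 k2 k3 hu
    have hSS : SS g φ z = A2 / 2 - A1 ^ 2 / (8 * r ^ 2) := by
      unfold SS
      have : 16 * Hm g z = 8 * r ^ 2 := by linarith
      rw [this, hA2]
      ring
    rw [hsp, hr2, hSS]
    have e1 : δ / 2 * A1 = δ / 2 * (φ z * d1 g z.1 (vel g z) + 2 * ta z * XX g φ z) := by rw [hA1]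
    have e2 : (c / 2 + a * (b + c) / 4 + (a + b + c) ^ 3 / 16 + 1) * |δ| ^ 3
        = (c / 2 + a * (b + c) / 4 + (a + b + c) ^ 3 / 16) * |δ| ^ 3 + |δ| ^ 3 := by ring
    rw [e2]
    linarith

end Pool.Agent.DR
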