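import Mathlib
import Pool.Agent.Work.MP_13b5d9_gt.DR.Stmts

set_option autoImplicit false

/-!
# MP_13b5d9_gt, block DR, item Sq: the cubic Taylor polynomial of the square root
-/

namespace Pool.Agent.DR

open Pool.Agent.MLS Pool.Agent.EC

namespace IDRSq

/-- The normalised inequality. -/
theorem sqrt_le_cubic (y : ℝ) (hy : -1 ≤ y) :
    Real.sqrt (1 + y) ≤ 1 + y / 2 - y ^ 2 / 8 + y ^ 3 / 16 := by
  have h0 : 0 ≤ 1 + y / 2 - y ^ 2 / 8 + y ^ 3 / 16 := by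
    have e : 1 + y / 2 - y ^ 2 / 8 + y ^ 3 / 16 =
        (y + 1) * ((y - 3 / 2) ^ 2 / 16 + 35 / 64) + 5 / 16 := by ring
    have h1 : 0 ≤ y + 1 := by linarith
    rw [e]
    positivity
  have h2 : 1 + y ≤ (1 + y / 2 - y ^ 2 / 8 + y ^ 3 / 16) ^ 2 := by
    have e : (1 + y / 2 - y ^ 2 / 8 + y ^ 3 / 16) ^ 2 =
        1 + y + y ^ 4 * (((y - 2) ^ 2 + 16) / 256) := by ring
    have h3 : 0 ≤ y ^ 4 * (((y - 2) ^ 2 + 16) / 256) := by positivity
    linarith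
  exact (Real.sqrt_le_sqrt h2).trans (le_of_eq (Real.sqrt_sq h0))

end IDRSq

theorem pr_Sq : StSq := by
  intro r u hr hu
  have hr2 : 0 < r ^ 2 := by positivity
  obtain ⟨y, hy⟩ : ∃ y : ℝ, u = r ^ 2 * y := ⟨u / r ^ 2, by field_simp⟩
  have hy1 : -1 ≤ y := by
    by_contra h
    have h1 : y < -1 := not_le.mp h
    have h2 : r ^ 2 * y < r ^ 2 * (-1) := mul_lt_mul_of_pos_left h1 hr2
    linarith
  have h := IDRSq.sqrt_le_cubic y hy1
  have e1 : Real.sqrt (r ^ 2 + u) = r * Real.sqrt (1 + y) := by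
    have e : r ^ 2 + u = r ^ 2 * (1 + y) := by rw [hy]; ring
    rw [e, Real.sqrt_mul hr2.le, Real.sqrt_sq hr.le]
  have e2 : r ^ 2 + u / 2 - u ^ 2 / (8 * r ^ 2) + u ^ 3 / (16 * r ^ 4) =
      r ^ 2 * (1 + y / 2 - y ^ 2 / 8 + y ^ 3 / 16) := by
    rw [hy]
    field_simp
  rw [e1, e2]
  have h3 : r * (r * Real.sqrt (1 + y)) = r ^ 2 * Real.sqrt (1 + y) := by ring
  rw [h3]
  exact mul_le_mul_of_nonneg_left h hr2.le

end Pool.Agent.DR
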