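import Mathlib
import Pool.Agent.Work.MP_13b5d9_gt.DR.Stmts

set_option autoImplicit false
set_option maxSynthPendingDepth 3

/-!
# MP_13b5d9_gt, block DR, item Tay: Taylor formula in the vertical direction.  Author: helper82.
-/

open MeasureTheory Set Filter Topology
open scoped ContDiff ENNReal

namespace Pool.Agent.DR

open Pool.Agent.MLS Pool.Agent.EC

namespace IDRTay

theorem mv {f f' : ℝ → ℝ} (h : ∀ t, HasDerivAt f (f' t) t) {a D : ℝ}
    (hD : ∀ t, |t| ≤ a → |f' t| ≤ D) (s : ℝ) (hs : |s| ≤ a) : |f s - f 0| ≤ D * |s| := by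
  have ha : 0 ≤ a := (abs_nonneg s).trans hs
  have h1 := Convex.norm_image_sub_le_of_norm_hasDerivWithin_le (f := f) (f' := f') (C := D)
    (s := Icc (-a) a) (x := 0) (y := s) (fun t _ => (h t).hasDerivWithinAt)
    (fun t ht => hD t (abs_le.2 ht)) (convex_Icc _ _) ⟨by linarith, ha⟩ (abs_le.1 hs)
  rw [sub_zero] at h1
  exact h1

theorem tay {φ φ1 φ2 φ3 : ℝ → ℝ} (h0 : ∀ t, HasDerivAt φ (φ1 t) t)
    (h1 : ∀ t, HasDerivAt φ1 (φ2 t) t) (h2 : ∀ t, HasDerivAt φ2 (φ3 t) t) {D : ℝ} (hD0 : 0 ≤ D)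
    (hD : ∀ t, |t| ≤ 1 → |φ3 t| ≤ D) (s : ℝ) (hs : |s| ≤ 1) :
    |φ s - (φ 0 + s * φ1 0 + s ^ 2 / 2 * φ2 0)| ≤ D * |s| ^ 3 := by
  have e2 : ∀ t, |t| ≤ |s| → |φ2 t - φ2 0| ≤ D * |s| := fun t ht =>
    (mv h2 hD t (ht.trans hs)).trans (mul_le_mul_of_nonneg_left ht hD0)
  have h1' : ∀ t, HasDerivAt (fun t => φ1 t - t * φ2 0) (φ2 t - φ2 0) t := by
    intro t
    have h := (h1 t).sub ((hasDerivAt_id t).mul_const (φ2 0))
    rw [one_mul] at h
    exact h
  have e1 : ∀ t, |t| ≤ |s| → |φ1 t - t * φ2 0 - φ1 0| ≤ D * |s| ^ 2 := by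
    intro t ht
    have h := mv h1' e2 t ht
    simp only [zero_mul, sub_zero] at h
    refine h.trans ?_
    rw [pow_two, ← mul_assoc]
    exact mul_le_mul_of_nonneg_left ht (mul_nonneg hD0 (abs_nonneg s))
  have h0' : ∀ t, HasDerivAt (fun t => φ t - t * φ1 0 - t ^ 2 / 2 * φ2 0)
      (φ1 t - t * φ2 0 - φ1 0) t := by
    intro t
    have ha := (hasDerivAt_id t).mul_const (φ1 0)
    have hb := (((hasDerivAt_id t).pow 2).div_const 2).mul_const (φ2 0)
    have h := ((h0 t).sub ha).sub hb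
    refine h.congr_deriv ?_
    simp only [id]
    push_cast
    ring
  have h := mv h0' e1 s le_rfl
  have e : φ s - s * φ1 0 - s ^ 2 / 2 * φ2 0 - (φ 0 - 0 * φ1 0 - 0 ^ 2 / 2 * φ2 0) =
      φ s - (φ 0 + s * φ1 0 + s ^ 2 / 2 * φ2 0) := by ring
  rw [e] at h
  refine h.trans (le_of_eq ?_)
  ring

/-- derivative along the vertical direction -/
noncomputable def dv {m : ℕ} (A : E (m + 1) → (E (m + 1) →L[ℝ] E (m + 1) →L[ℝ] ℝ)) (y : E (m + 1)) : (E (m + 1) →L[ℝ] E (m + 1) →L[ℝ] ℝ) :=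
  fderiv ℝ A y eL

theorem dv_smooth {m : ℕ} {A : E (m + 1) → (E (m + 1) →L[ℝ] E (m + 1) →L[ℝ] ℝ)} (h : ContDiff ℝ ∞ A) :
    ContDiff ℝ ∞ (dv A) := by
  have h1 : ContDiff ℝ ∞ (fderiv ℝ A) := h.fderiv_right (by norm_num)
  exact h1.clm_apply contDiff_const

theorem hasD {m : ℕ} {A : E (m + 1) → (E (m + 1) →L[ℝ] E (m + 1) →L[ℝ] ℝ)} (h : ContDiff ℝ ∞ A) (x v : E (m + 1)) (t : ℝ) :
    HasDerivAt (fun t : ℝ => A (x + t • eL) v v) (dv A (x + t • eL) v v) t := by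
  have hd : DifferentiableAt ℝ A (x + t • eL) := (h.differentiable (by norm_num)) _
  have hl : HasDerivAt (fun t : ℝ => x + t • (eL : E (m + 1))) eL t := by
    have h1 := ((hasDerivAt_id t).smul_const (eL : E (m + 1))).const_add x
    rw [one_smul] at h1
    exact h1
  have h1 : HasDerivAt (fun t : ℝ => A (x + t • eL)) (dv A (x + t • eL)) t :=
    hd.hasFDerivAt.comp_hasDerivAt t hl
  have h2 := (h1.clm_apply (hasDerivAt_const t v)).clm_apply (hasDerivAt_const t v)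
  simpa using h2

theorem fd {m : ℕ} {A : E (m + 1) → (E (m + 1) →L[ℝ] E (m + 1) →L[ℝ] ℝ)} (h : ContDiff ℝ ∞ A) (x v : E (m + 1)) :
    fderiv ℝ (fun y => A y v v) x eL = dv A x v v := by
  have hd : DifferentiableAt ℝ A x := (h.differentiable (by norm_num)) _
  have h1 := (hd.hasFDerivAt.clm_apply (hasFDerivAt_const v x)).clm_apply (hasFDerivAt_const v x)
  rw [h1.fderiv]
  simp [dv]

end IDRTay

open IDRTay in
/-- Taylor formula in the vertical direction. -/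
theorem pr_Tay (hBnd : StBnd) : StTay := by
  intro m g hg K hK
  obtain ⟨C₁, hC₁, hC₁'⟩ := (hBnd (m + 1) g K hK).2 hg
  have hs0 := g.smooth
  have hs1 := dv_smooth hs0
  have hs2 := dv_smooth hs1
  have hs3 := dv_smooth hs2
  have hcl : Continuous (fun q : E (m + 1) × ℝ => q.1 + q.2 • (eL : E (m + 1))) := by fun_prop
  have hK' : IsCompact ((fun q : E (m + 1) × ℝ => q.1 + q.2 • (eL : E (m + 1))) ''
      (K ×ˢ Icc (-1 : ℝ) 1)) := (hK.prod isCompact_Icc).image hcl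
  obtain ⟨M1, hM1⟩ := hK'.exists_bound_of_continuousOn hs1.continuous.continuousOn
  obtain ⟨M2, hM2⟩ := hK'.exists_bound_of_continuousOn hs2.continuous.continuousOn
  obtain ⟨M3, hM3⟩ := hK'.exists_bound_of_continuousOn hs3.continuous.continuousOn
  have hin : ∀ x ∈ K, ∀ t : ℝ, |t| ≤ 1 → x + t • (eL : E (m + 1)) ∈
      ((fun q : E (m + 1) × ℝ => q.1 + q.2 • (eL : E (m + 1))) '' (K ×ˢ Icc (-1 : ℝ) 1)) := by
    intro x hx t ht
    exact ⟨(x, t), ⟨hx, abs_le.1 ht⟩, rfl⟩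
  set M := |M1| + |M2| + |M3| + 1 with hM
  have hM0 : 0 < M := by positivity
  -- bounds of the values
  have hval : ∀ x ∈ K, ∀ v : E (m + 1), M * (‖v‖ * ‖v‖) ≤ M * C₁ ^ 2 * g.val x v v := by
    intro x hx v
    have h1 := hC₁' x hx v
    have h2 : nrm g x v ^ 2 = g.val x v v := Real.sq_sqrt (g.nonneg x v)
    have h3 : ‖v‖ * ‖v‖ ≤ C₁ ^ 2 * g.val x v v := by
      rw [← h2, ← mul_pow, pow_two]
      exact mul_self_le_mul_self (norm_nonneg v) h1
    rw [mul_assoc]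
    exact mul_le_mul_of_nonneg_left h3 hM0.le
  have hop : ∀ (B : E (m + 1) →L[ℝ] E (m + 1) →L[ℝ] ℝ) (v : E (m + 1)), ‖B‖ ≤ M → |B v v| ≤ M * (‖v‖ * ‖v‖) := by
    intro B v hB
    rw [← Real.norm_eq_abs]
    refine (B.le_opNorm₂ v v).trans ?_
    rw [mul_assoc]
    exact mul_le_mul_of_nonneg_right hB (by positivity)
  have hm1 : M1 ≤ M := by
    have := le_abs_self M1
    have := abs_nonneg M2
    have := abs_nonneg M3
    linarith
  have hm2 : M2 ≤ M := by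
    have := le_abs_self M2
    have := abs_nonneg M1
    have := abs_nonneg M3
    linarith
  have hm3 : M3 ≤ M := by
    have := le_abs_self M3
    have := abs_nonneg M1
    have := abs_nonneg M2
    linarith
  refine ⟨M * C₁ ^ 2, by positivity, ?_⟩
  intro x hx v
  have hx0 : x + (0 : ℝ) • (eL : E (m + 1)) = x := by rw [zero_smul, add_zero]
  have hxK := hin x hx 0 (by norm_num)
  rw [hx0] at hxK
  have e1 : d1 g x v = dv g.val x v v := rfl
  have e2 : d2 g x v = dv (dv g.val) x v v := fd hs1 x v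
  refine ⟨?_, ?_, ?_⟩
  · rw [e1]
    exact (hop _ v ((hM1 x hxK).trans hm1)).trans (hval x hx v)
  · rw [e2]
    exact (hop _ v ((hM2 x hxK).trans hm2)).trans (hval x hx v)
  · intro s hs
    have h := tay (φ := fun t : ℝ => g.val (x + t • eL) v v)
      (φ1 := fun t : ℝ => dv g.val (x + t • eL) v v)
      (φ2 := fun t : ℝ => dv (dv g.val) (x + t • eL) v v)
      (φ3 := fun t : ℝ => dv (dv (dv g.val)) (x + t • eL) v v)
      (fun t => hasD hs0 x v t) (fun t => hasD hs1 x v t) (fun t => hasD hs2 x v t)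
      (D := M * C₁ ^ 2 * g.val x v v)
      (mul_nonneg (by positivity) (g.nonneg x v))
      (fun t ht => (hop _ v ((hM3 _ (hin x hx t ht)).trans hm3)).trans (hval x hx v)) s hs
    simp only [hx0] at h
    rw [e1, e2]
    refine h.trans (le_of_eq ?_)
    ring

end Pool.Agent.DR
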