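import Pool.Agent.Work.MP_13b5d9_gt.DR.Stmts

set_option autoImplicit false

/-!
# Item TenA: tent averages are test functions
-/

open MeasureTheory Set Filter Topology
open scoped ContDiff ENNReal
open Pool.Agent.Work.MP_c9f990_an.Al (IsFlow)

namespace Pool.Agent.DR

open Pool.Agent.MLS Pool.Agent.EC

namespace IDRTenA

/-- integrals of continuously differentiable functions with a parameter -/
theorem par {V : Type} [NormedAddCommGroup V] [NormedSpace ℝ V] [ProperSpace V]
    (F : V → ℝ → ℝ) (F' : V → ℝ → V →L[ℝ] ℝ) (hF : Continuous (Function.uncurry F))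
    (hF' : Continuous (Function.uncurry F')) (hd : ∀ z s, HasFDerivAt (fun y => F y s) (F' z s) z)
    (a b : ℝ) : ContDiff ℝ 1 (fun z => ∫ s in a..b, F z s) := by
  rw [contDiff_one_iff_hasFDerivAt]
  refine ⟨fun z => ∫ s in a..b, F' z s,
    intervalIntegral.continuous_parametric_intervalIntegral_of_continuous' hF' a b, ?_⟩
  intro z₀
  have hK : IsCompact (Metric.closedBall z₀ 1 ×ˢ Set.uIcc a b) :=
    (isCompact_closedBall z₀ 1).prod isCompact_uIcc
  obtain ⟨C, hC⟩ := hK.exists_bound_of_continuousOn (f := Function.uncurry F') hF'.continuousOn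
  have hFs : ∀ z, Continuous (F z) := fun z => hF.comp (continuous_const.prodMk continuous_id)
  have hFs' : ∀ z, Continuous (F' z) := fun z => hF'.comp (continuous_const.prodMk continuous_id)
  apply intervalIntegral.hasFDerivAt_integral_of_dominated_of_fderiv_le
    (s := Metric.closedBall z₀ 1) (bound := fun _ => C) (Metric.closedBall_mem_nhds z₀ one_pos)
  · exact Filter.Eventually.of_forall fun z => (hFs z).aestronglyMeasurable
  · exact (hFs z₀).intervalIntegrable a b
  · exact (hFs' z₀).aestronglyMeasurable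
  · refine Filter.Eventually.of_forall fun t ht z hz => ?_
    exact hC (z, t) ⟨hz, Set.uIoc_subset_uIcc ht⟩
  · exact intervalIntegrable_const
  · exact Filter.Eventually.of_forall fun t _ z _ => hd z t

/-- the tent integral is continuously differentiable -/
theorem tentC1 {V : Type} [NormedAddCommGroup V] [NormedSpace ℝ V] [ProperSpace V]
    {X : V → V} {φ : ℝ → V → V} {M : ℝ → V → V →L[ℝ] V} (hφ : IsFlow X φ M) {c : V → ℝ}
    (hc : ContDiff ℝ 1 c) (R : ℝ) :
    ContDiff ℝ 1 (fun z => ∫ s in (-R)..R, (R - |s|) * c (φ s z)) := by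
  obtain ⟨c', hc', hd⟩ := contDiff_one_iff_hasFDerivAt.1 hc
  have hφc : Continuous (fun p : V × ℝ => φ p.2 p.1) :=
    hφ.cont.comp (continuous_snd.prodMk continuous_fst)
  have hMc : Continuous (fun p : V × ℝ => M p.2 p.1) :=
    hφ.Mcont.comp (continuous_snd.prodMk continuous_fst)
  have hw : Continuous (fun p : V × ℝ => R - |p.2|) :=
    continuous_const.sub (continuous_abs.comp continuous_snd)
  apply par (fun z s => (R - |s|) * c (φ s z)) (fun z s => (R - |s|) • (c' (φ s z)).comp (M s z))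
  · exact hw.mul (hc.continuous.comp hφc)
  · exact hw.smul ((hc'.comp hφc).clm_comp hMc)
  · intro z s
    exact ((hd (φ s z)).comp z (hφ.diff s z)).const_mul (R - |s|)

/-- tent averages of invariant functions -/
theorem tst (h1 : StWgt) (h3 : StEqF) (m : ℕ) (G : Type) [Group G] [MulAction G (E (m + 1))]
    (hG : Cocompact (m + 1) G) (hV : Vert (m + 1) G eL) (g0 : Form (m + 1))
    (φ : ℝ → W (m + 1) → W (m + 1)) (M : ℝ → W (m + 1) → W (m + 1) →L[ℝ] W (m + 1))
    (hR : Riem g0) (hI : Inv G g0) (hB : Blk g0) (hT : TInv g0 eL)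
    (hφ : IsFlow (XH (Hm g0)) φ M) (c : W (m + 1) → ℝ) (hc : ContDiff ℝ 1 c) (hci : GInv G g0 c)
    (η θ : ℝ → ℝ) (δ : ℝ) (hη : Cut η (-(1 / 4)) (1 / 4)) (hθ : Cut θ δ (3 / 16)) (hδ : 0 < δ)
    (R : ℝ) : Tst G g0 (tent g0 η θ φ R c) := by
  obtain ⟨w1, w2, -, w4, -, -, -, -⟩ := h1 m G hG hV g0 φ M hR hI hB hT hφ η θ δ hη hθ hδ
  refine ⟨?_, ?_, δ, hδ, ?_⟩
  · exact (w1.of_le (by exact_mod_cast le_top)).mul (tentC1 hφ hc R)
  · intro a z
    unfold tent
    rw [w2 a z]
    congr 1
    apply intervalIntegral.integral_congr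
    intro s _
    simp only
    rw [h3 (m + 1) G hG g0 hR hI φ M hφ a s z, hci a (φ s z)]
  · intro z hz
    apply w4 z
    intro h0
    apply hz
    unfold tent
    rw [h0, zero_mul]

end IDRTenA

theorem pr_TenA (h1 : StWgt) (h3 : StEqF) : StTenA := by
  intro m G _ _ hG hV g0 φ M hR hI hB hT hφ N c1 c2 hM η θ δ hη hθ hδ R _
  exact ⟨IDRTenA.tst h1 h3 m G hG hV g0 φ M hR hI hB hT hφ c1 hM.smooth1 hM.inv1 η θ δ hη hθ hδ R,
    IDRTenA.tst h1 h3 m G hG hV g0 φ M hR hI hB hT hφ c2 hM.smooth2 hM.inv2 η θ δ hη hθ hδ R⟩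

end Pool.Agent.DR
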