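import Mathlib
import Pool.Agent.Work.MP_13b5d9_gt.DR.Stmts

set_option autoImplicit false

/-!
# MP_13b5d9_gt, block DR, item TenB: derivatives of tent averages
-/

open MeasureTheory Set Filter Topology
open scoped ContDiff ENNReal
open Pool.Agent.Work.MP_c9f990_an.Al (IsFlow)

namespace Pool.Agent.DR

open Pool.Agent.MLS Pool.Agent.EC

namespace IDRTenB

/-- the tent integral in terms of the second primitive -/
theorem tent_eq (b : ℝ → ℝ) (hb : Continuous b) (R : ℝ) (hR : 0 ≤ R) (t : ℝ) :
    ∫ s in (-R)..R, (R - |s|) * b (s + t) =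
      (∫ x in (0 : ℝ)..(R + t), ∫ y in (0 : ℝ)..x, b y) -
        2 * (∫ x in (0 : ℝ)..t, ∫ y in (0 : ℝ)..x, b y) +
        ∫ x in (0 : ℝ)..(-R + t), ∫ y in (0 : ℝ)..x, b y := by
  set B : ℝ → ℝ := fun x => ∫ y in (0 : ℝ)..x, b y with hB
  set C : ℝ → ℝ := fun x => ∫ y in (0 : ℝ)..x, B y with hC
  have hBd : ∀ x, HasDerivAt B (b x) x := fun x =>
    intervalIntegral.integral_hasDerivAt_right (hb.intervalIntegrable _ _)
      (hb.stronglyMeasurableAtFilter _ _) hb.continuousAt
  have hBc : Continuous B := continuous_iff_continuousAt.2 fun x => (hBd x).continuousAt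
  have hCd : ∀ x, HasDerivAt C (B x) x := fun x =>
    intervalIntegral.integral_hasDerivAt_right (hBc.intervalIntegrable _ _)
      (hBc.stronglyMeasurableAtFilter _ _) hBc.continuousAt
  have hBt : ∀ s, HasDerivAt (fun s => B (s + t)) (b (s + t)) s := fun s =>
    (hBd (s + t)).comp_add_const s t
  have hCt : ∀ s, HasDerivAt (fun s => C (s + t)) (B (s + t)) s := fun s =>
    (hCd (s + t)).comp_add_const s t
  have hbt : Continuous fun s => b (s + t) := hb.comp (continuous_id.add continuous_const)
  have h1 : ∫ s in (0 : ℝ)..R, (R - s) * b (s + t) = C (R + t) - C t - R * B t := by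
    have h : ∀ s ∈ uIcc (0 : ℝ) R, HasDerivAt (fun s => (R - s) * B (s + t) + C (s + t))
        ((R - s) * b (s + t)) s := by
      intro s _
      have := (((hasDerivAt_id s).const_sub R).mul (hBt s)).add (hCt s)
      refine this.congr_deriv ?_
      simp only [id_eq]
      ring
    rw [intervalIntegral.integral_eq_sub_of_hasDerivAt h
      (((continuous_const.sub continuous_id).mul hbt).intervalIntegrable _ _)]
    simp only [sub_self, zero_mul, zero_add, sub_zero]
    ring
  have h2 : ∫ s in (-R)..0, (R + s) * b (s + t) = R * B t - C t + C (-R + t) := by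
    have h : ∀ s ∈ uIcc (-R : ℝ) 0, HasDerivAt (fun s => (R + s) * B (s + t) - C (s + t))
        ((R + s) * b (s + t)) s := by
      intro s _
      have := (((hasDerivAt_id s).const_add R).mul (hBt s)).sub (hCt s)
      refine this.congr_deriv ?_
      simp only [id_eq]
      ring
    rw [intervalIntegral.integral_eq_sub_of_hasDerivAt h
      (((continuous_const.add continuous_id).mul hbt).intervalIntegrable _ _)]
    simp only [add_neg_cancel, zero_mul, zero_add, add_zero]
    ring
  have hc : Continuous fun s : ℝ => (R - |s|) * b (s + t) :=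
    (continuous_const.sub continuous_abs).mul hbt
  have h3 : ∫ s in (0 : ℝ)..R, (R - |s|) * b (s + t) = ∫ s in (0 : ℝ)..R, (R - s) * b (s + t) := by
    refine intervalIntegral.integral_congr fun s hs => ?_
    rw [uIcc_of_le hR] at hs
    show (R - |s|) * b (s + t) = (R - s) * b (s + t)
    rw [abs_of_nonneg hs.1]
  have h4 : ∫ s in (-R)..0, (R - |s|) * b (s + t) = ∫ s in (-R)..0, (R + s) * b (s + t) := by
    refine intervalIntegral.integral_congr fun s hs => ?_
    rw [uIcc_of_le (by linarith)] at hs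
    show (R - |s|) * b (s + t) = (R + s) * b (s + t)
    rw [abs_of_nonpos hs.2]
    ring
  rw [← intervalIntegral.integral_add_adjacent_intervals (b := 0) (hc.intervalIntegrable _ _)
    (hc.intervalIntegrable _ _), h3, h4, h1, h2]
  show R * B t - C t + C (-R + t) + (C (R + t) - C t - R * B t) =
    C (R + t) - 2 * C t + C (-R + t)
  ring

/-- derivative of the tent integral -/
theorem tent_deriv (b : ℝ → ℝ) (hb : Continuous b) (R : ℝ) (hR : 0 ≤ R) :
    HasDerivAt (fun t => ∫ s in (-R)..R, (R - |s|) * b (s + t))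
      ((∫ s in (0 : ℝ)..R, b s) - ∫ s in (-R)..0, b s) 0 := by
  set B : ℝ → ℝ := fun x => ∫ y in (0 : ℝ)..x, b y with hB
  have hBd : ∀ x, HasDerivAt B (b x) x := fun x =>
    intervalIntegral.integral_hasDerivAt_right (hb.intervalIntegrable _ _)
      (hb.stronglyMeasurableAtFilter _ _) hb.continuousAt
  have hBc : Continuous B := continuous_iff_continuousAt.2 fun x => (hBd x).continuousAt
  have hCd : ∀ x, HasDerivAt (fun x => ∫ y in (0 : ℝ)..x, B y) (B x) x := fun x =>
    intervalIntegral.integral_hasDerivAt_right (hBc.intervalIntegrable _ _)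
      (hBc.stronglyMeasurableAtFilter _ _) hBc.continuousAt
  have h : HasDerivAt (fun t => (∫ x in (0 : ℝ)..(R + t), B x) - 2 * (∫ x in (0 : ℝ)..t, B x) +
      ∫ x in (0 : ℝ)..(-R + t), B x) (B (R + 0) - 2 * B 0 + B (-R + 0)) 0 :=
    (((hCd (R + 0)).comp_const_add R 0).sub ((hCd 0).const_mul 2)).add
      ((hCd (-R + 0)).comp_const_add (-R) 0)
  have e : B (R + 0) - 2 * B 0 + B (-R + 0) = (∫ s in (0 : ℝ)..R, b s) - ∫ s in (-R)..0, b s := by
    simp only [hB, add_zero, intervalIntegral.integral_same, mul_zero, sub_zero]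
    rw [intervalIntegral.integral_symm (-R) 0]
    ring
  rw [e] at h
  exact h.congr_of_eventuallyEq (Eventually.of_forall fun t => tent_eq b hb R hR t)

end IDRTenB

open IDRTenB in
theorem pr_TenB (h1 : StTenA) (h2 : StWgt) (h3 : StPrd) : StTenB := by
  intro m G _ _ hG hV g0 φ M hg hI hB hT hφ N c1 c2 hm η θ δ hη hθ hδ R hR
  obtain ⟨ht1, ht2⟩ := h1 m G hG hV g0 φ M hg hI hB hT hφ N c1 c2 hm η θ δ hη hθ hδ R hR
  obtain ⟨-, -, -, -, hw1, hw2, -, -⟩ := h2 m G hG hV g0 φ M hg hI hB hT hφ η θ δ hη hθ hδ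
  obtain ⟨hp1, -, -, -, -, -, -⟩ := h3 m g0 φ M hg hB hT hφ
  have hφc : ∀ z, Continuous fun s => φ s z := fun z =>
    hφ.cont.comp (continuous_id.prodMk continuous_const)
  refine ⟨fun z => ?_, fun z => ?_⟩
  · have hcurve : HasDerivAt (fun t => φ t z) (XH (Hm g0) z) 0 := by
      have := hφ.ode z 0
      rwa [hφ.zero] at this
    have hf : HasFDerivAt (tent g0 η θ φ R c2) (fderiv ℝ (tent g0 η θ φ R c2) z) (φ 0 z) := by
      rw [hφ.zero]
      exact ((ht2.smooth.differentiable one_ne_zero) z).hasFDerivAt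
    have hd : HasDerivAt (fun t => tent g0 η θ φ R c2 (φ t z))
        (XX g0 (tent g0 η θ φ R c2) z) 0 := by
      have h := hf.comp_hasDerivAt (0 : ℝ) hcurve
      exact h
    have hd2 : HasDerivAt (fun t => tent g0 η θ φ R c2 (φ t z)) (wgt g0 η θ z *
        ((∫ s in (0 : ℝ)..R, c2 (φ s z)) - ∫ s in (-R)..0, c2 (φ s z))) 0 := by
      have h := (tent_deriv (fun s => c2 (φ s z)) (hm.smooth2.continuous.comp (hφc z)) R
        hR).const_mul (wgt g0 η θ z)
      refine h.congr_of_eventuallyEq (Eventually.of_forall fun t => ?_)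
      show wgt g0 η θ (φ t z) * (∫ s in (-R)..R, (R - |s|) * c2 (φ s (φ t z))) =
        wgt g0 η θ z * ∫ s in (-R)..R, (R - |s|) * c2 (φ (s + t) z)
      rw [hw1]
      congr 1
      refine intervalIntegral.integral_congr fun s _ => ?_
      show (R - |s|) * c2 (φ s (φ t z)) = (R - |s|) * c2 (φ (s + t) z)
      rw [hφ.add]
    exact hd.unique hd2
  · have hcurve : HasDerivAt (fun h : ℝ => Tr h z) ((eL, 0) : W (m + 1)) 0 := by
      unfold Tr
      have h1 : HasDerivAt (fun h : ℝ => z.1 + h • (eL : E (m + 1))) eL 0 := by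
        have := ((hasDerivAt_id (0 : ℝ)).smul_const (eL : E (m + 1))).const_add z.1
        simpa using this
      exact h1.prodMk (hasDerivAt_const (0 : ℝ) z.2)
    have hTr0 : Tr 0 z = z := by
      unfold Tr
      rw [zero_smul, add_zero]
    have hf : HasFDerivAt (tent g0 η θ φ R c2) (fderiv ℝ (tent g0 η θ φ R c2) z) (Tr 0 z) := by
      rw [hTr0]
      exact ((ht2.smooth.differentiable one_ne_zero) z).hasFDerivAt
    have hd : HasDerivAt (fun t => tent g0 η θ φ R c2 (Tr t z))
        (De (tent g0 η θ φ R c2) z) 0 := by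
      have h := hf.comp_hasDerivAt (0 : ℝ) hcurve
      exact h
    have hi1 : Continuous fun s : ℝ => (R - |s|) * c1 (φ s z) :=
      (continuous_const.sub continuous_abs).mul (hm.smooth1.continuous.comp (hφc z))
    have hi2 : Continuous fun s : ℝ => (R - |s|) * c2 (φ s z) :=
      (continuous_const.sub continuous_abs).mul (hm.smooth2.continuous.comp (hφc z))
    have key : ∀ t : ℝ, tent g0 η θ φ R c2 (Tr t z) =
        Real.cos (2 * Real.pi * N * t) * tent g0 η θ φ R c2 z -
          Real.sin (2 * Real.pi * N * t) * tent g0 η θ φ R c1 z := by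
      intro t
      unfold tent
      rw [hw2]
      have e : ∫ s in (-R)..R, (R - |s|) * c2 (φ s (Tr t z)) =
          Real.cos (2 * Real.pi * N * t) * (∫ s in (-R)..R, (R - |s|) * c2 (φ s z)) -
            Real.sin (2 * Real.pi * N * t) * ∫ s in (-R)..R, (R - |s|) * c1 (φ s z) := by
        rw [← intervalIntegral.integral_const_mul, ← intervalIntegral.integral_const_mul,
          ← intervalIntegral.integral_sub ((hi2.const_mul _).intervalIntegrable _ _)
            ((hi1.const_mul _).intervalIntegrable _ _)]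
        refine intervalIntegral.integral_congr fun s _ => ?_
        show (R - |s|) * c2 (φ s (Tr t z)) = _
        rw [hp1, hm.tr2]
        ring
      rw [e]
      ring
    have hd2 : HasDerivAt (fun t => tent g0 η θ φ R c2 (Tr t z))
        (-(2 * Real.pi * N) * tent g0 η θ φ R c1 z) 0 := by
      have hl : HasDerivAt (fun t : ℝ => 2 * Real.pi * N * t) (2 * Real.pi * N) 0 := by
        simpa using (hasDerivAt_id (0 : ℝ)).const_mul (2 * Real.pi * N)
      have h := (hl.cos.mul_const (tent g0 η θ φ R c2 z)).sub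
        (hl.sin.mul_const (tent g0 η θ φ R c1 z))
      refine (h.congr_of_eventuallyEq (Eventually.of_forall key)).congr_deriv ?_
      simp
    exact hd.unique hd2

end Pool.Agent.DR
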