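import Pool.Agent.Work.MP_13b5d9_gt.DR.Stmts

set_option autoImplicit false

open MeasureTheory Set Filter Topology
open scoped ContDiff ENNReal

namespace Pool.Agent.DR

open Pool.Agent.MLS Pool.Agent.EC

namespace IDRThDR

/-- a form which does not change along a vector has derivative zero along it -/
theorem fderiv_tinv {n : ℕ} (g : Form n) (e : E n) (h : TInv g e) (x : E n) :
    fderiv ℝ g.val x e = 0 := by
  have h1 : HasFDerivAt g.val (fderiv ℝ g.val x) x :=
    (g.smooth.differentiable (by simp) x).hasFDerivAt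
  have h2 : HasDerivAt (fun s : ℝ => x + s • e) e 0 := by
    simpa using ((hasDerivAt_id (0 : ℝ)).smul_const e).const_add x
  have h3 : HasDerivAt (fun s : ℝ => g.val (x + s • e)) (fderiv ℝ g.val x e) 0 := by
    have h4 : HasFDerivAt g.val (fderiv ℝ g.val x) (x + (0 : ℝ) • e) := by
      simpa using h1
    exact HasFDerivAt.comp_hasDerivAt (l := g.val) (f := fun s : ℝ => x + s • e) (0 : ℝ) h4 h2
  have h5 : (fun s : ℝ => g.val (x + s • e)) = fun _ => g.val x := by
    funext s
    exact h x s
  rw [h5] at h3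
  exact h3.unique (hasDerivAt_const (0 : ℝ) (g.val x))

theorem Tr_add {m : ℕ} (s t : ℝ) (z : W (m + 1)) : Tr s (Tr t z) = Tr (s + t) z := by
  simp only [Tr, Prod.mk.injEq, and_true]
  rw [add_smul]
  abel

theorem Tr_zero {m : ℕ} (z : W (m + 1)) : Tr 0 z = z := by
  simp [Tr]

theorem Tr_cont {m : ℕ} (z : W (m + 1)) : Continuous (fun s : ℝ => Tr s z) := by
  unfold Tr
  fun_prop

end IDRThDR

open IDRThDR

/-- THEOREM DR -/
theorem pr_ThDR (h1 : StVan) (h2 : StFou) (h3 : StKap) (h4 : StKk) (h6 : StOp) : StThDR := by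
  intro m G _ _ g g0 lam κ hS x
  obtain ⟨-, -, hsym, -, -⟩ := h3 m G g g0 lam κ hS
  by_cases hlam : Tendsto lam atTop atTop
  · have hvan := h1 m G g g0 lam κ hS hlam
    obtain ⟨hkC, -, hk1, hk0, -, -⟩ := h4 m G g g0 lam κ hS
    have hkk : ∀ z, kk g0 κ z = 0 := by
      intro z
      have h5 := h2 (fun s => kk g0 κ (Tr s z)) (hkC.continuous.comp (Tr_cont z))
        (fun s => by
          change kk g0 κ (Tr (s + 1) z) = kk g0 κ (Tr s z)
          rw [add_comm, ← Tr_add, hk1])
        (hk0 z) (fun N hN => (hvan N hN z).1) (fun N hN => (hvan N hN z).2) 0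
      simp only [Tr_zero] at h5
      exact h5
    obtain ⟨-, -, hio, -⟩ := h6 (m + 1) g0 hS.riem0
    have hq : ∀ v, κ x v v = 0 := by
      intro v
      have h7 := hkk (x, op g0 x v)
      simp only [kk, vel] at h7
      rwa [hio] at h7
    ext v w
    have h8 := hq (v + w)
    simp only [map_add, ContinuousLinearMap.add_apply] at h8
    rw [hq v, hq w, hsym x w v] at h8
    simp only [ContinuousLinearMap.zero_apply]
    linarith
  · rw [tendsto_atTop] at hlam
    push Not at hlam
    obtain ⟨B, hB⟩ := hlam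
    ext v w
    simp only [ContinuousLinearMap.zero_apply]
    have hA : Tendsto (fun j => lam j * fderiv ℝ (g j).val x eL v w) atTop (𝓝 (κ x v w)) :=
      (tendstoLocallyUniformlyOn_univ.mpr (hS.convk v w)).tendsto_at (mem_univ x)
    have hD : Tendsto (fun j => fderiv ℝ (g j).val x eL v w) atTop (𝓝 0) := by
      have h9 := (tendstoLocallyUniformlyOn_univ.mpr (hS.conv1 eL v w)).tendsto_at (mem_univ x)
      rw [fderiv_tinv g0 eL hS.tinv0 x] at h9
      simpa using h9
    have hle : |κ x v w| ≤ 0 := by
      have h10 : Tendsto (fun j => |B| * |fderiv ℝ (g j).val x eL v w|) atTop (𝓝 (|B| * |0|)) :=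
        hD.abs.const_mul _
      have h11 := le_of_tendsto_of_tendsto_of_frequently hA.abs h10
        (hB.mono fun j hj => by
          rw [abs_mul]
          refine mul_le_mul_of_nonneg_right ?_ (abs_nonneg _)
          rw [abs_of_pos (hS.lam_pos j)]
          exact (hj.le).trans (le_abs_self B))
      simpa using h11
    exact abs_nonpos_iff.mp hle

end Pool.Agent.DR
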