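import Pool.Agent.Work.MP_13b5d9_gt.DR.Stmts

set_option autoImplicit false

/-!
# MP_13b5d9_gt, block DR, item UA: unfolding for homeomorphisms of phase space
-/

open MeasureTheory Set Filter Topology
open scoped ContDiff ENNReal

namespace Pool.Agent.DR

open Pool.Agent.MLS Pool.Agent.EC

namespace IDRUA

/-- the partition of unity as an identity of extended nonnegative reals -/
theorem tsum_one {n : ℕ} {G : Type} [Group G] [MulAction G (E n)] {χ : E n → ℝ}
    (hχ : PU G χ) (x : E n) : ∑' a : G, ENNReal.ofReal (χ (a • x)) = 1 := by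
  have h := hχ.sum x
  have h2 := ENNReal.ofReal_tsum_of_nonneg (f := fun a : G => χ (a • x))
    (fun a => hχ.nonneg _) h.summable
  rw [← h2, h.tsum_eq, ENNReal.ofReal_one]

/-- measurability of the cut-off along a measurable map -/
theorem meas_chi {n : ℕ} {G : Type} [Group G] [MulAction G (E n)] {χ : E n → ℝ}
    (hχ : PU G χ) {f : W n → W n} (hf : Measurable f) :
    Measurable (fun z : W n => ENNReal.ofReal (χ (f z).1)) :=
  (hχ.smooth.continuous.measurable.comp (measurable_fst.comp hf)).ennreal_ofReal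

/-- the version with extended nonnegative functions -/
theorem lint (h1 : StUnf) (h2 : StCnt) (h6 : StLftA) (h7 : StLftM) {n : ℕ} {G : Type} [Group G]
    [MulAction G (E n)] (hC : Cocompact n G) {g : Form n} (hg : Riem g) (hI : Inv G g)
    {χ : E n → ℝ} (hχ : PU G χ) {Θ Θ' : W n → W n} (hT' : Continuous Θ')
    (e1 : ∀ z, Θ (Θ' z) = z) (e2 : ∀ z, Θ' (Θ z) = z) (hMP : MeasurePreserving Θ volume volume)
    (hcomm : ∀ (a : G) (z : W n), Θ (lft g a z) = lft g a (Θ z)) (F : W n → ℝ≥0∞)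
    (hF : Measurable F) (hFi : ∀ (a : G) (z : W n), F (lft g a z) = F z) :
    ∫⁻ z, ENNReal.ofReal (χ z.1) * F (Θ z) = ∫⁻ z, ENNReal.ofReal (χ z.1) * F z := by
  have : Countable G := h2 n G hC
  obtain ⟨-, -, hmul, hone, -⟩ := h6 n G hC g hg hI
  have hmn : Measurable Θ' := hT'.measurable
  have hinj : ∀ z w, Θ z = Θ w → z = w := by
    intro z w h
    rw [← e2 z, h, e2 w]
  have hcomm' : ∀ (a : G) (z : W n), Θ' (lft g a z) = lft g a (Θ' z) := by
    intro a z
    apply hinj
    rw [e1, hcomm, e1]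
  -- the substitution
  have e3 : ∫⁻ z, ENNReal.ofReal (χ z.1) * F (Θ z) =
      ∫⁻ y, ENNReal.ofReal (χ (Θ' y).1) * F y := by
    have hmeas : Measurable (fun y : W n => ENNReal.ofReal (χ (Θ' y).1) * F y) :=
      (meas_chi hχ hmn).mul hF
    rw [← hMP.lintegral_comp hmeas]
    refine lintegral_congr fun z => ?_
    rw [e2]
  rw [e3]
  -- unfolding
  have hb : ∀ z : W n, ∑' a : G, ENNReal.ofReal (χ (Θ' (lft g a z)).1) = 1 := by
    intro z
    have : ∀ a : G, (Θ' (lft g a z)).1 = a • (Θ' z).1 := by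
      intro a
      rw [hcomm' a z]
      rfl
    simp_rw [this]
    exact tsum_one hχ _
  have ha : ∀ z : W n, ∑' a : G, ENNReal.ofReal (χ (lft g a z).1) = 1 := fun z => tsum_one hχ z.1
  exact h1 (W n) volume G (fun a => lft g a) (fun a => h7 n G hC g hg hI a)
    (fun a b z => hmul a b z) (fun z => hone z)
    (fun z => ENNReal.ofReal (χ (Θ' z).1)) (fun z => ENNReal.ofReal (χ z.1)) F
    (meas_chi hχ hmn) (meas_chi hχ measurable_id) hF hb ha (fun a z => hFi a z)

/-- integrability of a cut off function with bounded energy -/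
theorem integ (h5 : StSub) {n : ℕ} {G : Type} [Group G] [MulAction G (E n)] {g : Form n}
    (hg : Riem g) {χ : E n → ℝ} (hχ : PU G χ) (F : W n → ℝ) (B : ℝ) (hF : Continuous F)
    (hB : ∀ z, F z ≠ 0 → Hm g z ≤ B) : Integrable (fun z : W n => χ z.1 * F z) volume := by
  refine Continuous.integrable_of_hasCompactSupport
    ((hχ.smooth.continuous.comp continuous_fst).mul hF) ?_
  refine HasCompactSupport.intro (h5 n g hg (tsupport χ) B hχ.cpt) fun z hz => ?_
  by_contra hne
  apply hz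
  refine ⟨subset_tsupport _ ?_, hB z ?_⟩
  · intro h
    exact hne (by rw [h, zero_mul])
  · intro h
    exact hne (by rw [h, mul_zero])

end IDRUA

open IDRUA in
theorem pr_UA (h1 : StUnf) (h2 : StCnt) (h3 : StLftA) (h4 : StLftM) (h5 : StSub) : StUA := by
  intro n G _ _ hC g hg hI χ hχ Θ Θ' hT hT' e1 e2 hMP hcomm F B hF hFi hB hB'
  have i1 := integ h5 hg hχ F B hF hB
  have i2 := integ h5 hg hχ (fun z => F (Θ z)) B (hF.comp hT) hB'
  have l1 := lint h1 h2 h3 h4 hC hg hI hχ hT' e1 e2 hMP hcomm (fun z => ENNReal.ofReal (F z))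
    hF.measurable.ennreal_ofReal (fun a z => by rw [hFi])
  have l2 := lint h1 h2 h3 h4 hC hg hI hχ hT' e1 e2 hMP hcomm (fun z => ENNReal.ofReal (-F z))
    hF.neg.measurable.ennreal_ofReal (fun a z => by rw [hFi])
  rw [integral_eq_lintegral_pos_part_sub_lintegral_neg_part i1,
    integral_eq_lintegral_pos_part_sub_lintegral_neg_part i2]
  have r1 : ∀ f : W n → ℝ, ∫⁻ z : W n, ENNReal.ofReal (χ z.1 * f z) =
      ∫⁻ z : W n, ENNReal.ofReal (χ z.1) * ENNReal.ofReal (f z) := fun f =>
    lintegral_congr fun z => ENNReal.ofReal_mul (hχ.nonneg _)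
  have r2 : ∀ f : W n → ℝ, ∫⁻ z : W n, ENNReal.ofReal (-(χ z.1 * f z)) =
      ∫⁻ z : W n, ENNReal.ofReal (χ z.1) * ENNReal.ofReal (-f z) := fun f =>
    lintegral_congr fun z => by rw [← mul_neg, ENNReal.ofReal_mul (hχ.nonneg _)]
  rw [r1, r2, r1, r2, l1, l2]

end Pool.Agent.DR
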