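import Mathlib
import Pool.Agent.Work.MP_13b5d9_gt.DR.Stmts

set_option autoImplicit false

/-!
# MP_13b5d9_gt, block DR: item VB (bound of the averages)
-/

open MeasureTheory Set Filter Topology
open scoped ContDiff ENNReal
open Pool.Agent.Work.MP_c9f990_an.Al (IsFlow)

namespace Pool.Agent.DR

open Pool.Agent.MLS Pool.Agent.EC

namespace IDRVB

/-- final arithmetic -/
theorem arith {a q C D V J L P : ℝ} (ha : 0 < a) (hq : 0 < q) (hC : 0 ≤ C) (hV : 0 ≤ V)
    (hP : P ≤ q * V) (hJ : ∀ ε : ℝ, 0 < ε → J ≤ ε * P + D / (4 * ε))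
    (hL : L = -(2 * a) * V + J) (hL2 : L ^ 2 ≤ C * P) :
    V ≤ D * q / (2 * a ^ 2) + (C * q / a + 1) / a := by
  have hs : 0 < C * q / a + 1 := by positivity
  obtain ⟨s, hsd⟩ : ∃ s, s = C * q / a + 1 := ⟨_, rfl⟩
  rw [← hsd] at hs ⊢
  have h1 := hJ (a / q) (div_pos ha hq)
  have h2 : a / q * P ≤ a * V := by
    calc a / q * P ≤ a / q * (q * V) := mul_le_mul_of_nonneg_left hP (by positivity)
      _ = a * V := by field_simp
  have h3 : D / (4 * (a / q)) = D * q / (4 * a) := by field_simp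
  have h4 : -L ≤ L ^ 2 / (2 * s) + s / 2 := by
    have e : L ^ 2 / (2 * s) + s / 2 - -L = (L + s) ^ 2 / (2 * s) := by
      field_simp
      ring
    have e2 : 0 ≤ (L + s) ^ 2 / (2 * s) := by positivity
    linarith
  have h5 : L ^ 2 / (2 * s) ≤ a / 2 * V := by
    rw [div_le_iff₀ (by positivity)]
    have e1 : C * P ≤ C * (q * V) := mul_le_mul_of_nonneg_left hP hC
    have e2 : a * s = C * q + a := by
      rw [hsd]
      field_simp
    have e3 : a / 2 * V * (2 * s) = (a * s) * V := by ring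
    rw [e3, e2]
    nlinarith [mul_nonneg ha.le hV]
  have h6 : a / 2 * V ≤ D * q / (4 * a) + s / 2 := by
    rw [h3] at h1
    linarith
  have h7 : V = 2 / a * (a / 2 * V) := by field_simp
  have h8 : D * q / (2 * a ^ 2) + s / a = 2 / a * (D * q / (4 * a) + s / 2) := by
    field_simp
    ring
  rw [h7, h8]
  exact mul_le_mul_of_nonneg_left h6 (by positivity)

theorem ta_cont {m : ℕ} : Continuous (ta : W (m + 1) → ℝ) := by
  unfold ta
  fun_prop

/-- integrability of continuous functions supported in the cut off disk bundle -/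
theorem intg {m : ℕ} (hSub : StSub) {g0 : Form (m + 1)} (hR : Riem g0)
    {χ : E (m + 1) → ℝ} (hχ : Continuous χ) (hcs : HasCompactSupport χ) {F : W (m + 1) → ℝ}
    (hF : Continuous F) (hs : ∀ z, F z ≠ 0 → Hm g0 z ≤ 1 / 4) :
    Integrable (fun z : W (m + 1) => χ z.1 * F z) := by
  have hc := hSub (m + 1) g0 hR (tsupport χ) (1 / 4) hcs
  refine Continuous.integrable_of_hasCompactSupport
    ((hχ.comp continuous_fst).mul hF) ?_
  refine HasCompactSupport.intro hc fun z hz => ?_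
  by_contra h3
  exact hz ⟨subset_tsupport χ (left_ne_zero_of_mul h3), hs z (right_ne_zero_of_mul h3)⟩

/-- the weighted inequality of arithmetic and geometric means, integrated -/
theorem cs_int {m : ℕ} (hSub : StSub) {g0 : Form (m + 1)} (hR : Riem g0)
    {χ : E (m + 1) → ℝ} (hχ : Continuous χ) (hχ0 : ∀ x, 0 ≤ χ x) (hcs : HasCompactSupport χ)
    {F Y : W (m + 1) → ℝ} (hF : Continuous F) (hY : Continuous Y)
    (hs : ∀ z, Y z ≠ 0 → Hm g0 z ≤ 1 / 4) (ε : ℝ) (hε : 0 < ε) :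
    ∫ z, χ z.1 * (F z * Y z) ≤ ε * (∫ z, χ z.1 * Y z ^ 2) +
      (∫ z in {z : W (m + 1) | z.1 ∈ tsupport χ ∧ Hm g0 z ≤ 1 / 4}, χ z.1 * F z ^ 2) /
        (4 * ε) := by
  have hc := hSub (m + 1) g0 hR (tsupport χ) (1 / 4) hcs
  obtain ⟨S, hS⟩ : ∃ S, S = {z : W (m + 1) | z.1 ∈ tsupport χ ∧ Hm g0 z ≤ 1 / 4} := ⟨_, rfl⟩
  rw [← hS] at hc ⊢
  have hSm : MeasurableSet S := hc.isClosed.measurableSet
  have hχ1 : Continuous (fun z : W (m + 1) => χ z.1) := hχ.comp continuous_fst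
  have i1 : Integrable (fun z : W (m + 1) => χ z.1 * (F z * Y z)) :=
    intg hSub hR hχ hcs (hF.mul hY) fun z hz => hs z (right_ne_zero_of_mul hz)
  have i2 : Integrable (fun z : W (m + 1) => χ z.1 * Y z ^ 2) :=
    intg hSub hR hχ hcs (hY.pow 2) fun z hz => hs z (by
      intro h0
      apply hz
      rw [h0]
      norm_num)
  have i3 : IntegrableOn (fun z : W (m + 1) => χ z.1 * F z ^ 2) S :=
    (hχ1.mul (hF.pow 2)).continuousOn.integrableOn_compact hc
  have z1 : ∀ z, z ∉ S → Y z ≠ 0 → χ z.1 = 0 := by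
    intro z hz hy
    by_contra h0
    apply hz
    rw [hS]
    exact ⟨subset_tsupport χ h0, hs z hy⟩
  have e1 : ∫ z, χ z.1 * (F z * Y z) = ∫ z in S, χ z.1 * (F z * Y z) := by
    symm
    apply setIntegral_eq_integral_of_forall_compl_eq_zero
    intro z hz
    by_cases hy : Y z = 0
    · rw [hy, mul_zero, mul_zero]
    · rw [z1 z hz hy, zero_mul]
  have e2 : ∫ z, χ z.1 * Y z ^ 2 = ∫ z in S, χ z.1 * Y z ^ 2 := by
    symm
    apply setIntegral_eq_integral_of_forall_compl_eq_zero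
    intro z hz
    by_cases hy : Y z = 0
    · rw [hy]
      norm_num
    · rw [z1 z hz hy, zero_mul]
  rw [e1, e2, ← integral_const_mul, ← integral_div, ← integral_add (i2.integrableOn.const_mul ε)
    (i3.div_const (4 * ε))]
  apply setIntegral_mono_on i1.integrableOn
    ((i2.integrableOn.const_mul ε).add (i3.div_const (4 * ε))) hSm
  intro z _
  show χ z.1 * (F z * Y z) ≤ ε * (χ z.1 * Y z ^ 2) + χ z.1 * F z ^ 2 / (4 * ε)
  have e3 : ε * (χ z.1 * Y z ^ 2) + χ z.1 * F z ^ 2 / (4 * ε) - χ z.1 * (F z * Y z) =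
      χ z.1 * ((2 * ε * Y z - F z) ^ 2 / (4 * ε)) := by
    field_simp
    ring
  have e4 : 0 ≤ χ z.1 * ((2 * ε * Y z - F z) ^ 2 / (4 * ε)) :=
    mul_nonneg (hχ0 _) (by positivity)
  linarith

theorem XH_cont {m : ℕ} {H : W (m + 1) → ℝ} (hH : ContDiff ℝ ∞ H) : Continuous (XH H) := by
  have h1 : Continuous (fderiv ℝ H) := hH.continuous_fderiv (by simp)
  have h2 : Continuous (fun z => sh ((fderiv ℝ H z).comp
      (ContinuousLinearMap.inr ℝ (E (m + 1)) (E (m + 1))))) :=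
    sh.continuous.comp (h1.clm_comp continuous_const)
  have h3 : Continuous (fun z => -sh ((fderiv ℝ H z).comp
      (ContinuousLinearMap.inl ℝ (E (m + 1)) (E (m + 1))))) :=
    (sh.continuous.comp (h1.clm_comp continuous_const)).neg
  exact h2.prodMk h3

theorem XX_cont {m : ℕ} {g0 : Form (m + 1)} (hH : ContDiff ℝ ∞ (Hm g0)) {f : W (m + 1) → ℝ}
    (hf : ContDiff ℝ 1 f) : Continuous (XX g0 f) :=
  (hf.continuous_fderiv (by simp)).clm_apply (XH_cont hH)

end IDRVB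

theorem pr_VB (h1 : StDag) (h2 : StTenA) (h3 : StTenB) (h4 : StAvm) (h5 : StFejB) (h6 : StFejC)
    (h7 : StMod) (h8 : StKk) (h9 : StWgt) (h10 : StPrd) (h11 : StBas) (h12 : StSub)
    (h13 : StOp) : StVB := by
  intro m G _ _ g g0 lam κ hS hlam φ M hφ χ hχ N hN η θ δ hη hθ hδ
  have hR := hS.riem0
  have hI := hS.inv0
  have hB := hS.blk0
  have hT := hS.tinv0
  obtain ⟨k, hk⟩ : ∃ k, k = kk g0 κ := ⟨_, rfl⟩
  obtain ⟨ks, kinv, -, -, -, -⟩ := h8 m G g g0 lam κ hS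
  have hm := h7 m G g g0 lam κ hS N
  rw [← hk] at ks kinv hm ⊢
  obtain ⟨c1, hc1⟩ : ∃ c, c = cc k N := ⟨_, rfl⟩
  obtain ⟨c2, hc2⟩ : ∃ c, c = cs k N := ⟨_, rfl⟩
  rw [← hc1, ← hc2] at hm ⊢
  obtain ⟨C, hC0, hC⟩ := h1 m G g g0 lam κ hS hlam χ hχ
  obtain ⟨w1, w2, w3, w4, w5, w6, w7, A, hA0, hA⟩ :=
    h9 m G hS.coc hS.vert g0 φ M hR hI hB hT hφ η θ δ hη hθ hδ
  have hOp := h13 (m + 1) g0 hR
  have hHs : ContDiff ℝ ∞ (Hm g0) := hOp.2.2.2.2.2.2.2.1
  have hHc : Continuous (Hm g0) := hHs.continuous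
  obtain ⟨-, -, -, -, -, bH, -, -⟩ := h11 m g0 hR hB
  obtain ⟨pTr, -, -, -, -, -, -⟩ := h10 m g0 φ M hR hB hT hφ
  have hχc : Continuous χ := hχ.smooth.continuous
  have hkc : Continuous k := ks.continuous
  -- the continuous version of the factor
  obtain ⟨b, hb⟩ : ∃ b : W (m + 1) → ℝ, b = fun z => k z * (ta z / (2 * max (Hm g0 z) δ)) :=
    ⟨_, rfl⟩
  have hbc : Continuous b := by
    rw [hb]
    refine hkc.mul (IDRVB.ta_cont.div (continuous_const.mul (hHc.max continuous_const)) ?_)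
    intro z
    have : 0 < max (Hm g0 z) δ := lt_of_lt_of_le hδ (le_max_right _ _)
    positivity
  obtain ⟨D, hD⟩ : ∃ D, D = ∫ z in {z : W (m + 1) | z.1 ∈ tsupport χ ∧ Hm g0 z ≤ 1 / 4},
    χ z.1 * b z ^ 2 := ⟨_, rfl⟩
  refine ⟨D * (4 * A) / (2 * (Real.pi * N) ^ 2) +
    (C * (4 * A) / (Real.pi * N) + 1) / (Real.pi * N), ?_⟩
  intro R hR0
  have hNpos : (0 : ℝ) < N := by exact_mod_cast hN
  have ha : 0 < Real.pi * N := mul_pos Real.pi_pos hNpos
  obtain ⟨tA1, tA2⟩ := h2 m G hS.coc hS.vert g0 φ M hR hI hB hT hφ N c1 c2 hm η θ δ hη hθ hδ R hR0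
  obtain ⟨tB1, tB2⟩ := h3 m G hS.coc hS.vert g0 φ M hR hI hB hT hφ N c1 c2 hm η θ δ hη hθ hδ R hR0
  obtain ⟨f, hf⟩ : ∃ f, f = tent g0 η θ φ R c2 := ⟨_, rfl⟩
  obtain ⟨f1, hf1⟩ : ∃ f, f = tent g0 η θ φ R c1 := ⟨_, rfl⟩
  rw [← hf] at tA2 tB1 tB2
  rw [← hf1] at tA1 tB2
  have ten0 : ∀ c : W (m + 1) → ℝ, ∀ z, tent g0 η θ φ R c z ≠ 0 → wgt g0 η θ z ≠ 0 := by
    intro c z hz
    unfold tent at hz
    exact left_ne_zero_of_mul hz
  have sf : ∀ z, f z ≠ 0 → Hm g0 z ≤ 1 / 4 := by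
    intro z hz
    rw [hf] at hz
    exact (w4 z (ten0 _ z hz)).2
  have sf1 : ∀ z, f1 z ≠ 0 → Hm g0 z ≤ 1 / 4 := by
    intro z hz
    rw [hf1] at hz
    exact (w4 z (ten0 _ z hz)).2
  have hfc : Continuous f := tA2.smooth.continuous
  have hf1c : Continuous f1 := tA1.smooth.continuous
  have hXc : Continuous (XX g0 f) := IDRVB.XX_cont hHs tA2.smooth
  have sX : ∀ z, XX g0 f z ≠ 0 → δ ≤ Hm g0 z ∧ Hm g0 z ≤ 1 / 4 := by
    intro z hz
    rw [tB1 z] at hz
    exact w4 z (left_ne_zero_of_mul hz)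
  -- the translation rule
  have trf : ∀ h z, f1 (Tr h z) = Real.cos (2 * Real.pi * N * h) * f1 z +
      Real.sin (2 * Real.pi * N * h) * f z := by
    intro h z
    rw [hf1, hf]
    unfold tent
    rw [w6 h z]
    have hφz : Continuous (fun u : ℝ => φ u z) :=
      hφ.cont.comp (continuous_id.prodMk continuous_const)
    have hm1 : Continuous c1 := hm.smooth1.continuous
    have hm2 : Continuous c2 := hm.smooth2.continuous
    have i1 : IntervalIntegrable (fun u : ℝ => Real.cos (2 * Real.pi * N * h) *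
        ((R - |u|) * c1 (φ u z))) volume (-R) R := by
      apply Continuous.intervalIntegrable
      exact continuous_const.mul ((continuous_const.sub continuous_abs).mul (hm1.comp hφz))
    have i2 : IntervalIntegrable (fun u : ℝ => Real.sin (2 * Real.pi * N * h) *
        ((R - |u|) * c2 (φ u z))) volume (-R) R := by
      apply Continuous.intervalIntegrable
      exact continuous_const.mul ((continuous_const.sub continuous_abs).mul (hm2.comp hφz))
    have e1 : ∫ s in (-R)..R, (R - |s|) * c1 (φ s (Tr h z)) =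
        ∫ s in (-R)..R, (Real.cos (2 * Real.pi * N * h) * ((R - |s|) * c1 (φ s z)) +
          Real.sin (2 * Real.pi * N * h) * ((R - |s|) * c2 (φ s z))) := by
      congr 1
      ext s
      rw [pTr h s z, hm.tr1]
      ring
    rw [e1, intervalIntegral.integral_add i1 i2, intervalIntegral.integral_const_mul,
      intervalIntegral.integral_const_mul]
    ring
  -- the main term
  have eV : ∫ z, χ z.1 * (f1 z * k z) = VV χ g0 η θ φ c1 c2 R := by
    have e1 := h4 m G hS.coc hS.vert g0 hR hI hB hT χ hχ N k f1 f hkc hf1c hfc kinv tA1.inv sf1 sf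
      trf
    rw [e1, h5 m G hS.coc hS.vert g0 φ M hR hI hB hT hφ χ hχ N c1 c2 hm η θ δ hη hθ hδ R hR0,
      ← hf1, ← hf, ← hc1, ← hc2]
  have hV0 : 0 ≤ VV χ g0 η θ φ c1 c2 R := by
    unfold VV
    apply integral_nonneg
    intro z
    exact mul_nonneg (hχ.nonneg _) (mul_nonneg (w3 z) (by positivity))
  obtain ⟨V, hV⟩ : ∃ V, V = VV χ g0 η θ φ c1 c2 R := ⟨_, rfl⟩
  rw [← hV] at eV hV0 ⊢
  -- the linear part
  have eL1 : Lin χ g0 κ f = -(2 * (Real.pi * N)) * V + ∫ z, χ z.1 * (b z * XX g0 f z) := by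
    have i1 : Integrable (fun z : W (m + 1) => χ z.1 * (f1 z * k z)) :=
      IDRVB.intg h12 hR hχc hχ.cpt (hf1c.mul hkc) fun z hz => sf1 z (left_ne_zero_of_mul hz)
    have i2 : Integrable (fun z : W (m + 1) => χ z.1 * (b z * XX g0 f z)) :=
      IDRVB.intg h12 hR hχc hχ.cpt (hbc.mul hXc) fun z hz => (sX z (right_ne_zero_of_mul hz)).2
    rw [← eV, ← integral_const_mul, ← integral_add (i1.const_mul _) i2]
    unfold Lin
    refine integral_congr_ae (Filter.Eventually.of_forall fun z => ?_)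
    show χ z.1 * (De f z * kk g0 κ z + kk g0 κ z * (ta z / (2 * Hm g0 z)) * XX g0 f z) =
      -(2 * (Real.pi * N)) * (χ z.1 * (f1 z * k z)) + χ z.1 * (b z * XX g0 f z)
    rw [← hk, tB2 z]
    have e2 : k z * (ta z / (2 * Hm g0 z)) * XX g0 f z = b z * XX g0 f z := by
      by_cases hx : XX g0 f z = 0
      · rw [hx, mul_zero, mul_zero]
      · rw [hb]
        show k z * (ta z / (2 * Hm g0 z)) * XX g0 f z =
          k z * (ta z / (2 * max (Hm g0 z) δ)) * XX g0 f z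
        rw [max_eq_left (sX z hx).1]
    rw [e2]
    ring
  -- the quadratic part
  have iX2 : Integrable (fun z : W (m + 1) => χ z.1 * XX g0 f z ^ 2) :=
    IDRVB.intg h12 hR hχc hχ.cpt (hXc.pow 2) fun z hz => (sX z (by
      intro h0
      apply hz
      rw [h0]
      norm_num)).2
  have eQ : Quad χ g0 f ≤ ∫ z, χ z.1 * XX g0 f z ^ 2 := by
    unfold Quad
    apply integral_mono_of_nonneg
    · refine Filter.Eventually.of_forall fun z => ?_
      show 0 ≤ χ z.1 * ((1 - ta z ^ 2 / (2 * Hm g0 z)) * XX g0 f z ^ 2)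
      have e1 : ta z ^ 2 / (2 * Hm g0 z) ≤ 1 :=
        div_le_one_of_le₀ (bH z).2 (mul_nonneg (by norm_num) (bH z).1)
      exact mul_nonneg (hχ.nonneg _) (mul_nonneg (by linarith) (sq_nonneg _))
    · exact iX2
    · refine Filter.Eventually.of_forall fun z => ?_
      show χ z.1 * ((1 - ta z ^ 2 / (2 * Hm g0 z)) * XX g0 f z ^ 2) ≤ χ z.1 * XX g0 f z ^ 2
      have e1 : 0 ≤ ta z ^ 2 / (2 * Hm g0 z) :=
        div_nonneg (sq_nonneg _) (mul_nonneg (by norm_num) (bH z).1)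
      apply mul_le_mul_of_nonneg_left _ (hχ.nonneg _)
      nlinarith [mul_nonneg e1 (sq_nonneg (XX g0 f z))]
  have eP : ∫ z, χ z.1 * XX g0 f z ^ 2 ≤ 4 * A * V := by
    have e1 := h6 m G hS.coc hS.vert g0 φ M hR hI hB hT hφ χ hχ N c1 c2 hm η θ δ hη hθ hδ R hR0
      A hA
    rw [← hV] at e1
    refine le_trans (le_of_eq ?_) e1
    refine integral_congr_ae (Filter.Eventually.of_forall fun z => ?_)
    show χ z.1 * XX g0 f z ^ 2 = _
    rw [tB1 z]
  refine IDRVB.arith (J := ∫ z, χ z.1 * (b z * XX g0 f z)) (L := Lin χ g0 κ f)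
    (P := ∫ z, χ z.1 * XX g0 f z ^ 2) ha (by positivity) hC0 hV0 eP ?_ eL1 ?_
  · intro ε hε
    rw [hD]
    exact IDRVB.cs_int h12 hR hχc hχ.nonneg hχ.cpt hbc hXc (fun z hz => (sX z hz).2) ε hε
  · exact (hC f tA2).trans (mul_le_mul_of_nonneg_left eQ hC0)

end Pool.Agent.DR
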