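import Mathlib
import Pool.Agent.Work.MP_13b5d9_gt.DR.Stmts

set_option autoImplicit false

/-!
# MP_13b5d9_gt, block DR: item VG (separation of the vertical momentum)
-/

open MeasureTheory Set Filter Topology
open scoped ContDiff ENNReal
open Pool.Agent.Work.MP_c9f990_an.Al (IsFlow)

namespace Pool.Agent.DR

open Pool.Agent.MLS Pool.Agent.EC

namespace IDRVG

theorem eL_last {m : ℕ} : (eL : E (m + 1)) (Fin.last m) = 1 := by
  simp [eL, ee]

theorem ta_Sh {m : ℕ} (c : ℝ) (z : W (m + 1)) : ta (Sh c z) = ta z + c := by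
  simp only [ta, Sh]
  rw [PiLp.add_apply, PiLp.smul_apply, eL_last, smul_eq_mul, mul_one]

theorem ta_cont {m : ℕ} : Continuous (ta : W (m + 1) → ℝ) := by
  unfold ta
  fun_prop

theorem Hh_Sh {m : ℕ} {g0 : Form (m + 1)}
    (h : ∀ (c : ℝ) (z : W (m + 1)), Hm g0 (Sh c z) = Hm g0 z + c * ta z + c ^ 2 / 2)
    (c : ℝ) (z : W (m + 1)) : Hh g0 (Sh c z) = Hh g0 z := by
  unfold Hh
  rw [h, ta_Sh]
  ring

/-- integrability -/
theorem intg {m : ℕ} (hSub : StSub) {g0 : Form (m + 1)} (hR : Riem g0)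
    {α : ℝ → ℝ} {F : W (m + 1) → ℝ} {K : Set (E (m + 1))} {B a : ℝ} (hK : IsCompact K)
    (hα : Continuous α) (hF : Continuous F) (h1 : ∀ x, α x ≠ 0 → |x| ≤ a)
    (h2 : ∀ z, F z ≠ 0 → z.1 ∈ K ∧ Hh g0 z ≤ B) : Integrable (fun z => α (ta z) * F z) := by
  have hc := hSub (m + 1) g0 hR K (B + a ^ 2 / 2) hK
  refine Continuous.integrable_of_hasCompactSupport
    ((hα.comp ta_cont).mul hF) ?_
  refine HasCompactSupport.intro hc fun z hz => ?_
  by_contra h3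
  apply hz
  have h4 : α (ta z) ≠ 0 := left_ne_zero_of_mul h3
  have h5 : F z ≠ 0 := right_ne_zero_of_mul h3
  have h6 := h1 _ h4
  obtain ⟨h7, h8⟩ := h2 z h5
  refine ⟨h7, ?_⟩
  have h9 : ta z ^ 2 ≤ a ^ 2 := by
    rw [← sq_abs (ta z)]
    exact pow_le_pow_left₀ (abs_nonneg _) h6 2
  unfold Hh at h8
  show Hm g0 z ≤ _
  linarith

/-- the integral of an odd function -/
theorem odd_int (f : ℝ → ℝ) (h : ∀ x, f (-x) = -f x) : ∫ x, f x = 0 := by
  have h1 : ∫ x, f (-x) = ∫ x, f x := integral_neg_eq_self f volume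
  have h2 : ∫ x, f (-x) = -∫ x, f x := by
    rw [← integral_neg]
    exact integral_congr_ae (Filter.Eventually.of_forall h)
  linarith

end IDRVG

theorem pr_VG (h1 : StFejA) (h2 : StZt) (h3 : StFub) (h4 : StBas) (h5 : StOp) (h6 : StSub) :
    StVG := by
  intro m G _ _ hG hV g0 φ M hR hI hB hT hφ χ hχ N c1 c2 hM η θ w0 δ hη hev hθ hδ hw hw1 R hR0
  rw [h1 m G hG hV g0 φ M hR hI hB hT hφ χ hχ N c1 c2 hM η θ δ hη hθ hδ R hR0]
  refine intervalIntegral.integral_congr fun u _ => ?_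
  show (R - |u|) * _ = (R - |u|) * _
  congr 1
  obtain ⟨zc, -, -, -, zSh, -, -, -, zφ, -⟩ := h2 m G hG hV g0 φ M hR hI hB hT hφ
  obtain ⟨-, -, -, bSh, -⟩ := h4 m g0 hR hB
  have hHm : Continuous (Hm g0) := (h5 (m + 1) g0 hR).2.2.2.2.2.2.2.1.continuous
  have hHh : Continuous (Hh g0) := by
    unfold Hh
    exact hHm.sub ((IDRVG.ta_cont.pow 2).div_const 2)
  have hz : Continuous (fun z => zt φ u z) :=
    zc.comp (continuous_const.prodMk continuous_id)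
  have hc1 : Continuous c1 := hM.smooth1.continuous
  have hc2 : Continuous c2 := hM.smooth2.continuous
  have hχc : Continuous (fun z : W (m + 1) => χ z.1) := hχ.smooth.continuous.comp continuous_fst
  have hθc : Continuous (fun z => θ (Hh g0 z)) := hθ.smooth.continuous.comp hHh
  let F1 : W (m + 1) → ℝ := fun z =>
    χ z.1 * (θ (Hh g0 z) * (c1 (zt φ u z) * c1 z + c2 (zt φ u z) * c2 z))
  let F2 : W (m + 1) → ℝ := fun z =>
    χ z.1 * (θ (Hh g0 z) * (c2 (zt φ u z) * c1 z - c1 (zt φ u z) * c2 z))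
  let α1 : ℝ → ℝ := fun τ => η τ * Real.cos (2 * Real.pi * N * (τ * u))
  let α2 : ℝ → ℝ := fun τ => η τ * Real.sin (2 * Real.pi * N * (τ * u))
  have hF1 : Continuous F1 :=
    hχc.mul (hθc.mul (((hc1.comp hz).mul hc1).add ((hc2.comp hz).mul hc2)))
  have hF2 : Continuous F2 :=
    hχc.mul (hθc.mul (((hc2.comp hz).mul hc1).sub ((hc1.comp hz).mul hc2)))
  have hlin : Continuous (fun τ : ℝ => 2 * Real.pi * N * (τ * u)) := by fun_prop
  have hα1 : Continuous α1 := hη.smooth.continuous.mul (Real.continuous_cos.comp hlin)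
  have hα2 : Continuous α2 := hη.smooth.continuous.mul (Real.continuous_sin.comp hlin)
  have sη : ∀ x, η x ≠ 0 → |x| ≤ 1 / 4 := fun x hx => by
    obtain ⟨a, b⟩ := hη.supp x hx
    exact abs_le.2 ⟨by linarith, b⟩
  have sα1 : ∀ x, α1 x ≠ 0 → |x| ≤ 1 / 4 := fun x hx => sη x (left_ne_zero_of_mul hx)
  have sα2 : ∀ x, α2 x ≠ 0 → |x| ≤ 1 / 4 := fun x hx => sη x (left_ne_zero_of_mul hx)
  have sw : ∀ x, w0 x ≠ 0 → |x| ≤ 1 / 4 := fun x hx => by
    obtain ⟨a, b⟩ := hw.supp x hx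
    exact abs_le.2 ⟨by linarith, b⟩
  have hK : IsCompact (tsupport χ) := hχ.cpt
  have sF : ∀ (z : W (m + 1)) (r : ℝ), χ z.1 * (θ (Hh g0 z) * r) ≠ 0 →
      z.1 ∈ tsupport χ ∧ Hh g0 z ≤ 3 / 16 := by
    intro z r hz
    refine ⟨subset_tsupport χ (left_ne_zero_of_mul hz), ?_⟩
    exact (hθ.supp _ (left_ne_zero_of_mul (right_ne_zero_of_mul hz))).2
  have sh : ∀ c z, Hh g0 (Sh c z) = Hh g0 z := IDRVG.Hh_Sh bSh
  have iF1 : ∀ c z, F1 (Sh c z) = F1 z := by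
    intro c z
    show χ (Sh c z).1 * (θ (Hh g0 (Sh c z)) * (c1 (zt φ u (Sh c z)) * c1 (Sh c z) +
      c2 (zt φ u (Sh c z)) * c2 (Sh c z))) = _
    rw [sh, zSh, hM.sh1, hM.sh1, hM.sh2, hM.sh2]
    rfl
  have iF2 : ∀ c z, F2 (Sh c z) = F2 z := by
    intro c z
    show χ (Sh c z).1 * (θ (Hh g0 (Sh c z)) * (c2 (zt φ u (Sh c z)) * c1 (Sh c z) -
      c1 (zt φ u (Sh c z)) * c2 (Sh c z))) = _
    rw [sh, zSh, hM.sh1, hM.sh1, hM.sh2, hM.sh2]
    rfl
  have e1 := h3 m g0 hR hB α1 w0 (1 / 4) hα1 hw.smooth.continuous sα1 sw hw1 F1 (tsupport χ)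
    (3 / 16) hK hF1 iF1 (fun z hz => sF z _ hz)
  have e2 := h3 m g0 hR hB α2 w0 (1 / 4) hα2 hw.smooth.continuous sα2 sw hw1 F2 (tsupport χ)
    (3 / 16) hK hF2 iF2 (fun z hz => sF z _ hz)
  have e3 : ∫ x, α2 x = 0 := by
    refine IDRVG.odd_int α2 fun x => ?_
    show η (-x) * Real.sin (2 * Real.pi * N * (-x * u)) = -(η x * Real.sin _)
    rw [hev, show 2 * Real.pi * N * (-x * u) = -(2 * Real.pi * N * (x * u)) by ring,
      Real.sin_neg]
    ring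
  rw [e3, zero_mul] at e2
  have i1 : Integrable (fun z => α1 (ta z) * F1 z) :=
    IDRVG.intg h6 hR hK hα1 hF1 sα1 (fun z hz => sF z _ hz)
  have i2 : Integrable (fun z => α2 (ta z) * F2 z) :=
    IDRVG.intg h6 hR hK hα2 hF2 sα2 (fun z hz => sF z _ hz)
  have e4 : (∫ z, χ z.1 * (wgt g0 η θ z * (c1 (φ u z) * c1 z + c2 (φ u z) * c2 z))) =
      (∫ z, α1 (ta z) * F1 z) + ∫ z, α2 (ta z) * F2 z := by
    rw [← integral_add i1 i2]
    refine integral_congr_ae (Filter.Eventually.of_forall fun z => ?_)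
    show χ z.1 * (η (ta z) * θ (Hh g0 z) * (c1 (φ u z) * c1 z + c2 (φ u z) * c2 z)) =
      η (ta z) * Real.cos (2 * Real.pi * N * (ta z * u)) *
        (χ z.1 * (θ (Hh g0 z) * (c1 (zt φ u z) * c1 z + c2 (zt φ u z) * c2 z))) +
      η (ta z) * Real.sin (2 * Real.pi * N * (ta z * u)) *
        (χ z.1 * (θ (Hh g0 z) * (c2 (zt φ u z) * c1 z - c1 (zt φ u z) * c2 z)))
    rw [zφ u z, hM.tr1, hM.tr2]
    ring
  have e5 : (∫ z, w0 (ta z) * F1 z) = gam χ g0 w0 θ φ c1 c2 u := by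
    refine integral_congr_ae (Filter.Eventually.of_forall fun z => ?_)
    show w0 (ta z) * (χ z.1 * (θ (Hh g0 z) * (c1 (zt φ u z) * c1 z + c2 (zt φ u z) * c2 z))) =
      χ z.1 * (w0 (ta z) * θ (Hh g0 z) * (c1 (zt φ u z) * c1 z + c2 (zt φ u z) * c2 z))
    ring
  rw [e4, e1, e2, add_zero, e5]
  rfl

end Pool.Agent.DR
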