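import Mathlib
import Pool.Agent.Work.MP_13b5d9_gt.DR.Stmts

set_option autoImplicit false

/-!
# MP_13b5d9_gt, block DR: item Van (the Fourier coefficients vanish)
-/

open MeasureTheory Set Filter Topology
open scoped ContDiff ENNReal
open Pool.Agent.Work.MP_c9f990_an.Al (IsFlow)

namespace Pool.Agent.DR

open Pool.Agent.MLS Pool.Agent.EC

namespace IDRVan

theorem cut_div {η : ℝ → ℝ} {a b c : ℝ} (h : Cut η a b) (hc : 0 < c) :
    Cut (fun x => η x / c) a b where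
  smooth := h.smooth.div_const c
  nonneg x := div_nonneg (h.nonneg x) hc.le
  supp x hx := h.supp x (by
    intro h0
    exact hx (by simp only [h0, zero_div]))

theorem cut_scale {θ : ℝ → ℝ} {l : ℝ} (hl : 0 < l) (hl1 : l ≤ 1) (h : Cut θ (1 / 16) (3 / 16)) :
    Cut (fun x => θ (x / l ^ 2)) (l ^ 2 / 16) (3 / 16) where
  smooth := h.smooth.comp (contDiff_id.div_const _)
  nonneg x := h.nonneg _
  supp x hx := by
    obtain ⟨h1, h2⟩ := h.supp _ hx
    have hl2 : 0 < l ^ 2 := by positivity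
    have hl3 : l ^ 2 ≤ 1 := pow_le_one₀ hl.le hl1
    rw [le_div_iff₀ hl2] at h1
    rw [div_le_iff₀ hl2] at h2
    constructor
    · linarith
    · linarith

theorem zt_zero {m : ℕ} {φ : ℝ → W (m + 1) → W (m + 1)} (h : ∀ z, φ 0 z = z) (z : W (m + 1)) :
    zt φ 0 z = z := by
  simp [zt, Tr, h]

theorem ta_Sh {m : ℕ} (c : ℝ) (z : W (m + 1)) : ta (Sh c z) = ta z + c := by
  simp [ta, Sh, eL, ee]

theorem ta_Dl {m : ℕ} (r : ℝ) (z : W (m + 1)) : ta (Dl r z) = r * ta z := by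
  simp [ta, Dl]

/-- the weight is positive at a point which is reached by translation and dilation -/
theorem vanish_pos {m : ℕ} {G : Type} [Group G] [MulAction G (E (m + 1))] {g0 : Form (m + 1)}
    {N : ℕ} {c1 c2 : W (m + 1) → ℝ} (hM : Mode G g0 N c1 c2) (hb : StBas) (ho : StOp)
    (hr : Riem g0) (hbl : Blk g0) {w0 θ : ℝ → ℝ} (hw : 0 < w0 0)
    (hθ : ∀ x, 1 / 16 < x → x < 3 / 16 → 0 < θ x)
    (h0 : ∀ z, 0 < wgt g0 w0 θ z → c1 z = 0 ∧ c2 z = 0) (z : W (m + 1)) :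
    c1 z = 0 ∧ c2 z = 0 := by
  obtain ⟨-, -, -, hHs, hHd, hHn, -, -⟩ := hb m g0 hr hbl
  set z' := Sh (-(ta z)) z with hz'
  have ht : ta z' = 0 := by rw [hz', ta_Sh, add_neg_cancel]
  have e1 : c1 z' = c1 z := hM.sh1 _ _
  have e2 : c2 z' = c2 z := hM.sh2 _ _
  rw [← e1, ← e2]
  rcases (hHn z').1.eq_or_lt with hH | hH
  · -- zero energy
    have hv : vel g0 z' = 0 := by
      by_contra hne
      have h1 := hr z'.1 (vel g0 z') hne
      have h2 := (ho (m + 1) g0 hr).2.2.2.2.2.2.2.2 z'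
      linarith
    have hp : z'.2 = 0 := by
      have h3 := (ho (m + 1) g0 hr).2.2.2.1 z'.1 z'.2
      have h4 : iop g0 z'.1 z'.2 = 0 := hv
      rw [← h3, h4, map_zero]
    have hD : Dl 0 z' = z' := by
      rw [Dl, zero_smul, ← hp]
    constructor
    · rw [← hD, hM.dl1]
      ring
    · rw [← hD, hM.dl2]
      ring
  · set r := Real.sqrt (1 / (8 * Hm g0 z')) with hrdef
    have hr0 : 0 < r := Real.sqrt_pos.2 (by positivity)
    have hr2 : r ^ 2 = 1 / (8 * Hm g0 z') := Real.sq_sqrt (by positivity)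
    have hH2 : Hh g0 (Dl r z') = 1 / 8 := by
      rw [Hh, hHd, ta_Dl, ht, hr2]
      field_simp
      ring
    have hwp : 0 < wgt g0 w0 θ (Dl r z') := by
      rw [wgt, hH2, ta_Dl, ht, mul_zero]
      exact mul_pos hw (hθ _ (by norm_num) (by norm_num))
    obtain ⟨h5, h6⟩ := h0 _ hwp
    rw [hM.dl1] at h5
    rw [hM.dl2] at h6
    have hr3 : r ^ 2 ≠ 0 := by positivity
    exact ⟨(mul_eq_zero.1 h5).resolve_left hr3, (mul_eq_zero.1 h6).resolve_left hr3⟩

end IDRVan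

open IDRVan in
theorem pr_Van (h1 : StVB) (h2 : StVG) (h3 : StScl) (h4 : StGc) (h5 : StPos) (h6 : StCut)
    (h7 : StMod) (h10 : StBas) (h12 : StWgt) (h13 : StPU) (h14 : StFlow) (h15 : StOp)
    (h16 : StSub) : StVan := by
  intro m G _ _ g g0 lam κ S hlam N hN
  obtain ⟨φ, M, hφ⟩ := h14 (m + 1) G S.coc g0 S.riem0 S.inv0
  obtain ⟨χ, hχ⟩ := h13 (m + 1) G S.coc
  obtain ⟨η, hη, hηp, hηs, hηi⟩ := h6 (-(1 / 4)) (1 / 4) (by norm_num)
  obtain ⟨θ, hθ, hθp, -, -⟩ := h6 (1 / 16) (3 / 16) (by norm_num)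
  have hη0 : 0 < η 0 := hηp 0 (by norm_num) (by norm_num)
  have hηe : ∀ x, η (-x) = η x := by
    intro x
    have h := hηs x
    rwa [show -(1 / 4) + 1 / 4 - x = -x by ring] at h
  have hw := cut_div hη hηi
  set w0 : ℝ → ℝ := fun x => η x / ∫ x, η x with hw0
  have hwi : ∫ x, w0 x = 1 := by
    rw [hw0, integral_div, div_self hηi.ne']
  have hwp : 0 < w0 0 := div_pos hη0 hηi
  have hM := h7 m G g g0 lam κ S N
  set c1 := cc (kk g0 κ) N with hc1
  set c2 := cs (kk g0 κ) N with hc2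
  obtain ⟨hγc, hγb⟩ := h4 m G S.coc S.vert g0 φ M S.riem0 S.inv0 S.blk0 S.tinv0 hφ χ hχ N c1 c2 hM
    θ w0 (1 / 16) hθ (by norm_num) hw
  obtain ⟨hWs, hWi, hWn, hWsup, -, -, -, -⟩ := h12 m G S.coc S.vert g0 φ M S.riem0 S.inv0 S.blk0
    S.tinv0 hφ w0 θ (1 / 16) hw hθ (by norm_num)
  have hγ0 : gam χ g0 w0 θ φ c1 c2 0 =
      ∫ z, χ z.1 * (wgt g0 w0 θ z * (c1 z * c1 z + c2 z * c2 z)) := by
    rw [gam]
    simp only [zt_zero hφ.zero]
  have hFn : ∀ z : W (m + 1), 0 ≤ χ z.1 * (wgt g0 w0 θ z * (c1 z * c1 z + c2 z * c2 z)) := by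
    intro z
    have := hχ.nonneg z.1
    have := hWn z
    have := mul_self_nonneg (c1 z)
    have := mul_self_nonneg (c2 z)
    positivity
  have hγn : 0 ≤ gam χ g0 w0 θ φ c1 c2 0 := by
    rw [hγ0]
    exact integral_nonneg hFn
  -- the correlation function vanishes at zero
  have hγz : gam χ g0 w0 θ φ c1 c2 0 = 0 := by
    by_contra hne
    have hpos : 0 < gam χ g0 w0 θ φ c1 c2 0 := lt_of_le_of_ne hγn (Ne.symm hne)
    obtain ⟨l, c, hl, hl1, hc, hlow⟩ := h5 η N hN hη hη0 (gam χ g0 w0 θ φ c1 c2) hγc hγb hpos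
    have hθl := cut_scale hl hl1 hθ
    have hδ : 0 < l ^ 2 / 16 := by positivity
    obtain ⟨C, hC⟩ := h1 m G g g0 lam κ S hlam φ M hφ χ hχ N hN η (fun h => θ (h / l ^ 2))
      (l ^ 2 / 16) hη hθl hδ
    have hlb : ∀ R : ℝ, 1 ≤ R → l ^ (m + 4) * (c * R) ≤ C := by
      intro R hR
      have hR0 : 0 ≤ R := by linarith
      have e1 := h2 m G S.coc S.vert g0 φ M S.riem0 S.inv0 S.blk0 S.tinv0 hφ χ hχ N c1 c2 hM
        η (fun h => θ (h / l ^ 2)) w0 (l ^ 2 / 16) hη hηe hθl hδ hw hwi R hR0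
      have e2 : ∀ u : ℝ, gam χ g0 w0 (fun h => θ (h / l ^ 2)) φ c1 c2 u =
          l ^ (m + 4) * gam χ g0 w0 θ φ c1 c2 (l * u) := fun u =>
        h3 m G S.coc S.vert g0 φ M S.riem0 S.inv0 S.blk0 S.tinv0 hφ χ hχ N c1 c2 hM θ w0 (1 / 16)
          hθ (by norm_num) hw hwi l u hl
      have e3 : ∫ u in (-R)..R, (R - |u|) *
          (KK η N u * gam χ g0 w0 (fun h => θ (h / l ^ 2)) φ c1 c2 u) =
          l ^ (m + 4) * ∫ u in (-R)..R, (R - |u|) *
            (KK η N u * gam χ g0 w0 θ φ c1 c2 (l * u)) := by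
        rw [← intervalIntegral.integral_const_mul]
        congr 1
        funext u
        rw [e2]
        ring
      calc l ^ (m + 4) * (c * R) ≤ l ^ (m + 4) * ∫ u in (-R)..R, (R - |u|) *
            (KK η N u * gam χ g0 w0 θ φ c1 c2 (l * u)) :=
            mul_le_mul_of_nonneg_left (hlow R hR) (by positivity)
        _ ≤ C := by
            rw [← e3, ← e1]
            exact hC R hR0
    have hlc : 0 < l ^ (m + 4) * c := by positivity
    have hR := hlb (max 1 ((C + 1) / (l ^ (m + 4) * c))) (le_max_left _ _)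
    have h7 : C + 1 ≤ l ^ (m + 4) * (c * max 1 ((C + 1) / (l ^ (m + 4) * c))) := by
      calc C + 1 = l ^ (m + 4) * c * ((C + 1) / (l ^ (m + 4) * c)) := by
            field_simp
        _ ≤ l ^ (m + 4) * c * max 1 ((C + 1) / (l ^ (m + 4) * c)) :=
            mul_le_mul_of_nonneg_left (le_max_right _ _) hlc.le
        _ = _ := by ring
    linarith
  -- so the integrand vanishes
  have hcont : Continuous fun z : W (m + 1) =>
      χ z.1 * (wgt g0 w0 θ z * (c1 z * c1 z + c2 z * c2 z)) := by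
    have a1 := hχ.smooth.continuous
    have a2 := hWs.continuous
    have a3 := hM.smooth1.continuous
    have a4 := hM.smooth2.continuous
    fun_prop
  have hcs : HasCompactSupport fun z : W (m + 1) =>
      χ z.1 * (wgt g0 w0 θ z * (c1 z * c1 z + c2 z * c2 z)) := by
    refine HasCompactSupport.intro (h16 (m + 1) g0 S.riem0 (tsupport χ) (1 / 4) hχ.cpt) ?_
    intro z hz
    by_contra hne
    apply hz
    have b1 : χ z.1 ≠ 0 := left_ne_zero_of_mul hne
    have b2 : wgt g0 w0 θ z ≠ 0 := left_ne_zero_of_mul (right_ne_zero_of_mul hne)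
    exact ⟨subset_tsupport χ b1, (hWsup z b2).2⟩
  have hF0 : ∀ z : W (m + 1), χ z.1 * (wgt g0 w0 θ z * (c1 z * c1 z + c2 z * c2 z)) = 0 := by
    intro z
    by_contra hne
    have := hcont.integral_pos_of_hasCompactSupport_nonneg_nonzero (μ := volume) hcs hFn hne
    rw [← hγ0, hγz] at this
    exact lt_irrefl _ this
  refine vanish_pos hM h10 h15 S.riem0 S.blk0 hwp hθp ?_
  intro z hz
  -- some translate is in the support of the partition of unity
  have hex : ∃ a : G, χ (a • z.1) ≠ 0 := by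
    by_contra hno
    push Not at hno
    have hs := hχ.sum z.1
    simp only [hno] at hs
    exact zero_ne_one (hasSum_zero.unique hs)
  obtain ⟨a, ha⟩ := hex
  have hq := hF0 (lft g0 a z)
  have hl1 : (lft g0 a z).1 = a • z.1 := rfl
  rw [hl1, hWi a z, hM.inv1 a z, hM.inv2 a z] at hq
  have hq2 := (mul_eq_zero.1 ((mul_eq_zero.1 hq).resolve_left ha)).resolve_left hz.ne'
  have n1 := mul_self_nonneg (c1 z)
  have n2 := mul_self_nonneg (c2 z)
  exact ⟨mul_self_eq_zero.1 (by linarith), mul_self_eq_zero.1 (by linarith)⟩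

end Pool.Agent.DR
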