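import Pool.Agent.Work.MP_13b5d9_gt.DR.Stmts

set_option autoImplicit false
set_option maxSynthPendingDepth 3

/-!
# MP_13b5d9_gt, block DR, item XB: bounds for a function and its derivative along the flow
-/

open MeasureTheory Set Filter Topology
open scoped ContDiff ENNReal

namespace Pool.Agent.DR

open Pool.Agent.MLS Pool.Agent.EC

namespace IDRXB

/-- a continuous function is bounded on a compact set, by a positive constant -/
theorem bound {α V : Type*} [TopologicalSpace α] [SeminormedAddCommGroup V] {f : α → V}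
    (hf : Continuous f) {S : Set α} (hS : IsCompact S) : ∃ C : ℝ, 0 < C ∧ ∀ x ∈ S, ‖f x‖ ≤ C := by
  obtain ⟨C, hC⟩ := hS.exists_bound_of_continuousOn hf.continuousOn
  exact ⟨|C| + 1, by positivity, fun x hx => (hC x hx).trans (by linarith [le_abs_self C])⟩

/-- the second component of the Hamiltonian field is quadratic in the velocity -/
theorem snd_le (h2 : StHd) {n : ℕ} (g : Form n) (hg : Riem g) (z : W n) {A : ℝ}
    (hA : ‖fderiv ℝ g.val z.1‖ ≤ A) :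
    ‖(XH (Hm g) z).2‖ ≤ 1 / 2 * A * ‖vel g z‖ ^ 2 := by
  obtain ⟨-, h⟩ := h2 n g hg z
  set p := (XH (Hm g) z).2 with hp
  have hA0 : 0 ≤ A := (norm_nonneg _).trans hA
  have h1 : ‖p‖ ^ 2 ≤ 1 / 2 * A * ‖vel g z‖ ^ 2 * ‖p‖ := by
    calc ‖p‖ ^ 2 = inner ℝ p p := (real_inner_self_eq_norm_sq p).symm
      _ = 1 / 2 * fderiv ℝ g.val z.1 p (vel g z) (vel g z) := h p
      _ ≤ 1 / 2 * (A * ‖p‖ * ‖vel g z‖ * ‖vel g z‖) := by
          have h3 : ‖fderiv ℝ g.val z.1 p (vel g z) (vel g z)‖ ≤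
              A * ‖p‖ * ‖vel g z‖ * ‖vel g z‖ := by
            refine (ContinuousLinearMap.le_opNorm _ _).trans ?_
            refine mul_le_mul_of_nonneg_right ?_ (norm_nonneg _)
            refine (ContinuousLinearMap.le_opNorm _ _).trans ?_
            refine mul_le_mul_of_nonneg_right ?_ (norm_nonneg _)
            refine (ContinuousLinearMap.le_opNorm _ _).trans ?_
            exact mul_le_mul_of_nonneg_right hA (norm_nonneg _)
          have h4 := (le_abs_self _).trans h3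
          linarith
      _ = 1 / 2 * A * ‖vel g z‖ ^ 2 * ‖p‖ := by ring
  rcases (norm_nonneg p).eq_or_lt with h0 | h0
  · rw [← h0]
    positivity
  · have h5 : ‖p‖ * ‖p‖ ≤ 1 / 2 * A * ‖vel g z‖ ^ 2 * ‖p‖ := by rw [← sq]; exact h1
    exact le_of_mul_le_mul_right h5 h0

end IDRXB

theorem pr_XB (h1 : StBnd) (h2 : StHd) (h3 : StSub) (h4 : StOp) : StXB := by
  intro m g hg K hK φ hφ
  have hS : IsCompact {z : W (m + 1) | z.1 ∈ K ∧ Hm g z ≤ 1 / 2} :=
    h3 (m + 1) g hg K (1 / 2) hK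
  obtain ⟨C1, hC1, hb1⟩ := IDRXB.bound hφ.continuous hS
  obtain ⟨C2, hC2, hb2⟩ := IDRXB.bound (hφ.continuous_fderiv one_ne_zero) hS
  obtain ⟨C3, hC3, hb3⟩ := (h1 (m + 1) g K hK).2 hg
  obtain ⟨C4, hC4, hb4⟩ := IDRXB.bound
    (g.smooth.continuous_fderiv (by simp)) hK
  obtain ⟨-, -, -, -, -, -, -, -, hH⟩ := h4 (m + 1) g hg
  refine ⟨C1 + C2 * (C3 + 1 / 2 * C4 * C3 ^ 2), by positivity, ?_⟩
  intro z hz hE
  have hzS : z ∈ {z : W (m + 1) | z.1 ∈ K ∧ Hm g z ≤ 1 / 2} := ⟨hz, hE⟩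
  have e1 : |φ z| ≤ C1 := hb1 z hzS
  have e2 : ‖fderiv ℝ φ z‖ ≤ C2 := hb2 z hzS
  have hn : nrm g z.1 (vel g z) = Real.sqrt (2 * Hm g z) := by
    unfold nrm
    rw [hH z]
    congr 1
    ring
  set r := Real.sqrt (2 * Hm g z) with hr
  have hr0 : 0 ≤ r := Real.sqrt_nonneg _
  have hr1 : r ≤ 1 := by
    rw [hr, Real.sqrt_le_one]
    linarith
  have e3 : ‖vel g z‖ ≤ C3 * r := by
    rw [← hn]
    exact hb3 z.1 hz (vel g z)
  have e4 : ‖(XH (Hm g) z).2‖ ≤ 1 / 2 * C4 * C3 ^ 2 * r := by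
    refine (IDRXB.snd_le h2 g hg z (hb4 z.1 hz)).trans ?_
    have h5 : ‖vel g z‖ ^ 2 ≤ C3 ^ 2 * r := by
      calc ‖vel g z‖ ^ 2 ≤ (C3 * r) ^ 2 := pow_le_pow_left₀ (norm_nonneg _) e3 2
        _ = C3 ^ 2 * r * r := by ring
        _ ≤ C3 ^ 2 * r * 1 := mul_le_mul_of_nonneg_left hr1 (by positivity)
        _ = C3 ^ 2 * r := by ring
    calc 1 / 2 * C4 * ‖vel g z‖ ^ 2 ≤ 1 / 2 * C4 * (C3 ^ 2 * r) :=
          mul_le_mul_of_nonneg_left h5 (by positivity)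
      _ = 1 / 2 * C4 * C3 ^ 2 * r := by ring
  have e5 : ‖XH (Hm g) z‖ ≤ (C3 + 1 / 2 * C4 * C3 ^ 2) * r := by
    rw [Prod.norm_def]
    refine max_le ?_ ?_
    · rw [(h2 (m + 1) g hg z).1]
      refine e3.trans ?_
      have : 0 ≤ 1 / 2 * C4 * C3 ^ 2 * r := by positivity
      linarith
    · refine e4.trans ?_
      have : 0 ≤ C3 * r := by positivity
      linarith
  refine ⟨?_, ?_⟩
  · refine e1.trans ?_
    have : 0 ≤ C2 * (C3 + 1 / 2 * C4 * C3 ^ 2) := by positivity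
    linarith
  · unfold XX
    calc |fderiv ℝ φ z (XH (Hm g) z)| ≤ ‖fderiv ℝ φ z‖ * ‖XH (Hm g) z‖ :=
          (fderiv ℝ φ z).le_opNorm _
      _ ≤ C2 * ((C3 + 1 / 2 * C4 * C3 ^ 2) * r) :=
          mul_le_mul e2 e5 (norm_nonneg _) hC2.le
      _ ≤ (C1 + C2 * (C3 + 1 / 2 * C4 * C3 ^ 2)) * r := by
          have : 0 ≤ C1 * r := by positivity
          linarith

end Pool.Agent.DR
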