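import Mathlib
import Pool.Agent.Work.MP_13b5d9_gt.DR.Stmts

set_option autoImplicit false

/-!
# MP_13b5d9_gt, block DR, item Zt: the horizontal flow
-/

open MeasureTheory Set Filter Topology
open scoped ContDiff ENNReal
open Pool.Agent.Work.MP_c9f990_an.Al (IsFlow)

namespace Pool.Agent.DR

open Pool.Agent.MLS Pool.Agent.EC

namespace IDRZt

theorem ta_Tr {m : ℕ} (h : ℝ) (z : W (m + 1)) : ta (Tr h z) = ta z := rfl

theorem eL_last {m : ℕ} : (eL : E (m + 1)) (Fin.last m) = 1 := by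
  unfold eL ee
  simp

theorem ta_Sh {m : ℕ} (c : ℝ) (z : W (m + 1)) : ta (Sh c z) = ta z + c := by
  have h := eL_last (m := m)
  unfold ta Sh
  simp [h]

theorem ta_Dl {m : ℕ} (r : ℝ) (z : W (m + 1)) : ta (Dl r z) = r * ta z := by
  unfold ta Dl
  simp

theorem Tr_Tr {m : ℕ} (h k : ℝ) (z : W (m + 1)) : Tr h (Tr k z) = Tr (h + k) z := by
  unfold Tr
  refine Prod.ext ?_ rfl
  change z.1 + k • eL + h • eL = z.1 + (h + k) • eL
  rw [add_smul, add_assoc, add_comm (k • eL)]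

theorem Tr_zero {m : ℕ} (z : W (m + 1)) : Tr 0 z = z := by
  unfold Tr
  refine Prod.ext ?_ rfl
  change z.1 + (0 : ℝ) • eL = z.1
  rw [zero_smul, add_zero]

theorem Tr_Sh {m : ℕ} (h c : ℝ) (z : W (m + 1)) : Tr h (Sh c z) = Sh c (Tr h z) := rfl

theorem Tr_Dl {m : ℕ} (h r : ℝ) (z : W (m + 1)) : Tr h (Dl r z) = Dl r (Tr h z) := rfl

theorem Tr_cont {m : ℕ} {X : Type*} [TopologicalSpace X] {u : X → ℝ} {f : X → W (m + 1)}
    (hu : Continuous u) (hf : Continuous f) : Continuous (fun x => Tr (u x) (f x)) := by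
  unfold Tr
  fun_prop

theorem ta_cont {m : ℕ} : Continuous (ta (m := m)) := by
  unfold ta
  fun_prop

end IDRZt

open IDRZt in
theorem pr_Zt (h1 : StPrd) (h3 : StEqF) (h4 : StLft) : StZt := by
  intro m G _ _ hG hV g0 φ M hR hI hB hT hφ
  obtain ⟨pTr, pta, pSh, pDl, pHm, pHmTr, -⟩ := h1 m g0 φ M hR hB hT hφ
  obtain ⟨-, lTr, -, -, lta⟩ := h4 m G hG hV g0 g0 hR hR hI hI hB
  have hE := h3 (m + 1) G hG g0 hR hI φ M hφ
  have hta : ∀ s z, ta (zt φ s z) = ta z := fun s z => by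
    unfold zt
    rw [ta_Tr, pta]
  have hHm : ∀ s z, Hm g0 (zt φ s z) = Hm g0 z := fun s z => by
    unfold zt
    rw [pHmTr, pHm]
  refine ⟨?_, ?_, ?_, hta, ?_, ?_, ?_, hHm, ?_, ?_⟩
  · unfold zt
    refine Tr_cont ?_ hφ.cont
    exact ((ta_cont.comp continuous_snd).mul continuous_fst).neg
  · intro z
    unfold zt
    rw [mul_zero, neg_zero, Tr_zero, hφ.zero]
  · intro s t z
    have e1 : zt φ s (zt φ t z) = Tr (-(ta z * s)) (φ s (zt φ t z)) := by
      rw [← hta t z]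
      rfl
    rw [e1]
    unfold zt
    rw [pTr, Tr_Tr, hφ.add]
    congr 1
    ring
  · intro c s z
    have e1 : zt φ s (Sh c z) = Tr (-((ta z + c) * s)) (φ s (Sh c z)) := by
      rw [← ta_Sh c z]
      rfl
    rw [e1, pSh, Tr_Tr, Tr_Sh]
    unfold zt
    congr 2
    ring
  · intro r s z
    have e1 : zt φ s (Dl r z) = Tr (-((r * ta z) * s)) (φ s (Dl r z)) := by
      rw [← ta_Dl r z]
      rfl
    rw [e1, pDl, Tr_Dl]
    unfold zt
    congr 2
    ring
  · intro s z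
    unfold Hh
    rw [hta, hHm]
  · intro s z
    unfold zt
    rw [Tr_Tr, add_neg_cancel, Tr_zero]
  · intro a s z
    have e1 : zt φ s (lft g0 a z) = Tr (-(ta z * s)) (φ s (lft g0 a z)) := by
      rw [← lta a z]
      rfl
    rw [e1, hE, ← lTr]
    rfl

end Pool.Agent.DR
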