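import Pool.Agent.Work.MP_25cd3b_gt.M.All
import Pool.Agent.Work.MP_13b5d9_gt.DR.I_AvgF
import Pool.Agent.Work.MP_13b5d9_gt.DR.I_Avm
import Pool.Agent.Work.MP_13b5d9_gt.DR.I_Bas
import Pool.Agent.Work.MP_13b5d9_gt.DR.I_Cut
import Pool.Agent.Work.MP_13b5d9_gt.DR.I_Cv
import Pool.Agent.Work.MP_13b5d9_gt.DR.I_CvA
import Pool.Agent.Work.MP_13b5d9_gt.DR.I_Dag
import Pool.Agent.Work.MP_13b5d9_gt.DR.I_Dd
import Pool.Agent.Work.MP_13b5d9_gt.DR.I_Dde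
import Pool.Agent.Work.MP_13b5d9_gt.DR.I_Ex
import Pool.Agent.Work.MP_13b5d9_gt.DR.I_FejA
import Pool.Agent.Work.MP_13b5d9_gt.DR.I_FejB
import Pool.Agent.Work.MP_13b5d9_gt.DR.I_FejC
import Pool.Agent.Work.MP_13b5d9_gt.DR.I_Fl
import Pool.Agent.Work.MP_13b5d9_gt.DR.I_Fou
import Pool.Agent.Work.MP_13b5d9_gt.DR.I_Fub
import Pool.Agent.Work.MP_13b5d9_gt.DR.I_GB
import Pool.Agent.Work.MP_13b5d9_gt.DR.I_Gc
import Pool.Agent.Work.MP_13b5d9_gt.DR.I_Ibp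
import Pool.Agent.Work.MP_13b5d9_gt.DR.I_Ibp2
import Pool.Agent.Work.MP_13b5d9_gt.DR.I_Jac
import Pool.Agent.Work.MP_13b5d9_gt.DR.I_JacI
import Pool.Agent.Work.MP_13b5d9_gt.DR.I_Kap
import Pool.Agent.Work.MP_13b5d9_gt.DR.I_Kd
import Pool.Agent.Work.MP_13b5d9_gt.DR.I_Kk
import Pool.Agent.Work.MP_13b5d9_gt.DR.I_Lft
import Pool.Agent.Work.MP_13b5d9_gt.DR.I_Mas
import Pool.Agent.Work.MP_13b5d9_gt.DR.I_MasP
import Pool.Agent.Work.MP_13b5d9_gt.DR.I_Mod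
import Pool.Agent.Work.MP_13b5d9_gt.DR.I_N
import Pool.Agent.Work.MP_13b5d9_gt.DR.I_PmB
import Pool.Agent.Work.MP_13b5d9_gt.DR.I_Pos
import Pool.Agent.Work.MP_13b5d9_gt.DR.I_Prd
import Pool.Agent.Work.MP_13b5d9_gt.DR.I_QB
import Pool.Agent.Work.MP_13b5d9_gt.DR.I_SS
import Pool.Agent.Work.MP_13b5d9_gt.DR.I_Scl
import Pool.Agent.Work.MP_13b5d9_gt.DR.I_Sec
import Pool.Agent.Work.MP_13b5d9_gt.DR.I_SecP
import Pool.Agent.Work.MP_13b5d9_gt.DR.I_Spd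
import Pool.Agent.Work.MP_13b5d9_gt.DR.I_Sq
import Pool.Agent.Work.MP_13b5d9_gt.DR.I_Tay
import Pool.Agent.Work.MP_13b5d9_gt.DR.I_TenA
import Pool.Agent.Work.MP_13b5d9_gt.DR.I_TenB
import Pool.Agent.Work.MP_13b5d9_gt.DR.I_ThDR
import Pool.Agent.Work.MP_13b5d9_gt.DR.I_UA
import Pool.Agent.Work.MP_13b5d9_gt.DR.I_VB
import Pool.Agent.Work.MP_13b5d9_gt.DR.I_VG
import Pool.Agent.Work.MP_13b5d9_gt.DR.I_Van
import Pool.Agent.Work.MP_13b5d9_gt.DR.I_Wgt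
import Pool.Agent.Work.MP_13b5d9_gt.DR.I_XB
import Pool.Agent.Work.MP_13b5d9_gt.DR.I_Zt

set_option autoImplicit false

/-!
# MP_13b5d9_gt, block DR: all items assembled
-/

namespace Pool.Agent.DR

open Pool.Agent

theorem q_Bas : StBas := pr_Bas MLS.pr_Op
theorem q_Lft : StLft := pr_Lft MLS.pr_Op
theorem q_AvgF : StAvgF := pr_AvgF MLS.p_Avg MLS.p_Flow MLS.p_Sub MLS.pr_Op MLS.p_Geo1 MLS.p_LftA
theorem q_GB : StGB := pr_GB MLS.p_Sub MLS.p_LftA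
theorem q_Spd : StSpd := pr_Spd MLS.pr_Op MLS.p_Flow MLS.p_EqF MLS.p_LftA q_Lft q_Bas
theorem q_MasP : StMasP := pr_MasP q_GB MLS.pr_Gd MLS.p_Geo1 MLS.pr_Op q_Bas MLS.p_Hd MLS.pr_Tr0
theorem q_Mas : StMas := pr_Mas q_AvgF q_Spd q_MasP MLS.pr_Op MLS.p_LftA
theorem q_Sq : StSq := pr_Sq 
theorem q_Tay : StTay := pr_Tay MLS.pr_Bnd
theorem q_XB : StXB := pr_XB MLS.pr_Bnd MLS.p_Hd MLS.p_Sub MLS.pr_Op
theorem q_SecP : StSecP := pr_SecP q_Sq q_Tay q_XB q_Bas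
theorem q_Sec : StSec := pr_Sec q_Mas q_SecP q_Tay q_XB MLS.p_Sub q_Bas MLS.pr_Op
theorem q_Jac : StJac := pr_Jac MLS.pr_Dens
theorem q_JacI : StJacI := pr_JacI MLS.pr_Dens
theorem q_Dd : StDd := pr_Dd MLS.p_Fib MLS.pr_DivZ MLS.pr_Dens q_Jac q_JacI MLS.pr_Op MLS.p_Sub
theorem q_UA : StUA := pr_UA MLS.pr_Unf MLS.pr_Cnt MLS.p_LftA MLS.p_LftM MLS.p_Sub
theorem q_Ibp : StIbp := pr_Ibp q_UA q_Lft q_GB MLS.p_Sub MLS.pr_Op MLS.p_LftA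
theorem q_Dde : StDde := pr_Dde MLS.pr_Op MLS.p_LftA
theorem q_Ibp2 : StIbp2 := pr_Ibp2 q_Ibp q_Dde MLS.p_Sub MLS.pr_Op
theorem q_N : StN := pr_N 
theorem q_Kap : StKap := pr_Kap q_N
theorem q_Kk : StKk := pr_Kk q_Kap MLS.pr_Op MLS.p_LftA q_Bas
theorem q_CvA : StCvA := pr_CvA q_N MLS.pr_Op
theorem q_Cv : StCv := pr_Cv q_N q_CvA MLS.p_Hd
theorem q_QB : StQB := pr_QB q_N q_CvA
theorem q_PmB : StPmB := pr_PmB q_N MLS.pr_Dens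
theorem q_Ex : StEx := pr_Ex q_Sec q_Ibp2 q_Dd q_CvA q_Lft q_Bas MLS.p_Sub MLS.pr_Op MLS.p_LftA q_Dde q_Tay
theorem q_SS : StSS := pr_SS q_Ex q_CvA q_Cv q_QB q_PmB MLS.p_Sub MLS.pr_Op q_Dde
theorem q_Dag : StDag := pr_Dag q_SS
theorem q_Prd : StPrd := pr_Prd MLS.p_Hd q_Bas MLS.p_Geo1
theorem q_Zt : StZt := pr_Zt q_Prd MLS.p_EqF q_Lft
theorem q_Mod : StMod := pr_Mod q_Kk q_Lft
theorem q_Wgt : StWgt := pr_Wgt q_Prd q_Lft MLS.p_LftA MLS.pr_Op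
theorem q_TenA : StTenA := pr_TenA q_Wgt MLS.p_EqF
theorem q_TenB : StTenB := pr_TenB q_TenA q_Wgt q_Prd
theorem q_Avm : StAvm := pr_Avm q_UA q_Lft MLS.p_Sub
theorem q_FejA : StFejA := pr_FejA q_UA q_Wgt MLS.p_MP MLS.pr_Op MLS.p_EqF MLS.p_Sub
theorem q_FejB : StFejB := pr_FejB q_FejA q_Wgt MLS.p_Sub
theorem q_FejC : StFejC := pr_FejC q_UA q_Wgt MLS.p_MP MLS.pr_Op MLS.p_EqF MLS.p_Sub
theorem q_VB : StVB := pr_VB q_Dag q_TenA q_TenB q_Avm q_FejB q_FejC q_Mod q_Kk q_Wgt q_Prd q_Bas MLS.p_Sub MLS.pr_Op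
theorem q_Fub : StFub := pr_Fub MLS.p_Sub
theorem q_VG : StVG := pr_VG q_FejA q_Zt q_Fub q_Bas MLS.pr_Op MLS.p_Sub
theorem q_Scl : StScl := pr_Scl q_Zt q_Fub q_Bas MLS.pr_Op
theorem q_Gc : StGc := pr_Gc q_Zt q_Wgt MLS.p_Sub q_GB
theorem q_Kd : StKd := pr_Kd 
theorem q_Fl : StFl := pr_Fl 
theorem q_Pos : StPos := pr_Pos q_Kd q_Fl
theorem q_Fou : StFou := pr_Fou 
theorem q_Cut : StCut := pr_Cut 
theorem q_Van : StVan := pr_Van q_VB q_VG q_Scl q_Gc q_Pos q_Cut q_Mod q_Bas q_Wgt MLS.pr_PU MLS.p_Flow MLS.pr_Op MLS.p_Sub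
theorem q_ThDR : StThDR := pr_ThDR q_Van q_Fou q_Kap q_Kk MLS.pr_Op

end Pool.Agent.DR
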