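import Pool.Agent.Work.MP_13b5d9_gt.DR.Stmts

set_option autoImplicit false
set_option maxSynthPendingDepth 3

/-!
# MP_13b5d9_gt, block DR, item Dde: derivative of the first vertical derivative of the metric
-/

open MeasureTheory Set Filter Topology
open scoped ContDiff ENNReal

namespace Pool.Agent.DR

open Pool.Agent.MLS Pool.Agent.EC

namespace IDRDde

variable {m : ℕ}

/-- the derivative of a field of forms in the vertical direction -/
noncomputable def dv (A : E (m + 1) → (E (m + 1) →L[ℝ] E (m + 1) →L[ℝ] ℝ)) (x : E (m + 1)) :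
    E (m + 1) →L[ℝ] E (m + 1) →L[ℝ] ℝ := fderiv ℝ A x eL

theorem dv_smooth {A : E (m + 1) → (E (m + 1) →L[ℝ] E (m + 1) →L[ℝ] ℝ)} (h : ContDiff ℝ ∞ A) :
    ContDiff ℝ ∞ (dv A) := by
  have h1 : ContDiff ℝ ∞ (fderiv ℝ A) := h.fderiv_right (by norm_num)
  exact h1.clm_apply contDiff_const

theorem dv_apply {A : E (m + 1) → (E (m + 1) →L[ℝ] E (m + 1) →L[ℝ] ℝ)} (h : ContDiff ℝ ∞ A)
    (x v w : E (m + 1)) : HasDerivAt (fun s : ℝ => A (x + s • eL) v w) (dv A x v w) 0 := by
  have hd : DifferentiableAt ℝ A (x + (0 : ℝ) • eL) := (h.differentiable (by norm_num)) _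
  have h0 : x + (0 : ℝ) • (eL : E (m + 1)) = x := by rw [zero_smul, add_zero]
  have hl : HasDerivAt (fun s : ℝ => x + s • (eL : E (m + 1))) eL 0 := by
    have h := ((hasDerivAt_id (0 : ℝ)).smul_const (eL : E (m + 1))).const_add x
    simpa using h
  have h2 : HasDerivAt (fun s : ℝ => A (x + s • (eL : E (m + 1))))
      (dv A (x + (0 : ℝ) • eL)) 0 := hd.hasFDerivAt.comp_hasDerivAt 0 hl
  rw [h0] at h2
  have h3 := (h2.clm_apply (hasDerivAt_const (0 : ℝ) v)).clm_apply (hasDerivAt_const (0 : ℝ) w)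
  simpa using h3

theorem dv_fst {A : E (m + 1) → (E (m + 1) →L[ℝ] E (m + 1) →L[ℝ] ℝ)} (h : ContDiff ℝ ∞ A)
    {V : W (m + 1) → E (m + 1)} (hV : ContDiff ℝ ∞ V) (z : W (m + 1)) :
    fderiv ℝ (fun y : W (m + 1) => A y.1 (V y) (V y)) z (eL, 0) =
      dv A z.1 (V z) (V z) + A z.1 (fderiv ℝ V z (eL, 0)) (V z) +
        A z.1 (V z) (fderiv ℝ V z (eL, 0)) := by
  have hd : HasFDerivAt A (fderiv ℝ A z.1) z.1 :=
    ((h.differentiable (by norm_num)) z.1).hasFDerivAt
  have hf : HasFDerivAt (fun y : W (m + 1) => A y.1)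
      ((fderiv ℝ A z.1).comp (ContinuousLinearMap.fst ℝ (E (m + 1)) (E (m + 1)))) z :=
    hd.comp z hasFDerivAt_fst
  have hv : HasFDerivAt V (fderiv ℝ V z) z := ((hV.differentiable (by norm_num)) z).hasFDerivAt
  have hA := (hf.clm_apply hv).clm_apply hv
  rw [hA.fderiv]
  simp only [add_apply, ContinuousLinearMap.comp_apply, ContinuousLinearMap.flip_apply,
    ContinuousLinearMap.coe_fst', dv]
  ring

/-- the vertical derivative of the metric -/
noncomputable def dg (g : Form (m + 1)) (x : E (m + 1)) :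
    E (m + 1) →L[ℝ] E (m + 1) →L[ℝ] ℝ := dv g.val x

theorem dg_smooth (g : Form (m + 1)) : ContDiff ℝ ∞ (dg g) := dv_smooth g.smooth

theorem dg_apply (g : Form (m + 1)) (x v w : E (m + 1)) :
    HasDerivAt (fun s : ℝ => g.val (x + s • eL) v w) (dg g x v w) 0 := dv_apply g.smooth x v w

theorem dg_symm (g : Form (m + 1)) (x v w : E (m + 1)) : dg g x v w = dg g x w v := by
  have h1 := dg_apply g x v w
  have h2 := dg_apply g x w v
  have h3 : (fun s : ℝ => g.val (x + s • eL) v w) = fun s : ℝ => g.val (x + s • eL) w v := by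
    funext s
    exact g.symm _ _ _
  rw [h3] at h1
  exact h1.unique h2

/-- the second vertical derivative of the metric -/
noncomputable def ddg (g : Form (m + 1)) (x : E (m + 1)) :
    E (m + 1) →L[ℝ] E (m + 1) →L[ℝ] ℝ := dv (dg g) x

theorem ddg_smooth (g : Form (m + 1)) : ContDiff ℝ ∞ (ddg g) := dv_smooth (dg_smooth g)

theorem d2_eq (g : Form (m + 1)) (x v : E (m + 1)) : d2 g x v = ddg g x v v := by
  have h0 : HasFDerivAt (dg g) (fderiv ℝ (dg g) x) x :=
    (((dg_smooth g).differentiable (by simp)).differentiableAt).hasFDerivAt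
  have h1 := (h0.clm_apply (hasFDerivAt_const v x)).clm_apply (hasFDerivAt_const v x)
  have h2 : HasFDerivAt (fun y => fderiv ℝ g.val y eL v v) _ x := h1
  unfold d2
  rw [h2.fderiv]
  simp [ddg, dv]

theorem dop (g : Form (m + 1)) (x u v : E (m + 1)) :
    fderiv ℝ (op g) x u v = sh (fderiv ℝ g.val x u v) := by
  have hg : HasFDerivAt g.val (fderiv ℝ g.val x) x :=
    ((g.smooth.differentiable (by simp)).differentiableAt).hasFDerivAt
  have h2 : HasFDerivAt (fun _ : E (m + 1) => (sh : (E (m + 1) →L[ℝ] ℝ) →L[ℝ] E (m + 1)))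
      (0 : E (m + 1) →L[ℝ] (E (m + 1) →L[ℝ] ℝ) →L[ℝ] E (m + 1)) x := hasFDerivAt_const _ _
  have h3 := h2.clm_comp hg
  have h4 : HasFDerivAt (op g) _ x := h3
  rw [h4.fderiv]
  simp

/-- the derivative of the velocity along the vertical translations -/
theorem dvel (h1 : StOp) (g : Form (m + 1)) (hg : Riem g) (z : W (m + 1)) :
    ContDiff ℝ ∞ (vel g) ∧
    fderiv ℝ (vel g) z (eL, 0) = -iop g z.1 (sh (dg g z.1 (vel g z))) := by
  obtain ⟨hsh, hop, hio, hoi, hsym, hcop, hciop, hcH, hHv⟩ := h1 (m + 1) g hg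
  refine ⟨(hciop.comp contDiff_fst).clm_apply contDiff_snd, ?_⟩
  have hT : HasFDerivAt (iop g) (fderiv ℝ (iop g) z.1) z.1 :=
    ((hciop.differentiable (by simp)).differentiableAt).hasFDerivAt
  have hO : HasFDerivAt (op g) (fderiv ℝ (op g) z.1) z.1 :=
    ((hcop.differentiable (by simp)).differentiableAt).hasFDerivAt
  have hTf : HasFDerivAt (fun y : W (m + 1) => iop g y.1)
      ((fderiv ℝ (iop g) z.1).comp (ContinuousLinearMap.fst ℝ (E (m + 1)) (E (m + 1)))) z :=
    hT.comp z hasFDerivAt_fst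
  have hs : HasFDerivAt (fun y : W (m + 1) => y.2)
      (ContinuousLinearMap.snd ℝ (E (m + 1)) (E (m + 1))) z := hasFDerivAt_snd
  have hA : HasFDerivAt (vel g) _ z := hTf.clm_apply hs
  rw [hA.fderiv]
  set v : E (m + 1) := vel g z with hv
  have hv' : iop g z.1 z.2 = v := rfl
  have hz : z.2 = op g z.1 v := by rw [← hv', hoi]
  have hcomp : HasFDerivAt (fun x : E (m + 1) => iop g x (op g x v)) _ z.1 :=
    hT.clm_apply (hO.clm_apply (hasFDerivAt_const v z.1))
  have hconst : HasFDerivAt (fun x : E (m + 1) => iop g x (op g x v))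
      (0 : E (m + 1) →L[ℝ] E (m + 1)) z.1 := by
    have : (fun x : E (m + 1) => iop g x (op g x v)) = fun _ => v := funext fun x => hio x v
    rw [this]
    exact hasFDerivAt_const v z.1
  have h7 := congrArg (fun L : E (m + 1) →L[ℝ] E (m + 1) => L eL) (hcomp.unique hconst)
  simp only [add_apply, ContinuousLinearMap.comp_apply,
    ContinuousLinearMap.flip_apply, zero_apply, map_zero,
    zero_add] at h7
  rw [← hz, dop] at h7
  have h8 : fderiv ℝ (iop g) z.1 eL z.2 = -iop g z.1 (sh (dg g z.1 v)) := by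
    rw [eq_neg_iff_add_eq_zero]
    exact (add_comm _ _).trans h7
  simp only [add_apply, ContinuousLinearMap.comp_apply, ContinuousLinearMap.flip_apply,
    ContinuousLinearMap.coe_fst', ContinuousLinearMap.coe_snd', map_zero, zero_add]
  exact h8

theorem diffAt {G : Type} [Group G] [MulAction G (E (m + 1))] (hG : Cocompact (m + 1) G) (a : G)
    (x : E (m + 1)) : DifferentiableAt ℝ (fun y : E (m + 1) => a • y) x :=
  ((hG.smooth a).differentiable (by simp)) x

theorem dac_tr {G : Type} [Group G] [MulAction G (E (m + 1))] (hV : Vert (m + 1) G eL) (a : G)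
    (x : E (m + 1)) (s : ℝ) : dac a (x + s • eL) = dac a x := by
  unfold dac
  have h1 : fderiv ℝ (fun y : E (m + 1) => a • (y + s • (eL : E (m + 1)))) x =
      fderiv ℝ (fun y : E (m + 1) => a • y) (x + s • eL) :=
    fderiv_comp_add_right (f := fun y : E (m + 1) => a • y) (s • eL)
  have h2 : (fun y : E (m + 1) => a • (y + s • (eL : E (m + 1)))) =
      fun y : E (m + 1) => a • y + s • eL := by
    funext y
    exact hV.comm a y s
  rw [← h1, h2, fderiv_add_const]

end IDRDde

open IDRDde in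
/-- Dde: derivative of the first vertical derivative of the metric. -/
theorem pr_Dde (h1 : StOp) (h2 : StLftA) : StDde := by
  intro m g hg
  obtain ⟨hsh, hop, hio, hoi, hsym, hcop, hciop, hcH, hHv⟩ := h1 (m + 1) g hg
  have hcv : ContDiff ℝ ∞ (vel g) := (hciop.comp contDiff_fst).clm_apply contDiff_snd
  have hd1 : (fun z : W (m + 1) => d1 g z.1 (vel g z)) =
      fun z => dg g z.1 (vel g z) (vel g z) := rfl
  have hc1 : ContDiff ℝ ∞ (fun z : W (m + 1) => dg g z.1 (vel g z)) :=
    ((dg_smooth g).comp contDiff_fst).clm_apply hcv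
  refine ⟨?_, ?_, ?_, ?_, ?_, ?_⟩
  · rw [hd1]
    exact hc1.clm_apply hcv
  · intro z
    show fderiv ℝ (fun y : W (m + 1) => dg g y.1 (vel g y) (vel g y)) z (eL, 0) = _
    rw [dv_fst (dg_smooth g) hcv z]
    rw [(dvel h1 g hg z).2, d2_eq]
    have e1 : dg g z.1 (-iop g z.1 (sh (dg g z.1 (vel g z)))) (vel g z) =
        dg g z.1 (vel g z) (-iop g z.1 (sh (dg g z.1 (vel g z)))) := dg_symm g _ _ _
    rw [e1]
    have e2 : dg g z.1 (vel g z) (-iop g z.1 (sh (dg g z.1 (vel g z)))) = -qq g z := by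
      rw [map_neg, ← hsh]
      rfl
    rw [e2]
    show ddg g z.1 (vel g z) (vel g z) + -qq g z + -qq g z = _
    ring
  · intro z
    set u := sh (fderiv ℝ g.val z.1 eL (vel g z)) with hu
    have h3 : qq g z = inner ℝ u (iop g z.1 u) := rfl
    have h4 : inner ℝ u (iop g z.1 u) = g.val z.1 (iop g z.1 u) (iop g z.1 u) := by
      rw [← hop, hoi]
    rw [h3, h4]
    exact g.nonneg _ _
  · have hc : Continuous (fun z : W (m + 1) => sh (dg g z.1 (vel g z))) :=
      (sh : (E (m + 1) →L[ℝ] ℝ) →L[ℝ] E (m + 1)).continuous.comp hc1.continuous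
    have hci : Continuous (fun z : W (m + 1) => iop g z.1) := hciop.continuous.comp continuous_fst
    exact hc.inner (hci.clm_apply hc)
  · have hc : (fun z : W (m + 1) => d2 g z.1 (vel g z)) =
        fun z => ddg g z.1 (vel g z) (vel g z) := by
      funext z
      exact d2_eq g z.1 (vel g z)
    rw [hc]
    exact ((((ddg_smooth g).continuous.comp continuous_fst).clm_apply hcv.continuous)).clm_apply
      hcv.continuous
  · intro G _ _ hG hV hI a z
    have h3 : vel g (lft g a z) = dac a z.1 (vel g z) := (h2 (m + 1) G hG g hg hI).1 a z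
    show d1 g (a • z.1) (vel g (lft g a z)) = d1 g z.1 (vel g z)
    rw [h3]
    show dg g (a • z.1) (dac a z.1 (vel g z)) (dac a z.1 (vel g z)) = dg g z.1 (vel g z) (vel g z)
    have h4 := dg_apply g (a • z.1) (dac a z.1 (vel g z)) (dac a z.1 (vel g z))
    have h5 := dg_apply g z.1 (vel g z) (vel g z)
    have h6 : (fun s : ℝ => g.val (a • z.1 + s • eL) (dac a z.1 (vel g z)) (dac a z.1 (vel g z))) =
        fun s : ℝ => g.val (z.1 + s • eL) (vel g z) (vel g z) := by
      funext s
      have h7 := hI a (z.1 + s • eL) (vel g z) (vel g z)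
      rw [dac_tr hV, hV.comm] at h7
      exact h7
    rw [h6] at h4
    exact h4.unique h5

end Pool.Agent.DR
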