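import Pool.Agent.Work.MP_13b5d9_gt.DR.Stmts

set_option autoImplicit false

/-!
# MP_13b5d9_gt, block DR, item Ibp: integration by parts along the vertical translations
-/

open MeasureTheory Set Filter Topology
open scoped ContDiff ENNReal

namespace Pool.Agent.DR

open Pool.Agent.MLS Pool.Agent.EC

namespace IDRIbp

theorem cont_Tr {m : ℕ} (s : ℝ) : Continuous (Tr (m := m) s) := by
  unfold Tr
  fun_prop

theorem cont_Tr2 {m : ℕ} : Continuous (fun p : ℝ × W (m + 1) => Tr p.1 p.2) := by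
  unfold Tr
  fun_prop

theorem Tr_Tr {m : ℕ} (s t : ℝ) (h : s + t = 0) (z : W (m + 1)) : Tr s (Tr t z) = z := by
  unfold Tr
  refine Prod.ext ?_ rfl
  change z.1 + t • eL + s • eL = z.1
  rw [add_assoc, ← add_smul, add_comm t s, h, zero_smul, add_zero]

theorem Tr_zero {m : ℕ} (z : W (m + 1)) : Tr 0 z = z := by
  unfold Tr
  refine Prod.ext ?_ rfl
  change z.1 + (0 : ℝ) • eL = z.1
  rw [zero_smul, add_zero]

theorem mp_Tr {m : ℕ} (s : ℝ) : MeasurePreserving (Tr (m := m) s) volume volume :=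
  (measurePreserving_add_right (volume : Measure (E (m + 1))) (s • eL)).prod
    (MeasurePreserving.id (volume : Measure (E (m + 1))))

theorem deriv_Tr {m : ℕ} (z : W (m + 1)) (s : ℝ) :
    HasDerivAt (fun s : ℝ => Tr s z) ((eL, 0) : W (m + 1)) s := by
  have h1 : HasDerivAt (fun s : ℝ => z.1 + s • (eL : E (m + 1))) eL s := by
    have := ((hasDerivAt_id s).smul_const (eL : E (m + 1))).const_add z.1
    simpa using this
  exact h1.prodMk (hasDerivAt_const s z.2)

theorem deriv_F {m : ℕ} {F : W (m + 1) → ℝ} (hF : ContDiff ℝ 1 F) (z : W (m + 1)) (s : ℝ) :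
    HasDerivAt (fun s : ℝ => F (Tr s z)) (De F (Tr s z)) s := by
  have h1 : HasFDerivAt F (fderiv ℝ F (Tr s z)) (Tr s z) :=
    (hF.differentiable (by norm_num) _).hasFDerivAt
  exact h1.comp_hasDerivAt s (deriv_Tr z s)

theorem cont_De {m : ℕ} {F : W (m + 1) → ℝ} (hF : ContDiff ℝ 1 F) : Continuous (De F) :=
  (hF.continuous_fderiv (by norm_num)).clm_apply continuous_const

/-- differentiation of the integral at `0` -/
theorem deriv_int (h4 : StSub) {m : ℕ} {G : Type} [Group G] [MulAction G (E (m + 1))]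
    {g : Form (m + 1)} (hg : Riem g) {χ : E (m + 1) → ℝ} (hχ : PU G χ) (F : W (m + 1) → ℝ)
    (B : ℝ) (hF : ContDiff ℝ 1 F) (hB : ∀ z, F z ≠ 0 → Hm g z ≤ B) :
    HasDerivAt (fun s : ℝ => ∫ z, χ z.1 * F (Tr s z)) (∫ z, χ z.1 * De F z) 0 := by
  have hK : IsCompact (tsupport χ) := hχ.cpt
  have hK' : IsCompact ((fun p : ℝ × E (m + 1) => p.2 + p.1 • eL) ''
      (Icc (-1 : ℝ) 1 ×ˢ tsupport χ)) :=
    (isCompact_Icc.prod hK).image (by fun_prop)
  set K' := (fun p : ℝ × E (m + 1) => p.2 + p.1 • eL) '' (Icc (-1 : ℝ) 1 ×ˢ tsupport χ) with hK'd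
  have hS : IsCompact {z : W (m + 1) | z.1 ∈ K' ∧ Hm g z ≤ B} := h4 (m + 1) g hg K' B hK'
  set S := {z : W (m + 1) | z.1 ∈ K' ∧ Hm g z ≤ B} with hSd
  have hT : IsCompact (tsupport χ ×ˢ (Prod.snd '' S)) := hK.prod (hS.image continuous_snd)
  set T := tsupport χ ×ˢ (Prod.snd '' S) with hTd
  have hχc : Continuous χ := hχ.smooth.continuous
  -- vanishing
  have hz : ∀ z : W (m + 1), z ∉ T → ∀ s ∈ Icc (-1 : ℝ) 1, χ z.1 * F (Tr s z) = 0 := by
    intro z hzT s hs
    by_contra hne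
    apply hzT
    have hz1 : z.1 ∈ tsupport χ := by
      apply subset_tsupport
      intro h0
      exact hne (by rw [h0, zero_mul])
    have hz2 : F (Tr s z) ≠ 0 := by
      intro h0
      exact hne (by rw [h0, mul_zero])
    refine ⟨hz1, Tr s z, ⟨⟨(s, z.1), ⟨hs, hz1⟩, rfl⟩, hB _ hz2⟩, rfl⟩
  have hder : ∀ (z : W (m + 1)) (s : ℝ),
      HasDerivAt (fun s : ℝ => χ z.1 * F (Tr s z)) (χ z.1 * De F (Tr s z)) s := fun z s =>
    (deriv_F hF z s).const_mul _
  have hz' : ∀ z : W (m + 1), z ∉ T → ∀ s ∈ Ioo (-1 : ℝ) 1, χ z.1 * De F (Tr s z) = 0 := by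
    intro z hzT s hs
    have e1 : (fun s : ℝ => χ z.1 * F (Tr s z)) =ᶠ[𝓝 s] fun _ => (0 : ℝ) := by
      filter_upwards [Ioo_mem_nhds hs.1 hs.2] with t ht
      exact hz z hzT t (Ioo_subset_Icc_self ht)
    exact (hder z s).unique ((hasDerivAt_const s (0 : ℝ)).congr_of_eventuallyEq e1)
  -- bound
  have hcont : Continuous (fun p : ℝ × W (m + 1) => χ p.2.1 * De F (Tr p.1 p.2)) :=
    (hχc.comp (continuous_fst.comp continuous_snd)).mul ((cont_De hF).comp cont_Tr2)
  obtain ⟨C, hC⟩ := (isCompact_Icc.prod hT).exists_bound_of_continuousOn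
    (s := Icc (-1 : ℝ) 1 ×ˢ T) hcont.continuousOn
  have hint : Integrable (T.indicator fun _ : W (m + 1) => C) volume :=
    (integrable_indicator_iff hT.measurableSet).2
      (integrableOn_const (hT.measure_lt_top.ne))
  have key := hasDerivAt_integral_of_dominated_loc_of_deriv_le (μ := (volume : Measure (W (m + 1))))
    (F := fun (s : ℝ) (z : W (m + 1)) => χ z.1 * F (Tr s z))
    (F' := fun (s : ℝ) (z : W (m + 1)) => χ z.1 * De F (Tr s z)) (x₀ := (0 : ℝ))
    (s := Ioo (-1 : ℝ) 1) (bound := T.indicator fun _ => C)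
    (Ioo_mem_nhds (by norm_num) (by norm_num))
    (Eventually.of_forall fun s => (((hχc.comp continuous_fst).mul
      (hF.continuous.comp (cont_Tr s))).aestronglyMeasurable))
    (by
      refine Continuous.integrable_of_hasCompactSupport
        ((hχc.comp continuous_fst).mul (hF.continuous.comp (cont_Tr 0))) ?_
      exact HasCompactSupport.intro hT fun z hzT => hz z hzT 0 (by norm_num))
    (((hχc.comp continuous_fst).mul ((cont_De hF).comp (cont_Tr 0))).aestronglyMeasurable)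
    (Eventually.of_forall fun z s hs => by
      by_cases hzT : z ∈ T
      · rw [indicator_of_mem hzT]
        exact hC (s, z) ⟨Ioo_subset_Icc_self hs, hzT⟩
      · rw [indicator_of_notMem hzT]
        rw [show χ z.1 * De F (Tr s z) = 0 from hz' z hzT s hs, norm_zero])
    hint
    (Eventually.of_forall fun z s _ => hder z s)
  have k2 := key.2
  simp only [Tr_zero] at k2
  exact k2

end IDRIbp

open IDRIbp in
theorem pr_Ibp (h1 : StUA) (h2 : StLft) (h3 : StGB) (h4 : StSub) (h5 : StOp) (h6 : StLftA) :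
    StIbp := by
  intro m G _ _ hC hV g hg hI hb χ hχ F B hF hFi hB
  obtain ⟨-, hTr, -, -, -⟩ := h2 m G hC hV g g hg hg hI hI hb
  obtain ⟨-, hHi, -, -, -⟩ := h6 (m + 1) G hC g hg hI
  obtain ⟨-, -, -, -, -, -, -, hHs, -⟩ := h5 (m + 1) g hg
  have hHc : Continuous (Hm g) := hHs.continuous
  have hconst : ∀ s : ℝ, ∫ z, χ z.1 * F (Tr s z) = ∫ z, χ z.1 * F z := by
    intro s
    obtain ⟨C, hC0, hCb⟩ := h3 (m + 1) G hC g hg hI (fun z => Hm g (Tr (-s) z))
      (hHc.comp (cont_Tr _)) (fun a z => by rw [← hTr, hHi]) B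
    refine h1 (m + 1) G hC g hg hI χ hχ (Tr s) (Tr (-s)) (cont_Tr _) (cont_Tr _)
      (fun z => Tr_Tr _ _ (by ring) z) (fun z => Tr_Tr _ _ (by ring) z) (mp_Tr s)
      (fun a z => (hTr a s z).symm) F (max B C) hF.continuous hFi ?_ ?_
    · intro z hz
      exact (hB z hz).trans (le_max_left _ _)
    · intro z hz
      have e1 := hCb _ (hB _ hz)
      simp only [Tr_Tr _ _ (neg_add_cancel s)] at e1
      exact ((le_abs_self _).trans e1).trans (le_max_right _ _)
  have hd := deriv_int h4 hg hχ F B hF hB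
  have e2 : (fun s : ℝ => ∫ z, χ z.1 * F (Tr s z)) = fun _ => ∫ z, χ z.1 * F z :=
    funext hconst
  rw [e2] at hd
  exact hd.unique (hasDerivAt_const (0 : ℝ) _)

end Pool.Agent.DR
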