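import Pool.Agent.Work.MP_13b5d9_gt.DR.Stmts

set_option autoImplicit false

/-!
# Item Mod: Fourier coefficients along the vertical translations
-/

open MeasureTheory Set Filter Topology
open scoped ContDiff ENNReal
open Pool.Agent.Work.MP_c9f990_an.Al (IsFlow)

namespace Pool.Agent.DR

open Pool.Agent.MLS Pool.Agent.EC

namespace IDRMod

/-- integrals of continuously differentiable functions with a parameter -/
theorem par {V : Type} [NormedAddCommGroup V] [NormedSpace ℝ V] [ProperSpace V]
    (F : V → ℝ → ℝ) (F' : V → ℝ → V →L[ℝ] ℝ) (hF : Continuous (Function.uncurry F))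
    (hF' : Continuous (Function.uncurry F')) (hd : ∀ z s, HasFDerivAt (fun y => F y s) (F' z s) z)
    (a b : ℝ) : ContDiff ℝ 1 (fun z => ∫ s in a..b, F z s) := by
  rw [contDiff_one_iff_hasFDerivAt]
  refine ⟨fun z => ∫ s in a..b, F' z s,
    intervalIntegral.continuous_parametric_intervalIntegral_of_continuous' hF' a b, ?_⟩
  intro z₀
  have hK : IsCompact (Metric.closedBall z₀ 1 ×ˢ Set.uIcc a b) :=
    (isCompact_closedBall z₀ 1).prod isCompact_uIcc
  obtain ⟨C, hC⟩ := hK.exists_bound_of_continuousOn (f := Function.uncurry F') hF'.continuousOn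
  have hFs : ∀ z, Continuous (F z) := fun z => hF.comp (continuous_const.prodMk continuous_id)
  have hFs' : ∀ z, Continuous (F' z) := fun z => hF'.comp (continuous_const.prodMk continuous_id)
  apply intervalIntegral.hasFDerivAt_integral_of_dominated_of_fderiv_le
    (s := Metric.closedBall z₀ 1) (bound := fun _ => C) (Metric.closedBall_mem_nhds z₀ one_pos)
  · exact Filter.Eventually.of_forall fun z => (hFs z).aestronglyMeasurable
  · exact (hFs z₀).intervalIntegrable a b
  · exact (hFs' z₀).aestronglyMeasurable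
  · refine Filter.Eventually.of_forall fun t ht z hz => ?_
    exact hC (z, t) ⟨hz, Set.uIoc_subset_uIcc ht⟩
  · exact intervalIntegrable_const
  · exact Filter.Eventually.of_forall fun t _ z _ => hd z t

variable {m : ℕ}

theorem Tr_cont : Continuous (fun p : W (m + 1) × ℝ => Tr p.2 p.1) := by
  unfold Tr
  exact ((continuous_fst.comp continuous_fst).add (continuous_snd.smul continuous_const)).prodMk
    (continuous_snd.comp continuous_fst)

theorem Tr_Tr (s h : ℝ) (z : W (m + 1)) : Tr s (Tr h z) = Tr (s + h) z := by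
  unfold Tr
  simp only [Prod.mk.injEq, and_true]
  rw [add_smul]
  abel

theorem Tr_Sh (s c : ℝ) (z : W (m + 1)) : Tr s (Sh c z) = Sh c (Tr s z) := rfl

theorem Tr_Dl (s r : ℝ) (z : W (m + 1)) : Tr s (Dl r z) = Dl r (Tr s z) := rfl

theorem Tr_deriv (s : ℝ) (z : W (m + 1)) :
    HasFDerivAt (fun y : W (m + 1) => Tr s y) (ContinuousLinearMap.id ℝ (W (m + 1))) z := by
  have e : (fun y : W (m + 1) => Tr s y) = fun y => y + ((s • eL, 0) : W (m + 1)) := by
    funext y
    unfold Tr
    ext <;> simp
  rw [e]
  exact (hasFDerivAt_id z).add_const _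

/-- smoothness of the coefficients, for a continuous weight -/
theorem coef_smooth (k : W (m + 1) → ℝ) (hk : ContDiff ℝ 1 k) (w : ℝ → ℝ) (hw : Continuous w) :
    ContDiff ℝ 1 (fun z => ∫ s in (0 : ℝ)..1, k (Tr s z) * w s) := by
  obtain ⟨k', hk', hd⟩ := contDiff_one_iff_hasFDerivAt.1 hk
  apply par (fun z s => k (Tr s z) * w s) (fun z s => w s • k' (Tr s z))
  · exact (hk.continuous.comp Tr_cont).mul (hw.comp continuous_snd)
  · exact (hw.comp continuous_snd).smul (hk'.comp Tr_cont)
  · intro z s
    have h := ((hd (Tr s z)).comp z (Tr_deriv s z)).mul_const (w s)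
    rw [ContinuousLinearMap.comp_id] at h
    exact h

/-- shifted integrals -/
theorem shift (k : W (m + 1) → ℝ) (hper : ∀ z, k (Tr 1 z) = k z) (w : ℝ → ℝ)
    (hwp : ∀ s, w (s + 1) = w s) (h : ℝ) (z : W (m + 1)) :
    ∫ s in (0 : ℝ)..1, k (Tr s (Tr h z)) * w s = ∫ s in (0 : ℝ)..1, k (Tr s z) * w (s - h) := by
  have e1 : ∀ s : ℝ, k (Tr s (Tr h z)) * w s =
      (fun r : ℝ => k (Tr r z) * w (r - h)) (s + h) := by
    intro s
    simp only [Tr_Tr, add_sub_cancel_right]
  simp only [e1]
  rw [intervalIntegral.integral_comp_add_right (fun r : ℝ => k (Tr r z) * w (r - h)) h]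
  have hp : Function.Periodic (fun r : ℝ => k (Tr r z) * w (r - h)) 1 := by
    intro r
    have e2 : Tr (r + 1) z = Tr 1 (Tr r z) := by rw [Tr_Tr, add_comm r 1]
    have e3 : r + 1 - h = (r - h) + 1 := by ring
    simp only [e2, hper, e3, hwp]
  have h2 := hp.intervalIntegral_add_eq h 0
  rw [zero_add] at h2
  rw [zero_add, add_comm 1 h]
  exact h2

end IDRMod

open IDRMod in
theorem pr_Mod (h1 : StKk) (h2 : StLft) : StMod := by
  intro m G _ _ g g0 lam κ hS N
  obtain ⟨hk, hki, hk1, -, hks, hkd⟩ := h1 m G g g0 lam κ hS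
  obtain ⟨-, hlt, -, -, -⟩ := h2 m G hS.coc hS.vert g0 g0 hS.riem0 hS.riem0 hS.inv0 hS.inv0 hS.blk0
  set k := kk g0 κ with hkdef
  have hc0 : Continuous (fun s : ℝ => Real.cos (2 * Real.pi * N * s)) :=
    Real.continuous_cos.comp (continuous_const.mul continuous_id)
  have hs0 : Continuous (fun s : ℝ => Real.sin (2 * Real.pi * N * s)) :=
    Real.continuous_sin.comp (continuous_const.mul continuous_id)
  have hcp : ∀ s : ℝ, Real.cos (2 * Real.pi * N * (s + 1)) = Real.cos (2 * Real.pi * N * s) := by
    intro s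
    have e : 2 * Real.pi * N * (s + 1) = 2 * Real.pi * N * s + N * (2 * Real.pi) := by ring
    rw [e, Real.cos_add_nat_mul_two_pi]
  have hsp : ∀ s : ℝ, Real.sin (2 * Real.pi * N * (s + 1)) = Real.sin (2 * Real.pi * N * s) := by
    intro s
    have e : 2 * Real.pi * N * (s + 1) = 2 * Real.pi * N * s + N * (2 * Real.pi) := by ring
    rw [e, Real.sin_add_nat_mul_two_pi]
  have hkc : ∀ z : W (m + 1), Continuous (fun s : ℝ => k (Tr s z)) := fun z =>
    hk.continuous.comp (Tr_cont.comp (continuous_const.prodMk continuous_id))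
  have hi1 : ∀ z : W (m + 1), IntervalIntegrable
      (fun s : ℝ => k (Tr s z) * Real.cos (2 * Real.pi * N * s)) volume 0 1 := fun z =>
    ((hkc z).mul hc0).intervalIntegrable 0 1
  have hi2 : ∀ z : W (m + 1), IntervalIntegrable
      (fun s : ℝ => k (Tr s z) * Real.sin (2 * Real.pi * N * s)) volume 0 1 := fun z =>
    ((hkc z).mul hs0).intervalIntegrable 0 1
  refine ⟨coef_smooth k hk _ hc0, coef_smooth k hk _ hs0, ?_, ?_, ?_, ?_, ?_, ?_, ?_, ?_⟩
  · intro a z
    unfold cc
    refine intervalIntegral.integral_congr fun s _ => ?_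
    rw [← hlt, hki]
  · intro a z
    unfold cs
    refine intervalIntegral.integral_congr fun s _ => ?_
    rw [← hlt, hki]
  · intro h z
    unfold cc cs
    rw [shift k hk1 (fun s => Real.cos (2 * Real.pi * N * s)) hcp h z,
      ← intervalIntegral.integral_const_mul, ← intervalIntegral.integral_const_mul,
      ← intervalIntegral.integral_add ((hi1 z).const_mul _) ((hi2 z).const_mul _)]
    refine intervalIntegral.integral_congr fun s _ => ?_
    have e : 2 * Real.pi * N * (s - h) = 2 * Real.pi * N * s - 2 * Real.pi * N * h := by ring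
    rw [e, Real.cos_sub]
    ring
  · intro h z
    unfold cc cs
    rw [shift k hk1 (fun s => Real.sin (2 * Real.pi * N * s)) hsp h z,
      ← intervalIntegral.integral_const_mul, ← intervalIntegral.integral_const_mul,
      ← intervalIntegral.integral_sub ((hi2 z).const_mul _) ((hi1 z).const_mul _)]
    refine intervalIntegral.integral_congr fun s _ => ?_
    have e : 2 * Real.pi * N * (s - h) = 2 * Real.pi * N * s - 2 * Real.pi * N * h := by ring
    rw [e, Real.sin_sub]
    ring
  · intro c z
    unfold cc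
    simp only [Tr_Sh, hks]
  · intro c z
    unfold cs
    simp only [Tr_Sh, hks]
  · intro r z
    unfold cc
    rw [← intervalIntegral.integral_const_mul]
    refine intervalIntegral.integral_congr fun s _ => ?_
    simp only [Tr_Dl, hkd]
    ring
  · intro r z
    unfold cs
    rw [← intervalIntegral.integral_const_mul]
    refine intervalIntegral.integral_congr fun s _ => ?_
    simp only [Tr_Dl, hkd]
    ring

end Pool.Agent.DR
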