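import Mathlib
import Pool.Agent.Work.MP_13b5d9_gt.DR.Stmts

set_option autoImplicit false

/-!
# MP_13b5d9_gt, block DR: the speed of the displaced curve
-/

open MeasureTheory Set Filter Topology
open scoped ContDiff ENNReal
open Pool.Agent.Work.MP_c9f990_an.Al (IsFlow)

namespace Pool.Agent.DR

open Pool.Agent.MLS Pool.Agent.EC

namespace IDRSpd

variable {m : ℕ}

theorem eL_last : (eL : E (m + 1)) (Fin.last m) = 1 := by
  simp [eL, ee]

/-- Hamiltonian fields are continuous -/
theorem cont_XH {n : ℕ} (H : W n → ℝ) (hH : ContDiff ℝ ∞ H) : Continuous (XH H) := by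
  have h1 : Continuous (fderiv ℝ H) := hH.continuous_fderiv (by simp)
  have h2 : Continuous fun z => (fderiv ℝ H z).comp (ContinuousLinearMap.inr ℝ (E n) (E n)) :=
    h1.clm_comp continuous_const
  have h3 : Continuous fun z => (fderiv ℝ H z).comp (ContinuousLinearMap.inl ℝ (E n) (E n)) :=
    h1.clm_comp continuous_const
  exact (sh.continuous.comp h2).prodMk (sh.continuous.comp h3).neg

theorem cont_XX (g : Form (m + 1)) (hH : ContDiff ℝ ∞ (Hm g)) (ψ : W (m + 1) → ℝ)
    (hψ : ContDiff ℝ 1 ψ) : Continuous (XX g ψ) :=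
  (hψ.continuous_fderiv (by simp)).clm_apply (cont_XH (Hm g) hH)

/-- `spd` is the square of the length of the displaced vector -/
theorem spd_eq (g : Form (m + 1)) (hb : Blk g) (ψ : W (m + 1) → ℝ) (z : W (m + 1))
    (hv : vel g z (Fin.last m) = ta z) :
    spd g ψ z = g.val (z.1 + ψ z • eL) (vel g z + XX g ψ z • eL)
      (vel g z + XX g ψ z • eL) := by
  have h1 : g.val (z.1 + ψ z • eL) eL (vel g z) = ta z := by rw [hb, hv]
  have h2 : g.val (z.1 + ψ z • eL) (vel g z) eL = ta z := by rw [g.symm, h1]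
  have h3 : g.val (z.1 + ψ z • eL) (eL : E (m + 1)) eL = 1 := by rw [hb, eL_last]
  have h4 : ∀ (B : E (m + 1) →L[ℝ] E (m + 1) →L[ℝ] ℝ) (v e : E (m + 1)) (c : ℝ),
      B (v + c • e) (v + c • e) = B v v + c * B v e + c * B e v + c ^ 2 * B e e := by
    intro B v e c
    have e1 : B (v + c • e) = B v + c • B e := by rw [map_add, map_smul]
    rw [e1]
    change B v (v + c • e) + c * B e (v + c • e) = _
    rw [map_add, map_add, map_smul, map_smul, smul_eq_mul, smul_eq_mul]
    ring
  rw [h4, h1, h2, h3]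
  unfold spd
  ring

/-- the derivative of the action does not change along the vertical direction -/
theorem dac_vert {G : Type} [Group G] [MulAction G (E (m + 1))] (hV : Vert (m + 1) G eL) (a : G)
    (x : E (m + 1)) (s : ℝ) : dac a (x + s • (eL : E (m + 1))) = dac a x := by
  unfold dac
  rw [← fderiv_comp_add_right (f := fun y : E (m + 1) => a • y) (s • (eL : E (m + 1)))]
  have h1 : (fun y : E (m + 1) => a • (y + s • (eL : E (m + 1)))) =
      fun y => a • y + s • (eL : E (m + 1)) := by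
    funext y
    exact hV.comm a y s
  rw [h1, fderiv_add_const]

/-- invariance of the derivative along the flow -/
theorem inv_XX {G : Type} [Group G] [MulAction G (E (m + 1))] (h3 : StFlow) (h4 : StEqF)
    (hG : Cocompact (m + 1) G) (g : Form (m + 1)) (hr : Riem g) (hi : Inv G g)
    (ψ : W (m + 1) → ℝ) (hψ : ContDiff ℝ 1 ψ) (hψi : GInv G g ψ) : GInv G g (XX g ψ) := by
  obtain ⟨φ, M, hφ⟩ := h3 (m + 1) G hG g hr hi
  have key : ∀ z : W (m + 1), HasDerivAt (fun t => ψ (φ t z)) (XX g ψ z) 0 := by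
    intro z
    have e0 := hφ.ode z 0
    have e1 : HasFDerivAt ψ (fderiv ℝ ψ (φ 0 z)) (φ 0 z) :=
      ((hψ.differentiable (by simp)) (φ 0 z)).hasFDerivAt
    have e2 := e1.comp_hasDerivAt (0 : ℝ) e0
    rw [hφ.zero] at e2
    exact e2
  intro a z
  have e1 := key (lft g a z)
  have e2 : (fun t => ψ (φ t (lft g a z))) = fun t => ψ (φ t z) := by
    funext t
    rw [h4 (m + 1) G hG g hr hi φ M hφ a t z, hψi]
  rw [e2] at e1
  exact e1.unique (key z)

end IDRSpd

theorem pr_Spd (h1 : StOp) (h3 : StFlow) (h4 : StEqF) (h5 : StLftA) (h6 : StLft)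
    (h7 : StBas) : StSpd := by
  intro m G _ _ hG hV g hr hi hb ψ hψ hψi
  obtain ⟨-, -, -, -, -, -, hiop, hH, -⟩ := h1 (m + 1) g hr
  obtain ⟨hv, -⟩ := h7 m g hr hb
  have hXX := IDRSpd.cont_XX g hH ψ hψ
  have hXi := IDRSpd.inv_XX h3 h4 hG g hr hi ψ hψ hψi
  have hvel : Continuous (fun z : W (m + 1) => vel g z) :=
    (hiop.continuous.comp continuous_fst).clm_apply continuous_snd
  have hta : Continuous (fun z : W (m + 1) => ta z) := by
    unfold ta
    fun_prop
  refine ⟨?_, ?_, hXi, ?_⟩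
  · have e1 : Continuous (fun z : W (m + 1) => z.1 + ψ z • (eL : E (m + 1))) :=
      continuous_fst.add (hψ.continuous.smul continuous_const)
    have e2 : Continuous (fun z : W (m + 1) =>
        g.val (z.1 + ψ z • eL) (vel g z) (vel g z)) :=
      ((g.smooth.continuous.comp e1).clm_apply hvel).clm_apply hvel
    exact (e2.add ((continuous_const.mul hta).mul hXX)).add (hXX.pow 2)
  · intro z
    rw [IDRSpd.spd_eq g hb ψ z (hv z)]
    exact g.nonneg _ _
  · intro a z
    obtain ⟨hvl, -⟩ := h5 (m + 1) G hG g hr hi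
    obtain ⟨-, -, -, -, htl⟩ := h6 m G hG hV g g hr hr hi hi hb
    have e1 : (lft g a z).1 = a • z.1 := rfl
    have e2 : g.val ((lft g a z).1 + ψ (lft g a z) • eL) (vel g (lft g a z))
        (vel g (lft g a z)) = g.val (z.1 + ψ z • eL) (vel g z) (vel g z) := by
      rw [hvl, e1, hψi, ← hV.comm, ← IDRSpd.dac_vert hV a z.1 (ψ z)]
      exact hi a _ _ _
    unfold spd
    rw [e2, htl, hXi]

end Pool.Agent.DR
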