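import Pool.Agent.Work.MP_13b5d9_gt.DR.Stmts

set_option autoImplicit false

/-! # Item Wgt of block DR: the weight -/

open MeasureTheory Set Filter Topology
open scoped ContDiff ENNReal
open Pool.Agent.Work.MP_c9f990_an.Al (IsFlow)

namespace Pool.Agent.DR

open Pool.Agent.MLS Pool.Agent.EC

namespace IDRWgt

theorem cut_bdd {η : ℝ → ℝ} {a b : ℝ} (h : Cut η a b) : ∃ C, 0 < C ∧ ∀ x, η x ≤ C := by
  obtain ⟨C, hC⟩ := (isCompact_Icc (a := a) (b := b)).exists_bound_of_continuousOn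
    h.smooth.continuous.continuousOn
  refine ⟨|C| + 1, by positivity, fun x => ?_⟩
  by_cases hx : η x = 0
  · rw [hx]
    positivity
  · have h1 := hC x (h.supp x hx)
    rw [Real.norm_eq_abs] at h1
    have h2 := le_abs_self (η x)
    have h3 := le_abs_self C
    linarith

theorem ta_smooth {m : ℕ} : ContDiff ℝ ∞ (ta (m := m)) := by
  have h : ta (m := m) = fun z => (EuclideanSpace.proj (Fin.last m) : E (m + 1) →L[ℝ] ℝ) z.2 := rfl
  rw [h]
  exact (ContinuousLinearMap.contDiff _).comp contDiff_snd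

theorem ta_Tr {m : ℕ} (h : ℝ) (z : W (m + 1)) : ta (Tr h z) = ta z := rfl

end IDRWgt

open IDRWgt

theorem pr_Wgt (h1 : StPrd) (h2 : StLft) (h3 : StLftA) (h5 : StOp) : StWgt := by
  intro m G _ _ hco hv g0 φ M hR hI hB hT hF η θ δ hη hθ hδ
  obtain ⟨-, p2, -, -, p5, p6, -⟩ := h1 m g0 φ M hR hB hT hF
  obtain ⟨-, -, -, -, l5⟩ := h2 m G hco hv g0 g0 hR hR hI hI hB
  obtain ⟨-, a2, -, -, -⟩ := h3 (m + 1) G hco g0 hR hI
  obtain ⟨-, -, -, -, -, -, -, o8, -⟩ := h5 (m + 1) g0 hR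
  have hw : ∀ z z' : W (m + 1), ta z = ta z' → Hm g0 z = Hm g0 z' →
      wgt g0 η θ z = wgt g0 η θ z' := by
    intro z z' e1 e2
    unfold wgt Hh
    rw [e1, e2]
  have hφ : ∀ s z, wgt g0 η θ (φ s z) = wgt g0 η θ z := fun s z => hw _ _ (p2 s z) (p5 s z)
  have hTr : ∀ h z, wgt g0 η θ (Tr h z) = wgt g0 η θ z := fun h z => hw _ _ (ta_Tr h z) (p6 h z)
  refine ⟨?_, fun a z => hw _ _ (l5 a z) (a2 a z), fun z => mul_nonneg (hη.nonneg _) (hθ.nonneg _),
    ?_, hφ, hTr, ?_, ?_⟩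
  · have e1 : ContDiff ℝ ∞ (fun z : W (m + 1) => η (ta z)) := hη.smooth.comp ta_smooth
    have e2 : ContDiff ℝ ∞ (fun z : W (m + 1) => Hh g0 z) := by
      unfold Hh
      exact o8.sub ((ta_smooth.pow 2).div_const 2)
    exact e1.mul (hθ.smooth.comp e2)
  · intro z hz
    have e1 : η (ta z) ≠ 0 := left_ne_zero_of_mul hz
    have e2 : θ (Hh g0 z) ≠ 0 := right_ne_zero_of_mul hz
    obtain ⟨f1, f2⟩ := hη.supp _ e1
    obtain ⟨f3, f4⟩ := hθ.supp _ e2
    unfold Hh at f3 f4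
    constructor
    · nlinarith [sq_nonneg (ta z)]
    · nlinarith
  · intro s z
    unfold zt
    rw [hTr, hφ]
  · obtain ⟨C, hC, hC'⟩ := cut_bdd hη
    obtain ⟨D, hD, hD'⟩ := cut_bdd hθ
    exact ⟨C * D, by positivity, fun z => mul_le_mul (hC' _) (hD' _) (hθ.nonneg _) hC.le⟩

end Pool.Agent.DR
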